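import Pool.Agent.N980.TL.Stm

/-!
# TL3: density of the potentials with escaping orbits (definitions and statements of the leaves)
-/

set_option autoImplicit false

open Set Filter Topology MeasureTheory
open scoped ContDiff

noncomputable section

namespace Pool.Agent.N980.TL

/-- smooth functions with `|g^(i)| ≤ ρ V^i` on `[-1,2]` for `i ≤ m` -/
def Cls (m : ℕ) (V ρ : ℝ) (g : ℝ → ℝ) : Prop :=
  ContDiff ℝ ∞ g ∧ ∀ i ≤ m, ∀ s ∈ Icc (-1 : ℝ) 2, |iteratedDeriv i g s| ≤ ρ * V ^ i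

/-- Leaf CLS: calculus of the classes -/
def S_CLS : Prop :=
  (∀ (m : ℕ) (V ρ ρ' : ℝ) (g : ℝ → ℝ), 0 ≤ V → ρ ≤ ρ' → Cls m V ρ g → Cls m V ρ' g) ∧
  (∀ (m : ℕ) (V c : ℝ), 0 ≤ V → Cls m V |c| (fun _ => c)) ∧
  (∀ (m : ℕ) (V ρ ρ' : ℝ) (g h : ℝ → ℝ), Cls m V ρ g → Cls m V ρ' h → Cls m V (ρ + ρ') (fun s => g s + h s)) ∧
  (∀ (m : ℕ) (V ρ c : ℝ) (g : ℝ → ℝ), 0 ≤ V → Cls m V ρ g → Cls m V (|c| * ρ) (fun s => c * g s)) ∧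
  (∀ (m : ℕ) (V ρ ρ' : ℝ) (g h : ℝ → ℝ), 0 ≤ V → 0 ≤ ρ → 0 ≤ ρ' → Cls m V ρ g → Cls m V ρ' h →
    Cls m V (2 ^ m * ρ * ρ') (fun s => g s * h s)) ∧
  (∀ (m : ℕ) (K : ℝ), 1 ≤ K → ∀ (V w p : ℝ), 1 ≤ V → |w| ≤ K * V →
    Cls m V (K ^ m) (fun s => Real.sin (p + w * s)) ∧ Cls m V (K ^ m) (fun s => Real.cos (p + w * s))) ∧
  (∀ (m : ℕ) (R : ℝ), 1 ≤ R → ∃ C : ℝ, 1 ≤ C ∧ ∀ (V ρ : ℝ) (g : ℝ → ℝ), 1 ≤ V → 0 ≤ ρ → ρ ≤ R → Cls m V ρ g →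
    Cls m V (C * ρ) (fun s => Real.sin (g s)) ∧ Cls m V (C * ρ ^ 2) (fun s => Real.cos (g s) - 1) ∧
    Cls m V (C * ρ ^ 2) (fun s => Real.sin (g s) - g s)) ∧
  (∀ (m : ℕ) (V ρ : ℝ) (g : ℝ → ℝ), Cls (m + 2) V ρ g → Cls m V (ρ * V ^ 2) (deriv (deriv g)))

/-- a real trigonometric polynomial on `𝕋^n × 𝕋`: `∑_μ c_μ cos (2π (k_μ·x + m_μ t) + φ_μ)` -/
structure Trig (n N : ℕ) where
  k : Fin N → Fin n → ℤ
  m : Fin N → ℤ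
  c : Fin N → ℝ
  ph : Fin N → ℝ

/-- the phase at `(x,t)` -/
def Trig.phase {n N : ℕ} (D : Trig n N) (μ : Fin N) (x : Fin n → ℝ) (t : ℝ) : ℝ :=
  2 * Real.pi * ((∑ i, (D.k μ i : ℝ) * x i) + D.m μ * t) + D.ph μ

/-- its value -/
def Trig.val {n N : ℕ} (D : Trig n N) (x : Fin n → ℝ) (t : ℝ) : ℝ :=
  ∑ μ, D.c μ * Real.cos (D.phase μ x t)

/-- its gradient in `x` -/
def Trig.grad {n N : ℕ} (D : Trig n N) (x : Fin n → ℝ) (t : ℝ) (i : Fin n) : ℝ :=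
  -∑ μ, D.c μ * (2 * Real.pi * D.k μ i) * Real.sin (D.phase μ x t)

/-- the frequency along the line with velocity `v` -/
def Trig.fr {n N : ℕ} (D : Trig n N) (μ : Fin N) (v : Fin n → ℝ) : ℝ :=
  2 * Real.pi * ((∑ i, (D.k μ i : ℝ) * v i) + D.m μ)

/-- the phase along the line `P + s v` -/
def Trig.pl {n N : ℕ} (D : Trig n N) (μ : Fin N) (P v : Fin n → ℝ) (s : ℝ) : ℝ :=
  (2 * Real.pi * (∑ i, (D.k μ i : ℝ) * P i) + D.ph μ) + D.fr μ v * s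

/-- the amplitude of the first correction -/
def Trig.a1 {n N : ℕ} (D : Trig n N) (μ : Fin N) (v : Fin n → ℝ) (i : Fin n) : ℝ :=
  2 * Real.pi * D.c μ * D.k μ i / D.fr μ v ^ 2

/-- the amplitude of the second correction -/
def Trig.b1 {n N : ℕ} (D : Trig n N) (μ ν : Fin N) (v : Fin n → ℝ) (i : Fin n) : ℝ :=
  -(2 * Real.pi) ^ 2 / 2 * D.c μ * (∑ j, (D.k μ j : ℝ) * D.a1 ν v j) * D.k μ i

open Classical in
/-- the correction of the line `P + s v` -/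
def Trig.xi {n N : ℕ} (D : Trig n N) (P v : Fin n → ℝ) (s : ℝ) (i : Fin n) : ℝ :=
  (∑ μ, D.a1 μ v i * Real.sin (D.pl μ P v s)) -
    ∑ μ, ∑ ν, D.b1 μ ν v i * (Real.sin (D.pl ν P v s + D.pl μ P v s) / (D.fr ν v + D.fr μ v) ^ 2 +
      if D.k ν = D.k μ then 0 else Real.sin (D.pl ν P v s - D.pl μ P v s) / (D.fr ν v - D.fr μ v) ^ 2)

/-- the velocity `v` is large and not resonant -/
def Trig.NR {n N : ℕ} (D : Trig n N) (c1 C1 V : ℝ) (v : Fin n → ℝ) : Prop :=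
  (∀ μ, c1 * V ≤ D.fr μ v ∧ D.fr μ v ≤ C1 * V) ∧ ∀ μ ν, D.k μ ≠ D.k ν → c1 * V ≤ |D.fr μ v - D.fr ν v|

/-- Leaf XI: size of the correction and residual force, for constant velocity -/
def S_XI : Prop :=
  ∀ (n N : ℕ) (D : Trig n N) (c1 C1 : ℝ), 0 < c1 → ∃ C : ℝ, 1 ≤ C ∧ ∀ (V : ℝ) (P v : Fin n → ℝ), 1 ≤ V →
    D.NR c1 C1 V v → ∀ i,
      Cls 4 V (C / V ^ 2) (fun s => D.xi P v s i) ∧
      Cls 2 V (C / V ^ 3) (fun s => deriv (deriv fun s => D.xi P v s i) s -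
        D.grad (fun j => P j + s * v j + D.xi P v s j) s i)

/-- Leaf LIP: dependence of the correction on the line -/
def S_LIP : Prop :=
  ∀ (n N : ℕ) (D : Trig n N) (c1 C1 : ℝ), 0 < c1 → ∃ C : ℝ, 1 ≤ C ∧ ∀ (V kp : ℝ) (P v A : Fin n → ℝ), 1 ≤ V →
    0 ≤ kp → kp ≤ 1 → ‖A‖ ≤ 1 → D.NR c1 C1 V v → D.NR c1 C1 V (v + A) → ∀ i,
      Cls 4 V (C * ‖A‖ / V ^ 2) (fun s => D.xi (P + v + kp • A) (v + A) (s - 1) i - D.xi P v s i)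

/-- the path of one step: the line with its correction, blended with the next one -/
def Trig.gam {n N : ℕ} (D : Trig n N) (P v A : Fin n → ℝ) (s : ℝ) (i : Fin n) : ℝ :=
  P i + s * v i + th s * A i + D.xi P v s i +
    tp s * (D.xi (P + v + kap • A) (v + A) (s - 1) i - D.xi P v s i)

/-- Leaf GAM: the path of one step (from CLS, XI, LIP, FN) -/
def S_GAM : Prop :=
  ∀ (n N : ℕ) (D : Trig n N) (c1 C1 C2 : ℝ), 0 < c1 → ∃ C : ℝ, 1 ≤ C ∧ ∀ (V : ℝ) (P v A : Fin n → ℝ), 1 ≤ V →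
    ‖A‖ ≤ 1 → ‖v‖ ≤ C2 * V → D.NR c1 C1 V v → D.NR c1 C1 V (v + A) → ∀ i,
      ContDiff ℝ ∞ (fun s => D.gam P v A s i) ∧ Cls 2 V (C * V) (deriv fun s => D.gam P v A s i) ∧
      (∀ s ∈ Icc (-1 : ℝ) 2, |D.gam P v A s i - (P i + s * v i + th s * A i)| ≤ C / V ^ 2) ∧
      Cls 2 V (C * (‖A‖ + 1 / V ^ 3)) (fun s => deriv (deriv fun s => D.gam P v A s i) s -
        D.grad (fun j => D.gam P v A s j) s i)

/-- the potential of one step around a path `g` with the force `F`, in the time window `ch` -/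
def Hg {n : ℕ} (ch : ℝ → ℝ) (g F : ℝ → Fin n → ℝ) (d : ℝ) (q : Z n) : ℝ :=
  ch q.2 * (∑ i, F q.2 i * (Real.sin (2 * Real.pi * (q.1 i - g q.2 i)) / (2 * Real.pi))) *
    ps ((∑ i, Real.sin (Real.pi * (q.1 i - g q.2 i)) ^ 2) / d ^ 2)

/-- Leaf BND3: the `C^2` bound of this potential (paths and forces which are smooth everywhere) -/
def S_BND3 : Prop :=
  ∀ (n : ℕ) (ch : ℝ → ℝ) (K : ℝ), ContDiff ℝ ∞ ch → (∀ s, s ∉ Icc (-1 : ℝ) 2 → ∀ᶠ s' in 𝓝 s, ch s' = 0) →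
    ∃ C : ℝ, 1 ≤ C ∧ ∀ (g F : ℝ → Fin n → ℝ) (d V ρ : ℝ), 0 < d → d ≤ 1 → 1 ≤ V → 0 ≤ ρ →
      (∀ i, ContDiff ℝ ∞ (fun s => g s i)) → (∀ i, Cls 1 V (K * V) (deriv fun s => g s i)) →
      (∀ i, Cls 2 V ρ (fun s => F s i)) →
      ContDiff ℝ ∞ (Hg ch g F d) ∧ ∀ (i : ℕ), i ≤ 2 → ∀ q : Z n,
        ‖iteratedFDeriv ℝ i (Hg ch g F d) q‖ ≤ C * ρ * d * (V / d) ^ 2

/-- Leaf PER3: the periodic continuation in time of a function which vanishes for `s ∉ (1/16, 15/16)` -/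
def S_PER3 : Prop :=
  ∀ (n : ℕ) (H : Z n → ℝ), ContDiff ℝ ∞ H → (∀ q : Z n, (q.2 ≤ 1 / 16 ∨ 15 / 16 ≤ q.2) → H q = 0) →
    ContDiff ℝ ∞ (per H) ∧
      ∀ (i : ℕ) (q : Z n), iteratedFDeriv ℝ i (per H) q = iteratedFDeriv ℝ i H (q.1, Int.fract q.2)

/-- Leaf NRM: up to a function of `t`, every trigonometric polynomial has wave vectors with
`0 < ∑ k_i M^i`, different for different wave vectors -/
def S_NRM : Prop :=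
  ∀ (n N : ℕ) (D : Trig n N), ∃ (N' : ℕ) (D' : Trig n N') (M : ℕ) (g : ℝ → ℝ), 1 ≤ M ∧
    (∀ μ, 0 < ∑ i : Fin n, D'.k μ i * (M : ℤ) ^ (i : ℕ)) ∧
    (∀ μ ν, D'.k μ ≠ D'.k ν →
      (∑ i : Fin n, D'.k μ i * (M : ℤ) ^ (i : ℕ)) ≠ ∑ i : Fin n, D'.k ν i * (M : ℤ) ^ (i : ℕ)) ∧
    ∀ x t, D.val x t = D'.val x t + g t

/-- Leaf LAM: the linear change of coordinates -/
def S_LAM : Prop :=
  ∀ r M : ℕ, ∃ (Λ : (Fin (r + 2) → ℝ) →ₗ[ℝ] (Fin (r + 2) → ℝ)) (C : ℝ), 1 ≤ C ∧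
    (∀ z, Λ z 0 = z 0) ∧
    (∀ z (i : Fin (r + 1)), (M : ℝ) * Λ z i.castSucc - Λ z i.succ = z i.succ) ∧
    (∀ i : Fin (r + 2), Λ (Pi.single 0 1) i = (M : ℝ) ^ (i : ℕ)) ∧
    (∀ z, ‖Λ z‖ ≤ C * ‖z‖)

/-- Leaf DENS: trigonometric polynomials are dense in `C²` -/
def S_DENS : Prop :=
  ∀ (n : ℕ) (f : Z n → ℝ), ContDiff ℝ 2 f →
    (∀ (x : Fin n → ℝ) (t : ℝ) (k : Fin n → ℤ) (l : ℤ), f (fun i => x i + k i, t + l) = f (x, t)) →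
    ∀ ε > 0, ∃ (N : ℕ) (D : Trig n N), ∀ i ≤ 2, ∀ q : Z n,
      ‖iteratedFDeriv ℝ i (fun q : Z n => f q - D.val q.1 q.2) q‖ ≤ ε

end Pool.Agent.N980.TL
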