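import Pool.Agent.N980.TL.Sep

/-!
# Periodicity, partial derivatives, the Euler-Lagrange equations on the slab
-/

set_option autoImplicit false

open Set Filter Topology MeasureTheory
open scoped ContDiff

noncomputable section

namespace Pool.Agent.N980.TL

theorem Hf_periodic {n : ℕ} (P U A : E n) (d : ℝ) (x : E n) (s : ℝ) (k : Fin n → ℤ) :
    Hf P U A d (fun i => x i + k i, s) = Hf P U A d (x, s) := by
  have e1 : ∀ i, Real.sin (2 * Real.pi * (x i + k i - pos P U A s i)) =
      Real.sin (2 * Real.pi * (x i - pos P U A s i)) := by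
    intro i
    have : 2 * Real.pi * (x i + k i - pos P U A s i) =
        2 * Real.pi * (x i - pos P U A s i) + k i * (2 * Real.pi) := by ring
    rw [this, Real.sin_add_int_mul_two_pi]
  have e2 : ∀ i, Real.sin (Real.pi * (x i + k i - pos P U A s i)) ^ 2 =
      Real.sin (Real.pi * (x i - pos P U A s i)) ^ 2 := by
    intro i
    have h : ∀ y : ℝ, Real.sin (Real.pi * y) ^ 2 = 1 / 2 - Real.cos (2 * Real.pi * y) / 2 := by
      intro y
      rw [Real.sin_sq_eq_half_sub]
      ring_nf
    rw [h, h]
    have : 2 * Real.pi * (x i + k i - pos P U A s i) =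
        2 * Real.pi * (x i - pos P U A s i) + k i * (2 * Real.pi) := by ring
    rw [this, Real.cos_add_int_mul_two_pi]
  simp only [Hf, dst, e1, e2]

theorem blk_periodic {n : ℕ} (P U A : ℕ → E n) (d : ℕ → ℝ) (l0 : ℕ) :
    Periodic (fun (x : Fin n → ℝ) (t : ℝ) => blk (fun j => per (Hf (P j) (U j) (A j) (d j))) l0 (x, t)) := by
  intro x t k l
  simp only [blk, per, Int.fract_add_intCast, Hf_periodic]

theorem two_mul_le_abs_sin (y : ℝ) : 2 * |y - round y| ≤ |Real.sin (Real.pi * y)| := by
  set z := y - round y with hz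
  have h1 : |z| ≤ 1 / 2 := abs_sub_round y
  have e : |Real.sin (Real.pi * y)| = |Real.sin (Real.pi * z)| := by
    have : Real.pi * z = Real.pi * y - round y * Real.pi := by rw [hz]; ring
    rw [this, Real.sin_sub_int_mul_pi, abs_mul, abs_zpow, abs_neg, abs_one, one_zpow, one_mul]
  rw [e]
  have h2 : |Real.sin (Real.pi * z)| = Real.sin (Real.pi * |z|) := by
    rcases le_total 0 z with h | h
    · rw [abs_of_nonneg h] at h1 ⊢
      exact abs_of_nonneg (Real.sin_nonneg_of_nonneg_of_le_pi (by positivity)
        (by nlinarith [Real.pi_pos]))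
    · rw [abs_of_nonpos h] at h1 ⊢
      rw [show Real.pi * -z = -(Real.pi * z) by ring, Real.sin_neg]
      refine abs_of_nonpos (Real.sin_nonpos_of_nonpos_of_neg_pi_le ?_ ?_) <;> nlinarith [Real.pi_pos]
  rw [h2]
  have := Real.mul_le_sin (x := Real.pi * |z|) (by positivity) (by nlinarith [Real.pi_pos])
  have e : 2 / Real.pi * (Real.pi * |z|) = 2 * |z| := by
    have := Real.pi_ne_zero
    field_simp
  rwa [e] at this

theorem fderiv_of_iter {n : ℕ} {F G : Z n → ℝ} {x y : Z n}
    (h : iteratedFDeriv ℝ 1 F x = iteratedFDeriv ℝ 1 G y) : fderiv ℝ F x = fderiv ℝ G y := by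
  refine ContinuousLinearMap.ext fun v => ?_
  have := congrArg (fun T => T (fun _ => v)) h
  simpa only [iteratedFDeriv_one_apply] using this

theorem hasDerivAt_upd {n : ℕ} (x : E n) (i : Fin n) (t : ℝ) (u : ℝ) :
    HasDerivAt (fun u => ((Function.update x i u, t) : Z n)) (Pi.single i 1, 0) u :=
  (hasDerivAt_update x i u).prodMk (hasDerivAt_const u t)

/-- the partial derivative of the sum of the potentials at the particle -/
theorem force_eq (hf : S_FN) {n : ℕ} (P U A : E n) {d : ℝ} (hd : 0 < d) {F : Z n → ℝ} {t : ℝ}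
    (hF : DifferentiableAt ℝ F (pos P U A (Int.fract t), t))
    (he : fderiv ℝ F (pos P U A (Int.fract t), t) = fderiv ℝ (Hf P U A d) (pos P U A (Int.fract t), Int.fract t))
    (i : Fin n) :
    HasDerivAt (fun u => F (Function.update (pos P U A (Int.fract t)) i u, t)) (et (Int.fract t) * A i)
      (pos P U A (Int.fract t) i) := by
  set x := pos P U A (Int.fract t) with hx
  have h1 : HasDerivAt (fun u => F (Function.update x i u, t)) (fderiv ℝ F (x, t) (Pi.single i 1, 0)) (x i) := by
    have := hasDerivAt_upd x i t (x i)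
    have hF' : HasFDerivAt F (fderiv ℝ F (x, t)) (Function.update x i (x i), t) := by
      rw [Function.update_eq_self]; exact hF.hasFDerivAt
    exact hF'.comp_hasDerivAt (x i) this
  have h2 : HasDerivAt (fun u => Hf P U A d (Function.update x i u, Int.fract t))
      (fderiv ℝ (Hf P U A d) (x, Int.fract t) (Pi.single i 1, 0)) (x i) := by
    have := hasDerivAt_upd x i (Int.fract t) (x i)
    have hF' : HasFDerivAt (Hf P U A d) (fderiv ℝ (Hf P U A d) (x, Int.fract t))
        (Function.update x i (x i), Int.fract t) := by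
      rw [Function.update_eq_self]
      exact ((Hf_smooth hf P U A d).differentiable (by simp) _).hasFDerivAt
    exact hF'.comp_hasDerivAt (x i) this
  have h3 := h2.unique (Hf_force hf P U A hd (Int.fract t) i)
  rw [he, h3] at h1
  exact h1

/-- the Euler-Lagrange equations of a Lagrangian which is free on the slab -/
theorem el_of_newton {r : ℕ} {p ε : ℝ} {L : (Fin (r + 2) → ℝ) → (Fin (r + 2) → ℝ) → ℝ → ℝ}
    {f : (Fin (r + 2) → ℝ) → ℝ → ℝ} {γ : ℝ → Fin (r + 2) → ℝ} {t : ℝ} {a : Fin (r + 2) → ℝ}
    (hL : ∀ x v t, InSlab p ε x → L x v t = (∑ i, v i ^ 2) / 2)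
    (hs : ∀ᶠ s in 𝓝 t, |γ s 1 - p| < ε) (hd : DifferentiableAt ℝ γ t)
    (h2 : HasDerivAt (deriv γ) a t)
    (hf : ∀ i, HasDerivAt (fun u => f (Function.update (γ t) i u) t) (a i) (γ t i)) :
    EulerLagrange (fun x v t => L x v t + f x t) γ t := by
  refine ⟨hd, fun i => ?_⟩
  have e1 : (fun s => dv (fun x v t => L x v t + f x t) i (γ s) (deriv γ s) s) =ᶠ[𝓝 t]
      fun s => deriv γ s i := by
    filter_upwards [hs] with s hs
    have hin : InSlab p ε (γ s) := ⟨0, by simpa using hs⟩
    simp only [dv]
    have e : (fun u => L (γ s) (Function.update (deriv γ s) i u) s + f (γ s) s) =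
        fun u => (u ^ 2 + ∑ m ∈ Finset.univ.erase i, (deriv γ s m) ^ 2) / 2 + f (γ s) s := by
      funext u
      rw [hL _ _ _ hin, ← Finset.add_sum_erase _ _ (Finset.mem_univ i)]
      simp only [Function.update_self]
      congr 3
      refine Finset.sum_congr rfl fun m hm => ?_
      rw [Function.update_of_ne (Finset.ne_of_mem_erase hm)]
    rw [e]
    have h3 := ((((hasDerivAt_pow 2 (deriv γ s i)).add_const
      (∑ m ∈ Finset.univ.erase i, (deriv γ s m) ^ 2)).div_const 2).add_const (f (γ s) s)).deriv
    rw [h3]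
    simp
  have e2 : dx (fun x v t => L x v t + f x t) i (γ t) (deriv γ t) t = a i := by
    simp only [dx]
    have h0 : |γ t 1 - p| < ε := hs.self_of_nhds
    have hc : Continuous (fun u : ℝ => |Function.update (γ t) i u 1 - p|) := by
      have : Continuous (fun u : ℝ => Function.update (γ t) i u) := continuous_const.update i continuous_id
      fun_prop
    have hev : (fun u => L (Function.update (γ t) i u) (deriv γ t) t + f (Function.update (γ t) i u) t)
        =ᶠ[𝓝 (γ t i)] fun u => (∑ m, deriv γ t m ^ 2) / 2 + f (Function.update (γ t) i u) t := by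
      have h0' : |Function.update (γ t) i (γ t i) 1 - p| < ε := by
        rw [Function.update_eq_self]; exact h0
      filter_upwards [(isOpen_lt hc continuous_const).mem_nhds h0'] with u hu
      rw [hL _ _ _ ⟨0, by simpa using hu⟩]
    rw [hev.deriv_eq]
    exact ((hf i).const_add _).deriv
  rw [e2]
  have h4 : HasDerivAt (fun s => deriv γ s i) (a i) t := (hasDerivAt_pi.1 h2) i
  exact h4.congr_of_eventuallyEq e1

end Pool.Agent.N980.TL
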