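import Pool.Agent.N980.TL.Stm4

/-!
# TL4, leaf BL: the gradient of a periodic potential is bounded and Lipschitz
-/

set_option autoImplicit false

open Set Filter Topology

noncomputable section

namespace Pool.Agent.N980.TL

namespace BL4_

/-- a continuous periodic function is bounded -/
theorem bdd {n : ℕ} {W : Type*} [NormedAddCommGroup W] (Φ : (Fin n → ℝ) × ℝ → W)
    (hc : Continuous Φ)
    (hp : ∀ (q : (Fin n → ℝ) × ℝ) (k : Fin n → ℤ) (l : ℤ),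
      Φ (q + ((fun i => (k i : ℝ)), (l : ℝ))) = Φ q) :
    ∃ C : ℝ, 0 ≤ C ∧ ∀ q, ‖Φ q‖ ≤ C := by
  obtain ⟨C, hC⟩ := (isCompact_Icc (a := (0 : (Fin n → ℝ) × ℝ)) (b := 1)).exists_bound_of_continuousOn
    hc.continuousOn
  refine ⟨max C 0, le_max_right _ _, fun q => ?_⟩
  have h1 := hp ((fun i => Int.fract (q.1 i)), Int.fract q.2) (fun i => ⌊q.1 i⌋) ⌊q.2⌋
  have h2 : (((fun i => Int.fract (q.1 i)), Int.fract q.2) : (Fin n → ℝ) × ℝ)
      + ((fun i => ((⌊q.1 i⌋ : ℤ) : ℝ)), ((⌊q.2⌋ : ℤ) : ℝ)) = q := by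
    ext i
    · simp [Int.fract_add_floor]
    · simp [Int.fract_add_floor]
  rw [h2] at h1
  rw [h1]
  refine (hC _ ?_).trans (le_max_left _ _)
  refine ⟨⟨fun i => Int.fract_nonneg _, Int.fract_nonneg _⟩,
    ⟨fun i => (Int.fract_lt_one _).le, (Int.fract_lt_one _).le⟩⟩

theorem fper {n : ℕ} {W : Type*} [NormedAddCommGroup W] [NormedSpace ℝ W]
    (Φ : (Fin n → ℝ) × ℝ → W)
    (hp : ∀ (q : (Fin n → ℝ) × ℝ) (k : Fin n → ℤ) (l : ℤ),
      Φ (q + ((fun i => (k i : ℝ)), (l : ℝ))) = Φ q)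
    (q : (Fin n → ℝ) × ℝ) (k : Fin n → ℤ) (l : ℤ) :
    fderiv ℝ Φ (q + ((fun i => (k i : ℝ)), (l : ℝ))) = fderiv ℝ Φ q := by
  have h : (fun x => Φ (x + ((fun i => (k i : ℝ)), (l : ℝ)))) = Φ := funext fun x => hp x k l
  rw [← fderiv_comp_add_right, h]

end BL4_

open BL4_

theorem bl_all : S_BL := by
  intro n f hf hper
  set φ : (Fin n → ℝ) × ℝ → ℝ := fun q => f q.1 q.2 with hφ
  have hp : ∀ (q : (Fin n → ℝ) × ℝ) (k : Fin n → ℤ) (l : ℤ),
      φ (q + ((fun i => (k i : ℝ)), (l : ℝ))) = φ q := fun q k l => hper q.1 q.2 k l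
  have hD1 : ContDiff ℝ 1 (fderiv ℝ φ) := hf.fderiv_right (by norm_num)
  have hDc : Continuous (fderiv ℝ φ) := hD1.continuous
  have hDc2 : Continuous (fderiv ℝ (fderiv ℝ φ)) := hD1.continuous_fderiv (by norm_num)
  have hpD := fper φ hp
  have hpD2 := fper (fderiv ℝ φ) hpD
  obtain ⟨B, hB, hB'⟩ := bdd (fderiv ℝ φ) hDc hpD
  obtain ⟨L, hL, hL'⟩ := bdd (fderiv ℝ (fderiv ℝ φ)) hDc2 hpD2
  have hlip : ∀ p q, ‖fderiv ℝ φ q - fderiv ℝ φ p‖ ≤ L * ‖q - p‖ := by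
    intro p q
    exact Convex.norm_image_sub_le_of_norm_fderiv_le (𝕜 := ℝ) (s := univ)
      (fun x _ => (hD1.differentiable (by norm_num)) x) (fun x _ => hL' x) convex_univ
      (mem_univ _) (mem_univ _)
  have he : ∀ i : Fin n, ‖((Pi.single i 1, 0) : (Fin n → ℝ) × ℝ)‖ ≤ 1 := by
    intro i
    rw [Prod.norm_def]
    apply max_le
    · rw [pi_norm_le_iff_of_nonneg zero_le_one]
      intro j
      by_cases h : j = i
      · subst h; simp
      · simp [h]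
    · simp
  refine ⟨B, L, hB, hL, ?_, ?_, ?_⟩
  · intro x t
    rw [pi_norm_le_iff_of_nonneg hB]
    intro i
    calc ‖gr f x t i‖ ≤ ‖fderiv ℝ φ (x, t)‖ * ‖((Pi.single i 1, 0) : (Fin n → ℝ) × ℝ)‖ :=
          (fderiv ℝ φ (x, t)).le_opNorm _
      _ ≤ B * 1 := mul_le_mul (hB' _) (he i) (norm_nonneg _) hB
      _ = B := mul_one B
  · intro x y t
    rw [pi_norm_le_iff_of_nonneg (mul_nonneg hL (norm_nonneg _))]
    intro i
    have h1 : (gr f x t - gr f y t) i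
        = (fderiv ℝ φ (x, t) - fderiv ℝ φ (y, t)) ((Pi.single i 1, 0) : (Fin n → ℝ) × ℝ) := rfl
    rw [h1]
    have h2 := hlip (y, t) (x, t)
    have h3 : ‖((x, t) : (Fin n → ℝ) × ℝ) - (y, t)‖ = ‖x - y‖ := by
      rw [Prod.mk_sub_mk, sub_self, Prod.norm_def]
      simp
    rw [h3] at h2
    calc ‖(fderiv ℝ φ (x, t) - fderiv ℝ φ (y, t)) ((Pi.single i 1, 0) : (Fin n → ℝ) × ℝ)‖
        ≤ ‖fderiv ℝ φ (x, t) - fderiv ℝ φ (y, t)‖ * ‖((Pi.single i 1, 0) : (Fin n → ℝ) × ℝ)‖ :=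
          (fderiv ℝ φ (x, t) - fderiv ℝ φ (y, t)).le_opNorm _
      _ ≤ (L * ‖x - y‖) * 1 := mul_le_mul h2 (he i) (norm_nonneg _)
          (mul_nonneg hL (norm_nonneg _))
      _ = L * ‖x - y‖ := mul_one _
  · apply continuous_pi
    intro i
    exact hDc.clm_apply continuous_const

end Pool.Agent.N980.TL
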