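import Pool.Agent.N980.TL.Stm

/-!
# Leaf BND: the bound of the potential of one step in `C^k` (helper881)
-/

set_option autoImplicit false

open Set Filter Topology
open scoped ContDiff

noncomputable section

namespace Pool.Agent.N980.TL.BND

/-! ## functions of one variable -/

/-- derivatives of orders `≤ k` are bounded by `C` -/
def Db (k : ℕ) (C : ℝ) (φ : ℝ → ℝ) : Prop := ∀ j ≤ k, ∀ x, ‖iteratedFDeriv ℝ j φ x‖ ≤ C

lemma bounded_of_compact {φ : ℝ → ℝ} (hφ : ContDiff ℝ ∞ φ) (hc : HasCompactSupport φ) (k : ℕ) :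
    ∃ C : ℝ, 1 ≤ C ∧ Db k C φ := by
  have h : ∀ j : ℕ, ∃ C : ℝ, ∀ x, ‖iteratedFDeriv ℝ j φ x‖ ≤ C := fun j =>
    Continuous.bounded_above_of_compact_support
      (hφ.continuous_iteratedFDeriv (m := j) (by exact_mod_cast le_top)) (hc.iteratedFDeriv j)
  choose C hC using h
  refine ⟨1 + ∑ j ∈ Finset.range (k + 1), |C j|, ?_, ?_⟩
  · have : 0 ≤ ∑ j ∈ Finset.range (k + 1), |C j| := Finset.sum_nonneg fun _ _ => abs_nonneg _
    linarith
  · intro j hj x
    have h1 : |C j| ≤ ∑ j ∈ Finset.range (k + 1), |C j| :=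
      Finset.single_le_sum (f := fun j => |C j|) (fun _ _ => abs_nonneg _)
        (Finset.mem_range.mpr (Nat.lt_succ_of_le hj))
    calc _ ≤ C j := hC j x
      _ ≤ |C j| := le_abs_self _
      _ ≤ _ := by linarith

lemma norm_succ (φ : ℝ → ℝ) (j : ℕ) (x : ℝ) :
    ‖iteratedFDeriv ℝ (j + 1) φ x‖ = ‖iteratedFDeriv ℝ j (deriv φ) x‖ := by
  rw [norm_iteratedFDeriv_eq_norm_iteratedDeriv, norm_iteratedFDeriv_eq_norm_iteratedDeriv,
    iteratedDeriv_succ']

lemma compact_et (h : S_FN) : HasCompactSupport et := by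
  obtain ⟨_, _, _, _, _, _, _, h1, h2, _⟩ := h
  refine HasCompactSupport.intro (isCompact_Icc (a := (1 / 4 : ℝ)) (b := 3 / 4)) fun x hx => ?_
  by_cases hx1 : x ≤ 1 / 4
  · exact (h1 x hx1).2.2
  · refine (h2 x ?_).2.2
    by_contra h3
    exact hx ⟨by linarith [not_le.mp hx1], by linarith [not_le.mp h3]⟩

lemma compact_dps (h : S_FN) : HasCompactSupport (deriv ps) := by
  obtain ⟨_, _, _, _, _, _, _, _, _, _, h1, h2, h3⟩ := h
  refine HasCompactSupport.intro (isCompact_Icc (a := (1 / 4 : ℝ)) (b := 1)) fun x hx => ?_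
  by_cases hx1 : x < 1 / 4
  · exact (h3 x hx1).deriv
  · have hx2 : 1 < x := by
      by_contra h4
      exact hx ⟨not_lt.mp hx1, not_lt.mp h4⟩
    have : ps =ᶠ[𝓝 x] fun _ => (0 : ℝ) := by
      filter_upwards [lt_mem_nhds hx2] with y hy
      exact h2 y hy.le
    rw [this.deriv_eq]
    simp

lemma ps_le (u : ℝ) : |ps u| ≤ 1 := by
  have h0 : 0 ≤ ps u := Real.smoothTransition.nonneg _
  rw [abs_le]
  exact ⟨by linarith, Real.smoothTransition.le_one _⟩

lemma bd_ps (h : S_FN) (k : ℕ) : ∃ C : ℝ, 1 ≤ C ∧ Db k C ps := by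
  have hs : ContDiff ℝ ∞ ps := h.2.2.2.1
  have hd : ContDiff ℝ ∞ (deriv ps) := (contDiff_infty_iff_deriv.mp hs).2
  obtain ⟨C, hC1, hC⟩ := bounded_of_compact hd (compact_dps h) k
  refine ⟨C, hC1, fun j hj x => ?_⟩
  rcases j with _ | j
  · rw [norm_iteratedFDeriv_zero, Real.norm_eq_abs]
    exact (ps_le x).trans hC1
  · rw [norm_succ]
    exact hC j (by omega) x

lemma bd_et (h : S_FN) (k : ℕ) : ∃ C : ℝ, 1 ≤ C ∧ Db k C et :=
  bounded_of_compact h.2.2.1 (compact_et h) k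

/-- derivatives of positive order of `th` -/
lemma bd_th (h : S_FN) (k : ℕ) : ∃ C : ℝ, 1 ≤ C ∧
    ∀ j, 1 ≤ j → j ≤ k → ∀ x, ‖iteratedFDeriv ℝ j th x‖ ≤ C := by
  obtain ⟨C, hC1, hC⟩ := bd_et h k
  refine ⟨C, hC1, fun j hj1 hj x => ?_⟩
  have e1 : deriv th = tp := funext fun s => (h.2.2.2.2.1 s).deriv
  have e2 : deriv tp = et := funext fun s => (h.2.2.2.2.2.1 s).deriv
  rcases j with _ | _ | j
  · omega
  · rw [norm_succ, e1, norm_iteratedFDeriv_zero, Real.norm_eq_abs, abs_of_nonneg]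
    · exact (h.2.2.2.2.2.2.1 x).2.trans hC1
    · exact (h.2.2.2.2.2.2.1 x).1
  · rw [norm_succ, norm_succ, e1, e2]
    exact hC j (by omega) x

lemma trig (a b : ℝ) (j : ℕ) (x : ℝ) :
    ‖iteratedFDeriv ℝ j (fun x => a * Real.sin (Real.pi * x) + b * Real.cos (Real.pi * x)) x‖ ≤
      Real.pi ^ j * (|a| + |b|) := by
  induction j generalizing a b with
  | zero =>
    rw [norm_iteratedFDeriv_zero, Real.norm_eq_abs]
    calc |a * Real.sin (Real.pi * x) + b * Real.cos (Real.pi * x)| ≤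
        |a * Real.sin (Real.pi * x)| + |b * Real.cos (Real.pi * x)| := abs_add_le _ _
      _ ≤ |a| * 1 + |b| * 1 := by
        rw [abs_mul, abs_mul]
        exact add_le_add (mul_le_mul_of_nonneg_left (Real.abs_sin_le_one _) (abs_nonneg _))
          (mul_le_mul_of_nonneg_left (Real.abs_cos_le_one _) (abs_nonneg _))
      _ = Real.pi ^ 0 * (|a| + |b|) := by ring
  | succ j ih =>
    have e : deriv (fun x => a * Real.sin (Real.pi * x) + b * Real.cos (Real.pi * x)) =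
        fun x => (-(Real.pi * b)) * Real.sin (Real.pi * x) + (Real.pi * a) * Real.cos (Real.pi * x) := by
      funext y
      have h0 : HasDerivAt (fun x : ℝ => Real.pi * x) (Real.pi * 1) y := (hasDerivAt_id y).const_mul _
      have h1 := (h0.sin.const_mul a).add (h0.cos.const_mul b)
      refine h1.deriv.trans ?_
      ring
    rw [norm_succ, e]
    refine (ih _ _).trans ?_
    rw [abs_neg, abs_mul, abs_mul, abs_of_pos Real.pi_pos, pow_succ]
    apply le_of_eq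
    ring

/-! ## functions of several variables, at one point -/

/-- the derivatives of order `m ≤ k` at `q` are bounded by `C * D ^ m` -/
def B {n : ℕ} (k : ℕ) (C D : ℝ) (f : Z n → ℝ) (q : Z n) : Prop :=
  ∀ m ≤ k, ‖iteratedFDeriv ℝ m f q‖ ≤ C * D ^ m

variable {n : ℕ}

lemma cd {f : Z n → ℝ} (hf : ContDiff ℝ ∞ f) (m : ℕ) : ContDiff ℝ m f :=
  hf.of_le (by exact_mod_cast le_top)

lemma B_mono {k : ℕ} {C C' D : ℝ} {f : Z n → ℝ} {q : Z n} (h : B k C D f q) (hD : 0 ≤ D)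
    (hC : C ≤ C') : B k C' D f q := fun m hm =>
  (h m hm).trans (mul_le_mul_of_nonneg_right hC (pow_nonneg hD m))

lemma B_mul {k : ℕ} {C1 C2 D : ℝ} {f g : Z n → ℝ} {q : Z n} (hf : ContDiff ℝ ∞ f)
    (hg : ContDiff ℝ ∞ g) (h1 : B k C1 D f q) (h2 : B k C2 D g q) (hC1 : 0 ≤ C1) (hC2 : 0 ≤ C2)
    (hD : 0 ≤ D) : B k (2 ^ k * C1 * C2) D (fun y => f y * g y) q := by
  intro m hm
  refine (norm_iteratedFDeriv_mul_le (cd hf m) (cd hg m) q le_rfl).trans ?_
  have h : ∀ i ∈ Finset.range (m + 1), (m.choose i : ℝ) * ‖iteratedFDeriv ℝ i f q‖ *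
      ‖iteratedFDeriv ℝ (m - i) g q‖ ≤ (m.choose i : ℝ) * (C1 * C2 * D ^ m) := by
    intro i hi
    have hi' : i ≤ m := Nat.lt_succ_iff.mp (Finset.mem_range.mp hi)
    have e : C1 * C2 * D ^ m = (C1 * D ^ i) * (C2 * D ^ (m - i)) := by
      rw [← pow_mul_pow_sub D hi']
      ring
    rw [e, mul_assoc]
    refine mul_le_mul_of_nonneg_left ?_ (Nat.cast_nonneg _)
    exact mul_le_mul (h1 i (hi'.trans hm)) (h2 (m - i) ((Nat.sub_le _ _).trans hm))
      (norm_nonneg _) (mul_nonneg hC1 (pow_nonneg hD _))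
  refine (Finset.sum_le_sum h).trans ?_
  rw [← Finset.sum_mul]
  have e2 : ∑ i ∈ Finset.range (m + 1), (m.choose i : ℝ) = 2 ^ m := by
    exact_mod_cast Nat.sum_range_choose m
  rw [e2]
  have h3 : (2 : ℝ) ^ m ≤ 2 ^ k := pow_le_pow_right₀ (by norm_num) hm
  have h4 : 0 ≤ C1 * C2 * D ^ m := mul_nonneg (mul_nonneg hC1 hC2) (pow_nonneg hD _)
  calc (2 : ℝ) ^ m * (C1 * C2 * D ^ m) ≤ 2 ^ k * (C1 * C2 * D ^ m) :=
        mul_le_mul_of_nonneg_right h3 h4
    _ = 2 ^ k * C1 * C2 * D ^ m := by ring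

lemma B_sum {k : ℕ} {ι : Type} (s : Finset ι) {C : ι → ℝ} {D : ℝ} {f : ι → Z n → ℝ} {q : Z n}
    (hf : ∀ j ∈ s, ContDiff ℝ ∞ (f j)) (h : ∀ j ∈ s, B k (C j) D (f j) q) :
    B k (∑ j ∈ s, C j) D (fun y => ∑ j ∈ s, f j y) q := by
  intro m hm
  rw [iteratedFDeriv_sum fun j hj => cd (hf j hj) m, Finset.sum_apply, Finset.sum_mul]
  exact (norm_sum_le _ _).trans (Finset.sum_le_sum fun j hj => h j hj m hm)

lemma B_smul {k : ℕ} {C D : ℝ} {f : Z n → ℝ} {q : Z n} (a : ℝ)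
    (hf : ContDiff ℝ ∞ f) (h : B k C D f q) : B k (|a| * C) D (fun y => a * f y) q := by
  intro m hm
  have e : iteratedFDeriv ℝ m (fun y => a * f y) q = a • iteratedFDeriv ℝ m f q :=
    iteratedFDeriv_const_smul_apply (a := a) (cd hf m).contDiffAt
  rw [e, norm_smul, Real.norm_eq_abs, mul_assoc]
  exact mul_le_mul_of_nonneg_left (h m hm) (abs_nonneg a)

lemma B_comp {k : ℕ} {C D : ℝ} {φ : ℝ → ℝ} {f : Z n → ℝ} {q : Z n} (hφ : ContDiff ℝ ∞ φ)
    (hf : ContDiff ℝ ∞ f) (hC : Db k C φ) (hC0 : 0 ≤ C) (hD0 : 0 ≤ D)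
    (hD : ∀ m, 1 ≤ m → m ≤ k → ‖iteratedFDeriv ℝ m f q‖ ≤ D ^ m) :
    B k (k.factorial * C) D (fun y => φ (f y)) q := by
  intro m hm
  refine (norm_iteratedFDeriv_comp_le (hφ.of_le (by exact_mod_cast le_top) : ContDiff ℝ m φ)
    (cd hf m) le_rfl q (fun i hi => hC i (hi.trans hm) _)
    (fun i hi1 hi => hD i hi1 (hi.trans hm))).trans ?_
  refine mul_le_mul_of_nonneg_right (mul_le_mul_of_nonneg_right ?_ hC0) (pow_nonneg hD0 m)
  exact_mod_cast Nat.factorial_le hm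

/-- the coordinate functions -/
def L1 (i : Fin n) : Z n →L[ℝ] ℝ :=
  (ContinuousLinearMap.proj i).comp (ContinuousLinearMap.fst ℝ (Fin n → ℝ) ℝ)

/-- the time -/
def L2 : Z n →L[ℝ] ℝ := ContinuousLinearMap.snd ℝ (Fin n → ℝ) ℝ

lemma norm_L1 (i : Fin n) : ‖(L1 i : Z n →L[ℝ] ℝ)‖ ≤ 1 := by
  refine ContinuousLinearMap.opNorm_le_bound _ zero_le_one fun q => ?_
  rw [one_mul]
  exact (norm_le_pi_norm q.1 i).trans (norm_fst_le q)

lemma norm_L2 : ‖(L2 : Z n →L[ℝ] ℝ)‖ ≤ 1 := by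
  refine ContinuousLinearMap.opNorm_le_bound _ zero_le_one fun q => ?_
  rw [one_mul]
  exact norm_snd_le q

lemma norm_lin (L : Z n →L[ℝ] ℝ) (m : ℕ) (hm : 1 ≤ m) (q : Z n) :
    ‖iteratedFDeriv ℝ m (fun y => L y) q‖ ≤ ‖L‖ := by
  obtain ⟨m, rfl⟩ : ∃ j, m = j + 1 := ⟨m - 1, by omega⟩
  rw [← norm_iteratedFDeriv_fderiv]
  have e : fderiv ℝ (fun y => L y) = fun _ => L := by
    funext y
    exact L.fderiv
  rw [e]
  rcases m with _ | m
  · rw [norm_iteratedFDeriv_zero]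
  · rw [iteratedFDeriv_const_of_ne (by omega)]
    simp

/-- a bounded function of the time -/
lemma norm_time {φ : ℝ → ℝ} (hφ : ContDiff ℝ ∞ φ) {C : ℝ} (m : ℕ) (hC : ∀ x, ‖iteratedFDeriv ℝ m φ x‖ ≤ C)
    (q : Z n) : ‖iteratedFDeriv ℝ m (fun y : Z n => φ y.2) q‖ ≤ C := by
  have e := ContinuousLinearMap.iteratedFDeriv_comp_right (L2 : Z n →L[ℝ] ℝ) hφ q
    (i := m) (by exact_mod_cast le_top)
  have e2 : (fun y : Z n => φ y.2) = φ ∘ (L2 : Z n →L[ℝ] ℝ) := rfl
  rw [e2, e]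
  refine (ContinuousMultilinearMap.norm_compContinuousLinearMap_le _ _).trans ?_
  have h1 : (∏ _i : Fin m, ‖(L2 : Z n →L[ℝ] ℝ)‖) ≤ 1 :=
    Finset.prod_le_one (fun _ _ => norm_nonneg _) fun _ _ => norm_L2
  calc _ ≤ ‖iteratedFDeriv ℝ m φ (L2 q)‖ * 1 := mul_le_mul_of_nonneg_left h1 (norm_nonneg _)
    _ ≤ C := by rw [mul_one]; exact hC _

/-! ## the functions of the potential -/

/-- the position relative to the particle -/
def tht (P U A : E n) (i : Fin n) (q : Z n) : ℝ := q.1 i - pos P U A q.2 i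

lemma cd_th2 (h : S_FN) : ContDiff ℝ ∞ (fun y : Z n => th y.2) := h.1.comp contDiff_snd

lemma tht_eq (P U A : E n) (i : Fin n) : tht P U A i =
    ((fun y : Z n => (L1 i - U i • L2 : Z n →L[ℝ] ℝ) y) + fun _ => -(P i)) +
      (-(A i)) • fun y : Z n => th y.2 := by
  funext y
  simp only [tht, pos, Pi.add_apply, Pi.smul_apply, L1, L2, smul_eq_mul]
  simp only [sub_apply, smul_apply,
    ContinuousLinearMap.comp_apply, ContinuousLinearMap.proj_apply, ContinuousLinearMap.coe_fst',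
    ContinuousLinearMap.coe_snd', smul_eq_mul]
  ring

lemma cd_sm (h : S_FN) (a : ℝ) : ContDiff ℝ ∞ (a • fun y : Z n => th y.2) := by
  have : ContDiff ℝ ∞ (fun y : Z n => a • th y.2) := (cd_th2 h).const_smul a
  exact this

lemma cd_tht (h : S_FN) (P U A : E n) (i : Fin n) : ContDiff ℝ ∞ (tht P U A i) := by
  rw [tht_eq]
  exact ((ContinuousLinearMap.contDiff _).add contDiff_const).add (cd_sm h _)

lemma bd_tht (h : S_FN) {k : ℕ} {K : ℝ} (hK1 : 1 ≤ K)
    (hK : ∀ j, 1 ≤ j → j ≤ k → ∀ x, ‖iteratedFDeriv ℝ j th x‖ ≤ K) (P U A : E n) (i : Fin n)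
    (q : Z n) (m : ℕ) (hm1 : 1 ≤ m) (hm : m ≤ k) :
    ‖iteratedFDeriv ℝ m (tht P U A i) q‖ ≤ (K * (1 + ‖U‖ + ‖A‖)) ^ m := by
  have hL : ContDiff ℝ ∞ (fun y : Z n => (L1 i - U i • L2 : Z n →L[ℝ] ℝ) y) :=
    ContinuousLinearMap.contDiff _
  have hc : ContDiff ℝ ∞ (fun _ : Z n => -(P i)) := contDiff_const
  have hLc : ContDiff ℝ ∞ ((fun y : Z n => (L1 i - U i • L2 : Z n →L[ℝ] ℝ) y) + fun _ => -(P i)) :=
    hL.add hc
  have e : iteratedFDeriv ℝ m (tht P U A i) q =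
      iteratedFDeriv ℝ m (fun y : Z n => (L1 i - U i • L2 : Z n →L[ℝ] ℝ) y) q +
        (-(A i)) • iteratedFDeriv ℝ m (fun y : Z n => th y.2) q := by
    rw [tht_eq, iteratedFDeriv_add_apply (cd hLc m).contDiffAt
      (cd (cd_sm h _) m).contDiffAt,
      iteratedFDeriv_add_apply (cd hL m).contDiffAt (cd hc m).contDiffAt,
      iteratedFDeriv_const_smul_apply (cd (cd_th2 h) m).contDiffAt,
      iteratedFDeriv_const_of_ne (by omega)]
    simp
  have n1 : ‖(L1 i - U i • L2 : Z n →L[ℝ] ℝ)‖ ≤ 1 + ‖U‖ := by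
    refine (norm_sub_le _ _).trans ?_
    rw [norm_smul]
    have : ‖U i‖ ≤ ‖U‖ := norm_le_pi_norm U i
    calc _ ≤ 1 + ‖U‖ * 1 := add_le_add (norm_L1 i)
          (mul_le_mul this norm_L2 (norm_nonneg _) (norm_nonneg _))
      _ = 1 + ‖U‖ := by ring
  have n2 : ‖iteratedFDeriv ℝ m (tht P U A i) q‖ ≤ K * (1 + ‖U‖ + ‖A‖) := by
    rw [e]
    refine (norm_add_le _ _).trans ?_
    rw [norm_smul, norm_neg]
    have a1 := (norm_lin (L1 i - U i • L2 : Z n →L[ℝ] ℝ) m hm1 q).trans n1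
    have a2 := norm_time (n := n) h.1 m (hK m hm1 hm) q
    have a3 : ‖A i‖ ≤ ‖A‖ := norm_le_pi_norm A i
    have a4 : ‖A i‖ * ‖iteratedFDeriv ℝ m (fun y : Z n => th y.2) q‖ ≤ ‖A‖ * K :=
      mul_le_mul a3 a2 (norm_nonneg _) (norm_nonneg _)
    have a5 : 0 ≤ (K - 1) * (1 + ‖U‖) :=
      mul_nonneg (by linarith) (by positivity)
    nlinarith
  refine n2.trans (le_self_pow₀ ?_ (by omega))
  have : 0 ≤ ‖U‖ := norm_nonneg _
  have : 0 ≤ ‖A‖ := norm_nonneg _
  nlinarith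

lemma db_sin (k : ℕ) : Db k (Real.pi ^ k) (fun x => Real.sin (Real.pi * x)) := by
  intro j hj x
  have h := trig 1 0 j x
  simp only [one_mul, zero_mul, add_zero, abs_one, abs_zero, mul_one] at h
  exact h.trans (pow_le_pow_right₀ (by linarith [Real.pi_gt_three]) hj)

lemma db_cos (k : ℕ) : Db k (Real.pi ^ k) (fun x => Real.cos (Real.pi * x)) := by
  intro j hj x
  have h := trig 0 1 j x
  simp only [one_mul, zero_mul, zero_add, abs_one, abs_zero, mul_one] at h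
  exact h.trans (pow_le_pow_right₀ (by linarith [Real.pi_gt_three]) hj)

theorem bnd_all (h : S_FN) : S_BND := by
  intro k n
  obtain ⟨K, hK1, hK⟩ := bd_th h k
  obtain ⟨Cp, hCp1, hCp⟩ := bd_ps h k
  obtain ⟨Ce, hCe1, hCe⟩ := bd_et h k
  have hpi : (1 : ℝ) ≤ Real.pi := by linarith [Real.pi_gt_three]
  obtain ⟨C1, hC1def⟩ : ∃ C1 : ℝ, C1 = k.factorial * Real.pi ^ k := ⟨_, rfl⟩
  have hC1 : 1 ≤ C1 := by
    rw [hC1def]
    have a1 : (1 : ℝ) ≤ k.factorial := by exact_mod_cast Nat.factorial_pos k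
    have a2 : (1 : ℝ) ≤ Real.pi ^ k := one_le_pow₀ hpi
    nlinarith
  obtain ⟨Cv, hCvdef⟩ : ∃ Cv : ℝ, Cv = 1 + n * (2 ^ k * C1 * C1) := ⟨_, rfl⟩
  have hCv : 1 ≤ Cv := by
    rw [hCvdef]
    have : 0 ≤ (n : ℝ) * (2 ^ k * C1 * C1) := by positivity
    linarith
  obtain ⟨Cq, hCqdef⟩ : ∃ Cq : ℝ, Cq = k.factorial * Cp * Cv ^ k := ⟨_, rfl⟩
  have hCq : 0 ≤ Cq := by rw [hCqdef]; positivity
  obtain ⟨Cw, hCwdef⟩ : ∃ Cw : ℝ, Cw = 2 ^ k * (2 ^ k * Ce * (2 ^ k * C1 * C1)) * Cq := ⟨_, rfl⟩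
  have hCw : 0 ≤ Cw := by rw [hCwdef]; positivity
  refine ⟨1 + n * Cw * K ^ k, ?_, ?_⟩
  · have : 0 ≤ (n : ℝ) * Cw * K ^ k := by positivity
    linarith
  intro P U A d hd0 hd1 m hm q
  set R : ℝ := 1 + ‖U‖ + ‖A‖ with hR
  have hU0 : 0 ≤ ‖U‖ := norm_nonneg _
  have hA0 : 0 ≤ ‖A‖ := norm_nonneg _
  have hR1 : 1 ≤ R := by rw [hR]; linarith
  have hKR : 1 ≤ K * R := by nlinarith
  obtain ⟨D1, hD1def⟩ : ∃ D1 : ℝ, D1 = K * R / d := ⟨_, rfl⟩
  have hD1le : K * R ≤ D1 := by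
    rw [hD1def, le_div_iff₀ hd0]
    nlinarith
  have hD1 : 1 ≤ D1 := hKR.trans hD1le
  have hrhs : 0 ≤ (1 + n * Cw * K ^ k) * ‖A‖ * d * (R / d) ^ k := by positivity
  -- smoothness
  have s_t : ∀ i, ContDiff ℝ ∞ (tht P U A i) := fun i => cd_tht h P U A i
  have s_s : ∀ i, ContDiff ℝ ∞ (fun y : Z n => Real.sin (Real.pi * tht P U A i y)) := fun i =>
    Real.contDiff_sin.comp (contDiff_const.mul (s_t i))
  have s_c : ∀ i, ContDiff ℝ ∞ (fun y : Z n => Real.cos (Real.pi * tht P U A i y)) := fun i =>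
    Real.contDiff_cos.comp (contDiff_const.mul (s_t i))
  have s_u : ∀ i, ContDiff ℝ ∞ (fun y : Z n => d⁻¹ * Real.sin (Real.pi * tht P U A i y)) := fun i =>
    contDiff_const.mul (s_s i)
  have s_v : ContDiff ℝ ∞ (fun y : Z n => ∑ i, (d⁻¹ * Real.sin (Real.pi * tht P U A i y)) *
      (d⁻¹ * Real.sin (Real.pi * tht P U A i y))) :=
    ContDiff.sum fun i _ => (s_u i).mul (s_u i)
  have s_p : ContDiff ℝ ∞ (fun y : Z n => ps (∑ i, (d⁻¹ * Real.sin (Real.pi * tht P U A i y)) *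
      (d⁻¹ * Real.sin (Real.pi * tht P U A i y)))) := h.2.2.2.1.comp s_v
  have s_e : ContDiff ℝ ∞ (fun y : Z n => et y.2) := h.2.2.1.comp contDiff_snd
  have e_v : ∀ y : Z n, dst P U A y / d ^ 2 = ∑ i, (d⁻¹ * Real.sin (Real.pi * tht P U A i y)) *
      (d⁻¹ * Real.sin (Real.pi * tht P U A i y)) := by
    intro y
    unfold dst tht
    rw [Finset.sum_div]
    refine Finset.sum_congr rfl fun i _ => ?_
    field_simp
  have e_H : Hf P U A d = fun y : Z n => ∑ i, (d * A i / Real.pi) *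
      ((et y.2 * ((d⁻¹ * Real.sin (Real.pi * tht P U A i y)) *
        Real.cos (Real.pi * tht P U A i y))) *
        ps (∑ i, (d⁻¹ * Real.sin (Real.pi * tht P U A i y)) *
          (d⁻¹ * Real.sin (Real.pi * tht P U A i y)))) := by
    funext y
    unfold Hf
    rw [e_v y, Finset.mul_sum, Finset.sum_mul]
    refine Finset.sum_congr rfl fun i _ => ?_
    have e2 : Real.sin (2 * Real.pi * (y.1 i - pos P U A y.2 i)) =
        2 * Real.sin (Real.pi * tht P U A i y) * Real.cos (Real.pi * tht P U A i y) := by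
      rw [← Real.sin_two_mul]
      unfold tht
      ring_nf
    rw [e2]
    have := Real.pi_ne_zero
    field_simp
  by_cases hv : ∑ i, (d⁻¹ * Real.sin (Real.pi * tht P U A i q)) *
      (d⁻¹ * Real.sin (Real.pi * tht P U A i q)) ≤ 1
  · -- near the particle
    have u_le : ∀ i, |d⁻¹ * Real.sin (Real.pi * tht P U A i q)| ≤ 1 := by
      intro i
      have h1 : (d⁻¹ * Real.sin (Real.pi * tht P U A i q)) *
          (d⁻¹ * Real.sin (Real.pi * tht P U A i q)) ≤ 1 :=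
        (Finset.single_le_sum (f := fun i => (d⁻¹ * Real.sin (Real.pi * tht P U A i q)) *
          (d⁻¹ * Real.sin (Real.pi * tht P U A i q))) (fun i _ => mul_self_nonneg _)
          (Finset.mem_univ i)).trans hv
      exact abs_le_one_iff_mul_self_le_one.mpr h1
    have B_s : ∀ i, B k C1 (K * R) (fun y : Z n => Real.sin (Real.pi * tht P U A i y)) q := by
      intro i
      rw [hC1def]
      exact B_comp (φ := fun x => Real.sin (Real.pi * x))
        (Real.contDiff_sin.comp (contDiff_const.mul contDiff_id)) (s_t i) (db_sin k)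
        (by positivity) (by positivity) (bd_tht h hK1 hK P U A i q)
    have B_c0 : ∀ i, B k C1 (K * R) (fun y : Z n => Real.cos (Real.pi * tht P U A i y)) q := by
      intro i
      rw [hC1def]
      exact B_comp (φ := fun x => Real.cos (Real.pi * x))
        (Real.contDiff_cos.comp (contDiff_const.mul contDiff_id)) (s_t i) (db_cos k)
        (by positivity) (by positivity) (bd_tht h hK1 hK P U A i q)
    have B_c : ∀ i, B k C1 D1 (fun y : Z n => Real.cos (Real.pi * tht P U A i y)) q := by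
      intro i j hj
      refine (B_c0 i j hj).trans ?_
      exact mul_le_mul_of_nonneg_left (pow_le_pow_left₀ (by positivity) hD1le j) (by positivity)
    have B_u : ∀ i, B k C1 D1 (fun y : Z n => d⁻¹ * Real.sin (Real.pi * tht P U A i y)) q := by
      intro i j hj
      rcases Nat.eq_zero_or_pos j with rfl | hj1
      · rw [norm_iteratedFDeriv_zero, Real.norm_eq_abs, pow_zero, mul_one]
        exact (u_le i).trans hC1
      · have e : iteratedFDeriv ℝ j (fun y : Z n => d⁻¹ * Real.sin (Real.pi * tht P U A i y)) q =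
            d⁻¹ • iteratedFDeriv ℝ j (fun y : Z n => Real.sin (Real.pi * tht P U A i y)) q :=
          iteratedFDeriv_const_smul_apply (a := d⁻¹) (cd (s_s i) j).contDiffAt
        rw [e, norm_smul, Real.norm_eq_abs, abs_of_pos (inv_pos.mpr hd0)]
        have b1 := B_s i j hj
        have b2 : d⁻¹ ≤ (d⁻¹) ^ j := le_self_pow₀ (by rw [one_le_inv₀ hd0]; exact hd1) (by omega)
        have b3 : C1 * D1 ^ j = (d⁻¹) ^ j * (C1 * (K * R) ^ j) := by
          rw [hD1def, div_eq_mul_inv, mul_pow (K * R)]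
          ring
        rw [b3]
        exact mul_le_mul b2 b1 (norm_nonneg _) (by positivity)
    have B_v : B k (∑ _i : Fin n, 2 ^ k * C1 * C1) D1 (fun y : Z n =>
        ∑ i, (d⁻¹ * Real.sin (Real.pi * tht P U A i y)) *
          (d⁻¹ * Real.sin (Real.pi * tht P U A i y))) q :=
      B_sum Finset.univ (fun i _ => (s_u i).mul (s_u i)) fun i _ =>
        B_mul (s_u i) (s_u i) (B_u i) (B_u i) (by positivity) (by positivity) (by positivity)
    have B_v2 : ∀ j, 1 ≤ j → j ≤ k → ‖iteratedFDeriv ℝ j (fun y : Z n =>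
        ∑ i, (d⁻¹ * Real.sin (Real.pi * tht P U A i y)) *
          (d⁻¹ * Real.sin (Real.pi * tht P U A i y))) q‖ ≤ (Cv * D1) ^ j := by
      intro j hj1 hj
      refine (B_v j hj).trans ?_
      rw [mul_pow]
      refine mul_le_mul_of_nonneg_right ?_ (by positivity)
      refine le_trans ?_ (le_self_pow₀ hCv (by omega))
      rw [hCvdef, Finset.sum_const, Finset.card_univ, Fintype.card_fin, nsmul_eq_mul]
      linarith
    have B_p : B k Cq D1 (fun y : Z n => ps (∑ i, (d⁻¹ * Real.sin (Real.pi * tht P U A i y)) *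
        (d⁻¹ * Real.sin (Real.pi * tht P U A i y)))) q := by
      intro j hj
      refine (B_comp h.2.2.2.1 s_v hCp (by positivity) (by positivity) B_v2 j hj).trans ?_
      rw [hCqdef, mul_pow, mul_assoc (k.factorial * Cp), ]
      refine mul_le_mul_of_nonneg_left ?_ (by positivity)
      exact mul_le_mul_of_nonneg_right (pow_le_pow_right₀ hCv hj) (by positivity)
    have B_e : B k Ce D1 (fun y : Z n => et y.2) q := by
      intro j hj
      refine (norm_time h.2.2.1 j (hCe j hj) q).trans ?_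
      have : (1 : ℝ) ≤ D1 ^ j := one_le_pow₀ hD1
      nlinarith
    have B_w : ∀ i, B k Cw D1 (fun y : Z n => (et y.2 *
        ((d⁻¹ * Real.sin (Real.pi * tht P U A i y)) * Real.cos (Real.pi * tht P U A i y))) *
        ps (∑ i, (d⁻¹ * Real.sin (Real.pi * tht P U A i y)) *
          (d⁻¹ * Real.sin (Real.pi * tht P U A i y)))) q := by
      intro i
      rw [hCwdef]
      exact B_mul (s_e.mul ((s_u i).mul (s_c i))) s_p
        (B_mul s_e ((s_u i).mul (s_c i)) B_e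
          (B_mul (s_u i) (s_c i) (B_u i) (B_c i) (by positivity) (by positivity) (by positivity))
          (by positivity) (by positivity) (by positivity)) B_p (by positivity) (by positivity)
        (by positivity)
    have B_H : B k (∑ i : Fin n, |d * A i / Real.pi| * Cw) D1 (Hf P U A d) q := by
      rw [e_H]
      exact B_sum Finset.univ (fun i _ => contDiff_const.mul
        ((s_e.mul ((s_u i).mul (s_c i))).mul s_p)) fun i _ =>
        B_smul _ ((s_e.mul ((s_u i).mul (s_c i))).mul s_p) (B_w i)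
    refine (B_H m hm).trans ?_
    have c1 : ∑ i : Fin n, |d * A i / Real.pi| * Cw ≤ n * (d * ‖A‖ * Cw) := by
      have : ∀ i ∈ (Finset.univ : Finset (Fin n)), |d * A i / Real.pi| * Cw ≤ d * ‖A‖ * Cw := by
        intro i _
        refine mul_le_mul_of_nonneg_right ?_ hCw
        rw [abs_div, abs_mul, abs_of_pos hd0, abs_of_pos Real.pi_pos, div_le_iff₀ Real.pi_pos]
        have a3 : |A i| ≤ ‖A‖ := norm_le_pi_norm A i
        have a4 : d * |A i| ≤ d * ‖A‖ := mul_le_mul_of_nonneg_left a3 hd0.le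
        have a5 : 0 ≤ d * ‖A‖ := by positivity
        nlinarith
      refine (Finset.sum_le_sum this).trans ?_
      rw [Finset.sum_const, Finset.card_univ, Fintype.card_fin, nsmul_eq_mul]
    have c2 : D1 ^ m ≤ K ^ k * (R / d) ^ k := by
      refine (pow_le_pow_right₀ hD1 hm).trans (le_of_eq ?_)
      rw [hD1def, mul_div_assoc, mul_pow]
    calc (∑ i : Fin n, |d * A i / Real.pi| * Cw) * D1 ^ m ≤
        (n * (d * ‖A‖ * Cw)) * (K ^ k * (R / d) ^ k) :=
          mul_le_mul c1 c2 (by positivity) (by positivity)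
      _ = (n * Cw * K ^ k) * ‖A‖ * d * (R / d) ^ k := by ring
      _ ≤ (1 + n * Cw * K ^ k) * ‖A‖ * d * (R / d) ^ k := by
          have : 0 ≤ ‖A‖ * d * (R / d) ^ k := by positivity
          nlinarith
  · -- far from the particle
    have hz : Hf P U A d =ᶠ[𝓝 q] fun _ => (0 : ℝ) := by
      have hopen : ∀ᶠ y in 𝓝 q, 1 < ∑ i, (d⁻¹ * Real.sin (Real.pi * tht P U A i y)) *
          (d⁻¹ * Real.sin (Real.pi * tht P U A i y)) :=
        s_v.continuous.continuousAt.eventually (lt_mem_nhds (not_le.mp hv))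
      filter_upwards [hopen] with y hy
      unfold Hf
      rw [e_v y, h.2.2.2.2.2.2.2.2.2.2.2.1 _ hy.le, mul_zero]
    rw [(hz.iteratedFDeriv ℝ m).eq_of_nhds]
    refine le_trans (le_of_eq ?_) hrhs
    have e0 : iteratedFDeriv ℝ m (fun _ : Z n => (0 : ℝ)) = 0 := iteratedFDeriv_fun_zero
    rw [e0]
    simp

end Pool.Agent.N980.TL.BND

namespace Pool.Agent.N980.TL

/-- Leaf BND (helper881) -/
theorem bnd_all (h : S_FN) : S_BND := BND.bnd_all h

end Pool.Agent.N980.TL
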