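import Pool.Agent.N980.TL.Stm3

/-!
# TL3, leaf CLS: calculus of the classes `Cls` (helper881)
-/

set_option autoImplicit false

open Set Filter Topology MeasureTheory
open scoped ContDiff

noncomputable section

namespace Pool.Agent.N980.TL

namespace ClsLeaf

theorem mono {m : ℕ} {V ρ ρ' : ℝ} {g : ℝ → ℝ} (hV : 0 ≤ V) (h : ρ ≤ ρ') (hg : Cls m V ρ g) :
    Cls m V ρ' g :=
  ⟨hg.1, fun i hi s hs => (hg.2 i hi s hs).trans (mul_le_mul_of_nonneg_right h (by positivity))⟩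

theorem const (m : ℕ) (V c : ℝ) (hV : 0 ≤ V) : Cls m V |c| (fun _ => c) := by
  refine ⟨contDiff_const, fun i _ s _ => ?_⟩
  rw [iteratedDeriv_const]
  split_ifs with h
  · subst h
    simp
  · rw [abs_zero]
    positivity

theorem at' {n : ℕ} {g : ℝ → ℝ} (hg : ContDiff ℝ ∞ g) (s : ℝ) : ContDiffAt ℝ n g s :=
  (hg.of_le (by exact_mod_cast le_top)).contDiffAt

theorem add {m : ℕ} {V ρ ρ' : ℝ} {g h : ℝ → ℝ} (hg : Cls m V ρ g) (hh : Cls m V ρ' h) :
    Cls m V (ρ + ρ') (fun s => g s + h s) := by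
  refine ⟨hg.1.add hh.1, fun i hi s hs => ?_⟩
  rw [iteratedDeriv_fun_add (at' hg.1 s) (at' hh.1 s), add_mul]
  exact (abs_add_le _ _).trans (add_le_add (hg.2 i hi s hs) (hh.2 i hi s hs))

theorem cmul {m : ℕ} {V ρ : ℝ} (c : ℝ) {g : ℝ → ℝ} (hg : Cls m V ρ g) :
    Cls m V (|c| * ρ) (fun s => c * g s) := by
  refine ⟨contDiff_const.mul hg.1, fun i hi s hs => ?_⟩
  rw [iteratedDeriv_const_mul_field, abs_mul, mul_assoc]
  exact mul_le_mul_of_nonneg_left (hg.2 i hi s hs) (abs_nonneg c)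

theorem mul {m : ℕ} {V ρ ρ' : ℝ} {g h : ℝ → ℝ} (hV : 0 ≤ V) (hρ : 0 ≤ ρ) (hρ' : 0 ≤ ρ')
    (hg : Cls m V ρ g) (hh : Cls m V ρ' h) : Cls m V (2 ^ m * ρ * ρ') (fun s => g s * h s) := by
  refine ⟨hg.1.mul hh.1, fun i hi s hs => ?_⟩
  rw [iteratedDeriv_fun_mul (at' hg.1 s) (at' hh.1 s)]
  refine (Finset.abs_sum_le_sum_abs _ _).trans ?_
  have h1 : ∀ j ∈ Finset.range (i + 1),
      |(i.choose j : ℝ) * iteratedDeriv j g s * iteratedDeriv (i - j) h s| ≤
        (i.choose j : ℝ) * (ρ * ρ' * V ^ i) := by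
    intro j hj
    have hj' : j ≤ i := Nat.lt_succ_iff.1 (Finset.mem_range.1 hj)
    rw [abs_mul, abs_mul, abs_of_nonneg (Nat.cast_nonneg (α := ℝ) (i.choose j)), mul_assoc]
    refine mul_le_mul_of_nonneg_left ?_ (Nat.cast_nonneg _)
    have a1 := hg.2 j (hj'.trans hi) s hs
    have a2 := hh.2 (i - j) ((Nat.sub_le i j).trans hi) s hs
    calc |iteratedDeriv j g s| * |iteratedDeriv (i - j) h s| ≤ (ρ * V ^ j) * (ρ' * V ^ (i - j)) :=
          mul_le_mul a1 a2 (abs_nonneg _) (by positivity)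
      _ = ρ * ρ' * (V ^ j * V ^ (i - j)) := by ring
      _ = ρ * ρ' * V ^ i := by rw [← pow_add, Nat.add_sub_cancel' hj']
  refine (Finset.sum_le_sum h1).trans ?_
  rw [← Finset.sum_mul]
  have h2 : (∑ j ∈ Finset.range (i + 1), (i.choose j : ℝ)) = 2 ^ i := by
    exact_mod_cast Nat.sum_range_choose i
  rw [h2, mul_assoc (2 ^ m), mul_assoc (2 ^ m)]
  refine mul_le_mul_of_nonneg_right ?_ (by positivity)
  exact pow_le_pow_right₀ (by norm_num) hi

theorem smooth_deriv {g : ℝ → ℝ} (hg : ContDiff ℝ ∞ g) : ContDiff ℝ ∞ (deriv g) :=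
  (contDiff_infty_iff_deriv.1 hg).2

theorem diff {g : ℝ → ℝ} (hg : ContDiff ℝ ∞ g) : Differentiable ℝ g :=
  (contDiff_infty_iff_deriv.1 hg).1

theorem down {m : ℕ} {V ρ : ℝ} {g : ℝ → ℝ} (hg : Cls (m + 1) V ρ g) : Cls m V (ρ * V) (deriv g) := by
  refine ⟨smooth_deriv hg.1, fun i hi s hs => ?_⟩
  rw [← iteratedDeriv_succ']
  refine (hg.2 (i + 1) (by omega) s hs).trans (le_of_eq ?_)
  ring

theorem up {m : ℕ} {V σ : ℝ} {g : ℝ → ℝ} (hg : ContDiff ℝ ∞ g) (h0 : ∀ s ∈ Icc (-1 : ℝ) 2, |g s| ≤ σ)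
    (h1 : Cls m V (σ * V) (deriv g)) : Cls (m + 1) V σ g := by
  refine ⟨hg, fun i hi s hs => ?_⟩
  cases i with
  | zero =>
    rw [iteratedDeriv_zero, pow_zero, mul_one]
    exact h0 s hs
  | succ j =>
    rw [iteratedDeriv_succ']
    refine (h1.2 j (by omega) s hs).trans (le_of_eq ?_)
    ring

theorem less {m : ℕ} {V ρ : ℝ} {g : ℝ → ℝ} (hg : Cls (m + 1) V ρ g) : Cls m V ρ g :=
  ⟨hg.1, fun i hi s hs => hg.2 i (by omega) s hs⟩

theorem osc (w p : ℝ) (i : ℕ) : iteratedDeriv i (fun s => Real.sin (p + w * s)) =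
    fun s => w ^ i * Real.sin (p + i * (Real.pi / 2) + w * s) := by
  induction i with
  | zero => simp
  | succ i ih =>
    rw [iteratedDeriv_succ, ih]
    funext s
    have h1 : HasDerivAt (fun s => p + i * (Real.pi / 2) + w * s) w s := by
      simpa using ((hasDerivAt_id s).const_mul w).const_add (p + i * (Real.pi / 2))
    have h2 := (h1.sin).const_mul (w ^ i)
    rw [h2.deriv]
    have h3 : p + ((i + 1 : ℕ) : ℝ) * (Real.pi / 2) + w * s =
        (p + i * (Real.pi / 2) + w * s) + Real.pi / 2 := by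
      push_cast
      ring
    rw [h3, Real.sin_add_pi_div_two]
    ring

theorem sin_osc (m : ℕ) (K : ℝ) (hK : 1 ≤ K) (V w p : ℝ) (hV : 1 ≤ V) (hw : |w| ≤ K * V) :
    Cls m V (K ^ m) (fun s => Real.sin (p + w * s)) := by
  refine ⟨?_, fun i hi s _ => ?_⟩
  · exact Real.contDiff_sin.comp (contDiff_const.add (contDiff_const.mul contDiff_id))
  · rw [osc]
    show |w ^ i * Real.sin (p + i * (Real.pi / 2) + w * s)| ≤ _
    rw [abs_mul, abs_pow]
    calc |w| ^ i * |Real.sin (p + i * (Real.pi / 2) + w * s)| ≤ (K * V) ^ i * 1 := by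
          refine mul_le_mul (pow_le_pow_left₀ (abs_nonneg w) hw i) (Real.abs_sin_le_one _)
            (abs_nonneg _) (by positivity)
      _ = K ^ i * V ^ i := by rw [mul_one, mul_pow]
      _ ≤ K ^ m * V ^ i := by
          refine mul_le_mul_of_nonneg_right (pow_le_pow_right₀ hK hi) (by positivity)

theorem cos_osc (m : ℕ) (K : ℝ) (hK : 1 ≤ K) (V w p : ℝ) (hV : 1 ≤ V) (hw : |w| ≤ K * V) :
    Cls m V (K ^ m) (fun s => Real.cos (p + w * s)) := by
  have h := sin_osc m K hK V w (p + Real.pi / 2) hV hw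
  have e : (fun s : ℝ => Real.sin (p + Real.pi / 2 + w * s)) = fun s => Real.cos (p + w * s) := by
    funext s
    rw [← Real.sin_add_pi_div_two]
    congr 1
    ring
  rwa [e] at h

theorem sin_sub_le (x : ℝ) : |Real.sin x - x| ≤ 2 * x ^ 2 := by
  by_cases hx : |x| ≤ 1
  · have h := Real.abs_sub_sin_le x
    rw [abs_sub_comm] at h
    refine h.trans ?_
    have h0 := abs_nonneg x
    rw [← sq_abs]
    have : |x| ^ 3 ≤ |x| ^ 2 := pow_le_pow_of_le_one h0 hx (by norm_num)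
    nlinarith [sq_nonneg |x|]
  · have h1 : 1 ≤ |x| := le_of_lt (not_le.1 hx)
    have h2 : |Real.sin x| ≤ |x| := Real.abs_sin_le_abs
    calc |Real.sin x - x| ≤ |Real.sin x| + |x| := abs_sub _ _
      _ ≤ 2 * |x| := by linarith
      _ ≤ 2 * (|x| * |x|) := by nlinarith
      _ = 2 * x ^ 2 := by rw [← sq, sq_abs]

theorem cos_sub_le (x : ℝ) : |Real.cos x - 1| ≤ 2 * x ^ 2 := by
  have h1 := Real.one_sub_sq_div_two_le_cos (x := x)
  have h2 := Real.cos_le_one x
  rw [abs_le]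
  constructor <;> nlinarith [sq_nonneg x]

theorem comp (m : ℕ) (R : ℝ) (hR : 1 ≤ R) : ∃ C : ℝ, 1 ≤ C ∧ ∀ (V ρ : ℝ) (g : ℝ → ℝ), 1 ≤ V →
    0 ≤ ρ → ρ ≤ R → Cls m V ρ g →
    Cls m V (C * ρ) (fun s => Real.sin (g s)) ∧ Cls m V (C * ρ ^ 2) (fun s => Real.cos (g s) - 1) ∧
    Cls m V (C * ρ ^ 2) (fun s => Real.sin (g s) - g s) := by
  induction m with
  | zero =>
    refine ⟨2, by norm_num, fun V ρ g hV hρ hρR hg => ?_⟩
    have hb : ∀ s ∈ Icc (-1 : ℝ) 2, |g s| ≤ ρ := fun s hs => by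
      have := hg.2 0 le_rfl s hs
      rwa [iteratedDeriv_zero, pow_zero, mul_one] at this
    have hb2 : ∀ s ∈ Icc (-1 : ℝ) 2, g s ^ 2 ≤ ρ ^ 2 := fun s hs => by
      rw [← sq_abs (g s)]
      exact pow_le_pow_left₀ (abs_nonneg _) (hb s hs) 2
    refine ⟨⟨Real.contDiff_sin.comp hg.1, fun i hi s hs => ?_⟩,
      ⟨(Real.contDiff_cos.comp hg.1).sub contDiff_const, fun i hi s hs => ?_⟩,
      ⟨(Real.contDiff_sin.comp hg.1).sub hg.1, fun i hi s hs => ?_⟩⟩
    · obtain rfl : i = 0 := by omega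
      rw [iteratedDeriv_zero, pow_zero, mul_one]
      have := (Real.abs_sin_le_abs (x := g s)).trans (hb s hs)
      linarith
    · obtain rfl : i = 0 := by omega
      rw [iteratedDeriv_zero, pow_zero, mul_one]
      have := cos_sub_le (g s)
      have := hb2 s hs
      linarith
    · obtain rfl : i = 0 := by omega
      rw [iteratedDeriv_zero, pow_zero, mul_one]
      have := sin_sub_le (g s)
      have := hb2 s hs
      linarith
  | succ m ih =>
    obtain ⟨C, hC, ih⟩ := ih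
    refine ⟨2 + 2 ^ m * C * R ^ 2, ?_, fun V ρ g hV hρ hρR hg => ?_⟩
    · have : 0 ≤ 2 ^ m * C * R ^ 2 := by positivity
      linarith
    have hV0 : (0 : ℝ) ≤ V := by linarith
    have hR0 : (0 : ℝ) ≤ R := by linarith
    have hC0 : (0 : ℝ) ≤ C := by linarith
    have hR2 : R ≤ R ^ 2 := by nlinarith
    have hR1 : 1 ≤ R ^ 2 := by nlinarith
    have hρR2 : ρ ^ 2 ≤ R ^ 2 := pow_le_pow_left₀ hρ hρR 2
    have hP : 0 ≤ 2 ^ m * C := by positivity
    have hb : ∀ s ∈ Icc (-1 : ℝ) 2, |g s| ≤ ρ := fun s hs => by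
      have := hg.2 0 (Nat.zero_le _) s hs
      rwa [iteratedDeriv_zero, pow_zero, mul_one] at this
    have hb2 : ∀ s ∈ Icc (-1 : ℝ) 2, g s ^ 2 ≤ ρ ^ 2 := fun s hs => by
      rw [← sq_abs (g s)]
      exact pow_le_pow_left₀ (abs_nonneg _) (hb s hs) 2
    obtain ⟨i1, i2, i3⟩ := ih V ρ g hV hρ hρR (less hg)
    have hd := down hg
    have hdg : ∀ s, HasDerivAt g (deriv g s) s := fun s => (diff hg.1 s).hasDerivAt
    have hK : 0 ≤ 2 ^ m * C * R ^ 2 := by positivity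
    refine ⟨?_, ?_, ?_⟩
    · refine up (Real.contDiff_sin.comp hg.1) (fun s hs => ?_) ?_
      · have h1 := (Real.abs_sin_le_abs (x := g s)).trans (hb s hs)
        show |Real.sin (g s)| ≤ _
        nlinarith [mul_nonneg hK hρ]
      · have e : (deriv fun s => Real.sin (g s)) =
            fun s => deriv g s + (Real.cos (g s) - 1) * deriv g s := by
          funext s
          rw [(hdg s).sin.deriv]
          ring
        rw [e]
        refine mono hV0 ?_ (add hd (mul hV0 (by positivity) (by positivity) i2 hd))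
        have h2 : 2 ^ m * (C * ρ ^ 2) * (ρ * V) ≤ 2 ^ m * C * R ^ 2 * ρ * V := by
          have : 2 ^ m * C * ρ ^ 2 * (ρ * V) ≤ 2 ^ m * C * R ^ 2 * (ρ * V) :=
            mul_le_mul_of_nonneg_right (mul_le_mul_of_nonneg_left hρR2 hP) (by positivity)
          calc 2 ^ m * (C * ρ ^ 2) * (ρ * V) = 2 ^ m * C * ρ ^ 2 * (ρ * V) := by ring
            _ ≤ _ := this
            _ = _ := by ring
        have h3 : 0 ≤ ρ * V := by positivity
        calc ρ * V + 2 ^ m * (C * ρ ^ 2) * (ρ * V) ≤ 2 * (ρ * V) + 2 ^ m * C * R ^ 2 * ρ * V := by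
              linarith
          _ = (2 + 2 ^ m * C * R ^ 2) * ρ * V := by ring
    · refine up ((Real.contDiff_cos.comp hg.1).sub contDiff_const) (fun s hs => ?_) ?_
      · have h1 := cos_sub_le (g s)
        have h2 := hb2 s hs
        have h3 : 0 ≤ 2 ^ m * C * R ^ 2 * ρ ^ 2 := by positivity
        show |Real.cos (g s) - 1| ≤ _
        calc |Real.cos (g s) - 1| ≤ 2 * ρ ^ 2 := by linarith
          _ ≤ 2 * ρ ^ 2 + 2 ^ m * C * R ^ 2 * ρ ^ 2 := by linarith
          _ = (2 + 2 ^ m * C * R ^ 2) * ρ ^ 2 := by ring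
      · have e : (deriv fun s => Real.cos (g s) - 1) =
            fun s => (-1) * (Real.sin (g s) * deriv g s) := by
          funext s
          rw [((hdg s).cos.sub_const 1).deriv]
          ring
        rw [e]
        refine mono hV0 ?_ (cmul (-1) (mul hV0 (by positivity) (by positivity) i1 hd))
        rw [abs_neg, abs_one, one_mul]
        have h3 : 0 ≤ ρ ^ 2 * V := by positivity
        have h4 : 2 ^ m * C * (ρ ^ 2 * V) ≤ 2 ^ m * C * R ^ 2 * (ρ ^ 2 * V) := by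
          refine mul_le_mul_of_nonneg_right ?_ h3
          nlinarith
        calc 2 ^ m * (C * ρ) * (ρ * V) = 2 ^ m * C * (ρ ^ 2 * V) := by ring
          _ ≤ 2 ^ m * C * R ^ 2 * (ρ ^ 2 * V) := h4
          _ ≤ 2 * (ρ ^ 2 * V) + 2 ^ m * C * R ^ 2 * (ρ ^ 2 * V) := by linarith
          _ = (2 + 2 ^ m * C * R ^ 2) * ρ ^ 2 * V := by ring
    · refine up ((Real.contDiff_sin.comp hg.1).sub hg.1) (fun s hs => ?_) ?_
      · have h1 := sin_sub_le (g s)
        have h2 := hb2 s hs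
        have h3 : 0 ≤ 2 ^ m * C * R ^ 2 * ρ ^ 2 := by positivity
        show |Real.sin (g s) - g s| ≤ _
        calc |Real.sin (g s) - g s| ≤ 2 * ρ ^ 2 := by linarith
          _ ≤ 2 * ρ ^ 2 + 2 ^ m * C * R ^ 2 * ρ ^ 2 := by linarith
          _ = (2 + 2 ^ m * C * R ^ 2) * ρ ^ 2 := by ring
      · have e : (deriv fun s => Real.sin (g s) - g s) =
            fun s => (Real.cos (g s) - 1) * deriv g s := by
          funext s
          have h := ((hdg s).sin.sub (hdg s)).deriv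
          refine Eq.trans h ?_
          ring
        rw [e]
        refine mono hV0 ?_ (mul hV0 (by positivity) (by positivity) i2 hd)
        have h3 : 0 ≤ ρ ^ 2 * V := by positivity
        have h4 : 2 ^ m * C * ρ * (ρ ^ 2 * V) ≤ 2 ^ m * C * R ^ 2 * (ρ ^ 2 * V) := by
          refine mul_le_mul_of_nonneg_right (mul_le_mul_of_nonneg_left (hρR.trans hR2) hP) h3
        calc 2 ^ m * (C * ρ ^ 2) * (ρ * V) = 2 ^ m * C * ρ * (ρ ^ 2 * V) := by ring
          _ ≤ 2 ^ m * C * R ^ 2 * (ρ ^ 2 * V) := h4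
          _ ≤ 2 * (ρ ^ 2 * V) + 2 ^ m * C * R ^ 2 * (ρ ^ 2 * V) := by linarith
          _ = (2 + 2 ^ m * C * R ^ 2) * ρ ^ 2 * V := by ring

end ClsLeaf

/-- Leaf CLS. -/
theorem cls_all : S_CLS :=
  ⟨fun _ _ _ _ _ hV h hg => ClsLeaf.mono hV h hg, fun m V c hV => ClsLeaf.const m V c hV,
    fun _ _ _ _ _ _ hg hh => ClsLeaf.add hg hh, fun _ _ _ c _ _ hg => ClsLeaf.cmul c hg,
    fun _ _ _ _ _ _ hV hρ hρ' hg hh => ClsLeaf.mul hV hρ hρ' hg hh,
    fun m K hK V w p hV hw => ⟨ClsLeaf.sin_osc m K hK V w p hV hw, ClsLeaf.cos_osc m K hK V w p hV hw⟩,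
    fun m R hR => ClsLeaf.comp m R hR,
    fun m V ρ g hg => by
      have h := ClsLeaf.down (ClsLeaf.down hg)
      rwa [mul_assoc, ← sq] at h⟩

end Pool.Agent.N980.TL
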