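import Pool.Agent.N980.TL.Stm3

/-!
# Leaf DENS: trigonometric polynomials are dense in `C²`
-/

set_option autoImplicit false

open Set Filter Topology MeasureTheory
open scoped ContDiff

noncomputable section

namespace Pool.Agent.N980.TL

namespace Dens

/-- the torus -/
abbrev G (n : ℕ) : Type := (Fin n → UnitAddCircle) × UnitAddCircle

/-- the projection -/
def pr {n : ℕ} (q : Z n) : G n := (fun i => (q.1 i : UnitAddCircle), (q.2 : UnitAddCircle))

/-- periodic functions -/
def Per {n : ℕ} {E : Type} (φ : Z n → E) : Prop :=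
  ∀ (x : Fin n → ℝ) (t : ℝ) (k : Fin n → ℤ) (l : ℤ), φ (fun i => x i + k i, t + l) = φ (x, t)

theorem pr_open {n : ℕ} : IsOpenQuotientMap (pr (n := n)) := by
  have h1 : IsOpenQuotientMap (fun x : ℝ => (x : UnitAddCircle)) :=
    QuotientAddGroup.isOpenQuotientMap_mk
  exact (IsOpenQuotientMap.piMap (fun _ : Fin n => h1)).prodMap h1

theorem pr_sub {n : ℕ} (p q : Z n) : pr (p - q) = pr p - pr q := rfl

theorem coe_eq {x y : ℝ} (h : (x : UnitAddCircle) = (y : UnitAddCircle)) : ∃ k : ℤ, x = y + k := by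
  have h1 : ((x - y : ℝ) : UnitAddCircle) = 0 := by
    rw [AddCircle.coe_sub, h, sub_self]
  obtain ⟨k, hk⟩ := (AddCircle.coe_eq_zero_iff (1 : ℝ)).1 h1
  refine ⟨k, ?_⟩
  simp at hk
  linarith

theorem per_eq {n : ℕ} {E : Type} {φ : Z n → E} (hφ : Per φ) {p q : Z n} (h : pr p = pr q) :
    φ p = φ q := by
  have h1 : ∀ i, (p.1 i : UnitAddCircle) = (q.1 i : UnitAddCircle) := fun i =>
    congrFun (congrArg Prod.fst h) i
  have h2 : (p.2 : UnitAddCircle) = (q.2 : UnitAddCircle) := congrArg Prod.snd h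
  choose k hk using fun i => coe_eq (h1 i)
  obtain ⟨l, hl⟩ := coe_eq h2
  have : p = (fun i => q.1 i + k i, q.2 + l) := by
    apply Prod.ext
    · funext i; exact hk i
    · exact hl
  rw [this, hφ]

/-- the function on the torus -/
def lift {n : ℕ} {E : Type} (φ : Z n → E) (g : G n) : E :=
  φ (Function.surjInv (pr_open (n := n)).surjective g)

theorem lift_pr {n : ℕ} {E : Type} {φ : Z n → E} (hφ : Per φ) (q : Z n) : lift φ (pr q) = φ q :=
  per_eq hφ (Function.surjInv_eq (pr_open (n := n)).surjective (pr q))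

theorem lift_cont {n : ℕ} {E : Type} [TopologicalSpace E] {φ : Z n → E} (hφ : Per φ)
    (hc : Continuous φ) : Continuous (lift φ) := by
  rw [(pr_open (n := n)).isQuotientMap.continuous_iff]
  have : lift φ ∘ pr = φ := funext fun q => lift_pr hφ q
  rw [this]
  exact hc

theorem per_fderiv {n : ℕ} {E : Type} [NormedAddCommGroup E] [NormedSpace ℝ E] {φ : Z n → E}
    (hφ : Per φ) : Per (fderiv ℝ φ) := by
  intro x t k l
  have h1 : (fun q : Z n => φ (q + ((fun i => (k i : ℝ)), (l : ℝ)))) = φ := by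
    funext q
    exact hφ q.1 q.2 k l
  have h2 := fderiv_comp_add_right (𝕜 := ℝ) (f := φ) (x := ((x, t) : Z n))
    ((fun i => (k i : ℝ)), (l : ℝ))
  rw [h1] at h2
  rw [h2]
  rfl

/-- the weight -/
def w0 {n : ℕ} (q : Z n) : ℝ := ∑ i, (1 + Real.cos (2 * Real.pi * q.1 i)) + (1 + Real.cos (2 * Real.pi * q.2))

theorem cos_int (x : ℝ) (k : ℤ) : Real.cos (2 * Real.pi * (x + k)) = Real.cos (2 * Real.pi * x) := by
  rw [mul_add, show 2 * Real.pi * (k : ℝ) = k * (2 * Real.pi) by ring, Real.cos_add_int_mul_two_pi]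

theorem sin_int (x : ℝ) (k : ℤ) : Real.sin (2 * Real.pi * (x + k)) = Real.sin (2 * Real.pi * x) := by
  rw [mul_add, show 2 * Real.pi * (k : ℝ) = k * (2 * Real.pi) by ring, Real.sin_add_int_mul_two_pi]

theorem w0_per {n : ℕ} : Per (w0 (n := n)) := by
  intro x t k l
  simp only [w0, cos_int]

theorem w0_cont {n : ℕ} : Continuous (w0 (n := n)) := by
  unfold w0
  fun_prop

/-- the weight on the torus -/
def w {n : ℕ} : G n → ℝ := lift w0

theorem w_cont {n : ℕ} : Continuous (w (n := n)) := lift_cont w0_per w0_cont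

theorem w_pr {n : ℕ} (q : Z n) : w (pr q) = w0 q := lift_pr w0_per q

theorem w_nn {n : ℕ} (g : G n) : 0 ≤ w g := by
  obtain ⟨q, rfl⟩ := (pr_open (n := n)).surjective g
  rw [w_pr]
  unfold w0
  have h1 : ∀ x : ℝ, 0 ≤ 1 + Real.cos (2 * Real.pi * x) := fun x => by
    linarith [Real.neg_one_le_cos (2 * Real.pi * x)]
  exact add_nonneg (Finset.sum_nonneg fun i _ => h1 _) (h1 _)

theorem pr_zero {n : ℕ} : pr (0 : Z n) = 0 := rfl

theorem w_zero {n : ℕ} : w (0 : G n) = 2 * n + 2 := by
  rw [← pr_zero, w_pr]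
  simp [w0]
  ring

theorem w_lt {n : ℕ} (g : G n) (hg : g ≠ 0) : w g < w (0 : G n) := by
  obtain ⟨q, rfl⟩ := (pr_open (n := n)).surjective g
  rw [w_zero, w_pr]
  by_contra hcon
  apply hg
  have h1 : ∀ x : ℝ, 1 + Real.cos (2 * Real.pi * x) ≤ 2 := fun x => by
    linarith [Real.cos_le_one (2 * Real.pi * x)]
  have h2 : ∑ i, (1 + Real.cos (2 * Real.pi * q.1 i)) ≤ ∑ _i : Fin n, (2 : ℝ) :=
    Finset.sum_le_sum fun i _ => h1 _
  have h2' : ∑ _i : Fin n, (2 : ℝ) = 2 * n := by simp [mul_comm]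
  have h3 := h1 q.2
  unfold w0 at hcon
  have h4 : Real.cos (2 * Real.pi * q.2) = 1 := by linarith
  have h5 : ∑ i, (1 + Real.cos (2 * Real.pi * q.1 i)) = ∑ _i : Fin n, (2 : ℝ) := by linarith
  have h6 : ∀ i, Real.cos (2 * Real.pi * q.1 i) = 1 := by
    intro i
    have := (Finset.sum_eq_sum_iff_of_le (s := Finset.univ) (fun i _ => h1 (q.1 i))).1 h5 i
      (Finset.mem_univ i)
    linarith
  have h7 : ∀ x : ℝ, Real.cos (2 * Real.pi * x) = 1 → (x : UnitAddCircle) = 0 := by
    intro x hx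
    obtain ⟨k, hk⟩ := (Real.cos_eq_one_iff _).1 hx
    rw [AddCircle.coe_eq_zero_iff]
    refine ⟨k, ?_⟩
    have : (2 * Real.pi) * ((k : ℝ) - x) = 0 := by linarith
    rcases mul_eq_zero.1 this with h | h
    · exact absurd h (by positivity)
    · simp; linarith
  apply Prod.ext
  · funext i; exact h7 _ (h6 i)
  · exact h7 _ h4

/-- the convolution -/
def cv {n : ℕ} {E : Type} [NormedAddCommGroup E] [NormedSpace ℝ E] (m : ℕ) (φ : Z n → E) (q : Z n) : E :=
  (∫ y : G n, w y ^ m)⁻¹ • ∫ y : G n, w y ^ m • lift φ (pr q - y)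

theorem approx {n : ℕ} {E : Type} [NormedAddCommGroup E] [NormedSpace ℝ E] [CompleteSpace E]
    {φ : Z n → E} (hφ : Per φ) (hc : Continuous φ) (ε : ℝ) (hε : 0 < ε) :
    ∀ᶠ m in atTop, ∀ q : Z n, ‖φ q - cv m φ q‖ ≤ ε := by
  have hl := lift_cont hφ hc
  let Φ0 : C(G n × G n, E) := ⟨fun p => lift φ (p.2 - p.1), hl.comp (by fun_prop)⟩
  let Φ : G n → C(G n, E) := fun y => Φ0.curry y
  have hΦ : Continuous Φ := Φ0.curry.continuous
  have h1 := tendsto_setIntegral_pow_smul_of_unique_maximum_of_isCompact_of_continuousOn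
    (μ := (volume : Measure (G n))) (s := Set.univ) (c := w) (x₀ := (0 : G n)) (g := Φ)
    isCompact_univ w_cont.continuousOn (fun y _ hy => w_lt y hy) (fun y _ => w_nn y)
    (by rw [w_zero]; positivity) (by simp) hΦ.continuousOn
  simp only [Measure.restrict_univ] at h1
  have h2 := (Metric.tendsto_nhds.1 h1) ε hε
  filter_upwards [h2] with m hm
  intro q
  have hint : Integrable (fun y => w y ^ m • Φ y) (volume : Measure (G n)) := by
    apply Continuous.integrable_of_hasCompactSupport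
    · exact (w_cont.pow m).smul hΦ
    · exact HasCompactSupport.of_compactSpace _
  have h3 : cv m φ q = ((∫ y : G n, w y ^ m)⁻¹ • ∫ y : G n, w y ^ m • Φ y : C(G n, E)) (pr q) := by
    have h4 := (ContinuousMap.evalCLM ℝ (pr q) : C(G n, E) →L[ℝ] E).integral_comp_comm hint
    have h5 : (∫ y : G n, w y ^ m • Φ y : C(G n, E)) (pr q) = ∫ y : G n, w y ^ m • lift φ (pr q - y) := by
      exact h4.symm
    rw [ContinuousMap.smul_apply, h5]
    rfl
  have h6 : φ q = Φ 0 (pr q) := by
    change φ q = lift φ (pr q - 0)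
    rw [sub_zero, lift_pr hφ]
  rw [h3, h6, ← ContinuousMap.sub_apply]
  refine (ContinuousMap.norm_coe_le_norm _ _).trans ?_
  rw [← dist_eq_norm, dist_comm]
  exact hm.le

theorem lift_bdd {n : ℕ} {E : Type} [NormedAddCommGroup E] {φ : Z n → E} (hφ : Per φ)
    (hc : Continuous φ) : ∃ C : ℝ, ∀ g, ‖lift φ g‖ ≤ C := by
  obtain ⟨C, hC⟩ := isCompact_univ.exists_bound_of_continuousOn (lift_cont hφ hc).continuousOn
  exact ⟨C, fun g => hC g (Set.mem_univ g)⟩

theorem cv_fderiv {n : ℕ} {E : Type} [NormedAddCommGroup E] [NormedSpace ℝ E] [CompleteSpace E]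
    (m : ℕ) {φ : Z n → E} (hφ : Per φ) (hc : ContDiff ℝ 1 φ) (q : Z n) :
    HasFDerivAt (cv m φ) (cv m (fderiv ℝ φ) q) q := by
  have hcd : Continuous (fderiv ℝ φ) := hc.continuous_fderiv (by norm_num)
  have hpd := per_fderiv hφ
  have hl := lift_cont hφ hc.continuous
  have hld := lift_cont hpd hcd
  obtain ⟨C, hC⟩ := lift_bdd hpd hcd
  have hsc : SecondCountableTopology (G n) := inferInstance
  have hsc2 : SecondCountableTopologyEither (G n) (Z n →L[ℝ] E) :=
    secondCountableTopologyEither_of_left _ _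
  unfold cv
  apply HasFDerivAt.const_smul
  refine hasFDerivAt_integral_of_dominated_of_fderiv_le
    (F := fun (x : Z n) (y : G n) => w y ^ m • lift φ (pr x - y))
    (F' := fun (x : Z n) (y : G n) => w y ^ m • lift (fderiv ℝ φ) (pr x - y))
    (bound := fun y => w y ^ m * C) (s := Set.univ) Filter.univ_mem ?_ ?_ ?_ ?_ ?_ ?_
  · refine Filter.Eventually.of_forall fun x => ?_
    apply Continuous.aestronglyMeasurable
    exact (w_cont.pow m).smul (hl.comp (by fun_prop))
  · apply Continuous.integrable_of_hasCompactSupport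
    · exact (w_cont.pow m).smul (hl.comp (by fun_prop))
    · exact HasCompactSupport.of_compactSpace _
  · apply Continuous.aestronglyMeasurable
    exact (w_cont.pow m).smul (hld.comp (by fun_prop))
  · refine Filter.Eventually.of_forall fun y x _ => ?_
    rw [norm_smul, Real.norm_of_nonneg (pow_nonneg (w_nn y) m)]
    exact mul_le_mul_of_nonneg_left (hC _) (pow_nonneg (w_nn y) m)
  · apply Continuous.integrable_of_hasCompactSupport
    · exact (w_cont.pow m).mul continuous_const
    · exact HasCompactSupport.of_compactSpace _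
  · refine Filter.Eventually.of_forall fun y x _ => ?_
    apply HasFDerivAt.const_smul
    obtain ⟨u, rfl⟩ := (pr_open (n := n)).surjective y
    have h1 : (fun x : Z n => lift φ (pr x - pr u)) = fun x => φ (x - u) := by
      funext x
      rw [← pr_sub, lift_pr hφ]
    rw [h1, ← pr_sub, lift_pr hpd]
    have h2 := (((hc.differentiable (by norm_num)) (x - u)).hasFDerivAt).comp x
      ((hasFDerivAt_id x).sub_const u)
    rw [ContinuousLinearMap.comp_id] at h2
    exact h2


/-- the functions given by trigonometric polynomials -/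
def TT (n : ℕ) (A : Z n → ℝ) : Prop := ∃ (N : ℕ) (D : Trig n N), ∀ q : Z n, A q = D.val q.1 q.2

/-- finite sums with any index type -/
theorem TT_of_sum {n : ℕ} {J : Type} [Fintype J] (k : J → Fin n → ℤ) (m : J → ℤ) (c ph : J → ℝ) :
    TT n (fun q => ∑ j, c j * Real.cos (2 * Real.pi * ((∑ i, (k j i : ℝ) * q.1 i) + m j * q.2) + ph j)) := by
  classical
  let e := (Fintype.equivFin J).symm
  refine ⟨Fintype.card J, ⟨fun μ => k (e μ), fun μ => m (e μ), fun μ => c (e μ), fun μ => ph (e μ)⟩, ?_⟩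
  intro q
  unfold Trig.val Trig.phase
  exact (Equiv.sum_comp e (fun j => c j * Real.cos (2 * Real.pi * ((∑ i, (k j i : ℝ) * q.1 i) + m j * q.2) + ph j))).symm

theorem TT_mul {n : ℕ} {A B : Z n → ℝ} (hA : TT n A) (hB : TT n B) : TT n (fun q => A q * B q) := by
  obtain ⟨N, D, hD⟩ := hA
  obtain ⟨N', D', hD'⟩ := hB
  obtain ⟨M, X, hX⟩ := TT_of_sum (n := n) (J := (Fin N × Fin N') × Bool)
    (fun j i => if j.2 then D.k j.1.1 i + D'.k j.1.2 i else D.k j.1.1 i - D'.k j.1.2 i)
    (fun j => if j.2 then D.m j.1.1 + D'.m j.1.2 else D.m j.1.1 - D'.m j.1.2)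
    (fun j => D.c j.1.1 * D'.c j.1.2 / 2)
    (fun j => if j.2 then D.ph j.1.1 + D'.ph j.1.2 else D.ph j.1.1 - D'.ph j.1.2)
  refine ⟨M, X, fun q => ?_⟩
  rw [← hX q]
  beta_reduce
  rw [hD, hD', Fintype.sum_prod_type]
  simp only [Fintype.sum_bool, if_true, Bool.false_eq_true, if_false]
  unfold Trig.val
  rw [Finset.sum_mul_sum, Fintype.sum_prod_type]
  refine Finset.sum_congr rfl fun μ _ => Finset.sum_congr rfl fun ν _ => ?_
  have e1 : 2 * Real.pi * ((∑ i, ((D.k μ i + D'.k ν i : ℤ) : ℝ) * q.1 i) + ((D.m μ + D'.m ν : ℤ) : ℝ) * q.2)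
      + (D.ph μ + D'.ph ν) = D.phase μ q.1 q.2 + D'.phase ν q.1 q.2 := by
    unfold Trig.phase
    push_cast
    simp only [add_mul, Finset.sum_add_distrib]
    ring
  have e2 : 2 * Real.pi * ((∑ i, ((D.k μ i - D'.k ν i : ℤ) : ℝ) * q.1 i) + ((D.m μ - D'.m ν : ℤ) : ℝ) * q.2)
      + (D.ph μ - D'.ph ν) = D.phase μ q.1 q.2 - D'.phase ν q.1 q.2 := by
    unfold Trig.phase
    push_cast
    simp only [sub_mul, Finset.sum_sub_distrib]
    ring
  rw [e1, e2, Real.cos_add, Real.cos_sub]
  ring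

theorem TT_sum {n : ℕ} {J : Type} [Fintype J] (A : J → Z n → ℝ) (hA : ∀ j, TT n (A j)) (a : J → ℝ) :
    TT n (fun q => ∑ j, a j * A j q) := by
  choose N D hD using hA
  obtain ⟨M, X, hX⟩ := TT_of_sum (n := n) (J := (Σ j, Fin (N j)))
    (fun x => (D x.1).k x.2) (fun x => (D x.1).m x.2) (fun x => a x.1 * (D x.1).c x.2)
    (fun x => (D x.1).ph x.2)
  refine ⟨M, X, fun q => ?_⟩
  rw [← hX q]
  beta_reduce
  rw [Fintype.sum_sigma]
  refine Finset.sum_congr rfl fun j _ => ?_
  rw [hD j q]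
  unfold Trig.val Trig.phase
  rw [Finset.mul_sum]
  refine Finset.sum_congr rfl fun μ _ => ?_
  ring

theorem TT_one {n : ℕ} : TT n (fun _ => 1) := by
  obtain ⟨M, X, hX⟩ := TT_of_sum (n := n) (J := Unit) (fun _ _ => 0) (fun _ => 0) (fun _ => 1) (fun _ => 0)
  refine ⟨M, X, fun q => ?_⟩
  rw [← hX q]
  simp

theorem TT_cos {n : ℕ} (i : Fin n) (c ph : ℝ) :
    TT n (fun q => c * Real.cos (2 * Real.pi * q.1 i + ph)) := by
  classical
  obtain ⟨M, X, hX⟩ := TT_of_sum (n := n) (J := Unit) (fun _ j => if j = i then 1 else 0) (fun _ => 0)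
    (fun _ => c) (fun _ => ph)
  refine ⟨M, X, fun q => ?_⟩
  rw [← hX q]
  simp

theorem TT_cost {n : ℕ} (c ph : ℝ) :
    TT n (fun q => c * Real.cos (2 * Real.pi * q.2 + ph)) := by
  classical
  obtain ⟨M, X, hX⟩ := TT_of_sum (n := n) (J := Unit) (fun _ _ => 0) (fun _ => 1)
    (fun _ => c) (fun _ => ph)
  refine ⟨M, X, fun q => ?_⟩
  rw [← hX q]
  simp


/-- finite sums of products -/
def KS (n : ℕ) (H : Z n → G n → ℝ) : Prop :=
  ∃ (J : Type) (_ : Fintype J) (A : J → Z n → ℝ) (B : J → G n → ℝ), (∀ j, TT n (A j)) ∧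
    (∀ j, Continuous (B j)) ∧ ∀ q y, H q y = ∑ j, A j q * B j y

theorem KS_one {n : ℕ} {A : Z n → ℝ} {B : G n → ℝ} (hA : TT n A) (hB : Continuous B) :
    KS n (fun q y => A q * B y) :=
  ⟨Unit, inferInstance, fun _ => A, fun _ => B, fun _ => hA, fun _ => hB, fun q y => by simp⟩

theorem KS_add {n : ℕ} {H H' : Z n → G n → ℝ} (h : KS n H) (h' : KS n H') :
    KS n (fun q y => H q y + H' q y) := by
  obtain ⟨J, _, A, B, hA, hB, hH⟩ := h
  obtain ⟨J', _, A', B', hA', hB', hH'⟩ := h'
  refine ⟨J ⊕ J', inferInstance, Sum.elim A A', Sum.elim B B', ?_, ?_, ?_⟩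
  · rintro (j | j)
    · exact hA j
    · exact hA' j
  · rintro (j | j)
    · exact hB j
    · exact hB' j
  · intro q y
    beta_reduce
    rw [hH, hH', Fintype.sum_sum_type]
    rfl

theorem KS_mul {n : ℕ} {H H' : Z n → G n → ℝ} (h : KS n H) (h' : KS n H') :
    KS n (fun q y => H q y * H' q y) := by
  obtain ⟨J, _, A, B, hA, hB, hH⟩ := h
  obtain ⟨J', _, A', B', hA', hB', hH'⟩ := h'
  refine ⟨J × J', inferInstance, fun j q => A j.1 q * A' j.2 q, fun j y => B j.1 y * B' j.2 y,
    fun j => TT_mul (hA _) (hA' _), fun j => (hB _).mul (hB' _), ?_⟩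
  intro q y
  beta_reduce
  rw [hH, hH', Fintype.sum_prod_type, Finset.sum_mul_sum]
  refine Finset.sum_congr rfl fun a _ => Finset.sum_congr rfl fun b _ => ?_
  ring

theorem KS_const {n : ℕ} (c : ℝ) : KS n (fun _ _ => c) := by
  obtain ⟨J, _, A, B, hA, hB, hH⟩ := KS_one (n := n) TT_one (continuous_const (y := c))
  refine ⟨J, inferInstance, A, B, hA, hB, fun q y => ?_⟩
  rw [← hH q y]
  simp

theorem KS_sum {n : ℕ} {ι : Type} (s : Finset ι) (H : ι → Z n → G n → ℝ) (h : ∀ i, KS n (H i)) :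
    KS n (fun q y => ∑ i ∈ s, H i q y) := by
  classical
  induction s using Finset.induction_on with
  | empty => simpa using KS_const (n := n) 0
  | insert a s ha ih =>
    simp only [Finset.sum_insert ha]
    exact KS_add (h a) ih

theorem KS_pow {n : ℕ} {H : Z n → G n → ℝ} (h : KS n H) (m : ℕ) : KS n (fun q y => H q y ^ m) := by
  induction m with
  | zero => simpa using KS_const (n := n) 1
  | succ m ih =>
    simp only [pow_succ]
    exact KS_mul ih h

theorem per_c {n : ℕ} (i : Fin n) : Per (fun q : Z n => Real.cos (2 * Real.pi * q.1 i)) := by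
  intro x t k l
  simp only [cos_int]

theorem per_s {n : ℕ} (i : Fin n) : Per (fun q : Z n => Real.sin (2 * Real.pi * q.1 i)) := by
  intro x t k l
  simp only [sin_int]

theorem per_ct {n : ℕ} : Per (fun q : Z n => Real.cos (2 * Real.pi * q.2)) := by
  intro x t k l
  simp only [cos_int]

theorem per_st {n : ℕ} : Per (fun q : Z n => Real.sin (2 * Real.pi * q.2)) := by
  intro x t k l
  simp only [sin_int]

theorem KS_w {n : ℕ} : KS n (fun q y => w (pr q - y)) := by
  have h1 : (fun (q : Z n) (y : G n) => w (pr q - y)) = fun q y =>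
      (∑ i : Fin n, (1 + (Real.cos (2 * Real.pi * q.1 i) * lift (fun q : Z n => Real.cos (2 * Real.pi * q.1 i)) y +
        Real.sin (2 * Real.pi * q.1 i) * lift (fun q : Z n => Real.sin (2 * Real.pi * q.1 i)) y))) +
      (1 + (Real.cos (2 * Real.pi * q.2) * lift (fun q : Z n => Real.cos (2 * Real.pi * q.2)) y +
        Real.sin (2 * Real.pi * q.2) * lift (fun q : Z n => Real.sin (2 * Real.pi * q.2)) y)) := by
    funext q y
    obtain ⟨u, rfl⟩ := (pr_open (n := n)).surjective y
    rw [← pr_sub, w_pr, lift_pr per_ct, lift_pr per_st]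
    unfold w0
    congr 1
    · refine Finset.sum_congr rfl fun i _ => ?_
      rw [lift_pr (per_c i), lift_pr (per_s i), ← Real.cos_sub]
      congr 2
      simp only [Prod.fst_sub, Pi.sub_apply]
      ring
    · rw [← Real.cos_sub]
      congr 2
      simp only [Prod.snd_sub]
      ring
  rw [h1]
  have hc : ∀ i : Fin n, TT n (fun q : Z n => Real.cos (2 * Real.pi * q.1 i)) := fun i => by
    simpa using TT_cos (n := n) i 1 0
  have hs : ∀ i : Fin n, TT n (fun q : Z n => Real.sin (2 * Real.pi * q.1 i)) := fun i => by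
    have := TT_cos (n := n) i 1 (-(Real.pi / 2))
    simpa [← sub_eq_add_neg, Real.cos_sub_pi_div_two] using this
  have hct : TT n (fun q : Z n => Real.cos (2 * Real.pi * q.2)) := by
    simpa using TT_cost (n := n) 1 0
  have hst : TT n (fun q : Z n => Real.sin (2 * Real.pi * q.2)) := by
    have := TT_cost (n := n) 1 (-(Real.pi / 2))
    simpa [← sub_eq_add_neg, Real.cos_sub_pi_div_two] using this
  refine KS_add (KS_sum _ _ fun i => KS_add (KS_const 1) (KS_add (KS_one (hc i) ?_) (KS_one (hs i) ?_)))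
    (KS_add (KS_const 1) (KS_add (KS_one hct ?_) (KS_one hst ?_)))
  · exact lift_cont (per_c i) (by fun_prop)
  · exact lift_cont (per_s i) (by fun_prop)
  · exact lift_cont per_ct (by fun_prop)
  · exact lift_cont per_st (by fun_prop)

theorem vol_haar1 (n : ℕ) : (volume : Measure (Fin n → UnitAddCircle)).IsAddHaarMeasure := by
  change (Measure.pi fun _ : Fin n => (volume : Measure UnitAddCircle)).IsAddHaarMeasure
  infer_instance

theorem vol_haar (n : ℕ) : (volume : Measure (G n)).IsAddHaarMeasure := by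
  have := vol_haar1 n
  exact Measure.prod.instIsAddHaarMeasure _ _

theorem vol_reg (n : ℕ) : (volume : Measure (G n)).Regular := by
  have := vol_haar n
  have : IsFiniteMeasure (volume : Measure (G n)) := inferInstance
  have hb : BorelSpace (G n) := inferInstance
  exact Measure.Regular.of_sigmaCompactSpace_of_isLocallyFiniteMeasure _

theorem vol_neg (n : ℕ) : (volume : Measure (G n)).IsNegInvariant := by
  have := vol_haar n
  have := vol_reg n
  exact Measure.IsAddHaarMeasure.isNegInvariant_of_regular _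

theorem cv_TT {n : ℕ} (m : ℕ) {f : Z n → ℝ} (hf : Per f) (hc : Continuous f) : TT n (cv m f) := by
  have hl := lift_cont hf hc
  have hi1 := vol_haar n
  have hi2 := vol_neg n
  obtain ⟨J, _, A, B, hA, hB, hH⟩ := KS_pow (KS_w (n := n)) m
  have h1 : cv m f = fun q => ∑ j, ((∫ y : G n, w y ^ m)⁻¹ * ∫ y : G n, B j y * lift f y) * A j q := by
    funext q
    have h2 : ∫ y : G n, w y ^ m • lift f (pr q - y) = ∫ y : G n, w (pr q - y) ^ m * lift f y := by
      rw [← integral_sub_left_eq_self (fun y : G n => w (pr q - y) ^ m * lift f y) volume (pr q)]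
      simp only [sub_sub_cancel, smul_eq_mul]
    have h3 : ∫ y : G n, w (pr q - y) ^ m * lift f y = ∑ j, A j q * ∫ y : G n, B j y * lift f y := by
      have h4 : ∀ y : G n, w (pr q - y) ^ m * lift f y = ∑ j, A j q * (B j y * lift f y) := by
        intro y
        have := hH q y
        beta_reduce at this
        rw [this, Finset.sum_mul]
        refine Finset.sum_congr rfl fun j _ => ?_
        ring
      simp only [h4]
      rw [integral_finsetSum]
      · refine Finset.sum_congr rfl fun j _ => ?_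
        rw [integral_const_mul]
      · intro j _
        apply Continuous.integrable_of_hasCompactSupport
        · exact continuous_const.mul ((hB j).mul hl)
        · exact HasCompactSupport.of_compactSpace _
    unfold cv
    rw [h2, h3, smul_eq_mul, Finset.mul_sum]
    refine Finset.sum_congr rfl fun j _ => ?_
    ring
  rw [h1]
  exact TT_sum A hA _


end Dens

open Dens in
/-- Leaf DENS -/
theorem dens_all : S_DENS := by
  intro n f hf hper ε hε
  have hP : Per f := hper
  have hc0 : Continuous f := hf.continuous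
  have hf1 : ContDiff ℝ 1 (fderiv ℝ f) := hf.fderiv_right (m := 1) (by norm_num)
  have hc1 : Continuous (fderiv ℝ f) := hf1.continuous
  have hP1 := per_fderiv hP
  have hc2 : Continuous (fderiv ℝ (fderiv ℝ f)) := hf1.continuous_fderiv (by norm_num)
  have hP2 := per_fderiv hP1
  obtain ⟨m, h0, h1, h2⟩ := ((approx hP hc0 ε hε).and
    ((approx hP1 hc1 ε hε).and (approx hP2 hc2 ε hε))).exists
  obtain ⟨N, D, hD⟩ := cv_TT m hP hc0
  refine ⟨N, D, fun i hi q => ?_⟩
  have hfun : (fun q : Z n => f q - D.val q.1 q.2) = fun q => f q - cv m f q := by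
    funext q
    rw [hD]
  rw [hfun]
  have hd1 : ∀ q, HasFDerivAt (cv m f) (cv m (fderiv ℝ f) q) q :=
    fun q => cv_fderiv m hP (hf.of_le (by norm_num)) q
  have hd2 : ∀ q, HasFDerivAt (cv m (fderiv ℝ f)) (cv m (fderiv ℝ (fderiv ℝ f)) q) q :=
    fun q => cv_fderiv m hP1 hf1 q
  have e1 : fderiv ℝ (fun q => f q - cv m f q) = fun q => fderiv ℝ f q - cv m (fderiv ℝ f) q :=
    funext fun q => (((hf.differentiable (by norm_num)) q).hasFDerivAt.sub (hd1 q)).fderiv
  have e2 : fderiv ℝ (fun q => fderiv ℝ f q - cv m (fderiv ℝ f) q) =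
      fun q => fderiv ℝ (fderiv ℝ f) q - cv m (fderiv ℝ (fderiv ℝ f)) q :=
    funext fun q => (((hf1.differentiable (by norm_num)) q).hasFDerivAt.sub (hd2 q)).fderiv
  interval_cases i
  · rw [norm_iteratedFDeriv_zero]
    exact h0 q
  · rw [show (1 : ℕ) = 0 + 1 from rfl, ← norm_iteratedFDeriv_fderiv, e1, norm_iteratedFDeriv_zero]
    exact h1 q
  · rw [show (2 : ℕ) = 0 + 1 + 1 from rfl, ← norm_iteratedFDeriv_fderiv,
      ← norm_iteratedFDeriv_fderiv, e1, e2, norm_iteratedFDeriv_zero]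
    exact h2 q

end Pool.Agent.N980.TL
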