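import Pool.Agent.N980.TL.Stm

/-!
# TL, leaf DIO: vectors which are nearly badly approximable, by measure (helper644)
-/

set_option autoImplicit false

open Set Filter Topology MeasureTheory

namespace Pool.Agent.N980.TL

namespace DIOaux

/-- the product of the circles -/
abbrev Tor (r : ℕ) : Type := Fin r → UnitAddCircle

/-- the points whose `l`-th multiples are close to zero -/
def A (l : ℕ) (δ : ℝ) : Set UnitAddCircle := {y | ‖(l : ℤ) • y‖ ≤ δ}

theorem vol_A (l : ℕ) (hl : 1 ≤ l) (δ : ℝ) : volume (A l δ) ≤ ENNReal.ofReal (2 * δ) := by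
  have h0 : (l : ℤ) ≠ 0 := by
    have : l ≠ 0 := by omega
    exact_mod_cast this
  have h1 : MeasurePreserving (fun y : UnitAddCircle => (l : ℤ) • y) volume volume :=
    MeasureTheory.Measure.measurePreserving_zsmul volume h0
  have h2 : A l δ = (fun y : UnitAddCircle => (l : ℤ) • y) ⁻¹' Metric.closedBall 0 δ := by
    ext y
    show ‖(l : ℤ) • y‖ ≤ δ ↔ (l : ℤ) • y ∈ Metric.closedBall (0 : UnitAddCircle) δ
    rw [Metric.mem_closedBall, dist_zero_right]
  rw [h2, h1.measure_preimage measurableSet_closedBall.nullMeasurableSet,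
    AddCircle.volume_closedBall]
  exact ENNReal.ofReal_le_ofReal (min_le_right _ _)

theorem vol_B (r l : ℕ) (hl : 1 ≤ l) (δ : ℝ) :
    volume (Set.pi Set.univ fun _ : Fin r => A l δ) ≤ ENNReal.ofReal (2 * δ) ^ r := by
  rw [volume_pi_pi]
  calc ∏ _i : Fin r, volume (A l δ) ≤ ∏ _i : Fin r, ENNReal.ofReal (2 * δ) :=
        Finset.prod_le_prod' fun _ _ => vol_A l hl δ
    _ = ENNReal.ofReal (2 * δ) ^ r := by
        rw [Finset.prod_const, Finset.card_univ, Fintype.card_fin]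

theorem vol_univ (r : ℕ) : volume (Set.univ : Set (Tor r)) = 1 := by
  rw [← Set.pi_univ, volume_pi_pi]
  simp

theorem sin_ge (y : ℝ) : 2 * |y - round y| ≤ |Real.sin (Real.pi * y)| := by
  obtain ⟨z, hz⟩ : ∃ z, z = y - round y := ⟨_, rfl⟩
  have hz2 : |z| ≤ 1 / 2 := by
    rw [hz]
    exact abs_sub_round y
  have hy : Real.pi * y = Real.pi * z + (round y : ℤ) * Real.pi := by
    rw [hz]
    ring
  have h1 : |Real.sin (Real.pi * y)| = |Real.sin (Real.pi * z)| := by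
    rw [hy, Real.sin_add_int_mul_pi, abs_mul]
    have : |((-1 : ℝ)) ^ (round y)| = 1 := by
      rw [abs_zpow]
      simp
    rw [this, one_mul]
  rw [h1, ← hz]
  have h2 : |Real.pi * z| ≤ Real.pi / 2 := by
    rw [abs_mul, abs_of_pos Real.pi_pos]
    nlinarith [Real.pi_pos]
  have h3 := Real.mul_abs_le_abs_sin h2
  rw [abs_mul, abs_of_pos Real.pi_pos] at h3
  have h4 : 2 / Real.pi * (Real.pi * |z|) = 2 * |z| := by
    field_simp
  linarith

end DIOaux

open DIOaux in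
theorem dio_all : S_DIO := by
  intro r tau hr
  have hr0 : 1 ≤ r := by
    rcases Nat.eq_zero_or_pos r with h | h
    · exfalso
      rw [h] at hr
      norm_num at hr
    · exact h
  -- the sum
  let f : ℕ → ℝ := fun m => ((m + 1 : ℕ) : ℝ) ^ (-(r * tau))
  have hf0 : ∀ m, 0 ≤ f m := fun m => Real.rpow_nonneg (Nat.cast_nonneg _) _
  have hfs : Summable f := by
    have h1 : Summable (fun n : ℕ => (n : ℝ) ^ (-(r * tau))) := by
      have := (Real.summable_nat_rpow (p := -(r * tau))).2 (by linarith)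
      exact this
    exact (summable_nat_add_iff 1).2 h1
  obtain ⟨S, hS⟩ : ∃ S, S = ∑' m, f m := ⟨_, rfl⟩
  have hS0 : 0 ≤ S := by
    rw [hS]
    exact tsum_nonneg hf0
  obtain ⟨c, hc⟩ : ∃ c : ℝ, c = 1 / (S + 2) := ⟨_, rfl⟩
  have hc0 : 0 < c := by
    rw [hc]
    positivity
  have hc1 : c ≤ 1 := by
    rw [hc, div_le_one (by linarith)]
    linarith
  have hcr : c ^ r ≤ c := by
    calc c ^ r ≤ c ^ 1 := pow_le_pow_of_le_one hc0.le hc1 hr0
      _ = c := pow_one c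
  -- the bad sets
  let δ : ℕ → ℝ := fun m => c / 2 * ((m + 1 : ℕ) : ℝ) ^ (-tau)
  have hB : ∀ m, volume (Set.pi Set.univ fun _ : Fin r => A (m + 1) (δ m)) ≤
      ENNReal.ofReal (c * f m) := by
    intro m
    refine (vol_B r (m + 1) (by omega) (δ m)).trans ?_
    have hm : (0 : ℝ) ≤ ((m + 1 : ℕ) : ℝ) := Nat.cast_nonneg _
    have h1 : 0 ≤ 2 * δ m := by
      show 0 ≤ 2 * (c / 2 * ((m + 1 : ℕ) : ℝ) ^ (-tau))
      have := Real.rpow_nonneg hm (-tau)
      positivity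
    rw [← ENNReal.ofReal_pow h1]
    refine ENNReal.ofReal_le_ofReal ?_
    have h2 : (2 * δ m) ^ r = c ^ r * f m := by
      show (2 * (c / 2 * ((m + 1 : ℕ) : ℝ) ^ (-tau))) ^ r = c ^ r * ((m + 1 : ℕ) : ℝ) ^ (-(r * tau))
      have h3 : 2 * (c / 2 * ((m + 1 : ℕ) : ℝ) ^ (-tau)) = c * ((m + 1 : ℕ) : ℝ) ^ (-tau) := by
        ring
      rw [h3, mul_pow, ← Real.rpow_natCast (((m + 1 : ℕ) : ℝ) ^ (-tau)) r, ← Real.rpow_mul hm]
      congr 2
      ring
    rw [h2]
    exact mul_le_mul_of_nonneg_right hcr (hf0 m)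
  have hU : volume (⋃ m, (Set.pi Set.univ fun _ : Fin r => A (m + 1) (δ m))) <
      volume (Set.univ : Set (Tor r)) := by
    rw [vol_univ]
    calc volume (⋃ m, (Set.pi Set.univ fun _ : Fin r => A (m + 1) (δ m)))
        ≤ ∑' m, volume (Set.pi Set.univ fun _ : Fin r => A (m + 1) (δ m)) :=
          measure_iUnion_le _
      _ ≤ ∑' m, ENNReal.ofReal (c * f m) := ENNReal.tsum_le_tsum hB
      _ = ENNReal.ofReal (∑' m, c * f m) :=
          (ENNReal.ofReal_tsum_of_nonneg (fun m => mul_nonneg hc0.le (hf0 m))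
            (hfs.mul_left c)).symm
      _ = ENNReal.ofReal (c * S) := by rw [tsum_mul_left, hS]
      _ < 1 := by
          rw [← ENNReal.ofReal_one]
          refine (ENNReal.ofReal_lt_ofReal_iff one_pos).2 ?_
          rw [hc, one_div, inv_mul_lt_iff₀ (by linarith)]
          linarith
  have hne : ∃ w : Tor r, w ∉ ⋃ m, (Set.pi Set.univ fun _ : Fin r => A (m + 1) (δ m)) := by
    by_contra hcon
    push Not at hcon
    have h1 : (⋃ m, (Set.pi Set.univ fun _ : Fin r => A (m + 1) (δ m))) = Set.univ :=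
      Set.eq_univ_of_forall hcon
    rw [h1] at hU
    exact lt_irrefl _ hU
  obtain ⟨w, hw⟩ := hne
  have hx : ∀ i, ∃ x : ℝ, (x : UnitAddCircle) = w i := fun i => QuotientAddGroup.mk_surjective (w i)
  choose x hx using hx
  refine ⟨x, c, hc0, fun l hl => ?_⟩
  obtain ⟨m, rfl⟩ : ∃ m, l = m + 1 := ⟨l - 1, by omega⟩
  have h1 : w ∉ Set.pi Set.univ fun _ : Fin r => A (m + 1) (δ m) :=
    fun h => hw (Set.mem_iUnion.2 ⟨m, h⟩)
  simp only [Set.mem_univ_pi, not_forall] at h1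
  obtain ⟨i, hi⟩ := h1
  refine ⟨i, ?_⟩
  have h2 : δ m < ‖((m + 1 : ℕ) : ℤ) • w i‖ := not_le.1 hi
  have h3 : ((m + 1 : ℕ) : ℤ) • w i = ((((m + 1 : ℕ) : ℝ) * x i : ℝ) : UnitAddCircle) := by
    rw [← hx i]
    rw [← AddCircle.coe_zsmul]
    congr 1
    rw [zsmul_eq_mul]
    push_cast
    ring
  rw [h3, UnitAddCircle.norm_eq] at h2
  have h4 := sin_ge (((m + 1 : ℕ) : ℝ) * x i)
  have h5 : c * ((m + 1 : ℕ) : ℝ) ^ (-tau) = 2 * δ m := by
    show c * ((m + 1 : ℕ) : ℝ) ^ (-tau) = 2 * (c / 2 * ((m + 1 : ℕ) : ℝ) ^ (-tau))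
    ring
  rw [h5]
  linarith

end Pool.Agent.N980.TL
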