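import Pool.Agent.N980.TL.Stm

/-!
# TL, leaf FN (helper657): the elementary smooth functions
-/

set_option autoImplicit false

open Set Filter Topology MeasureTheory
open scoped ContDiff

namespace Pool.Agent.N980.TL

namespace FN

theorem tp_zero {s : ℝ} (hs : s ≤ 1 / 4) : tp s = 0 :=
  Real.smoothTransition.zero_of_nonpos (by linarith)

theorem tp_one {s : ℝ} (hs : 3 / 4 ≤ s) : tp s = 1 :=
  Real.smoothTransition.one_of_one_le (by linarith)

theorem tp_nonneg (s : ℝ) : 0 ≤ tp s := Real.smoothTransition.nonneg _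

theorem tp_le (s : ℝ) : tp s ≤ 1 := Real.smoothTransition.le_one _

theorem tp_smooth : ContDiff ℝ ∞ tp := by
  unfold tp
  exact Real.smoothTransition.contDiff.comp (by fun_prop)

theorem ps_smooth : ContDiff ℝ ∞ ps := by
  unfold ps
  exact Real.smoothTransition.contDiff.comp (by fun_prop)

theorem th_deriv (s : ℝ) : HasDerivAt th (tp s) s :=
  (tp_smooth.continuous.integral_hasStrictDerivAt 0 s).hasDerivAt

theorem th_smooth : ContDiff ℝ ∞ th := by
  rw [contDiff_infty_iff_deriv]
  refine ⟨fun s => (th_deriv s).differentiableAt, ?_⟩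
  have : deriv th = tp := funext fun s => (th_deriv s).deriv
  rw [this]
  exact tp_smooth

theorem tp_deriv (s : ℝ) : HasDerivAt tp (et s) s :=
  ((contDiff_infty_iff_deriv.1 tp_smooth).1 s).hasDerivAt

theorem et_smooth : ContDiff ℝ ∞ et := (contDiff_infty_iff_deriv.1 tp_smooth).2

theorem et_zero {s : ℝ} (hs : s ≤ 1 / 4) : et s = 0 := by
  have h : IsLocalMin tp s := Filter.Eventually.of_forall fun u => by
    rw [tp_zero hs]
    exact tp_nonneg u
  exact h.deriv_eq_zero

theorem et_zero' {s : ℝ} (hs : 3 / 4 ≤ s) : et s = 0 := by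
  have h : IsLocalMax tp s := Filter.Eventually.of_forall fun u => by
    rw [tp_one hs]
    exact tp_le u
  exact h.deriv_eq_zero

theorem tp_int (a b : ℝ) : IntervalIntegrable tp volume a b :=
  tp_smooth.continuous.intervalIntegrable a b

theorem th_zero {s : ℝ} (hs : s ≤ 1 / 4) : th s = 0 := by
  unfold th
  rw [intervalIntegral.integral_congr (g := fun _ => (0 : ℝ)), intervalIntegral.integral_zero]
  intro u hu
  refine tp_zero (le_trans hu.2 ?_)
  exact max_le (by norm_num) hs

theorem th_one {s : ℝ} (hs : 3 / 4 ≤ s) : th s = s - 1 + kap := by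
  have h1 : ∫ u in (1 : ℝ)..s, tp u = s - 1 := by
    rw [intervalIntegral.integral_congr (g := fun _ => (1 : ℝ)), intervalIntegral.integral_const,
      smul_eq_mul, mul_one]
    intro u hu
    refine tp_one (le_trans ?_ hu.1)
    exact le_min (by norm_num) hs
  unfold kap th
  rw [← intervalIntegral.integral_add_adjacent_intervals (tp_int 0 1) (tp_int 1 s), h1]
  ring

end FN

open FN in
theorem fn_all : S_FN := by
  refine ⟨th_smooth, tp_smooth, et_smooth, ps_smooth, th_deriv, tp_deriv,
    fun s => ⟨tp_nonneg s, tp_le s⟩, fun s hs => ⟨th_zero hs, tp_zero hs, et_zero hs⟩,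
    fun s hs => ⟨th_one hs, tp_one hs, et_zero' hs⟩, ⟨?_, ?_⟩, ?_, ?_, ?_⟩
  · exact intervalIntegral.integral_nonneg zero_le_one fun u _ => tp_nonneg u
  · have h := intervalIntegral.integral_mono_on (zero_le_one : (0 : ℝ) ≤ 1) (tp_int 0 1)
      (intervalIntegrable_const (c := (1 : ℝ))) fun u _ => tp_le u
    rw [intervalIntegral.integral_const, smul_eq_mul, mul_one, sub_zero] at h
    exact h
  · intro u hu
    exact Real.smoothTransition.one_of_one_le (by linarith)
  · intro u hu
    exact Real.smoothTransition.zero_of_nonpos (by linarith)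
  · intro u hu
    have h : ps =ᶠ[𝓝 u] fun _ => (1 : ℝ) := by
      filter_upwards [Iio_mem_nhds hu] with x hx
      exact Real.smoothTransition.one_of_one_le (by have : x < 1 / 4 := hx; linarith)
    exact (hasDerivAt_const u (1 : ℝ)).congr_of_eventuallyEq h

end Pool.Agent.N980.TL
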