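import Pool.Agent.N980.TL.Stm3

/-!
# TL3, leaf GAM: the path of one step

`B m V ρ F` says that the functions `F x` are in `Cls m (V x) (C ρ x)` with `C` independent of the
parameter `x`.
-/

set_option autoImplicit false

open Set Filter Topology MeasureTheory
open scoped ContDiff

noncomputable section

namespace Pool.Agent.N980.TL

namespace Gam_

/-- uniform membership in the classes -/
def B {X : Type} (m : ℕ) (V ρ : X → ℝ) (F : X → ℝ → ℝ) : Prop :=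
  ∃ C : ℝ, 0 ≤ C ∧ ∀ x, Cls m (V x) (C * ρ x) (F x)

variable {X : Type} {m : ℕ} {V ρ σ : X → ℝ} {F G : X → ℝ → ℝ}

lemma B.sm (h : B m V ρ F) (x : X) : ContDiff ℝ ∞ (F x) := by
  obtain ⟨C, -, h⟩ := h
  exact (h x).1

lemma B.le {m' : ℕ} (h : B m V ρ F) (hm : m' ≤ m) : B m' V ρ F := by
  obtain ⟨C, hC, h⟩ := h
  exact ⟨C, hC, fun x => ⟨(h x).1, fun i hi => (h x).2 i (hi.trans hm)⟩⟩

lemma B.mono (h0 : S_CLS) (hV : ∀ x, 1 ≤ V x) (h : B m V ρ F) (K : ℝ) (hK : 0 ≤ K)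
    (hρ : ∀ x, ρ x ≤ K * σ x) : B m V σ F := by
  obtain ⟨C, hC, h⟩ := h
  refine ⟨C * K, by positivity, fun x => h0.1 _ _ _ _ _ (by linarith [hV x]) ?_ (h x)⟩
  calc C * ρ x ≤ C * (K * σ x) := mul_le_mul_of_nonneg_left (hρ x) hC
    _ = C * K * σ x := by ring

lemma B.add (h0 : S_CLS) (h : B m V ρ F) (h' : B m V ρ G) :
    B m V ρ (fun x s => F x s + G x s) := by
  obtain ⟨C, hC, h⟩ := h
  obtain ⟨C', hC', h'⟩ := h'
  refine ⟨C + C', by positivity, fun x => ?_⟩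
  have := h0.2.2.1 _ _ _ _ _ _ (h x) (h' x)
  rwa [← add_mul] at this

lemma B.cmul (h0 : S_CLS) (hV : ∀ x, 1 ≤ V x) (c : ℝ) (h : B m V ρ F) :
    B m V ρ (fun x s => c * F x s) := by
  obtain ⟨C, hC, h⟩ := h
  refine ⟨|c| * C, by positivity, fun x => ?_⟩
  have := h0.2.2.2.1 _ _ _ c _ (by linarith [hV x]) (h x)
  rwa [← mul_assoc] at this

lemma B.sub (h0 : S_CLS) (hV : ∀ x, 1 ≤ V x) (h : B m V ρ F) (h' : B m V ρ G) :
    B m V ρ (fun x s => F x s - G x s) := by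
  have := h.add h0 (h'.cmul h0 hV (-1))
  have e : (fun x s => F x s + (-1) * G x s) = fun x s => F x s - G x s := by
    funext x s; ring
  rwa [e] at this

lemma B.pmul (h0 : S_CLS) (hV : ∀ x, 1 ≤ V x) (c : X → ℝ) (hc : ∀ x, |c x| ≤ σ x)
    (hρ : ∀ x, 0 ≤ ρ x)
    (h : B m V ρ F) : B m V (fun x => σ x * ρ x) (fun x s => c x * F x s) := by
  obtain ⟨C, hC, h⟩ := h
  refine ⟨C, by positivity, fun x => ?_⟩
  have := h0.2.2.2.1 _ _ _ (c x) _ (by linarith [hV x]) (h x)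
  refine h0.1 _ _ _ _ _ (by linarith [hV x]) ?_ this
  have h1 : 0 ≤ C * ρ x := mul_nonneg hC (hρ x)
  nlinarith [mul_le_mul_of_nonneg_right (hc x) h1]

lemma B.mul (h0 : S_CLS) (hV : ∀ x, 1 ≤ V x) (hρ : ∀ x, 0 ≤ ρ x) (hσ : ∀ x, 0 ≤ σ x)
    (h : B m V ρ F) (h' : B m V σ G) :
    B m V (fun x => ρ x * σ x) (fun x s => F x s * G x s) := by
  obtain ⟨C, hC, h⟩ := h
  obtain ⟨C', hC', h'⟩ := h'
  refine ⟨2 ^ m * C * C', by positivity, fun x => ?_⟩
  have := h0.2.2.2.2.1 m (V x) (C * ρ x) (C' * σ x) _ _ (by linarith [hV x])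
    (mul_nonneg hC (hρ x)) (mul_nonneg hC' (hσ x)) (h x) (h' x)
  have e : 2 ^ m * (C * ρ x) * (C' * σ x) = 2 ^ m * C * C' * (ρ x * σ x) := by ring
  rwa [e] at this

lemma B.const (h0 : S_CLS) (hV : ∀ x, 1 ≤ V x) (c : X → ℝ) (K : ℝ) (hK : 0 ≤ K)
    (hc : ∀ x, |c x| ≤ K * ρ x) : B m V ρ (fun x _ => c x) := by
  refine ⟨K, hK, fun x => ?_⟩
  exact h0.1 _ _ _ _ _ (by linarith [hV x]) (hc x) (h0.2.1 m (V x) (c x) (by linarith [hV x]))

lemma B.sum (h0 : S_CLS) (hV : ∀ x, 1 ≤ V x) {ι : Type} (S : Finset ι)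
    (f : ι → X → ℝ → ℝ) (h : ∀ i, B m V ρ (f i)) : B m V ρ (fun x s => ∑ i ∈ S, f i x s) := by
  classical
  induction S using Finset.induction_on with
  | empty =>
    simp only [Finset.sum_empty]
    exact B.const h0 hV (fun _ => 0) 0 le_rfl (fun x => by simp)
  | insert a S ha ih =>
    simp only [Finset.sum_insert ha]
    exact (h a).add h0 ih

lemma B.lin (h0 : S_CLS) (hV : ∀ x, 1 ≤ V x) (K : ℝ) (hK : 1 ≤ K) (w p : X → ℝ)
    (hw : ∀ x, |w x| ≤ K * V x) :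
    B m V (fun _ => 1) (fun x s => Real.sin (p x + w x * s)) ∧
    B m V (fun _ => 1) (fun x s => Real.cos (p x + w x * s)) := by
  refine ⟨⟨K ^ m, by positivity, fun x => ?_⟩, ⟨K ^ m, by positivity, fun x => ?_⟩⟩
  · rw [mul_one]
    exact (h0.2.2.2.2.2.1 m K hK (V x) (w x) (p x) (hV x) (hw x)).1
  · rw [mul_one]
    exact (h0.2.2.2.2.2.1 m K hK (V x) (w x) (p x) (hV x) (hw x)).2

lemma B.small (h0 : S_CLS) (hV : ∀ x, 1 ≤ V x) (hρ : ∀ x, 0 ≤ ρ x) (hρ1 : ∀ x, ρ x ≤ 1)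
    (h : B m V ρ F) : B m V ρ (fun x s => Real.sin (F x s)) ∧
      B m V ρ (fun x s => Real.cos (F x s) - 1) := by
  obtain ⟨C, hC, h⟩ := h
  obtain ⟨K, hK, hh⟩ := h0.2.2.2.2.2.2.1 m (max 1 C) (le_max_left _ _)
  have hh' := fun x => hh (V x) (C * ρ x) (F x) (hV x) (mul_nonneg hC (hρ x))
    ((mul_le_of_le_one_right hC (hρ1 x)).trans (le_max_right _ _)) (h x)
  refine ⟨⟨K * C, by positivity, fun x => ?_⟩, ⟨K * C ^ 2, by positivity, fun x => ?_⟩⟩
  · have := (hh' x).1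
    rwa [← mul_assoc] at this
  · refine h0.1 _ _ _ _ _ (by linarith [hV x]) ?_ (hh' x).2.1
    have h1 : ρ x ^ 2 ≤ ρ x := by nlinarith [hρ x, hρ1 x]
    have h2 : 0 ≤ K * C ^ 2 := by positivity
    calc K * (C * ρ x) ^ 2 = K * C ^ 2 * ρ x ^ 2 := by ring
      _ ≤ K * C ^ 2 * ρ x := mul_le_mul_of_nonneg_left h1 h2

lemma B.dd (h0 : S_CLS) (h : B (m + 2) V ρ F) :
    B m V (fun x => ρ x * V x ^ 2) (fun x => deriv (deriv (F x))) := by
  obtain ⟨C, hC, h⟩ := h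
  refine ⟨C, hC, fun x => ?_⟩
  have := h0.2.2.2.2.2.2.2 _ _ _ _ (h x)
  rwa [mul_assoc] at this

lemma sm_deriv {f : ℝ → ℝ} (hf : ContDiff ℝ ∞ f) : ContDiff ℝ ∞ (deriv f) :=
  (contDiff_infty_iff_deriv.1 hf).2

lemma B.d (h : B (m + 1) V ρ F) : B m V (fun x => ρ x * V x) (fun x => deriv (F x)) := by
  obtain ⟨C, hC, h⟩ := h
  refine ⟨C, hC, fun x => ⟨sm_deriv (h x).1, fun i hi s hs => ?_⟩⟩
  have := (h x).2 (i + 1) (by omega) s hs
  rw [iteratedDeriv_succ'] at this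
  calc _ ≤ _ := this
    _ = C * (ρ x * V x) * V x ^ i := by ring

lemma B.fixed (hV : ∀ x, 1 ≤ V x) {f : ℝ → ℝ} (hf : ContDiff ℝ ∞ f) :
    B m V (fun _ => 1) (fun _ => f) := by
  have hb : ∀ i : ℕ, ∃ K : ℝ, 0 ≤ K ∧ ∀ s ∈ Icc (-1 : ℝ) 2, |iteratedDeriv i f s| ≤ K := by
    intro i
    have hc : Continuous (iteratedDeriv i f) := hf.continuous_iteratedDeriv i (by exact_mod_cast le_top)
    obtain ⟨K, hK⟩ := (isCompact_Icc (a := (-1 : ℝ)) (b := 2)).exists_bound_of_continuousOn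
      hc.continuousOn
    refine ⟨max K 0, le_max_right _ _, fun s hs => (hK s hs).trans (le_max_left _ _)⟩
  choose K hK0 hK using hb
  refine ⟨∑ i ∈ Finset.range (m + 1), K i, Finset.sum_nonneg fun i _ => hK0 i,
    fun x => ⟨hf, fun i hi s hs => ?_⟩⟩
  have h1 : K i ≤ ∑ i ∈ Finset.range (m + 1), K i :=
    Finset.single_le_sum (f := K) (fun i _ => hK0 i) (Finset.mem_range.2 (by omega))
  have h2 : 1 ≤ V x ^ i := one_le_pow₀ (hV x)
  have h3 := hK i s hs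
  have h4 := hK0 i
  rw [mul_one]
  nlinarith


/-- the parameters -/
structure Par {n N : ℕ} (D : Trig n N) (c1 C1 C2 : ℝ) where
  V : ℝ
  P : Fin n → ℝ
  v : Fin n → ℝ
  A : Fin n → ℝ
  hV : 1 ≤ V
  hA : ‖A‖ ≤ 1
  hv : ‖v‖ ≤ C2 * V
  h1 : D.NR c1 C1 V v
  h2 : D.NR c1 C1 V (v + A)

variable {n N : ℕ} (D : Trig n N) (c1 C1 C2 : ℝ)

def xiF (i : Fin n) (x : Par D c1 C1 C2) (s : ℝ) : ℝ := D.xi x.P x.v s i

def dxF (i : Fin n) (x : Par D c1 C1 C2) (s : ℝ) : ℝ :=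
  D.xi (x.P + x.v + kap • x.A) (x.v + x.A) (s - 1) i - D.xi x.P x.v s i

def EF (i : Fin n) (x : Par D c1 C1 C2) (s : ℝ) : ℝ := x.A i * th s + tp s * dxF D c1 C1 C2 i x s

lemma gam_eq (x : Par D c1 C1 C2) (s : ℝ) (i : Fin n) : D.gam x.P x.v x.A s i =
    x.P i + s * x.v i + (xiF D c1 C1 C2 i x s + EF D c1 C1 C2 i x s) := by
  unfold Trig.gam xiF EF dxF
  ring

lemma phase_add (μ : Fin N) (P v a : Fin n → ℝ) (s : ℝ) :
    D.phase μ (fun j => P j + s * v j + a j) s =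
      D.pl μ P v s + 2 * Real.pi * ∑ j, (D.k μ j : ℝ) * a j := by
  unfold Trig.phase Trig.pl Trig.fr
  have e : ∑ i, (D.k μ i : ℝ) * (P i + s * v i + a i) =
      ∑ i, (D.k μ i : ℝ) * P i + s * (∑ i, (D.k μ i : ℝ) * v i) + ∑ i, (D.k μ i : ℝ) * a i := by
    rw [Finset.mul_sum, ← Finset.sum_add_distrib, ← Finset.sum_add_distrib]
    exact Finset.sum_congr rfl fun i _ => by ring
  rw [e]
  ring

section

variable {D c1 C1 C2}

lemma pV (x : Par D c1 C1 C2) : 1 ≤ x.V := x.hV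

lemma inv_le (x : Par D c1 C1 C2) (k : ℕ) : 1 / x.V ^ k ≤ 1 := by
  have h := one_le_pow₀ (n := k) x.hV
  rw [div_le_one (by linarith)]
  exact h

lemma hX (h2 : S_XI) (hc : 0 < c1) (i : Fin n) :
    B 4 (Par.V : Par D c1 C1 C2 → ℝ) (fun x => 1 / x.V ^ 2) (xiF D c1 C1 C2 i) := by
  obtain ⟨C, hC, h⟩ := h2 n N D c1 C1 hc
  refine ⟨C, by linarith, fun x => ?_⟩
  rw [mul_one_div]
  exact (h x.V x.P x.v x.hV x.h1 i).1

lemma hR (h2 : S_XI) (hc : 0 < c1) (i : Fin n) :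
    B 2 (Par.V : Par D c1 C1 C2 → ℝ) (fun x => 1 / x.V ^ 3) (fun x s => deriv (deriv (xiF D c1 C1 C2 i x)) s -
      D.grad (fun j => x.P j + s * x.v j + xiF D c1 C1 C2 j x s) s i) := by
  obtain ⟨C, hC, h⟩ := h2 n N D c1 C1 hc
  refine ⟨C, by linarith, fun x => ?_⟩
  rw [mul_one_div]
  exact (h x.V x.P x.v x.hV x.h1 i).2

lemma hL (h0 : S_FN) (h3 : S_LIP) (hc : 0 < c1) (i : Fin n) :
    B 4 (Par.V : Par D c1 C1 C2 → ℝ) (fun x => ‖x.A‖ / x.V ^ 2) (dxF D c1 C1 C2 i) := by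
  obtain ⟨C, hC, h⟩ := h3 n N D c1 C1 hc
  obtain ⟨k1, k2⟩ := h0.2.2.2.2.2.2.2.2.2.1
  refine ⟨C, by linarith, fun x => ?_⟩
  rw [← mul_div_assoc]
  exact h x.V kap x.P x.v x.A x.hV k1 k2 x.hA x.h1 x.h2 i

lemma nA (x : Par D c1 C1 C2) : 0 ≤ ‖x.A‖ := norm_nonneg _

lemma hTX (h0 : S_FN) (h1 : S_CLS) (h3 : S_LIP) (hc : 0 < c1) (i : Fin n) :
    B 4 (Par.V : Par D c1 C1 C2 → ℝ) (fun x => ‖x.A‖ / x.V ^ 2) (fun x s => tp s * dxF D c1 C1 C2 i x s) := by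
  have ht : B 4 (Par.V : Par D c1 C1 C2 → ℝ) (fun _ => 1) (fun _ => tp) := B.fixed pV h0.2.1
  have := ht.mul h1 pV (fun _ => zero_le_one) (fun x => div_nonneg (nA x) (by positivity))
    (hL (D := D) (C1 := C1) (C2 := C2) h0 h3 hc i)
  refine this.mono h1 pV 1 zero_le_one fun x => ?_
  exact le_rfl

lemma hE (h0 : S_FN) (h1 : S_CLS) (h3 : S_LIP) (hc : 0 < c1) (i : Fin n) :
    B 4 (Par.V : Par D c1 C1 C2 → ℝ) (fun x => ‖x.A‖) (EF D c1 C1 C2 i) := by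
  have ht : B 4 (Par.V : Par D c1 C1 C2 → ℝ) (fun _ => 1) (fun _ => th) := B.fixed pV h0.1
  have h := ht.pmul h1 pV (σ := fun x => ‖x.A‖) (fun x => x.A i) (fun x => norm_le_pi_norm x.A i)
    (fun _ => zero_le_one)
  have h' := h.mono (σ := fun x => ‖x.A‖) h1 pV 1 zero_le_one (fun x => by simp)
  have h'' := (hTX (D := D) (C1 := C1) (C2 := C2) h0 h1 h3 hc i).mono (σ := fun x => ‖x.A‖) h1 pV 1 zero_le_one (fun x => by
    have := mul_le_mul_of_nonneg_left (inv_le x 2) (nA x)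
    rw [mul_one_div, mul_one] at this
    linarith)
  exact h'.add h1 h''

lemma hE2 (h0 : S_FN) (h1 : S_CLS) (h3 : S_LIP) (hc : 0 < c1) (i : Fin n) :
    B 2 (Par.V : Par D c1 C1 C2 → ℝ) (fun x => ‖x.A‖) (fun x => deriv (deriv (EF D c1 C1 C2 i x))) := by
  have ht : B 2 (Par.V : Par D c1 C1 C2 → ℝ) (fun _ => 1) (fun _ => et) := B.fixed pV h0.2.2.1
  have h := ht.pmul h1 pV (σ := fun x => ‖x.A‖) (fun x => x.A i) (fun x => norm_le_pi_norm x.A i)
    (fun _ => zero_le_one)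
  have h' := h.mono (σ := fun x => ‖x.A‖) h1 pV 1 zero_le_one (fun x => by simp)
  have h'' := ((hTX (D := D) (C1 := C1) (C2 := C2) h0 h1 h3 hc i).dd h1).mono (σ := fun x => ‖x.A‖) h1 pV 1 zero_le_one
    (fun x => by
      have : x.V ^ 2 ≠ 0 := by have := x.hV; positivity
      rw [div_mul_cancel₀ _ this, one_mul])
  have h3' := h'.add h1 h''
  have e : (fun (x : Par D c1 C1 C2) => deriv (deriv (EF D c1 C1 C2 i x))) = fun x s =>
      x.A i * et s + deriv (deriv (fun s => tp s * dxF D c1 C1 C2 i x s)) s := by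
    funext x
    have hs : ContDiff ℝ ∞ (fun s => tp s * dxF D c1 C1 C2 i x s) := (hTX (D := D) (C1 := C1) (C2 := C2) h0 h1 h3 hc i).sm x
    have hd : Differentiable ℝ (fun s => tp s * dxF D c1 C1 C2 i x s) :=
      hs.differentiable (by simp)
    have hd2 : Differentiable ℝ (deriv fun s => tp s * dxF D c1 C1 C2 i x s) :=
      (sm_deriv hs).differentiable (by simp)
    have e1 : deriv (EF D c1 C1 C2 i x) = fun s =>
        x.A i * tp s + deriv (fun s => tp s * dxF D c1 C1 C2 i x s) s := by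
      funext s
      exact (((h0.2.2.2.2.1 s).const_mul (x.A i)).add (hd s).hasDerivAt).deriv
    rw [e1]
    funext s
    exact (((h0.2.2.2.2.2.1 s).const_mul (x.A i)).add (hd2 s).hasDerivAt).deriv
  rw [e]
  exact h3'

/-- the phase of the corrected line -/
def phi (μ : Fin N) (x : Par D c1 C1 C2) (s : ℝ) : ℝ :=
  D.pl μ x.P x.v s + 2 * Real.pi * ∑ j, (D.k μ j : ℝ) * xiF D c1 C1 C2 j x s

def eta (μ : Fin N) (x : Par D c1 C1 C2) (s : ℝ) : ℝ :=
  2 * Real.pi * ∑ j, (D.k μ j : ℝ) * EF D c1 C1 C2 j x s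

lemma one_mono (h1 : S_CLS) {m : ℕ} {F : Par D c1 C1 C2 → ℝ → ℝ}
    (h : B m (Par.V : Par D c1 C1 C2 → ℝ) (fun _ => 1 * 1) F) : B m (Par.V : Par D c1 C1 C2 → ℝ) (fun _ => 1) F :=
  h.mono h1 pV 1 zero_le_one fun _ => le_rfl

lemma hphi (h1 : S_CLS) (h2 : S_XI) (hc : 0 < c1) (μ : Fin N) :
    B 2 (Par.V : Par D c1 C1 C2 → ℝ) (fun _ => 1) (fun x s => Real.sin (phi (C2 := C2) μ x s)) ∧
    B 2 (Par.V : Par D c1 C1 C2 → ℝ) (fun _ => 1) (fun x s => Real.cos (phi (C2 := C2) μ x s)) := by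
  have hz : B 2 (Par.V : Par D c1 C1 C2 → ℝ) (fun _ => 1)
      (fun x s => 2 * Real.pi * ∑ j, (D.k μ j : ℝ) * xiF D c1 C1 C2 j x s) := by
    refine B.cmul h1 pV (2 * Real.pi) (B.sum h1 pV Finset.univ _ fun j => ?_)
    refine B.cmul h1 pV _ ?_
    refine ((hX (D := D) (C1 := C1) (C2 := C2) h2 hc j).le (by norm_num)).mono h1 pV 1 zero_le_one fun x => ?_
    have := inv_le x 2
    linarith
  have hpl : B 2 (Par.V : Par D c1 C1 C2 → ℝ) (fun _ => 1) (fun x s => Real.sin (D.pl μ x.P x.v s)) ∧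
      B 2 (Par.V : Par D c1 C1 C2 → ℝ) (fun _ => 1) (fun x s => Real.cos (D.pl μ x.P x.v s)) := by
    unfold Trig.pl
    refine B.lin h1 pV (max 1 C1) (le_max_left _ _) (fun x => D.fr μ x.v) _ fun x => ?_
    obtain ⟨q1, q2⟩ := x.h1.1 μ
    have hV := x.hV
    rw [abs_of_nonneg (le_trans (by positivity) q1)]
    exact q2.trans (mul_le_mul_of_nonneg_right (le_max_right _ _) (by linarith))
  obtain ⟨ps, pc⟩ := hpl
  obtain ⟨zs, zc⟩ := hz.small h1 pV (fun _ => zero_le_one) (fun _ => le_rfl)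
  have zc' := zc.add h1 (B.const h1 pV (ρ := fun _ => 1) (fun _ => 1) 1 zero_le_one
    (fun x => by simp))
  have a1 := one_mono h1 (ps.mul h1 pV (fun _ => zero_le_one) (fun _ => zero_le_one) zc')
  have a2 := one_mono h1 (pc.mul h1 pV (fun _ => zero_le_one) (fun _ => zero_le_one) zs)
  have a3 := one_mono h1 (pc.mul h1 pV (fun _ => zero_le_one) (fun _ => zero_le_one) zc')
  have a4 := one_mono h1 (ps.mul h1 pV (fun _ => zero_le_one) (fun _ => zero_le_one) zs)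
  refine ⟨?_, ?_⟩
  · have := a1.add h1 a2
    convert this using 3 with x s
    rw [phi, Real.sin_add]
    ring
  · have := a3.sub h1 pV a4
    convert this using 3 with x s
    rw [phi, Real.cos_add]
    ring

lemma heta (h0 : S_FN) (h1 : S_CLS) (h3 : S_LIP) (hc : 0 < c1) (μ : Fin N) :
    B 2 (Par.V : Par D c1 C1 C2 → ℝ) (fun x => ‖x.A‖) (eta (C2 := C2) μ) := by
  refine B.cmul h1 pV (2 * Real.pi) (B.sum h1 pV Finset.univ _ fun j => ?_)
  refine B.cmul h1 pV _ ?_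
  exact (hE (D := D) (C1 := C1) (C2 := C2) h0 h1 h3 hc j).le (by norm_num)

lemma hD (h0 : S_FN) (h1 : S_CLS) (h2 : S_XI) (h3 : S_LIP) (hc : 0 < c1) (μ : Fin N) :
    B 2 (Par.V : Par D c1 C1 C2 → ℝ) (fun x => ‖x.A‖) (fun x s => Real.sin (phi (C2 := C2) μ x s + eta μ x s) -
      Real.sin (phi μ x s)) := by
  obtain ⟨fs, fc⟩ := hphi (D := D) (C1 := C1) (C2 := C2) h1 h2 hc μ
  obtain ⟨es, ec⟩ := (heta (D := D) (C1 := C1) (C2 := C2) h0 h1 h3 hc μ).small h1 pV nA (fun x => x.hA)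
  have a1 := (fs.mul h1 pV (fun _ => zero_le_one) nA ec).mono (σ := fun x => ‖x.A‖) h1 pV 1
    zero_le_one fun x => le_rfl
  have a2 := (fc.mul h1 pV (fun _ => zero_le_one) nA es).mono (σ := fun x => ‖x.A‖) h1 pV 1
    zero_le_one fun x => le_rfl
  have := a1.add h1 a2
  convert this using 3 with x s
  rw [Real.sin_add]
  ring

lemma hG (h0 : S_FN) (h1 : S_CLS) (h2 : S_XI) (h3 : S_LIP) (hc : 0 < c1) (i : Fin n) :
    B 2 (Par.V : Par D c1 C1 C2 → ℝ) (fun x => ‖x.A‖) (fun x s => D.grad (fun j => D.gam x.P x.v x.A s j) s i -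
      D.grad (fun j => x.P j + s * x.v j + xiF D c1 C1 C2 j x s) s i) := by
  have h := B.cmul h1 pV (-1) (B.sum h1 pV Finset.univ _ fun μ =>
    B.cmul h1 pV (D.c μ * (2 * Real.pi * D.k μ i)) (hD (D := D) (C1 := C1) (C2 := C2) h0 h1 h2 h3 hc μ))
  convert h using 3 with x s
  unfold Trig.grad
  have e1 : ∀ μ, D.phase μ (fun j => D.gam x.P x.v x.A s j) s = phi μ x s + eta μ x s := by
    intro μ
    simp only [gam_eq D c1 C1 C2 x s]
    rw [phase_add D μ x.P x.v (fun j => xiF D c1 C1 C2 j x s + EF D c1 C1 C2 j x s) s]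
    unfold phi eta
    simp only [mul_add, Finset.sum_add_distrib]
    ring
  have e2 : ∀ μ, D.phase μ (fun j => x.P j + s * x.v j + xiF D c1 C1 C2 j x s) s = phi μ x s := by
    intro μ
    rw [phase_add D μ x.P x.v (fun j => xiF D c1 C1 C2 j x s) s]
    rfl
  simp only [e1, e2]
  rw [neg_one_mul, neg_sub_neg, ← neg_sub, ← Finset.sum_sub_distrib]
  congr 1
  exact Finset.sum_congr rfl fun μ _ => by ring

lemma gam_d (h0 : S_FN) (h1 : S_CLS) (h2 : S_XI) (h3 : S_LIP) (hc : 0 < c1) (i : Fin n)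
    (x : Par D c1 C1 C2) : (deriv fun s => D.gam x.P x.v x.A s i) = fun s =>
      x.v i + (deriv (xiF D c1 C1 C2 i x) s + deriv (EF D c1 C1 C2 i x) s) := by
  have d1 : Differentiable ℝ (xiF D c1 C1 C2 i x) :=
    ((hX (D := D) (C1 := C1) (C2 := C2) h2 hc i).sm x).differentiable (by simp)
  have d2 : Differentiable ℝ (EF D c1 C1 C2 i x) :=
    ((hE (D := D) (C1 := C1) (C2 := C2) h0 h1 h3 hc i).sm x).differentiable (by simp)
  have e : (fun s => D.gam x.P x.v x.A s i) = fun s =>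
      x.P i + s * x.v i + (xiF D c1 C1 C2 i x s + EF D c1 C1 C2 i x s) := by
    funext s
    exact gam_eq D c1 C1 C2 x s i
  rw [e]
  funext s
  have := (((hasDerivAt_id s).mul_const (x.v i)).const_add (x.P i)).add
    ((d1 s).hasDerivAt.add (d2 s).hasDerivAt)
  have h := this.deriv
  rw [one_mul] at h
  exact h

lemma gam_dd (h0 : S_FN) (h1 : S_CLS) (h2 : S_XI) (h3 : S_LIP) (hc : 0 < c1) (i : Fin n)
    (x : Par D c1 C1 C2) : (deriv (deriv fun s => D.gam x.P x.v x.A s i)) = fun s =>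
      deriv (deriv (xiF D c1 C1 C2 i x)) s + deriv (deriv (EF D c1 C1 C2 i x)) s := by
  have d1 : Differentiable ℝ (deriv (xiF D c1 C1 C2 i x)) :=
    (sm_deriv ((hX (D := D) (C1 := C1) (C2 := C2) h2 hc i).sm x)).differentiable (by simp)
  have d2 : Differentiable ℝ (deriv (EF D c1 C1 C2 i x)) :=
    (sm_deriv ((hE (D := D) (C1 := C1) (C2 := C2) h0 h1 h3 hc i).sm x)).differentiable (by simp)
  rw [gam_d h0 h1 h2 h3 hc i x]
  funext s
  exact (((d1 s).hasDerivAt.add (d2 s).hasDerivAt).const_add (x.v i)).deriv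

lemma gam_sm (h0 : S_FN) (h1 : S_CLS) (h2 : S_XI) (h3 : S_LIP) (hc : 0 < c1) (i : Fin n)
    (x : Par D c1 C1 C2) : ContDiff ℝ ∞ fun s => D.gam x.P x.v x.A s i := by
  have e : (fun s => D.gam x.P x.v x.A s i) = fun s =>
      x.P i + s * x.v i + (xiF D c1 C1 C2 i x s + EF D c1 C1 C2 i x s) := by
    funext s
    exact gam_eq D c1 C1 C2 x s i
  rw [e]
  exact (contDiff_const.add (contDiff_id.mul contDiff_const)).add
    (((hX (D := D) (C1 := C1) (C2 := C2) h2 hc i).sm x).add ((hE (D := D) (C1 := C1) (C2 := C2) h0 h1 h3 hc i).sm x))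

lemma K1 (h0 : S_FN) (h1 : S_CLS) (h2 : S_XI) (h3 : S_LIP) (hc : 0 < c1) (i : Fin n) :
    B 2 (Par.V : Par D c1 C1 C2 → ℝ) (fun x => x.V) (fun x => deriv fun s => D.gam x.P x.v x.A s i) := by
  have e : (fun (x : Par D c1 C1 C2) => deriv fun s => D.gam x.P x.v x.A s i) = fun x s =>
      x.v i + (deriv (xiF D c1 C1 C2 i x) s + deriv (EF D c1 C1 C2 i x) s) := by
    funext x
    exact gam_d h0 h1 h2 h3 hc i x
  rw [e]
  refine (B.const h1 pV (fun x => x.v i) |C2| (abs_nonneg _) fun x => ?_).add h1 (B.add h1 ?_ ?_)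
  · have a1 := norm_le_pi_norm x.v i
    have a2 := x.hv
    have a3 : C2 * x.V ≤ |C2| * x.V :=
      mul_le_mul_of_nonneg_right (le_abs_self _) (by linarith [x.hV])
    rw [Real.norm_eq_abs] at a1
    linarith
  · refine (((hX (D := D) (C1 := C1) (C2 := C2) h2 hc i).le (by norm_num : 3 ≤ 4)).d).mono h1 pV 1 zero_le_one fun x => ?_
    have a1 := inv_le x 2
    exact mul_le_mul_of_nonneg_right a1 (by linarith [x.hV])
  · refine (((hE (D := D) (C1 := C1) (C2 := C2) h0 h1 h3 hc i).le (by norm_num : 3 ≤ 4)).d).mono h1 pV 1 zero_le_one fun x => ?_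
    exact mul_le_mul_of_nonneg_right x.hA (by linarith [x.hV])

lemma K2 (h0 : S_FN) (h2 : S_XI) (h3 : S_LIP) (hc : 0 < c1) (i : Fin n) :
    ∃ C : ℝ, 0 ≤ C ∧ ∀ x : Par D c1 C1 C2, ∀ s ∈ Icc (-1 : ℝ) 2,
      |D.gam x.P x.v x.A s i - (x.P i + s * x.v i + th s * x.A i)| ≤ C / x.V ^ 2 := by
  obtain ⟨C, hC, h⟩ := hX (D := D) (C1 := C1) (C2 := C2) h2 hc i
  obtain ⟨C', hC', h'⟩ := hL (D := D) (C1 := C1) (C2 := C2) h0 h3 hc i
  refine ⟨C + C', by positivity, fun x s hs => ?_⟩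
  have a1 := (h x).2 0 (by norm_num) s hs
  have a2 := (h' x).2 0 (by norm_num) s hs
  rw [iteratedDeriv_zero, pow_zero, mul_one] at a1 a2
  have e : D.gam x.P x.v x.A s i - (x.P i + s * x.v i + th s * x.A i) =
      xiF D c1 C1 C2 i x s + tp s * dxF D c1 C1 C2 i x s := by
    unfold Trig.gam xiF dxF
    ring
  rw [e]
  obtain ⟨t1, t2⟩ := h0.2.2.2.2.2.2.1 s
  have hV := x.hV
  have hA := x.hA
  have b1 : |tp s * dxF D c1 C1 C2 i x s| ≤ |dxF D c1 C1 C2 i x s| := by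
    rw [abs_mul, abs_of_nonneg t1]
    exact mul_le_of_le_one_left (abs_nonneg _) t2
  have b2 : C' * (‖x.A‖ / x.V ^ 2) ≤ C' / x.V ^ 2 := by
    rw [div_eq_mul_one_div C']
    refine mul_le_mul_of_nonneg_left ?_ hC'
    exact div_le_div_of_nonneg_right hA (by positivity)
  have b3 : C * (1 / x.V ^ 2) = C / x.V ^ 2 := by rw [mul_one_div]
  calc _ ≤ _ := abs_add_le _ _
    _ ≤ C / x.V ^ 2 + C' / x.V ^ 2 := by linarith
    _ = _ := by ring

lemma K3 (h0 : S_FN) (h1 : S_CLS) (h2 : S_XI) (h3 : S_LIP) (hc : 0 < c1) (i : Fin n) :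
    B 2 (Par.V : Par D c1 C1 C2 → ℝ) (fun x => ‖x.A‖ + 1 / x.V ^ 3) (fun x s =>
      deriv (deriv fun s => D.gam x.P x.v x.A s i) s -
        D.grad (fun j => D.gam x.P x.v x.A s j) s i) := by
  have pos1 : ∀ x : Par D c1 C1 C2, 0 ≤ 1 / x.V ^ 3 := fun x => by
    have := x.hV
    positivity
  have a1 := (hR (D := D) (C1 := C1) (C2 := C2) h2 hc i).mono
    (σ := fun x => ‖x.A‖ + 1 / x.V ^ 3) h1 pV 1 zero_le_one fun x => by
      have := nA x
      linarith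
  have a2 := (hE2 (D := D) (C1 := C1) (C2 := C2) h0 h1 h3 hc i).mono
    (σ := fun x => ‖x.A‖ + 1 / x.V ^ 3) h1 pV 1 zero_le_one fun x => by
      have := pos1 x
      linarith
  have a3 := (hG (D := D) (C1 := C1) (C2 := C2) h0 h1 h2 h3 hc i).mono
    (σ := fun x => ‖x.A‖ + 1 / x.V ^ 3) h1 pV 1 zero_le_one fun x => by
      have := pos1 x
      linarith
  have := (a1.add h1 a2).sub h1 pV a3
  convert this using 3 with x s
  rw [gam_dd h0 h1 h2 h3 hc i x]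
  ring

end

end Gam_

open Gam_ in
theorem gam_all (h0 : S_FN) (h1 : S_CLS) (h2 : S_XI) (h3 : S_LIP) : S_GAM := by
  intro n N D c1 C1 C2 hc
  have q1 := fun i => K1 (C1 := C1) (C2 := C2) (D := D) h0 h1 h2 h3 hc i
  have q2 := fun i => K2 (C1 := C1) (C2 := C2) (D := D) h0 h2 h3 hc i
  have q3 := fun i => K3 (C1 := C1) (C2 := C2) (D := D) h0 h1 h2 h3 hc i
  choose A1 A1p A1h using q1
  choose A2 A2p A2h using q2
  choose A3 A3p A3h using q3
  have hi : ∀ i, A1 i + A2 i + A3 i ≤ ∑ j, (A1 j + A2 j + A3 j) := fun i =>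
    Finset.single_le_sum (f := fun j => A1 j + A2 j + A3 j)
      (fun j _ => by have := A1p j; have := A2p j; have := A3p j; positivity) (Finset.mem_univ i)
  have hn : 0 ≤ ∑ j, (A1 j + A2 j + A3 j) :=
    Finset.sum_nonneg fun j _ => by have := A1p j; have := A2p j; have := A3p j; positivity
  refine ⟨1 + ∑ j, (A1 j + A2 j + A3 j), by linarith, ?_⟩
  intro V P v A hV hA hv n1 n2 i
  let x : Par D c1 C1 C2 := ⟨V, P, v, A, hV, hA, hv, n1, n2⟩
  have p1 := A1p i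
  have p2 := A2p i
  have p3 := A3p i
  have hi' := hi i
  refine ⟨gam_sm h0 h1 h2 h3 hc i x, ?_, ?_, ?_⟩
  · refine h1.1 _ _ _ _ _ (by linarith) ?_ (A1h i x)
    exact mul_le_mul_of_nonneg_right (by linarith) (by linarith)
  · intro s hs
    refine (A2h i x s hs).trans ?_
    exact div_le_div_of_nonneg_right (by linarith) (by positivity)
  · refine h1.1 _ _ _ _ _ (by linarith) ?_ (A3h i x)
    exact mul_le_mul_of_nonneg_right (by linarith) (by positivity)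

end Pool.Agent.N980.TL
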