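import Pool.Agent.N980.TL.Stm3

/-!
# Leaf LAM: the linear change of coordinates (written by helper524)
-/

set_option autoImplicit false

namespace Pool.Agent.N980.TL

namespace Lam

/-- the coordinates of the map: `L 0 z = z 0`, `L (i + 1) z = M (L i z) - z (i + 1)` -/
noncomputable def L (r M : ℕ) : ℕ → ((Fin (r + 2) → ℝ) →ₗ[ℝ] ℝ)
  | 0 => LinearMap.proj 0
  | i + 1 => (M : ℝ) • L r M i - LinearMap.proj (Fin.ofNat (r + 2) (i + 1))

lemma L_succ (r M i : ℕ) (z : Fin (r + 2) → ℝ) :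
    L r M (i + 1) z = (M : ℝ) * L r M i z - z (Fin.ofNat (r + 2) (i + 1)) := rfl

lemma ofNat_succ {r : ℕ} (i : Fin (r + 1)) : Fin.ofNat (r + 2) ((i : ℕ) + 1) = i.succ := by
  apply Fin.ext
  have h : ((Fin.ofNat (r + 2) ((i : ℕ) + 1)) : ℕ) = ((i : ℕ) + 1) % (r + 2) := rfl
  rw [h, Fin.val_succ, Nat.mod_eq_of_lt (by omega)]

lemma L_single (r M : ℕ) : ∀ i : ℕ, i < r + 2 → L r M i (Pi.single 0 1) = (M : ℝ) ^ i := by
  intro i
  induction i with
  | zero =>
    intro _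
    show (Pi.single 0 1 : Fin (r + 2) → ℝ) 0 = _
    simp
  | succ i ih =>
    intro hi
    rw [L_succ, ih (by omega)]
    have h : Fin.ofNat (r + 2) (i + 1) = (⟨i, by omega⟩ : Fin (r + 1)).succ :=
      ofNat_succ ⟨i, by omega⟩
    rw [h, Pi.single_eq_of_ne (Fin.succ_ne_zero _), sub_zero, pow_succ, mul_comm]

end Lam

open Lam in
theorem lam_all : S_LAM := by
  intro r M
  let Λ : (Fin (r + 2) → ℝ) →ₗ[ℝ] (Fin (r + 2) → ℝ) := LinearMap.pi fun i => L r M (i : ℕ)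
  refine ⟨Λ, max 1 ‖LinearMap.toContinuousLinearMap Λ‖, le_max_left _ _, fun z => rfl,
    fun z i => ?_, fun i => L_single r M i i.2, fun z => ?_⟩
  · have h : Λ z i.succ = (M : ℝ) * Λ z i.castSucc - z (Fin.ofNat (r + 2) ((i : ℕ) + 1)) := rfl
    rw [h, ofNat_succ]
    ring
  · have h : ‖LinearMap.toContinuousLinearMap Λ z‖ ≤ ‖LinearMap.toContinuousLinearMap Λ‖ * ‖z‖ :=
      (LinearMap.toContinuousLinearMap Λ).le_opNorm z
    exact h.trans (mul_le_mul_of_nonneg_right (le_max_right _ _) (norm_nonneg z))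

end Pool.Agent.N980.TL
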