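import Pool.Agent.N980.TL.Stm3

/-!
# TL3, leaf LIP: dependence of the correction on the line (helper327)
-/

set_option autoImplicit false
set_option linter.unusedSectionVars false

open Set Filter Topology MeasureTheory
open scoped ContDiff

noncomputable section

namespace Pool.Agent.N980.TL

namespace Lip

/-- the data of one step -/
structure Q (n : ℕ) where
  V : ℝ
  kp : ℝ
  P : Fin n → ℝ
  v : Fin n → ℝ
  A : Fin n → ℝ

variable {n N : ℕ}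

/-- valid data -/
def Vd (D : Trig n N) (c1 C1 : ℝ) (q : Q n) : Prop :=
  1 ≤ q.V ∧ 0 ≤ q.kp ∧ q.kp ≤ 1 ∧ ‖q.A‖ ≤ 1 ∧ D.NR c1 C1 q.V q.v ∧ D.NR c1 C1 q.V (q.v + q.A)

/-- `F = O(V ^ (-p))`, `F' - F = O(‖A‖ V ^ (-p))` -/
def UP (D : Trig n N) (c1 C1 : ℝ) (p : ℕ) (F F' : Q n → ℝ → ℝ) : Prop :=
  ∃ K : ℝ, 1 ≤ K ∧ ∀ q, Vd D c1 C1 q → Cls 4 q.V (K / q.V ^ p) (F q) ∧
    Cls 4 q.V (K * ‖q.A‖ / q.V ^ p) (fun s => F' q s - F q s)

theorem cls_id {V : ℝ} (hV : 1 ≤ V) (m : ℕ) : Cls m V 2 (fun s => s) := by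
  refine ⟨contDiff_id, fun i _ s hs => ?_⟩
  rcases i with _ | i
  · rw [iteratedDeriv_zero, pow_zero, mul_one, abs_le]
    constructor <;> linarith [hs.1, hs.2]
  · rw [iteratedDeriv_succ']
    have h1 : deriv (fun s : ℝ => s) = fun _ => (1 : ℝ) := by
      funext x
      exact deriv_id x
    rw [h1, iteratedDeriv_const]
    have h2 : 1 ≤ V ^ (i + 1) := one_le_pow₀ hV
    split_ifs
    · rw [abs_one]
      linarith
    · rw [abs_zero]
      linarith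

variable {D : Trig n N} {c1 C1 : ℝ}

theorem up_le (h : S_CLS) {p p' : ℕ} (hp : p' ≤ p) {F F' : Q n → ℝ → ℝ}
    (hF : UP D c1 C1 p F F') : UP D c1 C1 p' F F' := by
  obtain ⟨K, hK, hF⟩ := hF
  refine ⟨K, hK, fun q hq => ?_⟩
  obtain ⟨h1, h2⟩ := hF q hq
  have hV := hq.1
  have hV0 : 0 ≤ q.V := by linarith
  have hpow : q.V ^ p' ≤ q.V ^ p := pow_le_pow_right₀ hV hp
  have hpos : 0 < q.V ^ p' := by positivity
  have hA := norm_nonneg q.A
  refine ⟨h.1 _ _ _ _ _ hV0 ?_ h1, h.1 _ _ _ _ _ hV0 ?_ h2⟩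
  · exact div_le_div_of_nonneg_left (by linarith) hpos hpow
  · exact div_le_div_of_nonneg_left (by positivity) hpos hpow

theorem up_add (h : S_CLS) {p : ℕ} {F F' G G' : Q n → ℝ → ℝ}
    (hF : UP D c1 C1 p F F') (hG : UP D c1 C1 p G G') :
    UP D c1 C1 p (fun q s => F q s + G q s) (fun q s => F' q s + G' q s) := by
  obtain ⟨K, hK, hF⟩ := hF
  obtain ⟨L, hL, hG⟩ := hG
  refine ⟨K + L, by linarith, fun q hq => ?_⟩
  obtain ⟨f1, f2⟩ := hF q hq
  obtain ⟨g1, g2⟩ := hG q hq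
  constructor
  · have h3 := h.2.2.1 _ _ _ _ _ _ f1 g1
    rwa [← add_div] at h3
  · have h3 := h.2.2.1 _ _ _ _ _ _ f2 g2
    rw [← add_div, ← add_mul] at h3
    have e2 : (fun s => F' q s - F q s + (G' q s - G q s)) =
        fun s => F' q s + G' q s - (F q s + G q s) := by
      funext s
      ring
    rwa [e2] at h3

theorem up_mul (h : S_CLS) {p r : ℕ} {F F' G G' : Q n → ℝ → ℝ}
    (hF : UP D c1 C1 p F F') (hG : UP D c1 C1 r G G') :
    UP D c1 C1 (p + r) (fun q s => F q s * G q s) (fun q s => F' q s * G' q s) := by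
  obtain ⟨K, hK, hF⟩ := hF
  obtain ⟨L, hL, hG⟩ := hG
  have hKL : 1 ≤ K * L := by nlinarith
  refine ⟨48 * (K * L), by linarith, fun q hq => ?_⟩
  obtain ⟨f1, f2⟩ := hF q hq
  obtain ⟨g1, g2⟩ := hG q hq
  have hV := hq.1
  have hV0 : 0 ≤ q.V := by linarith
  have hVp : 0 < q.V ^ p := by positivity
  have hVr : 0 < q.V ^ r := by positivity
  have hA := norm_nonneg q.A
  have hA1 := hq.2.2.2.1
  have hK0 : 0 ≤ K := by linarith
  have hL0 : 0 ≤ L := by linarith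
  have e0 : q.V ^ (p + r) = q.V ^ p * q.V ^ r := pow_add _ _ _
  constructor
  · have h3 := h.2.2.2.2.1 4 q.V _ _ _ _ hV0 (by positivity) (by positivity) f1 g1
    refine h.1 _ _ _ _ _ hV0 ?_ h3
    have e1 : 2 ^ 4 * (K / q.V ^ p) * (L / q.V ^ r) = 16 * (K * L) / q.V ^ (p + r) := by
      rw [e0]
      field_simp
      ring
    rw [e1]
    refine div_le_div_of_nonneg_right ?_ (by positivity)
    linarith
  · have g3 := h.2.2.1 _ _ _ _ _ _ g1 g2
    have e2 : (fun s => G q s + (G' q s - G q s)) = G' q := by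
      funext s
      ring
    rw [e2] at g3
    have g4 : Cls 4 q.V (2 * L / q.V ^ r) (G' q) := by
      refine h.1 _ _ _ _ _ hV0 ?_ g3
      rw [← add_div]
      refine div_le_div_of_nonneg_right ?_ (by positivity)
      nlinarith
    have h4 := h.2.2.2.2.1 4 q.V _ _ _ _ hV0 (by positivity) (by positivity) f2 g4
    have h5 := h.2.2.2.2.1 4 q.V _ _ _ _ hV0 (by positivity) (by positivity) f1 g2
    have h6 := h.2.2.1 _ _ _ _ _ _ h4 h5
    have e3 : (fun s => (F' q s - F q s) * G' q s + F q s * (G' q s - G q s)) =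
        fun s => F' q s * G' q s - F q s * G q s := by
      funext s
      ring
    rw [e3] at h6
    have e4 : 2 ^ 4 * (K * ‖q.A‖ / q.V ^ p) * (2 * L / q.V ^ r) +
        2 ^ 4 * (K / q.V ^ p) * (L * ‖q.A‖ / q.V ^ r) =
        48 * (K * L) * ‖q.A‖ / q.V ^ (p + r) := by
      rw [e0]
      field_simp
      ring
    rwa [e4] at h6

theorem up_zero (h : S_CLS) (p : ℕ) : UP D c1 C1 p (fun _ _ => 0) (fun _ _ => 0) := by
  refine ⟨1, le_rfl, fun q hq => ?_⟩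
  have hV := hq.1
  have hV0 : 0 ≤ q.V := by linarith
  have hA := norm_nonneg q.A
  have h1 := h.2.1 4 q.V 0 hV0
  rw [abs_zero] at h1
  refine ⟨h.1 _ _ _ _ _ hV0 (by positivity) h1, ?_⟩
  simp only [sub_self]
  exact h.1 _ _ _ _ _ hV0 (by positivity) h1

theorem up_const (h : S_CLS) (x : ℝ) : UP D c1 C1 0 (fun _ _ => x) (fun _ _ => x) := by
  refine ⟨|x| + 1, by linarith [abs_nonneg x], fun q hq => ?_⟩
  have hV := hq.1
  have hV0 : 0 ≤ q.V := by linarith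
  have hA := norm_nonneg q.A
  have h1 := h.2.1 4 q.V 0 hV0
  rw [abs_zero] at h1
  have h2 := h.2.1 4 q.V x hV0
  refine ⟨h.1 _ _ _ _ _ hV0 ?_ h2, ?_⟩
  · rw [pow_zero, div_one]
    linarith
  · simp only [sub_self]
    exact h.1 _ _ _ _ _ hV0 (by positivity) h1

theorem up_cmul (h : S_CLS) (x : ℝ) {p : ℕ} {F F' : Q n → ℝ → ℝ} (hF : UP D c1 C1 p F F') :
    UP D c1 C1 p (fun q s => x * F q s) (fun q s => x * F' q s) := by
  have h1 := up_mul h (up_const h x) hF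
  rw [zero_add] at h1
  exact h1

theorem up_sub (h : S_CLS) {p : ℕ} {F F' G G' : Q n → ℝ → ℝ}
    (hF : UP D c1 C1 p F F') (hG : UP D c1 C1 p G G') :
    UP D c1 C1 p (fun q s => F q s - G q s) (fun q s => F' q s - G' q s) := by
  have h1 := up_add h hF (up_cmul h (-1) hG)
  have e1 : (fun (q : Q n) s => F q s + -1 * G q s) = fun q s => F q s - G q s := by
    funext q s
    ring
  have e2 : (fun (q : Q n) s => F' q s + -1 * G' q s) = fun q s => F' q s - G' q s := by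
    funext q s
    ring
  rwa [e1, e2] at h1

theorem up_sum (h : S_CLS) {p : ℕ} {ι : Type} (S : Finset ι) (F F' : ι → Q n → ℝ → ℝ)
    (hF : ∀ j ∈ S, UP D c1 C1 p (F j) (F' j)) :
    UP D c1 C1 p (fun q s => ∑ j ∈ S, F j q s) (fun q s => ∑ j ∈ S, F' j q s) := by
  classical
  induction S using Finset.induction_on with
  | empty =>
    simp only [Finset.sum_empty]
    exact up_zero h p
  | insert a S ha ih =>
    simp only [Finset.sum_insert ha]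
    exact up_add h (hF a (Finset.mem_insert_self a S))
      (ih fun j hj => hF j (Finset.mem_insert_of_mem hj))

theorem up_inv (h : S_CLS) (hc : 0 < c1) (K₀ : ℝ) (hK₀ : 0 ≤ K₀) (X X' : Q n → ℝ)
    (hX : ∀ q, Vd D c1 C1 q → c1 * q.V ≤ |X q| ∧ c1 * q.V ≤ |X' q| ∧
      |X' q - X q| ≤ K₀ * ‖q.A‖) :
    UP D c1 C1 1 (fun q _ => (X q)⁻¹) (fun q _ => (X' q)⁻¹) := by
  refine ⟨1 + 1 / c1 + K₀ / c1 ^ 2, ?_, fun q hq => ?_⟩
  · have h1 : 0 ≤ 1 / c1 := by positivity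
    have h2 : 0 ≤ K₀ / c1 ^ 2 := by positivity
    linarith
  · have hV := hq.1
    have hV0 : 0 ≤ q.V := by linarith
    have hVp : 0 < q.V := by linarith
    have hA := norm_nonneg q.A
    obtain ⟨h1, h2, h3⟩ := hX q hq
    have hcV : 0 < c1 * q.V := by positivity
    have hXp : 0 < |X q| := lt_of_lt_of_le hcV h1
    have hXp' : 0 < |X' q| := lt_of_lt_of_le hcV h2
    have hX0 : X q ≠ 0 := abs_pos.1 hXp
    have hX0' : X' q ≠ 0 := abs_pos.1 hXp'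
    have k1 : 0 ≤ 1 / c1 := by positivity
    have k2 : 0 ≤ K₀ / c1 ^ 2 := by positivity
    constructor
    · refine h.1 _ _ _ _ _ hV0 ?_ (h.2.1 4 q.V _ hV0)
      rw [abs_inv, pow_one]
      calc |X q|⁻¹ ≤ (c1 * q.V)⁻¹ := inv_anti₀ hcV h1
        _ = (1 / c1) / q.V := by field_simp
        _ ≤ _ := div_le_div_of_nonneg_right (by linarith) hV0
    · refine h.1 _ _ _ _ _ hV0 ?_ (h.2.1 4 q.V ((X' q)⁻¹ - (X q)⁻¹) hV0)
      have e1 : (X' q)⁻¹ - (X q)⁻¹ = -(X' q - X q) * ((X q)⁻¹ * (X' q)⁻¹) := by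
        field_simp
        ring
      rw [e1, abs_mul, abs_neg, abs_mul, abs_inv, abs_inv, pow_one]
      have e2 : |X q|⁻¹ * |X' q|⁻¹ ≤ (c1 * q.V)⁻¹ * (c1 * q.V)⁻¹ :=
        mul_le_mul (inv_anti₀ hcV h1) (inv_anti₀ hcV h2) (by positivity) (by positivity)
      calc |X' q - X q| * (|X q|⁻¹ * |X' q|⁻¹) ≤
            (K₀ * ‖q.A‖) * ((c1 * q.V)⁻¹ * (c1 * q.V)⁻¹) :=
            mul_le_mul h3 e2 (by positivity) (by positivity)
        _ = (K₀ / c1 ^ 2) * ‖q.A‖ / (q.V * q.V) := by field_simp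
        _ ≤ (K₀ / c1 ^ 2) * ‖q.A‖ / q.V := by
            refine div_le_div_of_nonneg_left (by positivity) hVp ?_
            nlinarith
        _ ≤ _ := by
            refine div_le_div_of_nonneg_right ?_ hV0
            refine mul_le_mul_of_nonneg_right ?_ hA
            linarith

/-- the sine of a phase -/
theorem up_sin (h : S_CLS) (K : ℝ) (hK : 1 ≤ K) (p w e : Q n → ℝ) (m : ℤ)
    (Φ Φ' : Q n → ℝ → ℝ) (hΦ : ∀ q s, Φ q s = p q + w q * s)
    (hΦ' : ∀ q s, Φ' q s = Φ q s - m * (2 * Real.pi) + e q * (q.kp + s - 1))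
    (hw : ∀ q, Vd D c1 C1 q → |w q| ≤ K * q.V ∧ |e q| ≤ K * ‖q.A‖) :
    UP D c1 C1 0 (fun q s => Real.sin (Φ q s)) (fun q s => Real.sin (Φ' q s)) := by
  obtain ⟨C, hC, hCl⟩ := h.2.2.2.2.2.2.1 4 (3 * K) (by linarith)
  have hK0 : 0 ≤ K := by linarith
  have hC0 : 0 ≤ C := by linarith
  have hK4 : 1 ≤ K ^ 4 := one_le_pow₀ hK
  refine ⟨K ^ 4 + 16 * K ^ 4 * (C * (9 * K ^ 2)) + 16 * K ^ 4 * (C * (3 * K)), ?_, fun q hq => ?_⟩
  · have h1 : 0 ≤ 16 * K ^ 4 * (C * (9 * K ^ 2)) := by positivity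
    have h2 : 0 ≤ 16 * K ^ 4 * (C * (3 * K)) := by positivity
    linarith
  · have hV := hq.1
    have hV0 : 0 ≤ q.V := by linarith
    have hA := norm_nonneg q.A
    have hA1 := hq.2.2.2.1
    obtain ⟨h1, h2⟩ := hw q hq
    obtain ⟨hs, hc⟩ := h.2.2.2.2.2.1 4 K hK q.V (w q) (p q) hV h1
    have k1 : 0 ≤ 16 * K ^ 4 * (C * (9 * K ^ 2)) := by positivity
    have k2 : 0 ≤ 16 * K ^ 4 * (C * (3 * K)) := by positivity
    -- the increment
    have hδ : Cls 4 q.V (3 * K * ‖q.A‖) (fun s => e q * (q.kp - 1) + e q * s) := by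
      have d1 := h.2.1 4 q.V (e q * (q.kp - 1)) hV0
      have d2 := h.2.2.2.1 4 q.V 2 (e q) _ hV0 (cls_id hV 4)
      refine h.1 _ _ _ _ _ hV0 ?_ (h.2.2.1 _ _ _ _ _ _ d1 d2)
      rw [abs_mul]
      have d3 : |q.kp - 1| ≤ 1 := by
        rw [abs_le]
        constructor <;> linarith [hq.2.1, hq.2.2.1]
      have d4 : |e q| * |q.kp - 1| ≤ |e q| * 1 := mul_le_mul_of_nonneg_left d3 (abs_nonneg _)
      linarith
    have hρ1 : 3 * K * ‖q.A‖ ≤ 3 * K := by nlinarith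
    obtain ⟨q1, q2, -⟩ := hCl q.V (3 * K * ‖q.A‖) _ hV (by positivity) hρ1 hδ
    have m1 := h.2.2.2.2.1 4 q.V _ _ _ _ hV0 (by positivity) (by positivity) hs q2
    have m2 := h.2.2.2.2.1 4 q.V _ _ _ _ hV0 (by positivity) (by positivity) hc q1
    have m3 := h.2.2.1 _ _ _ _ _ _ m1 m2
    have e3 : (fun s => Real.sin (p q + w q * s) *
          (Real.cos (e q * (q.kp - 1) + e q * s) - 1) +
        Real.cos (p q + w q * s) * Real.sin (e q * (q.kp - 1) + e q * s)) =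
        fun s => Real.sin (Φ' q s) - Real.sin (Φ q s) := by
      funext s
      have e4 : Φ' q s = (p q + w q * s) + (e q * (q.kp - 1) + e q * s) - m * (2 * Real.pi) := by
        rw [hΦ', hΦ]
        ring
      rw [e4, Real.sin_sub_int_mul_two_pi,
        Real.sin_add (p q + w q * s) (e q * (q.kp - 1) + e q * s), hΦ]
      ring
    rw [e3] at m3
    constructor
    · have e5 : (fun s => Real.sin (Φ q s)) = fun s => Real.sin (p q + w q * s) := by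
        funext s
        rw [hΦ q s]
      show Cls 4 q.V _ (fun s => Real.sin (Φ q s))
      rw [e5]
      refine h.1 _ _ _ _ _ hV0 ?_ hs
      rw [pow_zero, div_one]
      linarith
    · refine h.1 _ _ _ _ _ hV0 ?_ m3
      rw [pow_zero, div_one]
      have e6 : (3 * K * ‖q.A‖) ^ 2 ≤ 9 * K ^ 2 * ‖q.A‖ := by
        have : ‖q.A‖ ^ 2 ≤ ‖q.A‖ := by nlinarith
        calc (3 * K * ‖q.A‖) ^ 2 = 9 * K ^ 2 * ‖q.A‖ ^ 2 := by ring
          _ ≤ 9 * K ^ 2 * ‖q.A‖ := mul_le_mul_of_nonneg_left this (by positivity)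
      have e7 : 2 ^ 4 * K ^ 4 * (C * (3 * K * ‖q.A‖) ^ 2) ≤
          16 * K ^ 4 * (C * (9 * K ^ 2)) * ‖q.A‖ := by
        calc 2 ^ 4 * K ^ 4 * (C * (3 * K * ‖q.A‖) ^ 2) ≤
              2 ^ 4 * K ^ 4 * (C * (9 * K ^ 2 * ‖q.A‖)) := by gcongr
          _ = _ := by ring
      have e8 : 2 ^ 4 * K ^ 4 * (C * (3 * K * ‖q.A‖)) = 16 * K ^ 4 * (C * (3 * K)) * ‖q.A‖ := by
        ring
      have e9 : 0 ≤ K ^ 4 * ‖q.A‖ := by positivity
      rw [e8]
      calc _ ≤ 16 * K ^ 4 * (C * (9 * K ^ 2)) * ‖q.A‖ + 16 * K ^ 4 * (C * (3 * K)) * ‖q.A‖ := by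
            linarith
        _ ≤ _ := by
            rw [add_mul, add_mul]
            linarith


/-! ### The correction -/

/-- the change of the frequency -/
def ee (D : Trig n N) (μ : Fin N) (q : Q n) : ℝ := 2 * Real.pi * ∑ i, (D.k μ i : ℝ) * q.A i

theorem fr_add (D : Trig n N) (μ : Fin N) (q : Q n) :
    D.fr μ (q.v + q.A) = D.fr μ q.v + ee D μ q := by
  unfold Trig.fr ee
  simp only [Pi.add_apply, mul_add, Finset.sum_add_distrib]
  ring

theorem pl_eq (D : Trig n N) (μ : Fin N) (q : Q n) (s : ℝ) :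
    D.pl μ (q.P + q.v + q.kp • q.A) (q.v + q.A) (s - 1) =
      D.pl μ q.P q.v s - (D.m μ : ℝ) * (2 * Real.pi) + ee D μ q * (q.kp + s - 1) := by
  unfold Trig.pl
  rw [fr_add]
  have h1 : ∑ i, (D.k μ i : ℝ) * (q.P + q.v + q.kp • q.A) i =
      ∑ i, (D.k μ i : ℝ) * q.P i + ∑ i, (D.k μ i : ℝ) * q.v i +
        q.kp * ∑ i, (D.k μ i : ℝ) * q.A i := by
    rw [Finset.mul_sum, ← Finset.sum_add_distrib, ← Finset.sum_add_distrib]
    refine Finset.sum_congr rfl fun i _ => ?_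
    simp only [Pi.add_apply, Pi.smul_apply, smul_eq_mul]
    ring
  have h2 : 2 * Real.pi * ∑ i, (D.k μ i : ℝ) * q.v i = D.fr μ q.v - 2 * Real.pi * D.m μ := by
    unfold Trig.fr
    ring
  have h3 : 2 * Real.pi * ∑ i, (D.k μ i : ℝ) * q.A i = ee D μ q := rfl
  rw [h1, mul_add, mul_add, h2]
  have h4 : 2 * Real.pi * (q.kp * ∑ i, (D.k μ i : ℝ) * q.A i) = q.kp * ee D μ q := by
    rw [← h3]
    ring
  rw [h4]
  ring

theorem ee_le (D : Trig n N) (μ : Fin N) (q : Q n) :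
    |ee D μ q| ≤ (2 * Real.pi * ∑ i, |(D.k μ i : ℝ)|) * ‖q.A‖ := by
  unfold ee
  rw [abs_mul, abs_of_pos Real.two_pi_pos, mul_assoc (2 * Real.pi) (∑ i, |(D.k μ i : ℝ)|) ‖q.A‖]
  refine mul_le_mul_of_nonneg_left ?_ Real.two_pi_pos.le
  rw [Finset.sum_mul]
  refine (Finset.abs_sum_le_sum_abs _ _).trans (Finset.sum_le_sum fun i _ => ?_)
  rw [abs_mul]
  refine mul_le_mul_of_nonneg_left ?_ (abs_nonneg _)
  exact norm_le_pi_norm q.A i

/-- a common constant -/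
def KK (D : Trig n N) (C1 : ℝ) : ℝ := 1 + |C1| + ∑ μ, 2 * Real.pi * ∑ i, |(D.k μ i : ℝ)|

theorem kk_one (D : Trig n N) (C1 : ℝ) : 1 ≤ KK D C1 := by
  unfold KK
  have h1 : 0 ≤ ∑ μ, 2 * Real.pi * ∑ i, |(D.k μ i : ℝ)| :=
    Finset.sum_nonneg fun μ _ => mul_nonneg Real.two_pi_pos.le
      (Finset.sum_nonneg fun i _ => abs_nonneg _)
  linarith [abs_nonneg C1]

theorem ee_kk (D : Trig n N) (C1 : ℝ) (μ : Fin N) (q : Q n) :
    |ee D μ q| ≤ KK D C1 * ‖q.A‖ := by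
  refine (ee_le D μ q).trans (mul_le_mul_of_nonneg_right ?_ (norm_nonneg _))
  unfold KK
  have h1 : 2 * Real.pi * ∑ i, |(D.k μ i : ℝ)| ≤ ∑ μ, 2 * Real.pi * ∑ i, |(D.k μ i : ℝ)| :=
    Finset.single_le_sum (f := fun μ => 2 * Real.pi * ∑ i, |(D.k μ i : ℝ)|)
      (fun μ _ => mul_nonneg Real.two_pi_pos.le (Finset.sum_nonneg fun i _ => abs_nonneg _))
      (Finset.mem_univ μ)
  linarith [abs_nonneg C1]

theorem fr_kk (hc : 0 < c1) {q : Q n} (hq : Vd D c1 C1 q) (μ : Fin N) :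
    |D.fr μ q.v| ≤ KK D C1 * q.V := by
  have hV := hq.1
  obtain ⟨h1, h2⟩ := hq.2.2.2.2.1.1 μ
  have h0 : 0 < c1 * q.V := by positivity
  rw [abs_of_pos (lt_of_lt_of_le h0 h1)]
  refine h2.trans (mul_le_mul_of_nonneg_right ?_ (by linarith))
  unfold KK
  have h3 : 0 ≤ ∑ μ, 2 * Real.pi * ∑ i, |(D.k μ i : ℝ)| :=
    Finset.sum_nonneg fun μ _ => mul_nonneg Real.two_pi_pos.le
      (Finset.sum_nonneg fun i _ => abs_nonneg _)
  linarith [le_abs_self C1]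

theorem up_pl (h : S_CLS) (hc : 0 < c1) (μ : Fin N) :
    UP D c1 C1 0 (fun q s => Real.sin (D.pl μ q.P q.v s))
      (fun q s => Real.sin (D.pl μ (q.P + q.v + q.kp • q.A) (q.v + q.A) (s - 1))) :=
  up_sin h (KK D C1) (kk_one D C1)
    (fun q => 2 * Real.pi * (∑ i, (D.k μ i : ℝ) * q.P i) + D.ph μ) (fun q => D.fr μ q.v)
    (fun q => ee D μ q) (D.m μ) (fun q s => D.pl μ q.P q.v s)
    (fun q s => D.pl μ (q.P + q.v + q.kp • q.A) (q.v + q.A) (s - 1)) (fun q s => rfl)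
    (fun q s => pl_eq D μ q s) (fun q hq => ⟨fr_kk hc hq μ, ee_kk D C1 μ q⟩)

theorem up_pl_add (h : S_CLS) (hc : 0 < c1) (μ ν : Fin N) :
    UP D c1 C1 0 (fun q s => Real.sin (D.pl ν q.P q.v s + D.pl μ q.P q.v s))
      (fun q s => Real.sin (D.pl ν (q.P + q.v + q.kp • q.A) (q.v + q.A) (s - 1) +
        D.pl μ (q.P + q.v + q.kp • q.A) (q.v + q.A) (s - 1))) := by
  refine up_sin h (2 * KK D C1) (by linarith [kk_one D C1])
    (fun q => (2 * Real.pi * (∑ i, (D.k ν i : ℝ) * q.P i) + D.ph ν) +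
      (2 * Real.pi * (∑ i, (D.k μ i : ℝ) * q.P i) + D.ph μ))
    (fun q => D.fr ν q.v + D.fr μ q.v)
    (fun q => ee D ν q + ee D μ q) (D.m ν + D.m μ) (fun q s => D.pl ν q.P q.v s + D.pl μ q.P q.v s)
    (fun q s => D.pl ν (q.P + q.v + q.kp • q.A) (q.v + q.A) (s - 1) +
      D.pl μ (q.P + q.v + q.kp • q.A) (q.v + q.A) (s - 1)) (fun q s => ?_) (fun q s => ?_)
    (fun q hq => ⟨?_, ?_⟩)
  · unfold Trig.pl
    ring
  · simp only [pl_eq]
    push_cast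
    ring
  · refine (abs_add_le _ _).trans ?_
    linarith [fr_kk hc hq ν, fr_kk hc hq μ]
  · refine (abs_add_le _ _).trans ?_
    linarith [ee_kk D C1 ν q, ee_kk D C1 μ q]

theorem up_pl_sub (h : S_CLS) (hc : 0 < c1) (μ ν : Fin N) :
    UP D c1 C1 0 (fun q s => Real.sin (D.pl ν q.P q.v s - D.pl μ q.P q.v s))
      (fun q s => Real.sin (D.pl ν (q.P + q.v + q.kp • q.A) (q.v + q.A) (s - 1) -
        D.pl μ (q.P + q.v + q.kp • q.A) (q.v + q.A) (s - 1))) := by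
  refine up_sin h (2 * KK D C1) (by linarith [kk_one D C1])
    (fun q => (2 * Real.pi * (∑ i, (D.k ν i : ℝ) * q.P i) + D.ph ν) -
      (2 * Real.pi * (∑ i, (D.k μ i : ℝ) * q.P i) + D.ph μ))
    (fun q => D.fr ν q.v - D.fr μ q.v)
    (fun q => ee D ν q - ee D μ q) (D.m ν - D.m μ) (fun q s => D.pl ν q.P q.v s - D.pl μ q.P q.v s)
    (fun q s => D.pl ν (q.P + q.v + q.kp • q.A) (q.v + q.A) (s - 1) -
      D.pl μ (q.P + q.v + q.kp • q.A) (q.v + q.A) (s - 1)) (fun q s => ?_) (fun q s => ?_)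
    (fun q hq => ⟨?_, ?_⟩)
  · unfold Trig.pl
    ring
  · simp only [pl_eq]
    push_cast
    ring
  · refine (abs_sub _ _).trans ?_
    linarith [fr_kk hc hq ν, fr_kk hc hq μ]
  · refine (abs_sub _ _).trans ?_
    linarith [ee_kk D C1 ν q, ee_kk D C1 μ q]

theorem up_fr (h : S_CLS) (hc : 0 < c1) (μ : Fin N) :
    UP D c1 C1 2 (fun q _ => (D.fr μ q.v)⁻¹ * (D.fr μ q.v)⁻¹)
      (fun q _ => (D.fr μ (q.v + q.A))⁻¹ * (D.fr μ (q.v + q.A))⁻¹) := by
  have h1 := up_inv (D := D) (C1 := C1) h hc (KK D C1) (by linarith [kk_one D C1])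
    (fun q => D.fr μ q.v) (fun q => D.fr μ (q.v + q.A)) (fun q hq => ⟨?_, ?_, ?_⟩)
  · exact up_mul h h1 h1
  · exact (hq.2.2.2.2.1.1 μ).1.trans (le_abs_self _)
  · exact (hq.2.2.2.2.2.1 μ).1.trans (le_abs_self _)
  · rw [fr_add, add_sub_cancel_left]
    exact ee_kk D C1 μ q

theorem up_fr_add (h : S_CLS) (hc : 0 < c1) (μ ν : Fin N) :
    UP D c1 C1 2 (fun q _ => (D.fr ν q.v + D.fr μ q.v)⁻¹ * (D.fr ν q.v + D.fr μ q.v)⁻¹)
      (fun q _ => (D.fr ν (q.v + q.A) + D.fr μ (q.v + q.A))⁻¹ *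
        (D.fr ν (q.v + q.A) + D.fr μ (q.v + q.A))⁻¹) := by
  have h1 := up_inv (D := D) (C1 := C1) h hc (2 * KK D C1) (by linarith [kk_one D C1])
    (fun q => D.fr ν q.v + D.fr μ q.v) (fun q => D.fr ν (q.v + q.A) + D.fr μ (q.v + q.A))
    (fun q hq => ⟨?_, ?_, ?_⟩)
  · exact up_mul h h1 h1
  · have h2 : 0 ≤ c1 * q.V := mul_nonneg hc.le (by linarith [hq.1])
    linarith [(hq.2.2.2.2.1.1 μ).1, (hq.2.2.2.2.1.1 ν).1, le_abs_self (D.fr ν q.v + D.fr μ q.v)]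
  · have h2 : 0 ≤ c1 * q.V := mul_nonneg hc.le (by linarith [hq.1])
    linarith [(hq.2.2.2.2.2.1 μ).1, (hq.2.2.2.2.2.1 ν).1,
      le_abs_self (D.fr ν (q.v + q.A) + D.fr μ (q.v + q.A))]
  · have e1 : D.fr ν (q.v + q.A) + D.fr μ (q.v + q.A) - (D.fr ν q.v + D.fr μ q.v) =
        ee D ν q + ee D μ q := by
      rw [fr_add, fr_add]
      ring
    rw [e1]
    refine (abs_add_le _ _).trans ?_
    linarith [ee_kk D C1 ν q, ee_kk D C1 μ q]

theorem up_fr_sub (h : S_CLS) (hc : 0 < c1) (μ ν : Fin N) (hk : D.k ν ≠ D.k μ) :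
    UP D c1 C1 2 (fun q _ => (D.fr ν q.v - D.fr μ q.v)⁻¹ * (D.fr ν q.v - D.fr μ q.v)⁻¹)
      (fun q _ => (D.fr ν (q.v + q.A) - D.fr μ (q.v + q.A))⁻¹ *
        (D.fr ν (q.v + q.A) - D.fr μ (q.v + q.A))⁻¹) := by
  have h1 := up_inv (D := D) (C1 := C1) h hc (2 * KK D C1) (by linarith [kk_one D C1])
    (fun q => D.fr ν q.v - D.fr μ q.v) (fun q => D.fr ν (q.v + q.A) - D.fr μ (q.v + q.A))
    (fun q hq => ⟨?_, ?_, ?_⟩)
  · exact up_mul h h1 h1
  · exact hq.2.2.2.2.1.2 ν μ hk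
  · exact hq.2.2.2.2.2.2 ν μ hk
  · have e1 : D.fr ν (q.v + q.A) - D.fr μ (q.v + q.A) - (D.fr ν q.v - D.fr μ q.v) =
        ee D ν q - ee D μ q := by
      rw [fr_add, fr_add]
      ring
    rw [e1]
    refine (abs_sub _ _).trans ?_
    linarith [ee_kk D C1 ν q, ee_kk D C1 μ q]

theorem up_a1 (h : S_CLS) (hc : 0 < c1) (μ : Fin N) (i : Fin n) :
    UP D c1 C1 2 (fun q _ => D.a1 μ q.v i) (fun q _ => D.a1 μ (q.v + q.A) i) := by
  have h1 := up_cmul h (2 * Real.pi * D.c μ * D.k μ i) (up_fr (D := D) (C1 := C1) h hc μ)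
  have e : ∀ v : Fin n → ℝ, 2 * Real.pi * D.c μ * D.k μ i * ((D.fr μ v)⁻¹ * (D.fr μ v)⁻¹) =
      D.a1 μ v i := by
    intro v
    unfold Trig.a1
    rw [div_eq_mul_inv, sq, mul_inv]
  simp only [e] at h1
  exact h1

theorem up_b1 (h : S_CLS) (hc : 0 < c1) (μ ν : Fin N) (i : Fin n) :
    UP D c1 C1 2 (fun q _ => D.b1 μ ν q.v i) (fun q _ => D.b1 μ ν (q.v + q.A) i) := by
  have h1 := up_cmul h (-(2 * Real.pi) ^ 2 / 2 * D.c μ * D.k μ i)
    (up_sum h Finset.univ (fun j q _ => (D.k μ j : ℝ) * D.a1 ν q.v j)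
      (fun j q _ => (D.k μ j : ℝ) * D.a1 ν (q.v + q.A) j)
      (fun j _ => up_cmul h _ (up_a1 (D := D) (C1 := C1) h hc ν j)))
  have e : ∀ v : Fin n → ℝ, -(2 * Real.pi) ^ 2 / 2 * D.c μ * D.k μ i *
      (∑ j, (D.k μ j : ℝ) * D.a1 ν v j) = D.b1 μ ν v i := by
    intro v
    unfold Trig.b1
    ring
  simp only [e] at h1
  exact h1

theorem mul_inv2 (x y : ℝ) : x * (y⁻¹ * y⁻¹) = x / y ^ 2 := by
  rw [div_eq_mul_inv, sq, mul_inv]

open Classical in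
theorem up_xi (h : S_CLS) (hc : 0 < c1) (i : Fin n) :
    UP D c1 C1 2 (fun q s => D.xi q.P q.v s i)
      (fun q s => D.xi (q.P + q.v + q.kp • q.A) (q.v + q.A) (s - 1) i) := by
  unfold Trig.xi
  refine up_sub h (up_sum h Finset.univ
    (fun μ q s => D.a1 μ q.v i * Real.sin (D.pl μ q.P q.v s))
    (fun μ q s => D.a1 μ (q.v + q.A) i *
      Real.sin (D.pl μ (q.P + q.v + q.kp • q.A) (q.v + q.A) (s - 1)))
    fun μ _ => up_mul h (up_a1 h hc μ i) (up_pl h hc μ)) ?_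
  refine up_sum h Finset.univ _ _ fun μ _ => ?_
  refine up_sum h Finset.univ _ _ fun ν _ => ?_
  refine up_le h (show 2 ≤ 2 + 2 by norm_num) ?_
  refine up_mul h (up_b1 h hc μ ν i) ?_
  refine up_add h ?_ ?_
  · have h1 := up_mul h (up_pl_add (D := D) (C1 := C1) h hc μ ν) (up_fr_add h hc μ ν)
    simp only [mul_inv2] at h1
    exact h1
  · by_cases hk : D.k ν = D.k μ
    · simp only [if_pos hk]
      exact up_zero h 2
    · simp only [if_neg hk]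
      have h1 := up_mul h (up_pl_sub (D := D) (C1 := C1) h hc μ ν) (up_fr_sub h hc μ ν hk)
      simp only [mul_inv2] at h1
      exact h1

end Lip

theorem lip_all (h : S_CLS) : S_LIP := by
  intro n N D c1 C1 hc
  choose K hK hKq using fun i : Fin n => Lip.up_xi (D := D) (C1 := C1) h hc i
  have hK0 : ∀ i, 0 ≤ K i := fun i => by linarith [hK i]
  refine ⟨1 + ∑ i, K i, ?_, ?_⟩
  · linarith [Finset.sum_nonneg fun i (_ : i ∈ Finset.univ) => hK0 i]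
  · intro V kp P v A hV hk0 hk1 hA h1 h2 i
    have h3 := (hKq i ⟨V, kp, P, v, A⟩ ⟨hV, hk0, hk1, hA, h1, h2⟩).2
    refine h.1 _ _ _ _ _ (by linarith) ?_ h3
    refine div_le_div_of_nonneg_right ?_ (by positivity)
    refine mul_le_mul_of_nonneg_right ?_ (norm_nonneg _)
    have h4 : K i ≤ ∑ i, K i :=
      Finset.single_le_sum (fun i _ => hK0 i) (Finset.mem_univ i)
    linarith

end Pool.Agent.N980.TL
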