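import Mathlib
import Pool.Agent.N980.TL.Stm3

/-!
# Normalization of a trigonometric polynomial
-/

set_option autoImplicit false

noncomputable section

namespace Pool.Agent.N980.TL

namespace NRMaux

/-- the weighted sum -/
def Sm {n : ℕ} (M : ℤ) (e : Fin n → ℤ) : ℤ := ∑ i : Fin n, e i * M ^ (i : ℕ)

theorem Sm_sub {n : ℕ} (M : ℤ) (e e' : Fin n → ℤ) : Sm M (fun i => e i - e' i) = Sm M e - Sm M e' := by
  simp only [Sm, sub_mul, Finset.sum_sub_distrib]

theorem Sm_neg {n : ℕ} (M : ℤ) (e : Fin n → ℤ) : Sm M (fun i => -e i) = -Sm M e := by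
  simp only [Sm, neg_mul, Finset.sum_neg_distrib]

theorem eq_zero_of_Sm {n : ℕ} : ∀ (M : ℤ) (e : Fin n → ℤ), (∀ i, |e i| < M) → Sm M e = 0 →
    ∀ i, e i = 0 := by
  induction n with
  | zero => intro M e _ _ i; exact i.elim0
  | succ n ih =>
    intro M e he h0
    have hM : 0 < M := lt_of_le_of_lt (abs_nonneg _) (he 0)
    have h1 : Sm M e = e 0 + M * Sm M (fun i : Fin n => e i.succ) := by
      rw [Sm, Sm, Fin.sum_univ_succ, Finset.mul_sum]
      congr 1
      · simp
      · refine Finset.sum_congr rfl fun i _ => ?_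
        rw [Fin.val_succ, pow_succ]
        ring
    have h2 : M ∣ e 0 := ⟨-Sm M (fun i : Fin n => e i.succ), by rw [h1] at h0; linarith⟩
    have h3 : e 0 = 0 := Int.eq_zero_of_abs_lt_dvd h2 (he 0)
    have h4 : Sm M (fun i : Fin n => e i.succ) = 0 := by
      rw [h1, h3, zero_add] at h0
      exact (mul_eq_zero.1 h0).resolve_left hM.ne'
    have h5 := ih M _ (fun i => he i.succ) h4
    intro i
    refine Fin.cases h3 (fun j => h5 j) i

end NRMaux

open NRMaux

/-- normalization of a trigonometric polynomial -/
theorem nrm_all : S_NRM := by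
  classical
  intro n N D
  rcases n with _ | n
  · refine ⟨0, ⟨fun μ => μ.elim0, fun μ => μ.elim0, fun μ => μ.elim0, fun μ => μ.elim0⟩, 1,
      fun t => D.val (fun i => i.elim0) t, le_rfl, fun μ => μ.elim0, fun μ => μ.elim0, ?_⟩
    intro x t
    have hx : x = fun i => i.elim0 := Subsingleton.elim _ _
    rw [hx, Trig.val, Trig.val]
    simp
    rfl
  · obtain ⟨K, hK⟩ : ∃ K : ℕ, ∀ μ i, |D.k μ i| ≤ (K : ℤ) := by
      refine ⟨∑ μ, ∑ i, (D.k μ i).natAbs, fun μ i => ?_⟩
      rw [Int.abs_eq_natAbs]
      have h1 : (D.k μ i).natAbs ≤ ∑ i, (D.k μ i).natAbs :=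
        Finset.single_le_sum (f := fun i => (D.k μ i).natAbs) (fun _ _ => Nat.zero_le _)
          (Finset.mem_univ i)
      have h2 : ∑ i, (D.k μ i).natAbs ≤ ∑ μ, ∑ i, (D.k μ i).natAbs :=
        Finset.single_le_sum (f := fun μ => ∑ i, (D.k μ i).natAbs) (fun _ _ => Nat.zero_le _)
          (Finset.mem_univ μ)
      exact_mod_cast h1.trans h2
    set M : ℕ := 2 * K + 3 with hM
    -- the sign
    let sg : Fin N → ℤ := fun μ => if 0 < Sm (M : ℤ) (D.k μ) then 1 else -1
    let k' : Fin N → Fin (n + 1) → ℤ := fun μ =>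
      if D.k μ = 0 then Pi.single 0 1 else fun i => sg μ * D.k μ i
    have hsg : ∀ μ, sg μ = 1 ∨ sg μ = -1 := by
      intro μ
      simp only [sg]
      split_ifs
      · exact Or.inl rfl
      · exact Or.inr rfl
    have hk' : ∀ μ i, |k' μ i| ≤ (K : ℤ) + 1 := by
      intro μ i
      simp only [k']
      split_ifs with h
      · by_cases hi : i = 0
        · rw [hi, Pi.single_eq_same, abs_one]
          omega
        · rw [Pi.single_eq_of_ne hi, abs_zero]
          omega
      · have h1 := hK μ i
        rcases hsg μ with h2 | h2 <;> rw [h2] <;> simp only [one_mul, neg_mul, abs_neg] <;> omega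
    have hpos : ∀ μ, 0 < Sm (M : ℤ) (k' μ) := by
      intro μ
      by_cases h : D.k μ = 0
      · simp only [k', if_pos h]
        have : Sm (M : ℤ) (Pi.single 0 1 : Fin (n + 1) → ℤ) = 1 := by
          rw [Sm, Finset.sum_eq_single 0]
          · simp
          · intro j _ hj
            rw [Pi.single_eq_of_ne hj, zero_mul]
          · intro h; exact absurd (Finset.mem_univ _) h
        rw [this]
        exact one_pos
      · simp only [k', if_neg h]
        have hne : Sm (M : ℤ) (D.k μ) ≠ 0 := by
          intro h0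
          apply h
          funext i
          refine eq_zero_of_Sm (M : ℤ) (D.k μ) (fun i => ?_) h0 i
          have := hK μ i
          rw [hM]
          push_cast
          omega
        by_cases h1 : 0 < Sm (M : ℤ) (D.k μ)
        · simp only [sg, if_pos h1, one_mul]
          exact h1
        · simp only [sg, if_neg h1, neg_mul, one_mul]
          rw [Sm_neg]
          omega
    refine ⟨N, ⟨k', fun μ => sg μ * D.m μ, fun μ => if D.k μ = 0 then 0 else D.c μ,
      fun μ => sg μ * D.ph μ⟩, M,
      fun t => ∑ μ, if D.k μ = 0 then D.c μ * Real.cos (2 * Real.pi * (D.m μ * t) + D.ph μ) else 0,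
      by omega, hpos, ?_, ?_⟩
    · intro μ ν hne h0
      apply hne
      funext i
      have h1 : Sm (M : ℤ) (fun i => k' μ i - k' ν i) = 0 := by
        rw [Sm_sub]
        exact sub_eq_zero.2 h0
      have h2 := eq_zero_of_Sm (M : ℤ) _ (fun i => by
        have h3 := hk' μ i
        have h4 := hk' ν i
        rw [hM]
        push_cast
        rw [abs_le] at h3 h4
        rw [abs_lt]
        constructor <;> omega) h1 i
      exact sub_eq_zero.1 h2
    · intro x t
      rw [Trig.val, Trig.val, ← Finset.sum_add_distrib]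
      refine Finset.sum_congr rfl fun μ _ => ?_
      by_cases h : D.k μ = 0
      · simp only [if_pos h, zero_mul, zero_add]
        rw [Trig.phase]
        simp [h]
      · simp only [if_neg h, add_zero]
        congr 1
        simp only [Trig.phase, k', if_neg h]
        rcases hsg μ with h2 | h2
        · rw [h2]
          simp
        · rw [h2, ← Real.cos_neg]
          congr 1
          push_cast
          simp only [neg_mul, one_mul, Finset.sum_neg_distrib]
          ring

end Pool.Agent.N980.TL
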