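import Pool.Agent.N980.TL.Stm

/-!
# TL/SEQ (helper374 for helper980): the sequences of velocities and positions
-/

set_option autoImplicit false

open Set Filter Topology

noncomputable section

namespace Pool.Agent.N980.TL.SEQ

/-- the vector with two first coordinates `x`, `y` and the others `v` -/
def vec {r : ℕ} (x y : ℝ) (v : Fin r → ℝ) : E (r + 2) :=
  Fin.cons (α := fun _ => ℝ) x (Fin.cons (α := fun _ => ℝ) y v)

theorem vec_zero {r : ℕ} (x y : ℝ) (v : Fin r → ℝ) : vec x y v 0 = x := rfl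

theorem vec_one {r : ℕ} (x y : ℝ) (v : Fin r → ℝ) : vec x y v 1 = y := rfl

theorem vec_ss {r : ℕ} (x y : ℝ) (v : Fin r → ℝ) (i : Fin r) : vec x y v i.succ.succ = v i := rfl

theorem vec_forall {r : ℕ} (Q : Fin (r + 2) → Prop) (h0 : Q 0) (h1 : Q 1)
    (h2 : ∀ i : Fin r, Q i.succ.succ) : ∀ i, Q i := by
  intro i
  refine Fin.cases h0 ?_ i
  intro j
  refine Fin.cases ?_ ?_ j
  · exact h1
  · intro k
    exact h2 k

theorem norm_vec_le {r : ℕ} (x y : ℝ) (v : Fin r → ℝ) (R : ℝ) (h0 : |x| ≤ R) (h1 : |y| ≤ R)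
    (h2 : ‖v‖ ≤ R) : ‖vec x y v‖ ≤ R := by
  have hR : 0 ≤ R := le_trans (abs_nonneg x) h0
  rw [pi_norm_le_iff_of_nonneg hR]
  refine vec_forall _ ?_ ?_ ?_
  · rw [vec_zero, Real.norm_eq_abs]
    exact h0
  · rw [vec_one, Real.norm_eq_abs]
    exact h1
  · intro i
    rw [vec_ss]
    exact le_trans (norm_le_pi_norm v i) h2

theorem log_of_mem {L i : ℕ} (h : i ∈ Finset.Ico (2 ^ L) (2 ^ (L + 1))) : Nat.log 2 i = L := by
  rw [Finset.mem_Ico] at h
  exact Nat.log_eq_of_pow_le_of_lt_pow h.1 h.2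

theorem sum_log (g : ℕ → ℝ) (L : ℕ) :
    ∑ i ∈ Finset.range (2 ^ L), g (Nat.log 2 i) = g 0 + ∑ m ∈ Finset.range L, 2 ^ m * g m := by
  induction L with
  | zero => simp
  | succ L ih =>
    have h1 : ∑ i ∈ Finset.range (2 ^ (L + 1)), g (Nat.log 2 i)
        = ∑ i ∈ Finset.range (2 ^ L), g (Nat.log 2 i)
          + ∑ i ∈ Finset.Ico (2 ^ L) (2 ^ (L + 1)), g (Nat.log 2 i) := by
      rw [Finset.range_eq_Ico, Finset.range_eq_Ico]
      exact (Finset.sum_Ico_consecutive _ (Nat.zero_le _)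
        (Nat.pow_le_pow_right (by norm_num) (Nat.le_succ L))).symm
    have h2 : ∑ i ∈ Finset.Ico (2 ^ L) (2 ^ (L + 1)), g (Nat.log 2 i) = 2 ^ L * g L := by
      rw [Finset.sum_congr rfl (fun i hi => by rw [log_of_mem hi])]
      rw [Finset.sum_const, Nat.card_Ico, nsmul_eq_mul]
      congr 1
      rw [pow_succ]
      have : 2 ^ L * 2 - 2 ^ L = 2 ^ L := by omega
      rw [this]
      push_cast
      ring
    rw [h1, h2, ih, Finset.sum_range_succ]
    ring

theorem seq_all : S_SEQ := by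
  intro r w a s c0 p kp ha1 ha2 hs0 hs1 hc0 hc1 hk0 hk1
  have ha0 : 0 < a := by linarith
  have h2a : 1 < 2 * a := by linarith
  have h2a' : 0 < 2 * a - 1 := by linarith
  have h1s : 0 < 1 - s := by linarith
  -- the scalar sequences
  obtain ⟨lg, hlg⟩ : ∃ lg : ℕ → ℕ, lg = Nat.log 2 := ⟨_, rfl⟩
  obtain ⟨A0, hA0⟩ : ∃ A0 : ℕ → ℝ, ∀ j, A0 j = a ^ (Nat.log 2 j) := ⟨_, fun _ => rfl⟩
  obtain ⟨U0, hU0⟩ : ∃ U0 : ℕ → ℝ, ∀ j, U0 j = 1 + ∑ i ∈ Finset.range j, A0 i := ⟨_, fun _ => rfl⟩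
  obtain ⟨P0, hP0⟩ : ∃ P0 : ℕ → ℝ, ∀ j, P0 j = ∑ i ∈ Finset.range j, (U0 i + kp * A0 i) :=
    ⟨_, fun _ => rfl⟩
  obtain ⟨u, hu⟩ : ∃ u : ℕ → ℝ, ∀ l, u l = c0 * (s / 2) ^ l := ⟨_, fun _ => rfl⟩
  obtain ⟨U1, hU1⟩ : ∃ U1 : ℕ → ℝ, ∀ j, U1 j = u (Nat.log 2 j) := ⟨_, fun _ => rfl⟩
  obtain ⟨A1, hA1⟩ : ∃ A1 : ℕ → ℝ, ∀ j, A1 j = U1 (j + 1) - U1 j := ⟨_, fun _ => rfl⟩
  obtain ⟨P1, hP1⟩ : ∃ P1 : ℕ → ℝ, ∀ j, P1 j = p + ∑ i ∈ Finset.range j, (U1 i + kp * A1 i) :=
    ⟨_, fun _ => rfl⟩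
  have hs20 : 0 < s / 2 := by linarith
  have hs21 : s / 2 ≤ 1 := by linarith
  have hu0 : ∀ l, 0 < u l := fun l => by rw [hu]; positivity
  have hua : Antitone u := by
    apply antitone_nat_of_succ_le
    intro l
    rw [hu, hu, pow_succ]
    have : (s / 2) ^ l * (s / 2) ≤ (s / 2) ^ l * 1 :=
      mul_le_mul_of_nonneg_left hs21 (by positivity)
    nlinarith
  have hU1a : Antitone U1 := by
    intro i j hij
    rw [hU1, hU1]
    exact hua (Nat.log_mono_right hij)
  have hU10 : ∀ j, 0 < U1 j := fun j => by rw [hU1]; exact hu0 _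
  have hua' : ∀ l, u l ≤ a ^ l := by
    intro l
    rw [hu]
    have h1 : (s / 2) ^ l ≤ a ^ l := pow_le_pow_left₀ hs20.le (by linarith) l
    have h2 : 0 ≤ (s / 2) ^ l := by positivity
    nlinarith
  have hA1n : ∀ j, A1 j ≤ 0 := fun j => by
    rw [hA1]
    have := hU1a (Nat.le_succ j)
    simp only [Nat.succ_eq_add_one] at this
    linarith
  have hA1l : ∀ j, - U1 j ≤ A1 j := fun j => by
    rw [hA1]
    have := hU10 (j + 1)
    linarith
  have hA0p : ∀ j, 0 < A0 j := fun j => by rw [hA0]; positivity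
  have hU0m : Monotone U0 := by
    apply monotone_nat_of_le_succ
    intro j
    rw [hU0, hU0, Finset.sum_range_succ]
    have := hA0p j
    linarith
  have hU01 : ∀ j, 1 ≤ U0 j := fun j => by
    rw [hU0]
    have : 0 ≤ ∑ i ∈ Finset.range j, A0 i := Finset.sum_nonneg fun i _ => (hA0p i).le
    linarith
  have hU0pow : ∀ L, U0 (2 ^ L) = 2 + ∑ m ∈ Finset.range L, (2 * a) ^ m := by
    intro L
    rw [hU0]
    have h1 := sum_log (fun l => a ^ l) L
    simp only [pow_zero] at h1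
    rw [Finset.sum_congr rfl (fun i _ => hA0 i), h1]
    have h2 : ∑ m ∈ Finset.range L, (2 : ℝ) ^ m * a ^ m = ∑ m ∈ Finset.range L, (2 * a) ^ m :=
      Finset.sum_congr rfl fun m _ => (mul_pow 2 a m).symm
    rw [h2]
    ring
  have hgeo : ∀ L, ∑ m ∈ Finset.range L, (2 * a) ^ m = ((2 * a) ^ L - 1) / (2 * a - 1) := fun L =>
    geom_sum_eq (by linarith) L
  have hU0le : ∀ l, U0 (2 ^ (l + 1)) ≤ (2 * a) ^ l * (2 + 2 * a / (2 * a - 1)) := by
    intro l
    have hp1 : 1 ≤ (2 * a) ^ l := one_le_pow₀ h2a.le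
    rw [hU0pow, hgeo]
    have h3 : ((2 * a) ^ (l + 1) - 1) / (2 * a - 1) ≤ (2 * a) ^ l * (2 * a / (2 * a - 1)) := by
      rw [← mul_div_assoc, ← pow_succ]
      exact div_le_div_of_nonneg_right (by linarith) h2a'.le
    nlinarith
  have hterm : ∀ i, U1 (i + 1) ≤ U1 i + kp * A1 i ∧ U1 i + kp * A1 i ≤ U1 i := by
    intro i
    constructor
    · have h1 := hA1 i
      have h2 : (1 - kp) * A1 i ≤ 0 := mul_nonpos_of_nonneg_of_nonpos (by linarith) (hA1n i)
      nlinarith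
    · have h2 : kp * A1 i ≤ 0 := mul_nonpos_of_nonneg_of_nonpos hk0 (hA1n i)
      linarith
  have hterm0 : ∀ i, 0 ≤ U1 i + kp * A1 i := fun i => le_trans (hU10 (i + 1)).le (hterm i).1
  have hP1s : ∀ j, P1 (j + 1) = P1 j + (U1 j + kp * A1 j) := by
    intro j
    rw [hP1, hP1, Finset.sum_range_succ]
    ring
  refine ⟨fun j => vec (P0 j) (P1 j) (fun i => j * w i), fun j => vec (U0 j) (U1 j) w,
    fun j => vec (A0 j) (A1 j) (fun _ => 0), 5 + ‖w‖ + 2 * a / (2 * a - 1), ?_, ?_, ?_, ?_, ?_, ?_,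
    ?_, ?_, ?_⟩
  · have h1 : 0 ≤ ‖w‖ := norm_nonneg w
    have h2 : 0 < 2 * a / (2 * a - 1) := by positivity
    linarith
  · intro j
    funext i
    refine vec_forall (fun i => vec (U0 (j + 1)) (U1 (j + 1)) w i
      = (vec (U0 j) (U1 j) w + vec (A0 j) (A1 j) (fun _ => 0) : E (r + 2)) i) ?_ ?_ ?_ i
    · rw [Pi.add_apply, vec_zero, vec_zero, vec_zero, hU0, hU0, Finset.sum_range_succ]
      ring
    · rw [Pi.add_apply, vec_one, vec_one, vec_one, hA1]
      ring
    · intro k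
      rw [Pi.add_apply, vec_ss, vec_ss, vec_ss]
      ring
  · intro j
    funext i
    refine vec_forall (fun i => vec (P0 (j + 1)) (P1 (j + 1)) (fun i => ((j + 1 : ℕ) : ℝ) * w i) i
      = (vec (P0 j) (P1 j) (fun i => (j : ℝ) * w i) + vec (U0 j) (U1 j) w
        + kp • vec (A0 j) (A1 j) (fun _ => 0) : E (r + 2)) i) ?_ ?_ ?_ i
    · rw [Pi.add_apply, Pi.add_apply, Pi.smul_apply, vec_zero, vec_zero, vec_zero, vec_zero, hP0, hP0,
        Finset.sum_range_succ, smul_eq_mul]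
      ring
    · rw [Pi.add_apply, Pi.add_apply, Pi.smul_apply, vec_one, vec_one, vec_one, vec_one, hP1s,
        smul_eq_mul]
      ring
    · intro k
      rw [Pi.add_apply, Pi.add_apply, Pi.smul_apply, vec_ss, vec_ss, vec_ss, vec_ss, smul_eq_mul]
      push_cast
      ring
  · intro i j
    exact ⟨rfl, rfl, rfl⟩
  · intro l j hj
    have hlog : Nat.log 2 j = l := log_of_mem hj
    have hj' := Finset.mem_Ico.mp hj
    have hal : 0 < a ^ l := by positivity
    have hal1 : a ^ l ≤ 1 := pow_le_one₀ ha0.le ha2.le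
    have hp1 : 1 ≤ (2 * a) ^ l := one_le_pow₀ h2a.le
    have hAn : ‖(vec (A0 j) (A1 j) (fun _ => 0) : E (r + 2))‖ ≤ a ^ l := by
      apply norm_vec_le
      · rw [hA0, hlog, abs_of_pos hal]
      · rw [abs_of_nonpos (hA1n j)]
        have h1 := hA1l j
        have h2 : U1 j = u l := by rw [hU1, hlog]
        have h3 := hua' l
        linarith
      · have : (fun _ : Fin r => (0 : ℝ)) = 0 := rfl
        rw [this, norm_zero]
        exact hal.le
    have hUj : U0 j ≤ (2 * a) ^ l * (2 + 2 * a / (2 * a - 1)) :=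
      le_trans (hU0m hj'.2.le) (hU0le l)
    have hfr : 0 < 2 * a / (2 * a - 1) := by positivity
    have hw0 : 0 ≤ ‖w‖ := norm_nonneg w
    refine ⟨hAn, ?_, ?_, ?_⟩
    · have hUn : ‖(vec (U0 j) (U1 j) w : E (r + 2))‖
          ≤ (2 * a) ^ l * (2 + 2 * a / (2 * a - 1)) + 1 + ‖w‖ := by
        have hprod : 0 ≤ (2 * a) ^ l * (2 + 2 * a / (2 * a - 1)) := by positivity
        apply norm_vec_le
        · rw [abs_of_nonneg (by linarith [hU01 j])]
          linarith
        · rw [abs_of_pos (hU10 j)]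
          have h2 : U1 j ≤ u 0 := by rw [hU1]; exact hua (Nat.zero_le _)
          have h3 : u 0 = c0 := by rw [hu, pow_zero, mul_one]
          linarith
        · linarith
      have hfin : (2 * a) ^ l * (2 + 2 * a / (2 * a - 1)) + 3 + ‖w‖
          ≤ (5 + ‖w‖ + 2 * a / (2 * a - 1)) * (2 * a) ^ l := by
        have h5 : ‖w‖ ≤ ‖w‖ * (2 * a) ^ l := by nlinarith
        nlinarith
      linarith
    · show (2 * a) ^ l ≤ 4 * vec (U0 j) (U1 j) w 0
      rw [vec_zero]
      have hmon : U0 (2 ^ l) ≤ U0 j := hU0m hj'.1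
      rcases Nat.eq_zero_or_pos l with h0 | hpos
      · subst h0
        have := hU01 j
        rw [pow_zero]
        linarith
      · obtain ⟨k, rfl⟩ := Nat.exists_eq_succ_of_ne_zero hpos.ne'
        rw [Nat.succ_eq_add_one] at *
        have h6 : (2 * a) ^ k ≤ ∑ m ∈ Finset.range (k + 1), (2 * a) ^ m :=
          Finset.single_le_sum (f := fun m => (2 * a) ^ m) (fun m _ => by positivity)
            (Finset.mem_range.mpr (Nat.lt_succ_self k))
        have h7 := hU0pow (k + 1)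
        have h8 : (2 * a) ^ (k + 1) ≤ 2 * (2 * a) ^ k := by
          rw [pow_succ]
          have : 0 < (2 * a) ^ k := by positivity
          nlinarith
        linarith
    · show 0 ≤ vec (A0 j) (A1 j) (fun _ => (0 : ℝ)) 0
      rw [vec_zero]
      exact (hA0p j).le
  · intro j
    exact ⟨(hU10 j).le, hA1n j⟩
  · intro j
    show P1 j ≤ P1 (j + 1)
    rw [hP1s]
    have := hterm0 j
    linarith
  · intro j
    show p ≤ P1 j ∧ P1 j ≤ p + 4 * c0 / (1 - s)
    rw [hP1]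
    constructor
    · have : 0 ≤ ∑ i ∈ Finset.range j, (U1 i + kp * A1 i) := Finset.sum_nonneg fun i _ => hterm0 i
      linarith
    · have h1 : ∑ i ∈ Finset.range j, (U1 i + kp * A1 i)
          ≤ ∑ i ∈ Finset.range (2 ^ j), u (Nat.log 2 i) := by
        calc ∑ i ∈ Finset.range j, (U1 i + kp * A1 i) ≤ ∑ i ∈ Finset.range j, U1 i :=
              Finset.sum_le_sum fun i _ => (hterm i).2
          _ ≤ ∑ i ∈ Finset.range (2 ^ j), U1 i := by
              apply Finset.sum_le_sum_of_subset_of_nonneg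
              · exact Finset.range_subset_range.mpr (Nat.lt_two_pow_self).le
              · intro i _ _
                exact (hU10 i).le
          _ = _ := Finset.sum_congr rfl fun i _ => hU1 i
      have h2 := sum_log u j
      have h3 : ∀ m ∈ Finset.range j, (2 : ℝ) ^ m * u m = c0 * s ^ m := by
        intro m _
        rw [hu, div_pow]
        field_simp
      rw [Finset.sum_congr rfl h3, ← Finset.mul_sum] at h2
      have h4 : ∑ m ∈ Finset.range j, s ^ m ≤ 1 / (1 - s) := by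
        rw [geom_sum_eq hs1.ne]
        have h9 : (s ^ j - 1) / (s - 1) = (1 - s ^ j) / (1 - s) := by
          rw [← neg_div_neg_eq]
          congr 1 <;> ring
        rw [h9]
        apply div_le_div_of_nonneg_right _ h1s.le
        have : 0 ≤ s ^ j := by positivity
        linarith
      have h5 : u 0 = c0 := by rw [hu, pow_zero, mul_one]
      have h6 : c0 * ∑ m ∈ Finset.range j, s ^ m ≤ c0 * (1 / (1 - s)) :=
        mul_le_mul_of_nonneg_left h4 hc0.le
      have h7 : c0 ≤ c0 / (1 - s) := by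
        rw [le_div_iff₀ h1s]
        nlinarith
      have h8 : c0 * (1 / (1 - s)) = c0 / (1 - s) := by ring
      have h9 : 4 * c0 / (1 - s) = 4 * (c0 / (1 - s)) := by ring
      have h10 : 0 ≤ c0 / (1 - s) := by positivity
      rw [h9]
      linarith
  · intro l hl
    show P1 (2 ^ l) + c0 * s ^ l / 4 ≤ P1 (2 ^ (l + 1))
    have h1 : P1 (2 ^ (l + 1)) = P1 (2 ^ l)
        + ∑ i ∈ Finset.Ico (2 ^ l) (2 ^ (l + 1)), (U1 i + kp * A1 i) := by
      rw [hP1, hP1, add_assoc]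
      congr 1
      rw [Finset.range_eq_Ico, Finset.range_eq_Ico]
      exact (Finset.sum_Ico_consecutive _ (Nat.zero_le _)
        (Nat.pow_le_pow_right (by norm_num) (Nat.le_succ l))).symm
    have h2 : ∑ i ∈ Finset.Ico (2 ^ l) (2 ^ (l + 1) - 1), u l
        ≤ ∑ i ∈ Finset.Ico (2 ^ l) (2 ^ (l + 1)), (U1 i + kp * A1 i) := by
      calc ∑ i ∈ Finset.Ico (2 ^ l) (2 ^ (l + 1) - 1), u l
          ≤ ∑ i ∈ Finset.Ico (2 ^ l) (2 ^ (l + 1) - 1), (U1 i + kp * A1 i) := by
            apply Finset.sum_le_sum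
            intro i hi
            rw [Finset.mem_Ico] at hi
            refine le_trans ?_ (hterm i).1
            rw [hU1]
            have : Nat.log 2 (i + 1) = l := log_of_mem (Finset.mem_Ico.mpr ⟨by omega, by omega⟩)
            rw [this]
        _ ≤ _ := by
            apply Finset.sum_le_sum_of_subset_of_nonneg
            · exact Finset.Ico_subset_Ico_right (Nat.sub_le _ _)
            · intro i _ _
              exact hterm0 i
    rw [Finset.sum_const, Nat.card_Ico, nsmul_eq_mul] at h2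
    obtain ⟨k, rfl⟩ := Nat.exists_eq_succ_of_ne_zero (by omega : l ≠ 0)
    rw [Nat.succ_eq_add_one] at *
    have h3 : (2 : ℝ) ^ k ≤ ((2 ^ (k + 1 + 1) - 1 - 2 ^ (k + 1) : ℕ) : ℝ) := by
      have h4 : 2 ^ k ≤ 2 ^ (k + 1 + 1) - 1 - 2 ^ (k + 1) := by
        have h5 : 1 ≤ 2 ^ k := Nat.one_le_two_pow
        have h6 : 2 ^ (k + 1) = 2 * 2 ^ k := by ring
        have h7 : 2 ^ (k + 1 + 1) = 4 * 2 ^ k := by ring
        omega
      exact_mod_cast h4
    have h5 : (2 : ℝ) ^ k * u (k + 1) ≤ ((2 ^ (k + 1 + 1) - 1 - 2 ^ (k + 1) : ℕ) : ℝ) * u (k + 1) :=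
      mul_le_mul_of_nonneg_right h3 (hu0 _).le
    have h6 : (2 : ℝ) ^ k * u (k + 1) = c0 * s ^ (k + 1) / 2 := by
      rw [hu, div_pow, pow_succ 2 k]
      field_simp
    have h7 : 0 ≤ c0 * s ^ (k + 1) := by positivity
    linarith

end Pool.Agent.N980.TL.SEQ

namespace Pool.Agent.N980.TL

/-- Leaf SEQ -/
theorem seq_all : S_SEQ := SEQ.seq_all

end Pool.Agent.N980.TL
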