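import Pool.Agent.N980.TL.Stm

/-!
# Leaf SUM: sums of functions with disjoint supports

Worker: helper195.
-/

set_option autoImplicit false

open Set Filter Topology MeasureTheory
open scoped ContDiff

noncomputable section

namespace Pool.Agent.N980.TL.SUM_

/-- one block -/
def F {n : ℕ} (h : ℕ → Z n → ℝ) (m : ℕ) (q : Z n) : ℝ :=
  ∑ j ∈ Finset.Ico (2 ^ m) (2 ^ (m + 1)), h j q

lemma F_smooth {n : ℕ} {h : ℕ → Z n → ℝ} (hh : ∀ j, ContDiff ℝ ∞ (h j)) (m : ℕ) :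
    ContDiff ℝ ∞ (F h m) := by
  unfold F
  exact ContDiff.sum fun j _ => hh j

lemma F_iter {n : ℕ} {h : ℕ → Z n → ℝ} (hh : ∀ j, ContDiff ℝ ∞ (h j)) (m i : ℕ) (q : Z n) :
    iteratedFDeriv ℝ i (F h m) q =
      ∑ j ∈ Finset.Ico (2 ^ m) (2 ^ (m + 1)), iteratedFDeriv ℝ i (h j) q := by
  unfold F
  apply iteratedFDeriv_fun_sum_apply
  intro j _
  exact ((hh j).of_le (by exact_mod_cast le_top)).contDiffAt

lemma not_mem {n : ℕ} {S : ℕ → Set (Z n)}
    (hd : ∀ i j, 1 ≤ i → i < j → Disjoint (S i) (S j)) {j j' : ℕ} (hj : 1 ≤ j) (hj' : 1 ≤ j')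
    (hne : j' ≠ j) {q : Z n} (hq : q ∈ S j) : q ∉ S j' := by
  intro hq'
  rcases lt_or_gt_of_ne hne with h | h
  · exact Set.disjoint_left.1 (hd j' j hj' h) hq' hq
  · exact Set.disjoint_left.1 (hd j j' hj h) hq hq'

lemma F_bound {n k : ℕ} {h : ℕ → Z n → ℝ} {S : ℕ → Set (Z n)} {B : ℕ → ℝ}
    (hh : ∀ j, ContDiff ℝ ∞ (h j))
    (hS : ∀ j, ∀ q ∉ S j, ∀ i ≤ k, iteratedFDeriv ℝ i (h j) q = 0)
    (hd : ∀ i j, 1 ≤ i → i < j → Disjoint (S i) (S j))
    (hB : ∀ l, ∀ j ∈ Finset.Ico (2 ^ l) (2 ^ (l + 1)), ∀ i ≤ k, ∀ q,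
      ‖iteratedFDeriv ℝ i (h j) q‖ ≤ B l) (hB0 : ∀ l, 0 ≤ B l) (m i : ℕ) (hi : i ≤ k) (q : Z n) :
    ‖iteratedFDeriv ℝ i (F h m) q‖ ≤ B m := by
  rw [F_iter hh]
  by_cases hq : ∃ j ∈ Finset.Ico (2 ^ m) (2 ^ (m + 1)), q ∈ S j
  · obtain ⟨j, hj, hqj⟩ := hq
    have hj1 : 1 ≤ j := Nat.one_le_two_pow.trans (Finset.mem_Ico.1 hj).1
    rw [Finset.sum_eq_single_of_mem j hj]
    · exact hB m j hj i hi q
    · intro j' hj' hne
      have hj1' : 1 ≤ j' := Nat.one_le_two_pow.trans (Finset.mem_Ico.1 hj').1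
      exact hS j' q (not_mem hd hj1 hj1' hne hqj) i hi
  · push Not at hq
    rw [Finset.sum_eq_zero fun j hj => hS j q (hq j hj) i hi, norm_zero]
    exact hB0 m

end Pool.Agent.N980.TL.SUM_

namespace Pool.Agent.N980.TL

theorem sum_all : S_SUM := by
  intro n k hk h S B l0 hh hS hd hB hB0 hBs
  have hbd := SUM_.F_bound (k := k) hh hS hd hB hB0
  have hBs' : Summable fun l => B (l + l0) := (summable_nat_add_iff l0).2 hBs
  have e0 : blk h l0 = fun q => ∑' l : ℕ, SUM_.F h (l + l0) q := rfl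
  have hsm : ∀ l : ℕ, ContDiff ℝ ((k : ℕ∞) : WithTop ℕ∞) (SUM_.F h (l + l0)) := fun l =>
    (SUM_.F_smooth hh (l + l0)).of_le (by exact_mod_cast le_top)
  have hv : ∀ i : ℕ, (i : ℕ∞) ≤ (k : ℕ∞) → Summable ((fun (_ : ℕ) (l : ℕ) => B (l + l0)) i) :=
    fun _ _ => hBs'
  have hb : ∀ (i : ℕ) (l : ℕ) (x : Z n), (i : ℕ∞) ≤ (k : ℕ∞) →
      ‖iteratedFDeriv ℝ i (SUM_.F h (l + l0)) x‖ ≤ (fun (_ : ℕ) (l : ℕ) => B (l + l0)) i l :=
    fun i l x hi => hbd (l + l0) i (by exact_mod_cast hi) x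
  refine ⟨?_, ?_, ?_, ?_⟩
  · rw [e0]
    have := contDiff_tsum (N := (k : ℕ∞)) hsm hv hb
    exact_mod_cast this
  · intro i hi q
    rw [e0, iteratedFDeriv_tsum (N := (k : ℕ∞)) hsm hv hb (by exact_mod_cast hi)]
    exact tsum_of_norm_bounded hBs'.hasSum fun l => hbd (l + l0) i hi q
  · intro q hq
    have h1 : ∀ j, 2 ^ l0 ≤ j → h j q = 0 := by
      intro j hj
      have h2 := hS j q (hq j hj) 0 (Nat.zero_le _)
      have h3 : ‖iteratedFDeriv ℝ 0 (h j) q‖ = ‖h j q‖ := norm_iteratedFDeriv_zero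
      rw [h2, norm_zero] at h3
      exact norm_eq_zero.1 h3.symm
    unfold blk
    rw [← tsum_zero (α := ℝ) (β := ℕ)]
    apply tsum_congr
    intro l
    apply Finset.sum_eq_zero
    intro j hj
    apply h1
    refine le_trans ?_ (Finset.mem_Ico.1 hj).1
    exact Nat.pow_le_pow_right (by norm_num) (by omega)
  · intro j hj q hq
    have hj1 : 1 ≤ j := Nat.one_le_two_pow.trans hj
    have hdiff : ∀ m, Differentiable ℝ (SUM_.F h m) := fun m =>
      (SUM_.F_smooth hh m).differentiable (by simp)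
    have hdh : ∀ j, Differentiable ℝ (h j) := fun j => (hh j).differentiable (by simp)
    have hf' : ∀ (l : ℕ) (x : Z n), ‖fderiv ℝ (SUM_.F h (l + l0)) x‖ ≤ B (l + l0) := by
      intro l x
      rw [← norm_iteratedFDeriv_one]
      exact hbd (l + l0) 1 hk x
    have hf0 : Summable fun l => SUM_.F h (l + l0) q := by
      refine Summable.of_norm_bounded hBs' fun l => ?_
      have h3 : ‖iteratedFDeriv ℝ 0 (SUM_.F h (l + l0)) q‖ = ‖SUM_.F h (l + l0) q‖ :=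
        norm_iteratedFDeriv_zero
      rw [← h3]
      exact hbd (l + l0) 0 (Nat.zero_le _) q
    rw [e0, fderiv_tsum_apply hBs' (fun l => hdiff (l + l0)) hf' hf0 q]
    have hz : ∀ j', 1 ≤ j' → j' ≠ j → fderiv ℝ (h j') q = 0 := by
      intro j' hj' hne
      have h2 := hS j' q (SUM_.not_mem hd hj1 hj' hne hq) 1 hk
      have h3 : ‖iteratedFDeriv ℝ 1 (h j') q‖ = ‖fderiv ℝ (h j') q‖ := norm_iteratedFDeriv_one _
      rw [h2, norm_zero] at h3
      exact norm_eq_zero.1 h3.symm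
    have hF : ∀ m, fderiv ℝ (SUM_.F h m) q =
        ∑ j' ∈ Finset.Ico (2 ^ m) (2 ^ (m + 1)), fderiv ℝ (h j') q := by
      intro m
      unfold SUM_.F
      exact fderiv_fun_sum fun j' _ => (hdh j').differentiableAt
    obtain ⟨m, hm⟩ : ∃ m, m = Nat.log 2 j := ⟨_, rfl⟩
    have hm1 : 2 ^ m ≤ j := by rw [hm]; exact Nat.pow_log_le_self 2 (by omega)
    have hm2 : j < 2 ^ (m + 1) := by rw [hm]; exact Nat.lt_pow_succ_log_self one_lt_two j
    have hml : l0 ≤ m := by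
      rw [hm]
      exact Nat.le_log_of_pow_le one_lt_two hj
    obtain ⟨l1, hl1⟩ : ∃ l1, m = l1 + l0 := ⟨m - l0, by omega⟩
    rw [tsum_eq_single l1]
    · rw [← hl1, hF, Finset.sum_eq_single_of_mem j (Finset.mem_Ico.2 ⟨hm1, hm2⟩)]
      intro j' hj' hne
      exact hz j' (Nat.one_le_two_pow.trans (Finset.mem_Ico.1 hj').1) hne
    · intro l hl
      rw [hF]
      apply Finset.sum_eq_zero
      intro j' hj'
      apply hz j' (Nat.one_le_two_pow.trans (Finset.mem_Ico.1 hj').1)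
      rintro rfl
      rw [Finset.mem_Ico] at hj'
      have h5 : l + l0 = m := by
        rw [hm]
        symm
        exact (Nat.log_eq_iff (Or.inr ⟨one_lt_two, by omega⟩)).2 hj'
      omega

end Pool.Agent.N980.TL
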