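import Mathlib

/-!
# Periodic potentials, Euler-Lagrange equations and slabs
-/

set_option autoImplicit false

noncomputable section

namespace Pool.Agent.N980.TL

/-- `f(x,t)` is `ℤ^n × ℤ`-periodic: a function on `𝕋^n × 𝕋`. -/
def Periodic {n : ℕ} (f : (Fin n → ℝ) → ℝ → ℝ) : Prop :=
  ∀ (x : Fin n → ℝ) (t : ℝ) (k : Fin n → ℤ) (l : ℤ), f (fun i => x i + k i) (t + l) = f x t

/-- The partial derivative `∂L/∂v_i`. -/
def dv {n : ℕ} (L : (Fin n → ℝ) → (Fin n → ℝ) → ℝ → ℝ) (i : Fin n) (x v : Fin n → ℝ) (t : ℝ) : ℝ :=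
  deriv (fun s => L x (Function.update v i s) t) (v i)

/-- The partial derivative `∂L/∂x_i`. -/
def dx {n : ℕ} (L : (Fin n → ℝ) → (Fin n → ℝ) → ℝ → ℝ) (i : Fin n) (x v : Fin n → ℝ) (t : ℝ) : ℝ :=
  deriv (fun s => L (Function.update x i s) v t) (x i)

/-- `γ` satisfies the Euler-Lagrange equations `d/dt ∂L/∂v_i (γ, γ', t) = ∂L/∂x_i (γ, γ', t)` at the
time `t`. -/
def EulerLagrange {n : ℕ} (L : (Fin n → ℝ) → (Fin n → ℝ) → ℝ → ℝ) (γ : ℝ → Fin n → ℝ) (t : ℝ) :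
    Prop :=
  DifferentiableAt ℝ γ t ∧
  ∀ i : Fin n, HasDerivAt (fun s => dv L i (γ s) (deriv γ s) s) (dx L i (γ t) (deriv γ t) t) t

/-- `x` lies in the slab `|x_1 - p| < ε` of the torus `ℝ^(r+2) / ℤ^(r+2)` (the coordinates are
`x_0, …, x_(r+1)`). -/
def InSlab {r : ℕ} (p ε : ℝ) (x : Fin (r + 2) → ℝ) : Prop := ∃ m : ℤ, |x 1 - p - m| < ε

end Pool.Agent.N980.TL
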