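import Pool.Agent.N980.TL.Stm3
import Pool.Agent.N980.TL.Dfn

/-!
# TL4: open and dense sets of potentials (statements of the leaves)
-/

set_option autoImplicit false

open Set Filter Topology

noncomputable section

namespace Pool.Agent.N980.TL

/-- the gradient of `f` in `x` -/
def gr {n : ℕ} (f : (Fin n → ℝ) → ℝ → ℝ) (x : Fin n → ℝ) (t : ℝ) : Fin n → ℝ := fun i =>
  fderiv ℝ (fun q : (Fin n → ℝ) × ℝ => f q.1 q.2) (x, t) (Pi.single i 1, 0)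

/-- Leaf BL: the gradient of a periodic potential is bounded and Lipschitz -/
def S_BL : Prop :=
  ∀ (n : ℕ) (f : (Fin n → ℝ) → ℝ → ℝ), ContDiff ℝ 2 (fun q : (Fin n → ℝ) × ℝ => f q.1 q.2) → Periodic f →
    ∃ B L : ℝ, 0 ≤ B ∧ 0 ≤ L ∧ (∀ x t, ‖gr f x t‖ ≤ B) ∧ (∀ x y t, ‖gr f x t - gr f y t‖ ≤ L * ‖x - y‖) ∧
      Continuous (fun q : (Fin n → ℝ) × ℝ => gr f q.1 q.2)

/-- Leaf EX: solutions of `x'' = F(x,t)` exist for all times (use Picard-Lindelöf on `[t0-2,t1+2]` for the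
field `(χ(v), F(x,t))`, where `χ` clamps the components of `v` to `[-R,R]`, with `R` larger than
`‖v0‖ + B (t1 - t0 + 4)`) -/
def S_EX : Prop :=
  ∀ (n : ℕ) (F : (Fin n → ℝ) → ℝ → (Fin n → ℝ)) (B L : ℝ), 0 ≤ B → 0 ≤ L →
    Continuous (fun q : (Fin n → ℝ) × ℝ => F q.1 q.2) → (∀ x t, ‖F x t‖ ≤ B) →
    (∀ x y t, ‖F x t - F y t‖ ≤ L * ‖x - y‖) → ∀ (t0 t1 : ℝ) (x0 v0 : Fin n → ℝ), t0 < t1 →
    ∃ x v : ℝ → (Fin n → ℝ), x t0 = x0 ∧ v t0 = v0 ∧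
      ∀ t ∈ Ioo (t0 - 1) (t1 + 1), HasDerivAt x (v t) t ∧ HasDerivAt v (F (x t) t) t

/-- Leaf GR: Gronwall -/
def S_GR : Prop :=
  ∀ (n : ℕ) (F G : (Fin n → ℝ) → ℝ → (Fin n → ℝ)) (L η : ℝ), 0 ≤ L → 0 ≤ η →
    (∀ x y t, ‖F x t - F y t‖ ≤ L * ‖x - y‖) → (∀ x t, ‖F x t - G x t‖ ≤ η) →
    ∀ (t0 t1 : ℝ) (x v y w : ℝ → (Fin n → ℝ)), t0 < t1 → x t0 = y t0 → v t0 = w t0 →
      (∀ t ∈ Icc t0 t1, HasDerivAt x (v t) t ∧ HasDerivAt v (F (x t) t) t) →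
      (∀ t ∈ Icc t0 t1, HasDerivAt y (w t) t ∧ HasDerivAt w (G (y t) t) t) →
      ‖v t1 - w t1‖ ≤ η * Real.exp ((L + 1) * (t1 - t0))

/-- Leaf EL: the Euler-Lagrange equations of `|v|²/2 + f` are Newton's equations -/
def S_EL : Prop :=
  ∀ (n : ℕ) (f : (Fin n → ℝ) → ℝ → ℝ), ContDiff ℝ 2 (fun q : (Fin n → ℝ) × ℝ => f q.1 q.2) →
    (∀ (γ : ℝ → Fin n → ℝ) (t : ℝ), EulerLagrange (fun x v t => (∑ i, v i ^ 2) / 2 + f x t) γ t →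
      HasDerivAt γ (deriv γ t) t ∧ HasDerivAt (deriv γ) (gr f (γ t) t) t) ∧
    (∀ (x v : ℝ → Fin n → ℝ) (t : ℝ), (∀ᶠ s in 𝓝 t, HasDerivAt x (v s) s) → HasDerivAt v (gr f (x t) t) t →
      EulerLagrange (fun x v t => (∑ i, v i ^ 2) / 2 + f x t) x t)

end Pool.Agent.N980.TL
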