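import Pool.Agent.N980.TL.Stm3

/-!
# TL3, leaf XI: size of the correction and residual force for constant velocity (helper170)
-/

set_option autoImplicit false

open Set Filter Topology MeasureTheory
open scoped ContDiff

noncomputable section

namespace Pool.Agent.N980.TL.XIh

open Pool.Agent.N980.TL

variable {T : Type} {V : T → ℝ}

/-- families of functions of uniform size `V^(-r)` -/
def UC (V : T → ℝ) (m r : ℕ) (f : T → ℝ → ℝ) : Prop :=
  ∃ C : ℝ, 0 ≤ C ∧ ∀ q, Cls m (V q) (C / V q ^ r) (f q)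

/-- families of numbers of uniform size `V^(-r)` -/
def US (V : T → ℝ) (r : ℕ) (a : T → ℝ) : Prop := ∃ C : ℝ, 0 ≤ C ∧ ∀ q, |a q| ≤ C / V q ^ r

theorem US.congr {r : ℕ} {a b : T → ℝ} (h : US V r a) (e : ∀ q, b q = a q) : US V r b := by
  obtain ⟨C, h0, hC⟩ := h
  exact ⟨C, h0, fun q => by rw [e q]; exact hC q⟩

theorem US.const (c : ℝ) : US V 0 (fun _ => c) :=
  ⟨|c|, abs_nonneg c, fun q => by rw [pow_zero, div_one]⟩

theorem US.mul (hV : ∀ q, 1 ≤ V q) {r r' : ℕ} {a b : T → ℝ} (ha : US V r a) (hb : US V r' b) :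
    US V (r + r') (fun q => a q * b q) := by
  obtain ⟨C, h0, hC⟩ := ha
  obtain ⟨C', h0', hC'⟩ := hb
  refine ⟨C * C', by positivity, fun q => ?_⟩
  have hq : 0 < V q := by linarith [hV q]
  rw [abs_mul, pow_add, ← div_mul_div_comm]
  exact mul_le_mul (hC q) (hC' q) (abs_nonneg _) (by positivity)

theorem US.add {r : ℕ} {a b : T → ℝ} (ha : US V r a) (hb : US V r b) :
    US V r (fun q => a q + b q) := by
  obtain ⟨C, h0, hC⟩ := ha
  obtain ⟨C', h0', hC'⟩ := hb
  refine ⟨C + C', by positivity, fun q => ?_⟩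
  rw [add_div]
  exact (abs_add_le _ _).trans (add_le_add (hC q) (hC' q))

theorem US.zero (_hV : ∀ q, 1 ≤ V q) (r : ℕ) : US V r (fun _ => 0) := by
  refine ⟨0, le_rfl, fun q => ?_⟩
  rw [abs_zero, zero_div]

theorem US.sum {ι : Type} (hV : ∀ q, 1 ≤ V q) {r : ℕ} (s : Finset ι) {a : ι → T → ℝ}
    (ha : ∀ i ∈ s, US V r (a i)) : US V r (fun q => ∑ i ∈ s, a i q) := by
  classical
  induction s using Finset.induction_on with
  | empty => exact (US.zero hV r).congr fun q => by simp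
  | insert i s hi ih =>
    refine ((ha i (Finset.mem_insert_self _ _)).add
      (ih fun j hj => ha j (Finset.mem_insert_of_mem hj))).congr fun q => ?_
    rw [Finset.sum_insert hi]

theorem UC.congr {m r : ℕ} {f g : T → ℝ → ℝ} (h : UC V m r f) (e : ∀ q s, g q s = f q s) :
    UC V m r g := by
  obtain ⟨C, h0, hC⟩ := h
  refine ⟨C, h0, fun q => ?_⟩
  have h1 : g q = f q := funext (e q)
  rw [h1]
  exact hC q

theorem UC.mono (hS : S_CLS) (hV : ∀ q, 1 ≤ V q) {m m' r r' : ℕ} {f : T → ℝ → ℝ}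
    (h : UC V m r f) (hm : m' ≤ m) (hr : r' ≤ r) : UC V m' r' f := by
  obtain ⟨C, h0, hC⟩ := h
  refine ⟨C, h0, fun q => ?_⟩
  have hq : 0 < V q := by linarith [hV q]
  have h2 : C / V q ^ r ≤ C / V q ^ r' :=
    div_le_div_of_nonneg_left h0 (by positivity) (pow_le_pow_right₀ (hV q) hr)
  have h1 := hS.1 m (V q) _ _ (f q) hq.le h2 (hC q)
  exact ⟨h1.1, fun i hi s hs => h1.2 i (hi.trans hm) s hs⟩

theorem UC.add (hS : S_CLS) {m r : ℕ} {f g : T → ℝ → ℝ} (hf : UC V m r f) (hg : UC V m r g) :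
    UC V m r (fun q s => f q s + g q s) := by
  obtain ⟨C, h0, hC⟩ := hf
  obtain ⟨C', h0', hC'⟩ := hg
  refine ⟨C + C', by positivity, fun q => ?_⟩
  rw [add_div]
  exact hS.2.2.1 m (V q) _ _ _ _ (hC q) (hC' q)

theorem UC.smul (hS : S_CLS) (hV : ∀ q, 1 ≤ V q) {m r r' : ℕ} {a : T → ℝ} {f : T → ℝ → ℝ}
    (ha : US V r a) (hf : UC V m r' f) : UC V m (r + r') (fun q s => a q * f q s) := by
  obtain ⟨C, h0, hC⟩ := ha
  obtain ⟨C', h0', hC'⟩ := hf
  refine ⟨C * C', by positivity, fun q => ?_⟩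
  have hq : 0 < V q := by linarith [hV q]
  refine hS.1 m (V q) _ _ _ hq.le ?_ (hS.2.2.2.1 m (V q) _ (a q) _ hq.le (hC' q))
  rw [pow_add, ← div_mul_div_comm]
  exact mul_le_mul_of_nonneg_right (hC q) (by positivity)

theorem UC.csmul (hS : S_CLS) (hV : ∀ q, 1 ≤ V q) {m r : ℕ} (c : ℝ) {f : T → ℝ → ℝ}
    (hf : UC V m r f) : UC V m r (fun q s => c * f q s) := by
  have h := UC.smul hS hV (US.const c) hf
  rwa [zero_add] at h

theorem UC.mul (hS : S_CLS) (hV : ∀ q, 1 ≤ V q) {m r r' : ℕ} {f g : T → ℝ → ℝ}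
    (hf : UC V m r f) (hg : UC V m r' g) : UC V m (r + r') (fun q s => f q s * g q s) := by
  obtain ⟨C, h0, hC⟩ := hf
  obtain ⟨C', h0', hC'⟩ := hg
  refine ⟨2 ^ m * C * C', by positivity, fun q => ?_⟩
  have hq : 0 < V q := by linarith [hV q]
  have h1 := hS.2.2.2.2.1 m (V q) _ _ _ _ hq.le (by positivity) (by positivity) (hC q) (hC' q)
  have h2 : 2 ^ m * (C / V q ^ r) * (C' / V q ^ r') = 2 ^ m * C * C' / V q ^ (r + r') := by
    rw [pow_add]
    field_simp
  rwa [h2] at h1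

theorem UC.zero (hS : S_CLS) (hV : ∀ q, 1 ≤ V q) (m r : ℕ) : UC V m r (fun _ _ => 0) := by
  refine ⟨0, le_rfl, fun q => ?_⟩
  have h := hS.2.1 m (V q) 0 (by linarith [hV q])
  rw [abs_zero] at h
  rw [zero_div]
  exact h

theorem UC.sum {ι : Type} (hS : S_CLS) (hV : ∀ q, 1 ≤ V q) {m r : ℕ} (t : Finset ι)
    {f : ι → T → ℝ → ℝ} (hf : ∀ i ∈ t, UC V m r (f i)) : UC V m r (fun q s => ∑ i ∈ t, f i q s) := by
  classical
  induction t using Finset.induction_on with
  | empty => exact (UC.zero hS hV m r).congr fun q s => by simp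
  | insert i t hi ih =>
    refine (UC.add hS (hf i (Finset.mem_insert_self _ _))
      (ih fun j hj => hf j (Finset.mem_insert_of_mem hj))).congr fun q s => ?_
    rw [Finset.sum_insert hi]

theorem UC.sin (hS : S_CLS) (hV : ∀ q, 1 ≤ V q) (m : ℕ) {K : ℝ} (hK : 1 ≤ K) (p w : T → ℝ)
    (hw : ∀ q, |w q| ≤ K * V q) : UC V m 0 (fun q s => Real.sin (p q + w q * s)) := by
  refine ⟨K ^ m, by positivity, fun q => ?_⟩
  rw [pow_zero, div_one]
  exact (hS.2.2.2.2.2.1 m K hK (V q) (w q) (p q) (hV q) (hw q)).1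

theorem UC.cos (hS : S_CLS) (hV : ∀ q, 1 ≤ V q) (m : ℕ) {K : ℝ} (hK : 1 ≤ K) (p w : T → ℝ)
    (hw : ∀ q, |w q| ≤ K * V q) : UC V m 0 (fun q s => Real.cos (p q + w q * s)) := by
  refine ⟨K ^ m, by positivity, fun q => ?_⟩
  rw [pow_zero, div_one]
  exact (hS.2.2.2.2.2.1 m K hK (V q) (w q) (p q) (hV q) (hw q)).2

theorem UC.trig (hS : S_CLS) (hV : ∀ q, 1 ≤ V q) {m r : ℕ} {f : T → ℝ → ℝ} (hf : UC V m r f) :
    UC V m (2 * r) (fun q s => Real.cos (f q s) - 1) ∧
      UC V m (2 * r) (fun q s => Real.sin (f q s) - f q s) := by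
  obtain ⟨C, h0, hC⟩ := hf
  obtain ⟨C', h1, hC'⟩ := hS.2.2.2.2.2.2.1 m (C + 1) (by linarith)
  have hk : ∀ q, Cls m (V q) (C' * C ^ 2 / V q ^ (2 * r)) (fun s => Real.cos (f q s) - 1) ∧
      Cls m (V q) (C' * C ^ 2 / V q ^ (2 * r)) (fun s => Real.sin (f q s) - f q s) := by
    intro q
    have hq : 0 < V q := by linarith [hV q]
    have h2 : C / V q ^ r ≤ C + 1 := by
      have h3 : C / V q ^ r ≤ C := div_le_self h0 (one_le_pow₀ (hV q))
      linarith
    have h4 := hC' (V q) (C / V q ^ r) (f q) (hV q) (by positivity) h2 (hC q)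
    have h5 : C' * (C / V q ^ r) ^ 2 = C' * C ^ 2 / V q ^ (2 * r) := by
      rw [div_pow, ← pow_mul, mul_comm r 2, mul_div_assoc]
    rw [h5] at h4
    exact ⟨h4.2.1, h4.2.2⟩
  exact ⟨⟨C' * C ^ 2, by positivity, fun q => (hk q).1⟩, ⟨C' * C ^ 2, by positivity, fun q => (hk q).2⟩⟩

/-! ### the data -/

section

variable {n N : ℕ} (D : Trig n N)

/-- the constant part of the phase -/
def p0 (μ : Fin N) (P : Fin n → ℝ) : ℝ := 2 * Real.pi * (∑ i, (D.k μ i : ℝ) * P i) + D.ph μ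

theorem pl_eq (μ : Fin N) (P v : Fin n → ℝ) (s : ℝ) : D.pl μ P v s = p0 D μ P + D.fr μ v * s := rfl

theorem phase_eq (μ : Fin N) (P v X : Fin n → ℝ) (s : ℝ) :
    D.phase μ (fun j => P j + s * v j + X j) s =
      D.pl μ P v s + 2 * Real.pi * ∑ j, (D.k μ j : ℝ) * X j := by
  unfold Trig.phase Trig.pl Trig.fr
  have h : ∑ i, (D.k μ i : ℝ) * (P i + s * v i + X i) =
      (∑ i, (D.k μ i : ℝ) * P i) + s * (∑ i, (D.k μ i : ℝ) * v i) + ∑ i, (D.k μ i : ℝ) * X i := by
    rw [Finset.mul_sum, ← Finset.sum_add_distrib, ← Finset.sum_add_distrib]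
    refine Finset.sum_congr rfl fun i _ => ?_
    ring
  rw [h]
  ring

theorem hd_sin (p w s : ℝ) : HasDerivAt (fun s => Real.sin (p + w * s)) (w * Real.cos (p + w * s)) s := by
  have h1 : HasDerivAt (fun s : ℝ => p + w * s) w s := by
    simpa using ((hasDerivAt_id s).const_mul w).const_add p
  have h2 := h1.sin
  rw [mul_comm] at h2
  exact h2

theorem hd_cos (p w s : ℝ) :
    HasDerivAt (fun s => w * Real.cos (p + w * s)) (-(w ^ 2 * Real.sin (p + w * s))) s := by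
  have h1 : HasDerivAt (fun s : ℝ => p + w * s) w s := by
    simpa using ((hasDerivAt_id s).const_mul w).const_add p
  have h2 := (h1.cos).const_mul w
  have h3 : -(w ^ 2 * Real.sin (p + w * s)) = w * (-Real.sin (p + w * s) * w) := by ring
  rw [h3]
  exact h2

open Classical in
/-- the second correction -/
def x2 (P v : Fin n → ℝ) (s : ℝ) (i : Fin n) : ℝ :=
  ∑ μ, ∑ ν, D.b1 μ ν v i * (Real.sin (D.pl ν P v s + D.pl μ P v s) / (D.fr ν v + D.fr μ v) ^ 2 +
      if D.k ν = D.k μ then 0 else Real.sin (D.pl ν P v s - D.pl μ P v s) / (D.fr ν v - D.fr μ v) ^ 2)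

theorem xi_eq (P v : Fin n → ℝ) (s : ℝ) (i : Fin n) :
    D.xi P v s i = (∑ μ, D.a1 μ v i * Real.sin (D.pl μ P v s)) - x2 D P v s i := rfl

open Classical in
theorem dd_xi (P v : Fin n → ℝ) (i : Fin n) (h1 : ∀ μ, D.fr μ v ≠ 0)
    (h2 : ∀ μ ν, D.fr ν v + D.fr μ v ≠ 0) (h3 : ∀ μ ν, D.k ν ≠ D.k μ → D.fr ν v - D.fr μ v ≠ 0)
    (s : ℝ) : deriv (deriv fun s => D.xi P v s i) s =
      -(∑ μ, 2 * Real.pi * D.c μ * D.k μ i * Real.sin (D.pl μ P v s)) +
        ∑ μ, ∑ ν, D.b1 μ ν v i * (Real.sin (D.pl ν P v s + D.pl μ P v s) +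
          if D.k ν = D.k μ then 0 else Real.sin (D.pl ν P v s - D.pl μ P v s)) := by
  -- first derivative
  have e1 : ∀ s μ ν, D.pl ν P v s + D.pl μ P v s =
      (p0 D ν P + p0 D μ P) + (D.fr ν v + D.fr μ v) * s := by
    intro s μ ν
    rw [pl_eq, pl_eq]
    ring
  have e2 : ∀ s μ ν, D.pl ν P v s - D.pl μ P v s =
      (p0 D ν P - p0 D μ P) + (D.fr ν v - D.fr μ v) * s := by
    intro s μ ν
    rw [pl_eq, pl_eq]
    ring
  have d1 : ∀ s, HasDerivAt (fun s => D.xi P v s i)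
      ((∑ μ, D.a1 μ v i * (D.fr μ v * Real.cos (p0 D μ P + D.fr μ v * s))) -
        ∑ μ, ∑ ν, D.b1 μ ν v i * ((D.fr ν v + D.fr μ v) *
          Real.cos ((p0 D ν P + p0 D μ P) + (D.fr ν v + D.fr μ v) * s) / (D.fr ν v + D.fr μ v) ^ 2 +
          if D.k ν = D.k μ then 0 else (D.fr ν v - D.fr μ v) *
            Real.cos ((p0 D ν P - p0 D μ P) + (D.fr ν v - D.fr μ v) * s) /
              (D.fr ν v - D.fr μ v) ^ 2)) s := by
    intro s
    unfold Trig.xi
    simp only [e1, e2]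
    refine HasDerivAt.sub ?_ ?_
    · refine HasDerivAt.fun_sum fun μ _ => ?_
      exact (hd_sin _ _ s).const_mul _
    · refine HasDerivAt.fun_sum fun μ _ => HasDerivAt.fun_sum fun ν _ => ?_
      refine HasDerivAt.const_mul _ (HasDerivAt.add ((hd_sin _ _ s).div_const _) ?_)
      split_ifs with hk
      · exact hasDerivAt_const s 0
      · exact (hd_sin _ _ s).div_const _
  have f1 : (deriv fun s => D.xi P v s i) = fun s =>
      ((∑ μ, D.a1 μ v i * (D.fr μ v * Real.cos (p0 D μ P + D.fr μ v * s))) -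
        ∑ μ, ∑ ν, D.b1 μ ν v i * ((D.fr ν v + D.fr μ v) *
          Real.cos ((p0 D ν P + p0 D μ P) + (D.fr ν v + D.fr μ v) * s) / (D.fr ν v + D.fr μ v) ^ 2 +
          if D.k ν = D.k μ then 0 else (D.fr ν v - D.fr μ v) *
            Real.cos ((p0 D ν P - p0 D μ P) + (D.fr ν v - D.fr μ v) * s) /
              (D.fr ν v - D.fr μ v) ^ 2)) := funext fun s => (d1 s).deriv
  have d2 : HasDerivAt (fun s =>
      ((∑ μ, D.a1 μ v i * (D.fr μ v * Real.cos (p0 D μ P + D.fr μ v * s))) -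
        ∑ μ, ∑ ν, D.b1 μ ν v i * ((D.fr ν v + D.fr μ v) *
          Real.cos ((p0 D ν P + p0 D μ P) + (D.fr ν v + D.fr μ v) * s) / (D.fr ν v + D.fr μ v) ^ 2 +
          if D.k ν = D.k μ then 0 else (D.fr ν v - D.fr μ v) *
            Real.cos ((p0 D ν P - p0 D μ P) + (D.fr ν v - D.fr μ v) * s) /
              (D.fr ν v - D.fr μ v) ^ 2)))
      ((∑ μ, D.a1 μ v i * (-(D.fr μ v ^ 2 * Real.sin (p0 D μ P + D.fr μ v * s)))) -
        ∑ μ, ∑ ν, D.b1 μ ν v i * (-((D.fr ν v + D.fr μ v) ^ 2 *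
          Real.sin ((p0 D ν P + p0 D μ P) + (D.fr ν v + D.fr μ v) * s)) / (D.fr ν v + D.fr μ v) ^ 2 +
          if D.k ν = D.k μ then 0 else -((D.fr ν v - D.fr μ v) ^ 2 *
            Real.sin ((p0 D ν P - p0 D μ P) + (D.fr ν v - D.fr μ v) * s)) /
              (D.fr ν v - D.fr μ v) ^ 2)) s := by
    refine HasDerivAt.sub ?_ ?_
    · refine HasDerivAt.fun_sum fun μ _ => ?_
      exact (hd_cos _ _ s).const_mul _
    · refine HasDerivAt.fun_sum fun μ _ => HasDerivAt.fun_sum fun ν _ => ?_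
      refine HasDerivAt.const_mul _ (HasDerivAt.add ((hd_cos _ _ s).div_const _) ?_)
      split_ifs with hk
      · exact hasDerivAt_const s 0
      · exact (hd_cos _ _ s).div_const _
  rw [f1, d2.deriv, sub_eq_add_neg]
  congr 1
  · rw [← Finset.sum_neg_distrib]
    refine Finset.sum_congr rfl fun μ _ => ?_
    rw [pl_eq]
    unfold Trig.a1
    have := h1 μ
    field_simp
  · rw [← Finset.sum_neg_distrib]
    refine Finset.sum_congr rfl fun μ _ => ?_
    rw [← Finset.sum_neg_distrib]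
    refine Finset.sum_congr rfl fun ν _ => ?_
    rw [← mul_neg, e1, e2]
    congr 1
    have := h2 μ ν
    split_ifs with hk
    · field_simp
      ring
    · have h4 := h3 μ ν hk
      field_simp
      ring

/-- the phase shift by the correction -/
def eta (μ : Fin N) (P v : Fin n → ℝ) (s : ℝ) : ℝ :=
  2 * Real.pi * ∑ j, (D.k μ j : ℝ) * D.xi P v s j

open Classical in
/-- the antisymmetric part of the resonant amplitudes -/
def del (μ ν : Fin N) (v : Fin n → ℝ) (i : Fin n) : ℝ :=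
  if D.k ν = D.k μ then D.b1 μ ν v i - D.b1 ν μ v i else 0

open Classical in
theorem sym_sum (g : Fin N → Fin N → ℝ) (b : Fin N → Fin N → ℝ) (hg : ∀ μ ν, g ν μ = -g μ ν) :
    ∑ μ, ∑ ν, b μ ν * (if D.k ν = D.k μ then g μ ν else 0) =
      1 / 2 * ∑ μ, ∑ ν, (if D.k ν = D.k μ then b μ ν - b ν μ else 0) * g μ ν := by
  have h1 : ∑ μ, ∑ ν, b μ ν * (if D.k ν = D.k μ then g μ ν else 0) =
      ∑ μ, ∑ ν, b ν μ * (if D.k ν = D.k μ then -g μ ν else 0) := by
    rw [Finset.sum_comm]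
    refine Finset.sum_congr rfl fun μ _ => Finset.sum_congr rfl fun ν _ => ?_
    by_cases h : D.k ν = D.k μ
    · rw [if_pos h, if_pos h.symm, hg μ ν]
    · rw [if_neg h, if_neg fun h' => h h'.symm]
  have h2 : (2 : ℝ) * ∑ μ, ∑ ν, b μ ν * (if D.k ν = D.k μ then g μ ν else 0) =
      ∑ μ, ∑ ν, (if D.k ν = D.k μ then b μ ν - b ν μ else 0) * g μ ν := by
    rw [two_mul]
    nth_rewrite 2 [h1]
    rw [← Finset.sum_add_distrib]
    refine Finset.sum_congr rfl fun μ _ => ?_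
    rw [← Finset.sum_add_distrib]
    refine Finset.sum_congr rfl fun ν _ => ?_
    split_ifs with h
    · ring
    · ring
  linarith

open Classical in
/-- the residual -/
theorem res_eq (P v : Fin n → ℝ) (i : Fin n) (h1 : ∀ μ, D.fr μ v ≠ 0)
    (h2 : ∀ μ ν, D.fr ν v + D.fr μ v ≠ 0) (h3 : ∀ μ ν, D.k ν ≠ D.k μ → D.fr ν v - D.fr μ v ≠ 0)
    (s : ℝ) : deriv (deriv fun s => D.xi P v s i) s -
        D.grad (fun j => P j + s * v j + D.xi P v s j) s i =
      (∑ μ, (2 * Real.pi * D.c μ * D.k μ i) * (Real.sin (D.pl μ P v s) *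
        (Real.cos (eta D μ P v s) - 1) + Real.cos (D.pl μ P v s) *
          (Real.sin (eta D μ P v s) - eta D μ P v s))) +
      ((∑ μ, (-(2 * Real.pi * D.c μ * D.k μ i * (2 * Real.pi))) * (Real.cos (D.pl μ P v s) *
        ∑ j, (D.k μ j : ℝ) * x2 D P v s j)) +
      (-(1 / 2)) * ∑ μ, ∑ ν, del D μ ν v i * Real.sin (D.pl ν P v s - D.pl μ P v s)) := by
  rw [dd_xi D P v i h1 h2 h3 s]
  have hg : D.grad (fun j => P j + s * v j + D.xi P v s j) s i =
      -∑ μ, (2 * Real.pi * D.c μ * D.k μ i) * (Real.sin (D.pl μ P v s) * Real.cos (eta D μ P v s) +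
        Real.cos (D.pl μ P v s) * Real.sin (eta D μ P v s)) := by
    unfold Trig.grad
    congr 1
    refine Finset.sum_congr rfl fun μ _ => ?_
    rw [phase_eq, ← Real.sin_add]
    unfold eta
    ring
  have hs := sym_sum D (fun μ ν => Real.sin (D.pl ν P v s - D.pl μ P v s))
    (fun μ ν => D.b1 μ ν v i) (fun μ ν => by
      show Real.sin (D.pl μ P v s - D.pl ν P v s) = -Real.sin (D.pl ν P v s - D.pl μ P v s)
      rw [← Real.sin_neg, neg_sub])
  have hx : ∑ μ, (2 * Real.pi * D.c μ * D.k μ i) * (Real.cos (D.pl μ P v s) * eta D μ P v s) =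
      -(∑ μ, ∑ ν, D.b1 μ ν v i * (Real.sin (D.pl ν P v s + D.pl μ P v s) +
        Real.sin (D.pl ν P v s - D.pl μ P v s))) +
      ∑ μ, (-(2 * Real.pi * D.c μ * D.k μ i * (2 * Real.pi))) * (Real.cos (D.pl μ P v s) *
        ∑ j, (D.k μ j : ℝ) * x2 D P v s j) := by
    rw [← Finset.sum_neg_distrib, ← Finset.sum_add_distrib]
    refine Finset.sum_congr rfl fun μ _ => ?_
    have e1 : eta D μ P v s = 2 * Real.pi * (∑ ν, (∑ j, (D.k μ j : ℝ) * D.a1 ν v j) *
        Real.sin (D.pl ν P v s)) - 2 * Real.pi * ∑ j, (D.k μ j : ℝ) * x2 D P v s j := by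
      unfold eta
      rw [← mul_sub]
      congr 1
      simp only [xi_eq, mul_sub, Finset.sum_sub_distrib]
      congr 1
      simp only [Finset.mul_sum, Finset.sum_mul]
      rw [Finset.sum_comm]
      refine Finset.sum_congr rfl fun ν _ => Finset.sum_congr rfl fun j _ => ?_
      ring
    have e2 : ∑ ν, D.b1 μ ν v i * (Real.sin (D.pl ν P v s + D.pl μ P v s) +
        Real.sin (D.pl ν P v s - D.pl μ P v s)) =
        -((2 * Real.pi * D.c μ * D.k μ i) * (Real.cos (D.pl μ P v s) * (2 * Real.pi *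
          (∑ ν, (∑ j, (D.k μ j : ℝ) * D.a1 ν v j) * Real.sin (D.pl ν P v s))))) := by
      rw [Finset.mul_sum, Finset.mul_sum, Finset.mul_sum, ← Finset.sum_neg_distrib]
      refine Finset.sum_congr rfl fun ν _ => ?_
      rw [Real.sin_add, Real.sin_sub]
      unfold Trig.b1
      ring
    rw [e1, e2]
    ring
  have h4 : (∑ μ, ∑ ν, D.b1 μ ν v i * (Real.sin (D.pl ν P v s + D.pl μ P v s) +
          if D.k ν = D.k μ then 0 else Real.sin (D.pl ν P v s - D.pl μ P v s))) -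
      (∑ μ, ∑ ν, D.b1 μ ν v i * (Real.sin (D.pl ν P v s + D.pl μ P v s) +
        Real.sin (D.pl ν P v s - D.pl μ P v s))) =
      -∑ μ, ∑ ν, D.b1 μ ν v i * (if D.k ν = D.k μ then
        Real.sin (D.pl ν P v s - D.pl μ P v s) else 0) := by
    rw [← Finset.sum_sub_distrib, ← Finset.sum_neg_distrib]
    refine Finset.sum_congr rfl fun μ _ => ?_
    rw [← Finset.sum_sub_distrib, ← Finset.sum_neg_distrib]
    refine Finset.sum_congr rfl fun ν _ => ?_
    split_ifs with h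
    · ring
    · ring
  have h5 : ∑ μ, (2 * Real.pi * D.c μ * D.k μ i) * (Real.sin (D.pl μ P v s) *
        (Real.cos (eta D μ P v s) - 1) + Real.cos (D.pl μ P v s) *
          (Real.sin (eta D μ P v s) - eta D μ P v s)) =
      (∑ μ, (2 * Real.pi * D.c μ * D.k μ i) * (Real.sin (D.pl μ P v s) * Real.cos (eta D μ P v s) +
        Real.cos (D.pl μ P v s) * Real.sin (eta D μ P v s))) -
      (∑ μ, 2 * Real.pi * D.c μ * D.k μ i * Real.sin (D.pl μ P v s)) -
      ∑ μ, (2 * Real.pi * D.c μ * D.k μ i) * (Real.cos (D.pl μ P v s) * eta D μ P v s) := by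
    rw [← Finset.sum_sub_distrib, ← Finset.sum_sub_distrib]
    refine Finset.sum_congr rfl fun μ _ => ?_
    ring
  rw [hg, h5, hx]
  unfold del
  have h6 : ∑ μ, ∑ ν, D.b1 μ ν v i * (if D.k ν = D.k μ then
        Real.sin (D.pl ν P v s - D.pl μ P v s) else 0) = 1 / 2 * ∑ μ, ∑ ν,
      (if D.k ν = D.k μ then D.b1 μ ν v i - D.b1 ν μ v i else 0) *
        Real.sin (D.pl ν P v s - D.pl μ P v s) := hs
  rw [h6] at h4
  linarith

end

end Pool.Agent.N980.TL.XIh

namespace Pool.Agent.N980.TL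

open XIh

open Classical in
theorem xi_all (h : S_CLS) : S_XI := by
  intro n N D c1 C1 hc1
  let T : Type := {q : ℝ × (Fin n → ℝ) × (Fin n → ℝ) // 1 ≤ q.1 ∧ D.NR c1 C1 q.1 q.2.2}
  let V : T → ℝ := fun q => q.1.1
  let P : T → Fin n → ℝ := fun q => q.1.2.1
  let v : T → Fin n → ℝ := fun q => q.1.2.2
  have hV : ∀ q, 1 ≤ V q := fun q => q.2.1
  have hlo : ∀ q μ, c1 * V q ≤ D.fr μ (v q) := fun q μ => (q.2.2.1 μ).1
  have hhi : ∀ q μ, D.fr μ (v q) ≤ C1 * V q := fun q μ => (q.2.2.1 μ).2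
  have hdf : ∀ q μ ν, D.k μ ≠ D.k ν → c1 * V q ≤ |D.fr μ (v q) - D.fr ν (v q)| :=
    fun q μ ν => q.2.2.2 μ ν
  have hcV : ∀ q, 0 < c1 * V q := fun q => mul_pos hc1 (by linarith [hV q])
  have hK1 : (1 : ℝ) ≤ 1 + 2 * |C1| := by linarith [abs_nonneg C1]
  have hKb : ∀ q, C1 * V q ≤ |C1| * V q := fun q =>
    mul_le_mul_of_nonneg_right (le_abs_self C1) (by linarith [hV q])
  have hw1 : ∀ μ q, |D.fr μ (v q)| ≤ (1 + 2 * |C1|) * V q := by
    intro μ q
    rw [abs_le]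
    have := hlo q μ
    have := hhi q μ
    have := hcV q
    have := hKb q
    have := hV q
    constructor <;> nlinarith
  have hw2 : ∀ μ ν q, |D.fr ν (v q) + D.fr μ (v q)| ≤ (1 + 2 * |C1|) * V q := by
    intro μ ν q
    rw [abs_le]
    have := hlo q μ
    have := hhi q μ
    have := hlo q ν
    have := hhi q ν
    have := hcV q
    have := hKb q
    have := hV q
    constructor <;> nlinarith
  have hw3 : ∀ μ ν q, |D.fr ν (v q) - D.fr μ (v q)| ≤ (1 + 2 * |C1|) * V q := by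
    intro μ ν q
    rw [abs_le]
    have := hlo q μ
    have := hhi q μ
    have := hlo q ν
    have := hhi q ν
    have := hcV q
    have := hKb q
    have := hV q
    constructor <;> nlinarith
  -- inverse frequencies
  have hinv : ∀ (w : T → ℝ), (∀ q, c1 * V q ≤ |w q|) → US V 1 (fun q => (w q)⁻¹) := by
    intro w hw
    refine ⟨c1⁻¹, by positivity, fun q => ?_⟩
    rw [abs_inv, pow_one, div_eq_mul_inv, ← mul_inv]
    exact inv_anti₀ (hcV q) (hw q)
  have u1 : ∀ μ, US V 1 (fun q => (D.fr μ (v q))⁻¹) := fun μ =>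
    hinv _ fun q => (hlo q μ).trans (le_abs_self _)
  have u2 : ∀ μ ν, US V 1 (fun q => (D.fr ν (v q) + D.fr μ (v q))⁻¹) := fun μ ν =>
    hinv _ fun q => by
      refine le_trans ?_ (le_abs_self _)
      linarith [hlo q μ, hlo q ν, hcV q]
  have u3 : ∀ μ ν, D.k ν ≠ D.k μ → US V 1 (fun q => (D.fr ν (v q) - D.fr μ (v q))⁻¹) :=
    fun μ ν hk => hinv _ fun q => hdf q ν μ hk
  have ha : ∀ μ i, US V 2 (fun q => D.a1 μ (v q) i) := by
    intro μ i
    refine ((US.const (V := V) (2 * Real.pi * D.c μ * D.k μ i)).mul hV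
      ((u1 μ).mul hV (u1 μ))).congr fun q => ?_
    unfold Trig.a1
    rw [div_eq_mul_inv, pow_two, mul_inv]
  have hb : ∀ μ ν i, US V 2 (fun q => D.b1 μ ν (v q) i) := by
    intro μ ν i
    refine ((US.const (V := V) (-(2 * Real.pi) ^ 2 / 2 * D.c μ * D.k μ i)).mul hV
      (US.sum hV Finset.univ fun j _ => (US.const (V := V) (D.k μ j : ℝ)).mul hV (ha ν j))).congr
      fun q => ?_
    unfold Trig.b1
    ring
  have hx2 : ∀ i, UC V 4 4 (fun q s => x2 D (P q) (v q) s i) := by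
    intro i
    refine UC.sum h hV Finset.univ fun μ _ => UC.sum h hV Finset.univ fun ν _ => ?_
    refine UC.smul h hV (r := 2) (r' := 2) (hb μ ν i) (UC.add h ?_ ?_)
    · refine (UC.smul h hV ((u2 μ ν).mul hV (u2 μ ν)) (UC.sin h hV 4 hK1
        (fun q => p0 D ν (P q) + p0 D μ (P q)) _ (hw2 μ ν))).congr fun q s => ?_
      rw [div_eq_mul_inv, mul_comm, pow_two, mul_inv]
      congr 2
      rw [pl_eq, pl_eq]
      ring
    · by_cases hk : D.k ν = D.k μ
      · simp only [if_pos hk]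
        exact UC.zero h hV 4 2
      · simp only [if_neg hk]
        refine (UC.smul h hV ((u3 μ ν hk).mul hV (u3 μ ν hk)) (UC.sin h hV 4 hK1
          (fun q => p0 D ν (P q) - p0 D μ (P q)) _ (hw3 μ ν))).congr fun q s => ?_
        rw [div_eq_mul_inv, mul_comm, pow_two, mul_inv]
        congr 2
        rw [pl_eq, pl_eq]
        ring
  have hxi : ∀ i, UC V 4 2 (fun q s => D.xi (P q) (v q) s i) := by
    intro i
    refine (UC.add h (UC.sum h hV Finset.univ fun μ _ => UC.smul h hV (ha μ i)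
      (UC.sin h hV 4 hK1 (fun q => p0 D μ (P q)) _ (hw1 μ)))
      (UC.csmul h hV (-1) (UC.mono h hV (hx2 i) le_rfl (by norm_num : 2 ≤ 4)))).congr fun q s => ?_
    rw [xi_eq]
    simp only [pl_eq]
    ring
  have het : ∀ μ, UC V 2 2 (fun q s => eta D μ (P q) (v q) s) := by
    intro μ
    refine UC.csmul h hV (2 * Real.pi) (UC.sum h hV Finset.univ fun j _ => ?_)
    exact UC.csmul h hV _ (UC.mono h hV (hxi j) (by norm_num) le_rfl)
  have hdel : ∀ μ ν i, US V 3 (fun q => del D μ ν (v q) i) := by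
    intro μ ν i
    by_cases hk : D.k ν = D.k μ
    · have hu : US V 3 (fun q => ((D.fr ν (v q))⁻¹ * (D.fr ν (v q))⁻¹) * (D.fr μ (v q))⁻¹ +
          (D.fr ν (v q))⁻¹ * ((D.fr μ (v q))⁻¹ * (D.fr μ (v q))⁻¹)) :=
        (((u1 ν).mul hV (u1 ν)).mul hV (u1 μ)).add ((u1 ν).mul hV ((u1 μ).mul hV (u1 μ)))
      refine ((US.const (V := V) (-(2 * Real.pi) ^ 2 / 2 * (2 * Real.pi) * D.c μ * D.c ν *
        (∑ j, (D.k μ j : ℝ) * D.k μ j) * D.k μ i * (2 * Real.pi * (D.m μ - D.m ν)))).mul hV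
          hu).congr fun q => ?_
      have h1 : D.fr μ (v q) ≠ 0 := (lt_of_lt_of_le (hcV q) (hlo q μ)).ne'
      have h2 : D.fr ν (v q) ≠ 0 := (lt_of_lt_of_le (hcV q) (hlo q ν)).ne'
      have h3 : D.fr μ (v q) - D.fr ν (v q) = 2 * Real.pi * (D.m μ - D.m ν) := by
        unfold Trig.fr
        rw [hk]
        ring
      unfold del Trig.b1 Trig.a1
      rw [if_pos hk, ← h3, hk]
      have h4 : ∀ (c w : ℝ), ∑ j, (D.k μ j : ℝ) * (2 * Real.pi * c * D.k μ j / w ^ 2) =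
          2 * Real.pi * c / w ^ 2 * ∑ j, (D.k μ j : ℝ) * D.k μ j := by
        intro c w
        rw [Finset.mul_sum]
        refine Finset.sum_congr rfl fun j _ => ?_
        ring
      rw [h4, h4]
      field_simp
      ring
    · refine (US.zero hV 3).congr fun q => ?_
      unfold del
      rw [if_neg hk]
  have hres : ∀ i, UC V 2 3 (fun q s => deriv (deriv fun s => D.xi (P q) (v q) s i) s -
      D.grad (fun j => P q j + s * v q j + D.xi (P q) (v q) s j) s i) := by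
    intro i
    refine (UC.add h (UC.sum h hV Finset.univ fun μ _ => UC.csmul h hV (2 * Real.pi * D.c μ * D.k μ i)
      (UC.add h ?_ ?_)) (UC.add h (UC.sum h hV Finset.univ fun μ _ => UC.csmul h hV _ ?_)
        (UC.csmul h hV (-(1 / 2)) (UC.sum h hV Finset.univ fun μ _ =>
          UC.sum h hV Finset.univ fun ν _ => ?_)))).congr fun q s =>
      res_eq D (P q) (v q) i (fun μ => (lt_of_lt_of_le (hcV q) (hlo q μ)).ne')
        (fun μ ν => by linarith [hcV q, hlo q μ, hlo q ν] |> ne_of_gt)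
        (fun μ ν hk h0 => by
          have := hdf q ν μ hk
          rw [h0, abs_zero] at this
          linarith [hcV q]) s
    · exact UC.mono h hV (UC.mul h hV (UC.sin h hV 2 hK1 (fun q => p0 D μ (P q)) _ (hw1 μ))
        (UC.trig h hV (het μ)).1) le_rfl (by norm_num)
    · exact UC.mono h hV (UC.mul h hV (UC.cos h hV 2 hK1 (fun q => p0 D μ (P q)) _ (hw1 μ))
        (UC.trig h hV (het μ)).2) le_rfl (by norm_num)
    · exact UC.mono h hV (UC.mul h hV (UC.cos h hV 2 hK1 (fun q => p0 D μ (P q)) _ (hw1 μ))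
        (UC.sum h hV Finset.univ fun j _ => UC.csmul h hV _
          (UC.mono h hV (hx2 j) (by norm_num : 2 ≤ 4) le_rfl))) le_rfl (by norm_num)
    · refine (UC.smul h hV (hdel μ ν i) (UC.sin h hV 2 hK1
        (fun q => p0 D ν (P q) - p0 D μ (P q)) _ (hw3 μ ν))).congr fun q s => ?_
      congr 2
      rw [pl_eq, pl_eq]
      ring
  choose Ca hCa0 hCa using hxi
  choose Cb hCb0 hCb using hres
  refine ⟨1 + ∑ i, (Ca i + Cb i), by
    have : 0 ≤ ∑ i, (Ca i + Cb i) := Finset.sum_nonneg fun i _ => add_nonneg (hCa0 i) (hCb0 i)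
    linarith, ?_⟩
  intro V' P' v' hV' hNR i
  have hsi : Ca i + Cb i ≤ ∑ i, (Ca i + Cb i) :=
    Finset.single_le_sum (f := fun i => Ca i + Cb i)
      (fun i _ => add_nonneg (hCa0 i) (hCb0 i)) (Finset.mem_univ i)
  have hV0 : 0 < V' := by linarith
  have hq1 := hCa i ⟨(V', P', v'), hV', hNR⟩
  have hq2 := hCb i ⟨(V', P', v'), hV', hNR⟩
  have ha0 := hCa0 i
  have hb0 := hCb0 i
  constructor
  · refine h.1 4 V' _ _ _ hV0.le ?_ hq1
    show Ca i / V' ^ 2 ≤ _
    gcongr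
    linarith
  · refine h.1 2 V' _ _ _ hV0.le ?_ hq2
    show Cb i / V' ^ 3 ≤ _
    gcongr
    linarith

end Pool.Agent.N980.TL
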