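import Pool.Agent.N980.TL.Main3
import Pool.Agent.N980.TL.FN
import Pool.Agent.N980.TL.SUM
import Pool.Agent.N980.TL.DIO
import Pool.Agent.N980.TL.SEQ
import Pool.Agent.N980.TL.Cls
import Pool.Agent.N980.TL.XI
import Pool.Agent.N980.TL.Lip
import Pool.Agent.N980.TL.Gam
import Pool.Agent.N980.TL.BND3
import Pool.Agent.N980.TL.Per3
import Pool.Agent.N980.TL.Nrm
import Pool.Agent.N980.TL.Lam
import Pool.Agent.N980.TL.DENS
import Pool.Agent.N980.TL.Stm4

/-!
# Density of the potentials with escaping orbits, and the Euler-Lagrange equations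
-/

set_option autoImplicit false

open Filter Topology Set
open scoped ContDiff

noncomputable section

namespace Pool.Agent.N980.TL

theorem dense3 (r : ℕ) (hr : 5 ≤ r) (f₀ : (Fin (r + 2) → ℝ) → ℝ → ℝ)
    (hf₀ : ContDiff ℝ 2 (fun q : (Fin (r + 2) → ℝ) × ℝ => f₀ q.1 q.2)) (hper : Periodic f₀)
    (ε : ℝ) (hε : 0 < ε) :
    ∃ (f : (Fin (r + 2) → ℝ) → ℝ → ℝ) (γ : ℝ → Fin (r + 2) → ℝ),
      ContDiff ℝ 2 (fun q : (Fin (r + 2) → ℝ) × ℝ => f q.1 q.2) ∧ Periodic f ∧
      (∀ i ≤ 2, ∀ q, ‖iteratedFDeriv ℝ i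
        (fun q : (Fin (r + 2) → ℝ) × ℝ => f q.1 q.2 - f₀ q.1 q.2) q‖ ≤ ε) ∧
      (∃ c > 0, ∀ t, 0 ≤ t → c * t ^ (6 / 25 : ℝ) ≤ ‖deriv γ t‖) ∧
      ∀ t, 0 < t → EulerLagrange (fun x v t => (∑ i, v i ^ 2) / 2 + f x t) γ t := by
  obtain ⟨N, D, hD⟩ := dens_all (r + 2) (fun q => f₀ q.1 q.2) hf₀
    (fun x t k l => hper x t k l) (ε / 2) (half_pos hε)
  obtain ⟨F, γ, h1, h2, h3, h4, h5⟩ := main3 fn_all (xi_all cls_all) (lip_all cls_all)
    (gam_all fn_all cls_all (xi_all cls_all) (lip_all cls_all)) (bnd3_all fn_all) per3_all sum_all dio_all seq_all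
    nrm_all lam_all r hr N D (ε / 2) (half_pos hε)
  have hDs : ContDiff ℝ 2 (fun q : Z (r + 2) => D.val q.1 q.2) := (contDiff_infty.1 (val_smooth D)) 2
  refine ⟨fun x t => D.val x t + F (x, t), γ, hDs.add h1, ?_, ?_, h4, h5⟩
  · intro x t k l
    have e1 := val_periodic D x t k l
    have e2 := h2 x t k l
    simp only at e2
    show D.val (fun i => x i + k i) (t + l) + F ((fun i => x i + k i), t + l) = D.val x t + F (x, t)
    rw [e1, e2]
  · intro i hi q
    have hi' : (i : WithTop ℕ∞) ≤ 2 := by exact_mod_cast hi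
    have e : (fun q : (Fin (r + 2) → ℝ) × ℝ => D.val q.1 q.2 + F (q.1, q.2) - f₀ q.1 q.2) =
        F - fun q : Z (r + 2) => f₀ q.1 q.2 - D.val q.1 q.2 := by
      funext q
      show D.val q.1 q.2 + F (q.1, q.2) - f₀ q.1 q.2 = F q - (f₀ q.1 q.2 - D.val q.1 q.2)
      ring
    show ‖iteratedFDeriv ℝ i (fun q : (Fin (r + 2) → ℝ) × ℝ => D.val q.1 q.2 + F (q.1, q.2) - f₀ q.1 q.2) q‖ ≤ ε
    have hn : ContDiff ℝ 2 (-fun q : Z (r + 2) => f₀ q.1 q.2 - D.val q.1 q.2) := (hf₀.sub hDs).neg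
    rw [e, sub_eq_add_neg, iteratedFDeriv_add_apply (h1.of_le hi').contDiffAt (hn.of_le hi').contDiffAt,
      iteratedFDeriv_neg_apply]
    refine (norm_add_le _ _).trans ?_
    rw [norm_neg]
    linarith [h3 i hi q, hD i hi q]

theorem gr_hasDerivAt {n : ℕ} {f : (Fin n → ℝ) → ℝ → ℝ}
    (hf : ContDiff ℝ 2 (fun q : (Fin n → ℝ) × ℝ => f q.1 q.2)) (x : Fin n → ℝ) (t : ℝ) (i : Fin n) :
    HasDerivAt (fun u => f (Function.update x i u) t) (gr f x t i) (x i) := by
  have h1 : HasFDerivAt (fun q : (Fin n → ℝ) × ℝ => f q.1 q.2)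
      (fderiv ℝ (fun q : (Fin n → ℝ) × ℝ => f q.1 q.2) (x, t)) (Function.update x i (x i), t) := by
    rw [Function.update_eq_self]
    exact (hf.differentiable (by norm_num) _).hasFDerivAt
  exact h1.comp_hasDerivAt (x i) (hasDerivAt_upd x i t (x i))

theorem el_all : S_EL := by
  intro n f hf
  constructor
  · intro γ t hE
    obtain ⟨hd, h⟩ := hE
    refine ⟨hd.hasDerivAt, ?_⟩
    rw [hasDerivAt_pi]
    intro i
    have e1 : (fun s => dv (fun x v t => (∑ i, v i ^ 2) / 2 + f x t) i (γ s) (deriv γ s) s) =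
        fun s => deriv γ s i := by
      funext s
      simp only [dv]
      have e : (fun u => (∑ m, Function.update (deriv γ s) i u m ^ 2) / 2 + f (γ s) s) =
          fun u => (u ^ 2 + ∑ m ∈ Finset.univ.erase i, (deriv γ s m) ^ 2) / 2 + f (γ s) s := by
        funext u
        rw [← Finset.add_sum_erase _ _ (Finset.mem_univ i)]
        simp only [Function.update_self]
        congr 3
        refine Finset.sum_congr rfl fun m hm => ?_
        rw [Function.update_of_ne (Finset.ne_of_mem_erase hm)]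
      rw [e]
      have h3 := ((((hasDerivAt_pow 2 (deriv γ s i)).add_const
        (∑ m ∈ Finset.univ.erase i, (deriv γ s m) ^ 2)).div_const 2).add_const (f (γ s) s)).deriv
      rw [h3]
      simp
    have e2 : dx (fun x v t => (∑ i, v i ^ 2) / 2 + f x t) i (γ t) (deriv γ t) t = gr f (γ t) t i := by
      simp only [dx]
      exact ((gr_hasDerivAt hf (γ t) t i).const_add _).deriv
    have := h i
    rw [e1, e2] at this
    exact this
  · intro x v t hx hv
    have hd : deriv x =ᶠ[𝓝 t] v := by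
      filter_upwards [hx] with s hs using hs.deriv
    refine el_of_newton2 (Reg := fun _ => True) (L := fun _ v _ => (∑ i, v i ^ 2) / 2)
      (f := f) (fun _ _ _ _ => rfl) (Filter.Eventually.of_forall fun _ => trivial)
      hx.self_of_nhds.differentiableAt (hv.congr_of_eventuallyEq hd) fun i => gr_hasDerivAt hf (x t) t i

end Pool.Agent.N980.TL
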