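import Pool.Agent.N980.TL.Dfn

/-!
# Tubes around a closed geodesic of the flat torus
-/

set_option autoImplicit false

noncomputable section

namespace Pool.Agent.N980.TL

/-- `x` lies in the tube `{|x_i - p_i| < ε for i ≠ 0}` around the closed geodesic
`{x_i = p_i for i ≠ 0}` of the torus `ℝ^(m+2) / ℤ^(m+2)` (the coordinates are `x_0, …, x_(m+1)`). -/
def InTube {m : ℕ} (p : Fin (m + 2) → ℝ) (ε : ℝ) (x : Fin (m + 2) → ℝ) : Prop :=
  ∀ i, i ≠ 0 → ∃ k : ℤ, |x i - p i - k| < ε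

end Pool.Agent.N980.TL
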