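import Pool.Agent.N980.TL.Dfn

/-!
# Open and dense sets of potentials
-/

set_option autoImplicit false

noncomputable section

namespace Pool.Agent.N980.TL

/-- `f` is a potential of class `C²` on `𝕋^n × 𝕋` -/
def Pot {n : ℕ} (f : (Fin n → ℝ) → ℝ → ℝ) : Prop :=
  ContDiff ℝ 2 (fun q : (Fin n → ℝ) × ℝ => f q.1 q.2) ∧ Periodic f

/-- all derivatives of `g - f` of order at most `2` are bounded by `ε` -/
def Close {n : ℕ} (ε : ℝ) (f g : (Fin n → ℝ) → ℝ → ℝ) : Prop :=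
  ∀ i ≤ 2, ∀ q, ‖iteratedFDeriv ℝ i (fun q : (Fin n → ℝ) × ℝ => g q.1 q.2 - f q.1 q.2) q‖ ≤ ε

/-- `O` is an open and dense set of potentials of class `C²` -/
def OpenDense {n : ℕ} (O : Set ((Fin n → ℝ) → ℝ → ℝ)) : Prop :=
  (∀ f ∈ O, Pot f ∧ ∃ η > 0, ∀ g, Pot g → Close η f g → g ∈ O) ∧
  ∀ f, Pot f → ∀ ε > 0, ∃ g ∈ O, Close ε f g

end Pool.Agent.N980.TL
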