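import Pool.Agent.N980.TL.Stm4

/-!
# Leaf EX: solutions of `x'' = F(x,t)` exist for all times
-/

set_option autoImplicit false

open Set Filter Topology Metric

noncomputable section

namespace Pool.Agent.N980.TL

/-- clamp of the components of a vector to `[-R,R]` -/
def exClamp {n : ℕ} (R : ℝ) (v : Fin n → ℝ) : Fin n → ℝ := fun i => max (-R) (min R (v i))

theorem exClamp_norm_le {n : ℕ} {R : ℝ} (hR : 0 ≤ R) (v : Fin n → ℝ) : ‖exClamp R v‖ ≤ R := by
  rw [pi_norm_le_iff_of_nonneg hR]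
  intro i
  rw [Real.norm_eq_abs, abs_le]
  refine ⟨le_max_left _ _, max_le (by linarith) (min_le_left _ _)⟩

theorem exClamp_sub_le {n : ℕ} (R : ℝ) (v w : Fin n → ℝ) : ‖exClamp R v - exClamp R w‖ ≤ ‖v - w‖ := by
  rw [pi_norm_le_iff_of_nonneg (norm_nonneg _)]
  intro i
  have h1 : |max (-R) (min R (v i)) - max (-R) (min R (w i))| ≤ |min R (v i) - min R (w i)| := by
    have := abs_max_sub_max_le_max (-R) (min R (v i)) (-R) (min R (w i))
    simpa using this
  have h2 : |min R (v i) - min R (w i)| ≤ |v i - w i| := by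
    have := abs_min_sub_min_le_max R (v i) R (w i)
    simpa using this
  have h3 : |v i - w i| ≤ ‖v - w‖ := by
    have := norm_le_pi_norm (v - w) i
    simpa [Real.norm_eq_abs] using this
  calc ‖(exClamp R v - exClamp R w) i‖ = |max (-R) (min R (v i)) - max (-R) (min R (w i))| := rfl
    _ ≤ _ := h1.trans (h2.trans h3)

theorem exClamp_eq {n : ℕ} {R : ℝ} {v : Fin n → ℝ} (h : ‖v‖ ≤ R) : exClamp R v = v := by
  funext i
  have h1 : |v i| ≤ R := by
    have := norm_le_pi_norm v i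
    rw [Real.norm_eq_abs] at this
    exact this.trans h
  rw [abs_le] at h1
  simp only [exClamp]
  rw [min_eq_right h1.2, max_eq_right h1.1]

theorem ex_all : S_EX := by
  intro n F B L hB hL hF hFB hFL t0 t1 x0 v0 ht
  set T : ℝ := t1 - t0 + 4 with hT
  have hTpos : 0 < T := by rw [hT]; linarith
  set R : ℝ := ‖v0‖ + B * T + 1 with hR
  have hv0 : 0 ≤ ‖v0‖ := norm_nonneg _
  have hBT : 0 ≤ B * T := mul_nonneg hB hTpos.le
  have hRpos : 0 ≤ R := by rw [hR]; linarith
  set M : ℝ := max R B with hM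
  have hM0 : 0 ≤ M := hRpos.trans (le_max_left _ _)
  set X : ℝ → (Fin n → ℝ) × (Fin n → ℝ) → (Fin n → ℝ) × (Fin n → ℝ) :=
    fun t p => (exClamp R p.2, F p.1 t) with hX
  have hmem : t0 ∈ Icc (t0 - 2) (t1 + 2) := ⟨by linarith, by linarith⟩
  have hPL : IsPicardLindelof X (⟨t0, hmem⟩ : Icc (t0 - 2) (t1 + 2)) (x0, v0)
      ⟨M * T, mul_nonneg hM0 hTpos.le⟩ 0 ⟨M, hM0⟩ ⟨max 1 L, le_max_of_le_left zero_le_one⟩ := by
    refine ⟨?_, ?_, ?_, ?_⟩
    · intro t _
      refine LipschitzOnWith.of_dist_le_mul ?_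
      intro p _ q _
      rw [dist_eq_norm, dist_eq_norm]
      change ‖X t p - X t q‖ ≤ max 1 L * ‖p - q‖
      have e1 : ‖p.2 - q.2‖ ≤ ‖p - q‖ := norm_snd_le (p - q)
      have e2 : ‖p.1 - q.1‖ ≤ ‖p - q‖ := norm_fst_le (p - q)
      have hpq : 0 ≤ ‖p - q‖ := norm_nonneg _
      have h1 : ‖exClamp R p.2 - exClamp R q.2‖ ≤ max 1 L * ‖p - q‖ := by
        refine (exClamp_sub_le R _ _).trans (e1.trans ?_)
        have : 1 * ‖p - q‖ ≤ max 1 L * ‖p - q‖ := mul_le_mul_of_nonneg_right (le_max_left _ _) hpq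
        linarith
      have h2 : ‖F p.1 t - F q.1 t‖ ≤ max 1 L * ‖p - q‖ := by
        refine (hFL _ _ _).trans ?_
        exact mul_le_mul (le_max_right _ _) e2 (norm_nonneg _) (le_max_of_le_left zero_le_one)
      have : X t p - X t q = (exClamp R p.2 - exClamp R q.2, F p.1 t - F q.1 t) := rfl
      rw [this, Prod.norm_def]
      exact max_le h1 h2
    · intro p _
      have h1 : Continuous fun t : ℝ => F p.1 t := hF.comp (by fun_prop : Continuous fun t : ℝ => (p.1, t))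
      exact (continuous_const.prodMk h1).continuousOn
    · intro t _ p _
      change ‖X t p‖ ≤ M
      rw [hX, Prod.norm_def]
      exact max_le ((exClamp_norm_le hRpos _).trans (le_max_left _ _)) ((hFB _ _).trans (le_max_right _ _))
    · change M * max (t1 + 2 - t0) (t0 - (t0 - 2)) ≤ M * T - 0
      rw [sub_zero]
      refine mul_le_mul_of_nonneg_left (max_le (by rw [hT]; linarith) (by rw [hT]; linarith)) hM0
  obtain ⟨α, hα0, hα⟩ := hPL.exists_eq_forall_mem_Icc_hasDerivWithinAt₀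
  change α t0 = (x0, v0) at hα0
  have hv' : ∀ t ∈ Icc (t0 - 2) (t1 + 2), HasDerivWithinAt (fun s => (α s).2) (F (α t).1 t) (Icc (t0 - 2) (t1 + 2)) t := by
    intro t htm
    exact (hα t htm).snd
  have hx' : ∀ t ∈ Icc (t0 - 2) (t1 + 2), HasDerivWithinAt (fun s => (α s).1) (exClamp R (α t).2) (Icc (t0 - 2) (t1 + 2)) t := by
    intro t htm
    exact (hα t htm).fst
  have hbd : ∀ t ∈ Icc (t0 - 2) (t1 + 2), ‖(α t).2‖ ≤ R := by
    intro t htm
    have h1 := Convex.norm_image_sub_le_of_norm_hasDerivWithin_le (C := B) hv' (fun s _ => hFB _ _)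
      (convex_Icc _ _) hmem htm
    have h2 : (α t0).2 = v0 := by rw [hα0]
    simp only [h2] at h1
    have h3 : ‖t - t0‖ ≤ T := by
      rw [Real.norm_eq_abs, abs_le, hT]
      constructor <;> linarith [htm.1, htm.2]
    have h4 : B * ‖t - t0‖ ≤ B * T := mul_le_mul_of_nonneg_left h3 hB
    have h5 : ‖(α t).2‖ ≤ ‖(α t).2 - v0‖ + ‖v0‖ := by
      have := norm_add_le ((α t).2 - v0) v0
      simpa using this
    rw [hR]; linarith
  refine ⟨fun s => (α s).1, fun s => (α s).2, by simp [hα0], by simp [hα0], ?_⟩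
  intro t htm
  have hI : t ∈ Icc (t0 - 2) (t1 + 2) := ⟨by linarith [htm.1], by linarith [htm.2]⟩
  have hnb : Icc (t0 - 2) (t1 + 2) ∈ 𝓝 t := Icc_mem_nhds (by linarith [htm.1]) (by linarith [htm.2])
  refine ⟨?_, (hv' t hI).hasDerivAt hnb⟩
  have h1 := (hx' t hI).hasDerivAt hnb
  rwa [exClamp_eq (hbd t hI)] at h1

end Pool.Agent.N980.TL
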