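import Pool.Agent.N980.TL.Aux1
import Pool.Agent.N980.TL.Stm3

/-!
# Frequencies, trigonometric polynomials, bump potentials around a path
-/

set_option autoImplicit false

open Set Filter Topology MeasureTheory
open scoped ContDiff

noncomputable section

namespace Pool.Agent.N980.TL

theorem nr_of {r N : ℕ} (D : Trig (r + 2) N) {M : ℕ}
    (hpos : ∀ μ, 0 < ∑ i : Fin (r + 2), D.k μ i * (M : ℤ) ^ (i : ℕ))
    (hdiff : ∀ μ ν, D.k μ ≠ D.k ν →
      (∑ i : Fin (r + 2), D.k μ i * (M : ℤ) ^ (i : ℕ)) ≠ ∑ i : Fin (r + 2), D.k ν i * (M : ℤ) ^ (i : ℕ))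
    (Λ : (Fin (r + 2) → ℝ) →ₗ[ℝ] (Fin (r + 2) → ℝ))
    (hΛ0 : ∀ i : Fin (r + 2), Λ (Pi.single 0 1) i = (M : ℝ) ^ (i : ℕ)) {CL : ℝ}
    (hCL : ∀ z, ‖Λ z‖ ≤ CL * ‖z‖) (W0 K : ℝ) (hW0 : 0 ≤ W0) (hCL0 : 0 ≤ CL) :
    ∃ C1 V1 : ℝ, ∀ (V : ℝ) (z : E (r + 2)), V1 ≤ V → 1 ≤ V → V / 4 ≤ z 0 → z 0 ≤ K * V →
      (∀ i, i ≠ 0 → |z i| ≤ W0) → D.NR 1 C1 V (Λ z) := by
  set κ : Fin N → ℝ := fun μ => ∑ i : Fin (r + 2), (D.k μ i : ℝ) * (M : ℝ) ^ (i : ℕ) with hκ
  have hκc : ∀ μ, κ μ = ((∑ i : Fin (r + 2), D.k μ i * (M : ℤ) ^ (i : ℕ) : ℤ) : ℝ) := by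
    intro μ; simp only [hκ]; push_cast; rfl
  have hκ1 : ∀ μ, 1 ≤ κ μ := fun μ => by rw [hκc]; exact_mod_cast hpos μ
  have hκd : ∀ μ ν, D.k μ ≠ D.k ν → 1 ≤ |κ μ - κ ν| := by
    intro μ ν h
    rw [hκc, hκc]
    have h1 := Int.one_le_abs (sub_ne_zero.2 (hdiff μ ν h))
    exact_mod_cast h1
  set B : Fin N → ℝ := fun μ => (∑ i, |(D.k μ i : ℝ)|) * (CL * W0) + |(D.m μ : ℝ)| with hB
  have hB0 : ∀ μ, 0 ≤ B μ := fun μ => by simp only [hB]; positivity
  set B0 : ℝ := ∑ μ, B μ with hB0d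
  have hBB : ∀ μ, B μ ≤ B0 := fun μ => Finset.single_le_sum (fun μ _ => hB0 μ) (Finset.mem_univ μ)
  have hB00 : 0 ≤ B0 := Finset.sum_nonneg fun μ _ => hB0 μ
  set K0 : ℝ := ∑ μ, κ μ with hK0
  have hKK : ∀ μ, κ μ ≤ K0 := fun μ =>
    Finset.single_le_sum (fun μ _ => (by linarith [hκ1 μ] : (0 : ℝ) ≤ κ μ)) (Finset.mem_univ μ)
  have hK00 : 0 ≤ K0 := Finset.sum_nonneg fun μ _ => (by linarith [hκ1 μ] : (0 : ℝ) ≤ κ μ)
  refine ⟨2 * Real.pi * (K0 * K + B0), 24 * B0 + 1, fun V z hV hV1 hz0 hz1 hz => ?_⟩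
  have hfr : ∀ μ, |D.fr μ (Λ z) - 2 * Real.pi * (κ μ * z 0)| ≤ 2 * Real.pi * B0 := by
    intro μ
    set z' : E (r + 2) := z - z 0 • Pi.single 0 1 with hz'
    have e1 : z = z 0 • (Pi.single 0 1 : E (r + 2)) + z' := by rw [hz']; abel
    have e2 : ∀ i, Λ z i = z 0 * (M : ℝ) ^ (i : ℕ) + Λ z' i := by
      intro i
      conv_lhs => rw [e1]
      rw [map_add, map_smul]
      show z 0 * Λ (Pi.single 0 1) i + Λ z' i = _
      rw [hΛ0]
    have hn : ‖z'‖ ≤ W0 := by
      rw [pi_norm_le_iff_of_nonneg hW0]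
      intro i
      rw [Real.norm_eq_abs]
      by_cases hi : i = 0
      · subst hi; simp [hz', hW0]
      · have : z' i = z i := by
          rw [hz']
          show z i - z 0 * (Pi.single 0 1 : E (r + 2)) i = z i
          rw [Pi.single_eq_of_ne hi]; ring
        rw [this]; exact hz i hi
    have e3 : (∑ i, (D.k μ i : ℝ) * Λ z i) = κ μ * z 0 + ∑ i, (D.k μ i : ℝ) * Λ z' i := by
      simp only [e2, mul_add, Finset.sum_add_distrib, hκ, Finset.sum_mul]
      congr 1
      exact Finset.sum_congr rfl fun i _ => by ring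
    have e4 : |∑ i, (D.k μ i : ℝ) * Λ z' i| ≤ (∑ i, |(D.k μ i : ℝ)|) * (CL * W0) := by
      refine (Finset.abs_sum_le_sum_abs _ _).trans ?_
      rw [Finset.sum_mul]
      refine Finset.sum_le_sum fun i _ => ?_
      rw [abs_mul]
      refine mul_le_mul_of_nonneg_left ?_ (abs_nonneg _)
      have h1 := norm_le_pi_norm (Λ z') i
      rw [Real.norm_eq_abs] at h1
      exact h1.trans ((hCL z').trans (mul_le_mul_of_nonneg_left hn hCL0))
    have e5 : D.fr μ (Λ z) - 2 * Real.pi * (κ μ * z 0) =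
        2 * Real.pi * ((∑ i, (D.k μ i : ℝ) * Λ z' i) + D.m μ) := by
      unfold Trig.fr; rw [e3]; ring
    rw [e5, abs_mul, abs_of_pos (by positivity : (0 : ℝ) < 2 * Real.pi)]
    refine mul_le_mul_of_nonneg_left ?_ (by positivity)
    refine (abs_add_le _ _).trans (le_trans ?_ (hBB μ))
    simp only [hB]
    linarith
  have hz00 : 0 ≤ z 0 := by linarith
  have hpi : 3 < Real.pi := Real.pi_gt_three
  refine ⟨fun μ => ⟨?_, ?_⟩, fun μ ν hne => ?_⟩
  · have h1 := (abs_le.1 (hfr μ)).1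
    have h2 : z 0 ≤ κ μ * z 0 := le_mul_of_one_le_left hz00 (hκ1 μ)
    have h3 : 0 ≤ V / 4 - B0 := by linarith
    nlinarith [mul_nonneg (by linarith : (0 : ℝ) ≤ Real.pi - 3) h3, Real.pi_pos,
      mul_le_mul_of_nonneg_left (hz0.trans h2) Real.pi_pos.le]
  · have h1 := (abs_le.1 (hfr μ)).2
    have h2 : κ μ * z 0 ≤ K0 * (K * V) := mul_le_mul (hKK μ) hz1 hz00 hK00
    have h3 : B0 ≤ B0 * V := le_mul_of_one_le_right hB00 hV1
    have h4 : 2 * Real.pi * (κ μ * z 0) ≤ 2 * Real.pi * (K0 * (K * V)) :=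
      mul_le_mul_of_nonneg_left h2 (by positivity)
    have h5 : 2 * Real.pi * B0 ≤ 2 * Real.pi * (B0 * V) := mul_le_mul_of_nonneg_left h3 (by positivity)
    linarith
  · have h1 := hfr μ
    have h2 := hfr ν
    have h3 : 2 * Real.pi * (z 0) ≤ |2 * Real.pi * (κ μ * z 0) - 2 * Real.pi * (κ ν * z 0)| := by
      have e : 2 * Real.pi * (κ μ * z 0) - 2 * Real.pi * (κ ν * z 0) =
        (2 * Real.pi) * ((κ μ - κ ν) * z 0) := by ring
      rw [e, abs_mul, abs_of_pos (by positivity : (0 : ℝ) < 2 * Real.pi), abs_mul, abs_of_nonneg hz00]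
      exact mul_le_mul_of_nonneg_left (le_mul_of_one_le_left hz00 (hκd μ ν hne)) (by positivity)
    have h4 : |2 * Real.pi * (κ μ * z 0) - 2 * Real.pi * (κ ν * z 0)| ≤
        |D.fr μ (Λ z) - D.fr ν (Λ z)| + |D.fr μ (Λ z) - 2 * Real.pi * (κ μ * z 0)| +
          |D.fr ν (Λ z) - 2 * Real.pi * (κ ν * z 0)| := by
      have e : 2 * Real.pi * (κ μ * z 0) - 2 * Real.pi * (κ ν * z 0) =
        (D.fr μ (Λ z) - D.fr ν (Λ z)) - (D.fr μ (Λ z) - 2 * Real.pi * (κ μ * z 0)) +
          (D.fr ν (Λ z) - 2 * Real.pi * (κ ν * z 0)) := by ring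
      rw [e]
      exact (abs_add_le _ _).trans (add_le_add (abs_sub _ _) le_rfl)
    have h5 : 0 ≤ V / 4 - 2 * B0 := by linarith
    nlinarith [mul_nonneg (by linarith : (0 : ℝ) ≤ Real.pi - 3) h5, Real.pi_pos,
      mul_le_mul_of_nonneg_left hz0 Real.pi_pos.le]

variable {n N : ℕ}

theorem phase_int (D : Trig n N) (μ : Fin N) (x : Fin n → ℝ) (t : ℝ) (k : Fin n → ℤ) (l : ℤ) :
    D.phase μ (fun i => x i + k i) (t + l) =
      D.phase μ x t + ((∑ i, D.k μ i * k i + D.m μ * l : ℤ) : ℝ) * (2 * Real.pi) := by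
  unfold Trig.phase
  have : (∑ i, (D.k μ i : ℝ) * (x i + k i)) = (∑ i, (D.k μ i : ℝ) * x i) + ∑ i, (D.k μ i : ℝ) * k i := by
    rw [← Finset.sum_add_distrib]
    exact Finset.sum_congr rfl fun i _ => by ring
  rw [this]
  push_cast
  ring

theorem val_periodic (D : Trig n N) : Periodic D.val := by
  intro x t k l
  unfold Trig.val
  refine Finset.sum_congr rfl fun μ _ => ?_
  rw [phase_int, Real.cos_add_int_mul_two_pi]

theorem grad_time (D : Trig n N) (x : Fin n → ℝ) (t : ℝ) (l : ℤ) (i : Fin n) :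
    D.grad x (t + l) i = D.grad x t i := by
  unfold Trig.grad
  congr 1
  refine Finset.sum_congr rfl fun μ _ => ?_
  have := phase_int D μ x t (fun _ => 0) l
  simp only [Int.cast_zero, add_zero] at this
  rw [this, Real.sin_add_int_mul_two_pi]

theorem val_smooth (D : Trig n N) : ContDiff ℝ ∞ (fun q : Z n => D.val q.1 q.2) := by
  unfold Trig.val Trig.phase
  refine ContDiff.sum fun μ _ => contDiff_const.mul (Real.contDiff_cos.comp ?_)
  fun_prop

theorem val_hasDerivAt (D : Trig n N) (x : Fin n → ℝ) (t : ℝ) (i : Fin n) :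
    HasDerivAt (fun u => D.val (Function.update x i u) t) (D.grad x t i) (x i) := by
  unfold Trig.val Trig.grad
  have h1 : ∀ μ, HasDerivAt (fun u => D.c μ * Real.cos (D.phase μ (Function.update x i u) t))
      (-(D.c μ * (2 * Real.pi * D.k μ i) * Real.sin (D.phase μ x t))) (x i) := by
    intro μ
    have e : ∀ u, D.phase μ (Function.update x i u) t = 2 * Real.pi * (D.k μ i * u +
        ((∑ j ∈ Finset.univ.erase i, (D.k μ j : ℝ) * x j) + D.m μ * t)) + D.ph μ := by
      intro u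
      unfold Trig.phase
      have es : (∑ j ∈ Finset.univ.erase i, (D.k μ j : ℝ) * Function.update x i u j) =
          ∑ j ∈ Finset.univ.erase i, (D.k μ j : ℝ) * x j :=
        Finset.sum_congr rfl fun m hm => by rw [Function.update_of_ne (Finset.ne_of_mem_erase hm)]
      rw [← Finset.add_sum_erase _ _ (Finset.mem_univ i), es, Function.update_self]
      ring
    have h2 : HasDerivAt (fun u => D.phase μ (Function.update x i u) t) (2 * Real.pi * D.k μ i) (x i) := by
      simp only [e]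
      have h3 := ((((hasDerivAt_id (x i)).const_mul (D.k μ i : ℝ)).add_const
        ((∑ j ∈ Finset.univ.erase i, (D.k μ j : ℝ) * x j) + D.m μ * t)).const_mul (2 * Real.pi)).add_const
          (D.ph μ)
      simpa using h3
    have h4 := (h2.cos).const_mul (D.c μ)
    rw [Function.update_eq_self] at h4
    refine h4.congr_deriv ?_
    ring
  have h5 := HasDerivAt.fun_sum (u := Finset.univ) (fun μ (_ : μ ∈ Finset.univ) => h1 μ)
  refine h5.congr_deriv ?_
  rw [Finset.sum_neg_distrib]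

/-- the time windows -/
def chA (s : ℝ) : ℝ := Real.smoothTransition (8 * s - 1) * Real.smoothTransition (7 - 8 * s)

/-- the complementary time window -/
def chB (s : ℝ) : ℝ := 1 - Real.smoothTransition (8 * s - 1) - Real.smoothTransition (-8 * s - 1)

theorem chA_smooth : ContDiff ℝ ∞ chA := by
  unfold chA
  exact (Real.smoothTransition.contDiff.comp (by fun_prop)).mul (Real.smoothTransition.contDiff.comp (by fun_prop))

theorem chB_smooth : ContDiff ℝ ∞ chB := by
  unfold chB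
  exact (contDiff_const.sub (Real.smoothTransition.contDiff.comp (by fun_prop))).sub
    (Real.smoothTransition.contDiff.comp (by fun_prop))

theorem chA_zero {s : ℝ} (h : s ≤ 1 / 8 ∨ 7 / 8 ≤ s) : chA s = 0 := by
  unfold chA
  rcases h with h | h
  · rw [Real.smoothTransition.zero_of_nonpos (by linarith), zero_mul]
  · rw [Real.smoothTransition.zero_of_nonpos (x := 7 - 8 * s) (by linarith), mul_zero]

theorem chB_zero {s : ℝ} (h : s ≤ -(1 / 4) ∨ 1 / 4 ≤ s) : chB s = 0 := by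
  unfold chB
  rcases h with h | h
  · rw [Real.smoothTransition.zero_of_nonpos (x := 8 * s - 1) (by linarith),
      Real.smoothTransition.one_of_one_le (x := -8 * s - 1) (by linarith)]; ring
  · rw [Real.smoothTransition.one_of_one_le (x := 8 * s - 1) (by linarith),
      Real.smoothTransition.zero_of_nonpos (x := -8 * s - 1) (by linarith)]; ring

theorem ch_low {s : ℝ} (h0 : 0 ≤ s) (h : s ≤ 1 / 4) : chA s + chB s = 1 := by
  unfold chA chB
  rw [Real.smoothTransition.one_of_one_le (x := 7 - 8 * s) (by linarith),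
      Real.smoothTransition.zero_of_nonpos (x := -8 * s - 1) (by linarith)]; ring

theorem ch_mid {s : ℝ} (h0 : 1 / 4 ≤ s) (h : s ≤ 3 / 4) : chA s = 1 := by
  unfold chA
  rw [Real.smoothTransition.one_of_one_le (x := 7 - 8 * s) (by linarith),
      Real.smoothTransition.one_of_one_le (x := 8 * s - 1) (by linarith)]; ring

theorem ch_high {s : ℝ} (h0 : 3 / 4 ≤ s) (h : s ≤ 1) : chA s + chB (s - 1) = 1 := by
  unfold chA chB
  rw [Real.smoothTransition.one_of_one_le (x := 8 * s - 1) (by linarith),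
      Real.smoothTransition.zero_of_nonpos (x := 8 * (s - 1) - 1) (by linarith),
      show -8 * (s - 1) - 1 = 7 - 8 * s by ring]; ring

theorem dstG_cont {g : ℝ → Fin n → ℝ} (hg : ∀ i, Continuous fun s => g s i) :
    Continuous (fun q : Z n => ∑ i, Real.sin (Real.pi * (q.1 i - g q.2 i)) ^ 2) := by
  refine continuous_finsetSum _ fun i _ => ?_
  have h1 : Continuous (fun q : Z n => g q.2 i) := (hg i).comp continuous_snd
  fun_prop

theorem Hg_zero (hf : S_FN) {ch : ℝ → ℝ} {g F : ℝ → Fin n → ℝ} (hg : ∀ i, Continuous fun s => g s i) {d : ℝ}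
    (hd : 0 < d) {q : Z n} (hq : d ^ 2 < ∑ i, Real.sin (Real.pi * (q.1 i - g q.2 i)) ^ 2) (i : ℕ) :
    iteratedFDeriv ℝ i (Hg ch g F d) q = 0 := by
  obtain ⟨hth, -, -, -, -, -, -, -, -, -, -, h1, -⟩ := hf
  have h0 : (Hg ch g F d) =ᶠ[𝓝 q] fun _ => (0 : ℝ) := by
    filter_upwards [(isOpen_lt continuous_const (dstG_cont hg)).mem_nhds hq] with q' hq'
    have hq' : d ^ 2 < ∑ i, Real.sin (Real.pi * (q'.1 i - g q'.2 i)) ^ 2 := hq'
    simp only [Hg]
    rw [h1 _ (by rw [le_div_iff₀ (by positivity)]; linarith), mul_zero]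
  rw [h0.iteratedFDeriv ℝ i |>.self_of_nhds]
  simp

theorem Hg_force (hf : S_FN) {ch : ℝ → ℝ} {g F : ℝ → Fin n → ℝ} {d : ℝ} (s : ℝ) (i : Fin n) :
    HasDerivAt (fun u => Hg ch g F d (Function.update (g s) i u, s)) (ch s * F s i) (g s i) := by
  obtain ⟨-, -, -, -, -, -, -, -, -, -, h1, -, -⟩ := hf
  set x := g s with hx
  have e1 : ∀ u, (∑ m, F s m * (Real.sin (2 * Real.pi * (Function.update x i u m - x m)) / (2 * Real.pi)))
      = F s i * (Real.sin (2 * Real.pi * (u - x i)) / (2 * Real.pi)) := by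
    intro u
    rw [Finset.sum_eq_single i]
    · simp
    · intro m _ hm; simp [Function.update_of_ne hm]
    · simp
  have e2 : ∀ u, (∑ m, Real.sin (Real.pi * (Function.update x i u m - x m)) ^ 2) =
      Real.sin (Real.pi * (u - x i)) ^ 2 := by
    intro u
    rw [Finset.sum_eq_single i]
    · simp
    · intro m _ hm; simp [Function.update_of_ne hm]
    · simp
  have hc : Continuous (fun u : ℝ => Real.sin (Real.pi * (u - x i)) ^ 2 / d ^ 2) := by fun_prop
  have hev : (fun u => Hg ch g F d (Function.update x i u, s)) =ᶠ[𝓝 (x i)]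
      fun u => ch s * (F s i * (Real.sin (2 * Real.pi * (u - x i)) / (2 * Real.pi))) := by
    have h0 : Real.sin (Real.pi * (x i - x i)) ^ 2 / d ^ 2 < 1 / 4 := by simp
    filter_upwards [(isOpen_lt hc continuous_const).mem_nhds h0] with u hu
    have hu : Real.sin (Real.pi * (u - x i)) ^ 2 / d ^ 2 < 1 / 4 := hu
    simp only [Hg]
    rw [← hx, e2, h1 _ hu.le, mul_one, e1]
  refine HasDerivAt.congr_of_eventuallyEq ?_ hev
  have h2 : HasDerivAt (fun u : ℝ => 2 * Real.pi * (u - x i)) (2 * Real.pi) (x i) := by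
    simpa using ((hasDerivAt_id (x i)).sub_const (x i)).const_mul (2 * Real.pi)
  have h3 := ((h2.sin.div_const (2 * Real.pi)).const_mul (F s i)).const_mul (ch s)
  refine h3.congr_deriv ?_
  have hpi : Real.pi ≠ 0 := Real.pi_ne_zero
  simp only [sub_self, mul_zero, Real.cos_zero, one_mul]
  field_simp

theorem Hg_periodic {ch : ℝ → ℝ} {g F : ℝ → Fin n → ℝ} {d : ℝ} (x : E n) (s : ℝ) (k : Fin n → ℤ) :
    Hg ch g F d (fun i => x i + k i, s) = Hg ch g F d (x, s) := by
  have e1 : ∀ i, Real.sin (2 * Real.pi * (x i + k i - g s i)) =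
      Real.sin (2 * Real.pi * (x i - g s i)) := by
    intro i
    have : 2 * Real.pi * (x i + k i - g s i) =
        2 * Real.pi * (x i - g s i) + k i * (2 * Real.pi) := by ring
    rw [this, Real.sin_add_int_mul_two_pi]
  have e2 : ∀ i, Real.sin (Real.pi * (x i + k i - g s i)) ^ 2 =
      Real.sin (Real.pi * (x i - g s i)) ^ 2 := by
    intro i
    have h : ∀ y : ℝ, Real.sin (Real.pi * y) ^ 2 = 1 / 2 - Real.cos (2 * Real.pi * y) / 2 := by
      intro y
      rw [Real.sin_sq_eq_half_sub]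
      ring_nf
    rw [h, h]
    have : 2 * Real.pi * (x i + k i - g s i) =
        2 * Real.pi * (x i - g s i) + k i * (2 * Real.pi) := by ring
    rw [this, Real.cos_add_int_mul_two_pi]
  simp only [Hg, e1, e2]

/-- the partial derivative of a sum of bump potentials at the particle -/
theorem forceG_eq (hf : S_FN) {ch : ℝ → ℝ} {g F : ℝ → Fin n → ℝ} {d : ℝ} {Φ : Z n → ℝ} {s t : ℝ}
    (hH : ContDiff ℝ ∞ (Hg ch g F d))
    (he : fderiv ℝ Φ (g s, t) = fderiv ℝ (Hg ch g F d) (g s, s))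
    (i : Fin n) : fderiv ℝ Φ (g s, t) (Pi.single i 1, 0) = ch s * F s i := by
  have h2 : HasDerivAt (fun u => Hg ch g F d (Function.update (g s) i u, s))
      (fderiv ℝ (Hg ch g F d) (g s, s) (Pi.single i 1, 0)) (g s i) := by
    have := hasDerivAt_upd (g s) i s (g s i)
    have hF' : HasFDerivAt (Hg ch g F d) (fderiv ℝ (Hg ch g F d) (g s, s))
        (Function.update (g s) i (g s i), s) := by
      rw [Function.update_eq_self]
      exact (hH.differentiable (by simp) _).hasFDerivAt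
    exact hF'.comp_hasDerivAt (g s i) this
  rw [he]
  exact h2.unique (Hg_force hf s i)

end Pool.Agent.N980.TL
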