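import Pool.Agent.N980.TL.Stm4

/-!
# TL4, leaf GR: Gronwall's inequality (helper264)
-/

set_option autoImplicit false

open Set Filter Topology

noncomputable section

namespace Pool.Agent.N980.TL

/-- Gronwall for second order systems -/
theorem gr_all : S_GR := by
  intro n F G L η hL hη hF hG t0 t1 x v y w ht hxy hvw h1 h2
  have hK : (L + 1) ≠ 0 := by positivity
  have hder : ∀ t ∈ Icc t0 t1, HasDerivAt (fun t => (x t - y t, v t - w t))
      (v t - w t, F (x t) t - G (y t) t) t := fun t h =>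
    ((h1 t h).1.sub (h2 t h).1).prodMk ((h1 t h).2.sub (h2 t h).2)
  have key := norm_le_gronwallBound_of_norm_deriv_right_le
    (f := fun t => (x t - y t, v t - w t)) (f' := fun t => (v t - w t, F (x t) t - G (y t) t))
    (δ := 0) (K := L + 1) (ε := η) (a := t0) (b := t1)
    (fun t h => (hder t h).continuousAt.continuousWithinAt)
    (fun t h => (hder t ⟨h.1, h.2.le⟩).hasDerivWithinAt)
    (by simp [hxy, hvw])
    (by
      intro t _
      have e1 : ‖x t - y t‖ ≤ ‖(x t - y t, v t - w t)‖ := norm_fst_le (x t - y t, v t - w t)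
      have e2 : ‖v t - w t‖ ≤ ‖(x t - y t, v t - w t)‖ := norm_snd_le (x t - y t, v t - w t)
      have e0 : 0 ≤ ‖(x t - y t, v t - w t)‖ := norm_nonneg _
      have e3 : L * ‖x t - y t‖ ≤ L * ‖(x t - y t, v t - w t)‖ := mul_le_mul_of_nonneg_left e1 hL
      have e4 : 0 ≤ L * ‖(x t - y t, v t - w t)‖ := mul_nonneg hL e0
      refine norm_prod_le_iff.2 ⟨?_, ?_⟩
      · show ‖v t - w t‖ ≤ _
        linarith
      · show ‖F (x t) t - G (y t) t‖ ≤ _
        have e5 : F (x t) t - G (y t) t = (F (x t) t - F (y t) t) + (F (y t) t - G (y t) t) := by abel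
        rw [e5]
        have e6 := norm_add_le (F (x t) t - F (y t) t) (F (y t) t - G (y t) t)
        have e7 := hF (x t) (y t) t
        have e8 := hG (y t) t
        linarith)
    t1 ⟨ht.le, le_rfl⟩
  rw [gronwallBound_of_K_ne_0 hK] at key
  have e2 : ‖v t1 - w t1‖ ≤ ‖(x t1 - y t1, v t1 - w t1)‖ := norm_snd_le (x t1 - y t1, v t1 - w t1)
  refine e2.trans (key.trans ?_)
  have e3 : 0 < Real.exp ((L + 1) * (t1 - t0)) := Real.exp_pos _
  have e4 : η / (L + 1) ≤ η := div_le_self hη (by linarith)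
  have e5 : 1 ≤ Real.exp ((L + 1) * (t1 - t0)) :=
    Real.one_le_exp (mul_nonneg (by linarith) (by linarith))
  have e6 : η / (L + 1) * (Real.exp ((L + 1) * (t1 - t0)) - 1) ≤
      η * (Real.exp ((L + 1) * (t1 - t0)) - 1) := mul_le_mul_of_nonneg_right e4 (by linarith)
  simp only [zero_mul, zero_add]
  linarith

end Pool.Agent.N980.TL
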