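import Pool.Agent.N980.TL.Aux1

/-!
# Small potentials with orbits which tend to infinity
-/

set_option autoImplicit false

open Set Filter Topology MeasureTheory
open scoped ContDiff

noncomputable section

namespace Pool.Agent.N980.TL

theorem exists_params {k r : ℕ} (hk : 2 ≤ k) (hr : k ≤ r) {δ : ℝ}
    (hδ : δ < (r + 1 - k) / (r * (k + 1))) :
    ∃ tau : ℝ, 0 < tau ∧ 1 < r * tau ∧ (k + 1) * δ - 1 + (k - 1) * tau < 0 := by
  have hk' : (2 : ℝ) ≤ k := by exact_mod_cast hk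
  have hr' : (k : ℝ) ≤ r := by exact_mod_cast hr
  have hr0 : (0 : ℝ) < r := by linarith
  have h1 : (1 : ℝ) / r < (1 - (k + 1) * δ) / (k - 1) := by
    rw [div_lt_div_iff₀ hr0 (by linarith)]
    rw [lt_div_iff₀ (by positivity)] at hδ
    nlinarith
  obtain ⟨tau, h2, h3⟩ := exists_between h1
  have h0 : 0 < tau := lt_trans (by positivity) h2
  refine ⟨tau, h0, ?_, ?_⟩
  · rw [div_lt_iff₀ hr0] at h2
    linarith
  · rw [lt_div_iff₀ (by linarith)] at h3
    linarith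

theorem main (hf : S_FN) (hB : S_BND) (hPer : S_PER) (hSum : S_SUM) (hDio : S_DIO) (hSeq : S_SEQ)
    (k r : ℕ) (hk : 2 ≤ k) (hr : k ≤ r) (δ : ℝ) (hδ0 : 0 < δ) (hδ : δ < (r + 1 - k) / (r * (k + 1)))
    (p ε : ℝ) (hε : 0 < ε) :
    ∃ (f : (Fin (r + 2) → ℝ) → ℝ → ℝ) (γ : ℝ → Fin (r + 2) → ℝ),
      ContDiff ℝ k (fun q : (Fin (r + 2) → ℝ) × ℝ => f q.1 q.2) ∧ Periodic f ∧
      (∀ i ≤ k, ∀ q, ‖iteratedFDeriv ℝ i (fun q : (Fin (r + 2) → ℝ) × ℝ => f q.1 q.2) q‖ ≤ ε) ∧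
      (∀ x t, f x t ≠ 0 → InSlab p ε x) ∧
      (∀ t, 0 ≤ t → |γ t 1 - p| < ε) ∧
      (∃ c > 0, ∀ t, 0 ≤ t → c * t ^ δ ≤ ‖deriv γ t‖) ∧
      ∀ L : (Fin (r + 2) → ℝ) → (Fin (r + 2) → ℝ) → ℝ → ℝ,
        (∀ x v t, InSlab p ε x → L x v t = (∑ i, v i ^ 2) / 2) →
        ∀ t, 0 < t → EulerLagrange (fun x v t => L x v t + f x t) γ t := by
  obtain ⟨tau, htau, hrt, hneg⟩ := exists_params hk hr hδ
  have hk' : (2 : ℝ) ≤ k := by exact_mod_cast hk
  have hδ1 : δ < 1 := by nlinarith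
  obtain ⟨w, c1, hc1, hD⟩ := hDio r tau hrt
  set ρ : ℝ := 2 ^ (-tau) with hρ
  set a : ℝ := 2 ^ (δ - 1) with ha
  have hρ0 : 0 < ρ := by positivity
  have ha0 : 0 < a := by positivity
  have hρ1 : ρ < 1 := Real.rpow_lt_one_of_one_lt_of_neg (by norm_num) (by linarith)
  have h2a : 2 * a = 2 ^ δ := by
    rw [ha, Real.rpow_sub_one (by norm_num)]; ring
  have ha1 : a < 1 := Real.rpow_lt_one_of_one_lt_of_neg (by norm_num) (by linarith)
  have h2a1 : 1 < 2 * a := by rw [h2a]; exact Real.one_lt_rpow (by norm_num) hδ0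
  have ha2 : 1 / 2 < a := by linarith
  set c0 : ℝ := min 1 ((1 - ρ) * min 1 ε / 8) with hc0d
  have hm : 0 < min 1 ε := lt_min one_pos hε
  have hc0 : 0 < c0 := lt_min one_pos (by have : 0 < 1 - ρ := by linarith
                                          positivity)
  have hc01 : c0 ≤ 1 := min_le_left _ _
  have hc0' : 4 * c0 / (1 - ρ) ≤ min 1 ε / 2 := by
    rw [div_le_iff₀ (by linarith)]
    have : c0 ≤ (1 - ρ) * min 1 ε / 8 := min_le_right _ _
    nlinarith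
  set c2 : ℝ := min (min 1 (ε / 2)) (min (c1 * ρ ^ 2 / 4) (c0 * ρ / 8)) with hc2d
  have hc2 : 0 < c2 := lt_min (lt_min one_pos (by positivity)) (lt_min (by positivity) (by positivity))
  have hc21 : c2 ≤ 1 := (min_le_left _ _).trans (min_le_left _ _)
  have hc2ε : c2 ≤ ε / 2 := (min_le_left _ _).trans (min_le_right _ _)
  have hc2a : c2 ≤ c1 * ρ ^ 2 / 4 := (min_le_right _ _).trans (min_le_left _ _)
  have hc2b : c2 ≤ c0 * ρ / 8 := (min_le_right _ _).trans (min_le_right _ _)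
  have hkap : 0 ≤ kap ∧ kap ≤ 1 := by
    obtain ⟨-, -, -, -, -, -, -, -, -, h, -⟩ := hf
    exact h
  obtain ⟨P, U, A, C, hC, hU, hP, hw, hbd, hslow, hmono, hrange, hgrow⟩ :=
    hSeq r w a ρ c0 p kap ha2 ha1 hρ0 hρ1 hc0 hc01 hkap.1 hkap.2
  set d : ℕ → ℝ := fun j => c2 * ρ ^ (Nat.log 2 j) with hd
  have hd0 : ∀ j, 0 < d j := fun j => by simp only [hd]; positivity
  have hdle : ∀ j, d j ≤ c2 := fun j => by
    simp only [hd]
    exact mul_le_of_le_one_right hc2.le (pow_le_one₀ hρ0.le hρ1.le)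
  obtain ⟨CB, hCB, hbnd⟩ := hB k (r + 2)
  set h : ℕ → Z (r + 2) → ℝ := fun j => per (Hf (P j) (U j) (A j) (d j)) with hh
  have hvan : ∀ j (q : Z (r + 2)), (q.2 ≤ 1 / 4 ∨ 3 / 4 ≤ q.2) → Hf (P j) (U j) (A j) (d j) q = 0 := by
    obtain ⟨-, -, -, -, -, -, -, hlow, hhigh, -⟩ := hf
    intro j q hq
    simp only [Hf]
    rcases hq with hq | hq
    · rw [(hlow _ hq).2.2]; ring
    · rw [(hhigh _ hq).2.2]; ring
  have hper := fun j => hPer (r + 2) (Hf (P j) (U j) (A j) (d j)) (Hf_smooth hf _ _ _ _) (hvan j)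
  set B : ℕ → ℝ := fun l => CB * a ^ l * (c2 * ρ ^ l) * (C * (2 * a) ^ l / (c2 * ρ ^ l)) ^ k with hBd
  have hB0 : ∀ l, 0 ≤ B l := fun l => by simp only [hBd]; positivity
  have hBs : Summable B := by
    have hq : a * ρ * ((2 * a) ^ k / ρ ^ k) < 1 := by
      rw [h2a, ha, hρ, ← Real.rpow_natCast, ← Real.rpow_natCast, ← Real.rpow_mul (by norm_num),
        ← Real.rpow_mul (by norm_num), ← Real.rpow_sub (by norm_num), ← Real.rpow_add (by norm_num),
        ← Real.rpow_add (by norm_num)]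
      refine Real.rpow_lt_one_of_one_lt_of_neg (by norm_num) ?_
      nlinarith
    have hq0 : 0 ≤ a * ρ * ((2 * a) ^ k / ρ ^ k) := by positivity
    have := (summable_geometric_of_lt_one hq0 hq).mul_left (CB * c2 * (C / c2) ^ k)
    refine this.congr fun l => ?_
    simp only [hBd]
    have e1 : ((2 * a) ^ k / ρ ^ k) ^ l = ((2 * a) ^ l / ρ ^ l) ^ k := by
      rw [div_pow, div_pow, ← pow_mul, ← pow_mul, ← pow_mul, ← pow_mul, mul_comm k l]
    rw [mul_pow, mul_pow, e1, show C * (2 * a) ^ l / (c2 * ρ ^ l) = (C / c2) * ((2 * a) ^ l / ρ ^ l) by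
      field_simp, mul_pow]
    ring
  have hlog : ∀ l, ∀ j ∈ Finset.Ico (2 ^ l) (2 ^ (l + 1)), Nat.log 2 j = l := by
    intro l j hj
    rw [Finset.mem_Ico] at hj
    have hj0 : j ≠ 0 := by have : 0 < 2 ^ l := by positivity
                           omega
    exact (Nat.log_eq_iff (Or.inr ⟨by norm_num, hj0⟩)).2 hj
  have hbound : ∀ l, ∀ j ∈ Finset.Ico (2 ^ l) (2 ^ (l + 1)), ∀ i ≤ k, ∀ q,
      ‖iteratedFDeriv ℝ i (h j) q‖ ≤ B l := by
    intro l j hj i hi q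
    rw [(hper j).2 i q]
    refine (hbnd (P j) (U j) (A j) (d j) (hd0 j) ((hdle j).trans hc21) i hi _).trans ?_
    have e : d j = c2 * ρ ^ l := by simp only [hd, hlog l j hj]
    obtain ⟨b1, b2, -, -⟩ := hbd l j hj
    rw [e]
    simp only [hBd]
    have b3 : 0 ≤ 1 + ‖U j‖ + ‖A j‖ := by positivity
    gcongr
  have hdisj : ∀ i j, 1 ≤ i → i < j → Disjoint (Sj P U A d i) (Sj P U A d j) := by
    intro i j hi hij
    refine sep hf P U A w d (c0 := c0) (c1 := c1) (c2 := c2) (s := ρ) (p := p) htau hρ le_rfl hc0 hc1 hc2 ?_ ?_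
      (fun j => rfl) hU hP hw hD hslow hmono ?_ hgrow hi hij
    · nlinarith [mul_pos hc1 (pow_pos hρ0 2)]
    · nlinarith [mul_pos hc0 hρ0]
    · intro j
      have := hrange j
      have : min 1 ε ≤ 1 := min_le_left _ _
      constructor <;> linarith
  have hout : ∀ j, ∀ q ∉ Sj P U A d j, ∀ i ≤ k, iteratedFDeriv ℝ i (h j) q = 0 := by
    intro j q hq i _
    rw [(hper j).2 i q]
    refine Hf_zero hf _ _ _ (hd0 j) ?_ i
    have : ¬ (dst (P j) (U j) (A j) (q.1, Int.fract q.2) ≤ d j ^ 2) := hq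
    push Not at this
    exact this
  obtain ⟨l0, hl0⟩ : ∃ l0 : ℕ, ∑' l, B (l + l0) ≤ ε := by
    have := tendsto_sum_nat_add B
    exact (this.eventually_le_const hε).exists
  obtain ⟨g1, g2, g3, g4⟩ := hSum (r + 2) k (by omega) h (Sj P U A d) B l0 (fun j => (hper j).1) hout hdisj
    hbound hB0 hBs
  have hj0 : (1 : ℝ) ≤ (2 : ℝ) ^ l0 := one_le_pow₀ (by norm_num)
  -- the position at time `t`
  have hpos : ∀ t : ℝ, 0 ≤ t → 2 ^ l0 ≤ ⌊t + 2 ^ l0⌋₊ ∧ t + 2 ^ l0 - ⌊t + 2 ^ l0⌋₊ = Int.fract t := by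
    intro t ht
    constructor
    · exact Nat.le_floor (by push_cast; linarith)
    · have h1 : ((⌊t + 2 ^ l0⌋₊ : ℕ) : ℝ) = (⌊t + 2 ^ l0⌋ : ℤ) := by
        rw [natCast_floor_eq_intCast_floor (by positivity)]
      rw [h1]
      have h2 : t + 2 ^ l0 - (⌊t + 2 ^ l0⌋ : ℤ) = Int.fract (t + ((2 ^ l0 : ℕ) : ℝ)) := by
        push_cast
        rfl
      rw [h2, Int.fract_add_natCast]
  have hpath : ∀ t : ℝ, path P U A (t + 2 ^ l0) =
      pos (P ⌊t + 2 ^ l0⌋₊) (U ⌊t + 2 ^ l0⌋₊) (A ⌊t + 2 ^ l0⌋₊) (t + 2 ^ l0 - ⌊t + 2 ^ l0⌋₊) := fun t => rfl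
  have hslab : ∀ t : ℝ, 0 ≤ t → |path P U A (t + 2 ^ l0) 1 - p| < ε := by
    intro t ht
    rw [hpath, (hpos t ht).2]
    have b := pos_between hf P U A 1 ⌊t + 2 ^ l0⌋₊ hU hP hslow (Int.fract_nonneg t) (Int.fract_lt_one t).le
    have b1 := (hrange ⌊t + 2 ^ l0⌋₊).1
    have b2 := (hrange (⌊t + 2 ^ l0⌋₊ + 1)).2
    have b3 : min 1 ε ≤ ε := min_le_right _ _
    rw [abs_lt]
    constructor <;> linarith
  refine ⟨fun x t => blk h l0 (x, t), fun t => path P U A (t + 2 ^ l0), g1, blk_periodic P U A d l0,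
    fun i hi q => (g2 i hi q).trans hl0, ?_, hslab, ?_, ?_⟩
  · intro x t hne
    by_contra hcon
    refine hne (g3 _ fun j hj hq => hcon ?_)
    have hq : dst (P j) (U j) (A j) (x, Int.fract t) ≤ d j ^ 2 := hq
    have k1 := abs_sin_le (hd0 j).le hq 1
    have k2 := two_mul_le_abs_sin (x 1 - pos (P j) (U j) (A j) (Int.fract t) 1)
    have b := pos_between hf P U A 1 j hU hP hslow (Int.fract_nonneg t) (Int.fract_lt_one t).le
    have b1 := (hrange j).1
    have b2 := (hrange (j + 1)).2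
    have b3 : min 1 ε ≤ ε := min_le_right _ _
    have b4 := hdle j
    refine ⟨round (x 1 - pos (P j) (U j) (A j) (Int.fract t) 1), ?_⟩
    have k3 : |x 1 - pos (P j) (U j) (A j) (Int.fract t) 1 -
        round (x 1 - pos (P j) (U j) (A j) (Int.fract t) 1)| ≤ ε / 4 := by
      have k1 : |Real.sin (Real.pi * (x 1 - pos (P j) (U j) (A j) (Int.fract t) 1))| ≤ d j := k1
      linarith
    rw [abs_le] at k3
    rw [abs_lt]
    constructor <;> linarith [k3.1, k3.2]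
  · refine ⟨2 ^ (-δ) / 4, by positivity, fun t ht => ?_⟩
    have hT : 1 ≤ t + 2 ^ l0 := by linarith
    have e1 : deriv (fun t => path P U A (t + 2 ^ l0)) t = vel (U ⌊t + 2 ^ l0⌋₊) (A ⌊t + 2 ^ l0⌋₊)
        (t + 2 ^ l0 - ⌊t + 2 ^ l0⌋₊) :=
      ((path_hasDerivAt hf hU hP hT).comp_add_const t ((2 : ℝ) ^ l0)).deriv
    rw [e1]
    set j := ⌊t + 2 ^ l0⌋₊ with hj
    have hj1 : 1 ≤ j := Nat.le_floor (by simpa using hT)
    set l := Nat.log 2 j with hl
    have hjI : j ∈ Finset.Ico (2 ^ l) (2 ^ (l + 1)) :=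
      Finset.mem_Ico.2 ⟨Nat.pow_log_le_self 2 (by omega), Nat.lt_pow_succ_log_self (by norm_num) j⟩
    obtain ⟨-, -, b3, b4⟩ := hbd l j hjI
    have htp : 0 ≤ tp (t + 2 ^ l0 - j) := by
      obtain ⟨-, -, -, -, -, -, h01, -⟩ := hf
      exact (h01 _).1
    have n1 : U j 0 ≤ ‖vel (U j) (A j) (t + 2 ^ l0 - j)‖ := by
      refine le_trans ?_ (norm_le_pi_norm _ 0)
      refine le_trans ?_ (le_abs_self _)
      simp only [vel]
      nlinarith [mul_nonneg htp b4]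
    have n2 : t ≤ 2 ^ (l + 1) := by
      have h1 : t + 2 ^ l0 < j + 1 := Nat.lt_floor_add_one _
      have h2 : (j : ℝ) + 1 ≤ 2 ^ (l + 1) := by
        have := (Finset.mem_Ico.1 hjI).2
        exact_mod_cast this
      linarith
    have n3 : t ^ δ ≤ (2 * a) ^ (l + 1) := by
      calc t ^ δ ≤ ((2 : ℝ) ^ (l + 1)) ^ δ := Real.rpow_le_rpow ht n2 hδ0.le
        _ = (2 * a) ^ (l + 1) := by
          rw [h2a, ← Real.rpow_natCast, ← Real.rpow_natCast, ← Real.rpow_mul (by norm_num),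
            ← Real.rpow_mul (by norm_num), mul_comm]
    have n4 : (2 : ℝ) ^ (-δ) * (2 * a) ^ (l + 1) = (2 * a) ^ l := by
      rw [pow_succ, h2a, Real.rpow_neg (by norm_num)]
      field_simp
    have n5 : (2 : ℝ) ^ (-δ) * t ^ δ ≤ (2 * a) ^ l := by
      rw [← n4]
      exact mul_le_mul_of_nonneg_left n3 (by positivity)
    calc 2 ^ (-δ) / 4 * t ^ δ = (2 ^ (-δ) * t ^ δ) / 4 := by ring
      _ ≤ U j 0 := by linarith
      _ ≤ _ := n1
  · intro L hL t ht
    have hT : 1 ≤ t + 2 ^ l0 := by linarith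
    have hp := hpos t ht.le
    have d1 := (path_hasDerivAt hf hU hP hT).comp_add_const t ((2 : ℝ) ^ l0)
    have d2 : HasDerivAt (deriv (fun t => path P U A (t + 2 ^ l0)))
        (et (t + 2 ^ l0 - ⌊t + 2 ^ l0⌋₊) • A ⌊t + 2 ^ l0⌋₊) t := by
      have h1 := (vel_path_hasDerivAt hf hU hP hT).comp_add_const t ((2 : ℝ) ^ l0)
      have e : (deriv (fun t => path P U A (t + 2 ^ l0))) = fun x => deriv (path P U A) (x + 2 ^ l0) := by
        funext x
        exact deriv_comp_add_const (f := path P U A) ((2 : ℝ) ^ l0) x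
      rw [e]
      exact h1
    refine el_of_newton hL ?_ d1.differentiableAt d2 ?_
    · filter_upwards [lt_mem_nhds ht] with s hs
      exact hslab s hs.le
    · intro i
      rw [hpath, hp.2]
      set j := ⌊t + 2 ^ l0⌋₊ with hj
      have hq : ((pos (P j) (U j) (A j) (Int.fract t), t) : Z (r + 2)) ∈ Sj P U A d j := by
        have : dst (P j) (U j) (A j) (pos (P j) (U j) (A j) (Int.fract t), Int.fract t) = 0 := by
          simp [dst]
        show dst (P j) (U j) (A j) (pos (P j) (U j) (A j) (Int.fract t), Int.fract t) ≤ d j ^ 2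
        rw [this]
        positivity
      have e1 := g4 j hp.1 _ hq
      have e2 := fderiv_of_iter ((hper j).2 1 (pos (P j) (U j) (A j) (Int.fract t), t))
      have hF : DifferentiableAt ℝ (blk h l0) (pos (P j) (U j) (A j) (Int.fract t), t) :=
        (g1.differentiable (by exact_mod_cast (by omega : k ≠ 0))) _
      exact force_eq hf (P j) (U j) (A j) (hd0 j) hF (e1.trans e2) i

end Pool.Agent.N980.TL
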