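import Pool.Agent.N980.TL.Sep2
import Pool.Agent.N980.TL.Dfn2

/-!
# `C^2`-small potentials with orbits which tend to infinity, in all dimensions `n ≥ 2`
-/

set_option autoImplicit false

open Set Filter Topology MeasureTheory
open scoped ContDiff

noncomputable section

namespace Pool.Agent.N980.TL

/-- the Euler-Lagrange equations of a Lagrangian which is free on an open region -/
theorem el_of_newton2 {n : ℕ} {Reg : (Fin n → ℝ) → Prop} {L : (Fin n → ℝ) → (Fin n → ℝ) → ℝ → ℝ}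
    {f : (Fin n → ℝ) → ℝ → ℝ} {γ : ℝ → Fin n → ℝ} {t : ℝ} {a : Fin n → ℝ}
    (hL : ∀ x v t, Reg x → L x v t = (∑ i, v i ^ 2) / 2)
    (hR : ∀ᶠ x in 𝓝 (γ t), Reg x) (hd : DifferentiableAt ℝ γ t)
    (h2 : HasDerivAt (deriv γ) a t)
    (hf : ∀ i, HasDerivAt (fun u => f (Function.update (γ t) i u) t) (a i) (γ t i)) :
    EulerLagrange (fun x v t => L x v t + f x t) γ t := by
  refine ⟨hd, fun i => ?_⟩
  have e1 : (fun s => dv (fun x v t => L x v t + f x t) i (γ s) (deriv γ s) s) =ᶠ[𝓝 t]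
      fun s => deriv γ s i := by
    filter_upwards [hd.continuousAt.eventually hR] with s hin
    simp only [dv]
    have e : (fun u => L (γ s) (Function.update (deriv γ s) i u) s + f (γ s) s) =
        fun u => (u ^ 2 + ∑ m ∈ Finset.univ.erase i, (deriv γ s m) ^ 2) / 2 + f (γ s) s := by
      funext u
      rw [hL _ _ _ hin, ← Finset.add_sum_erase _ _ (Finset.mem_univ i)]
      simp only [Function.update_self]
      congr 3
      refine Finset.sum_congr rfl fun m hm => ?_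
      rw [Function.update_of_ne (Finset.ne_of_mem_erase hm)]
    rw [e]
    have h3 := ((((hasDerivAt_pow 2 (deriv γ s i)).add_const
      (∑ m ∈ Finset.univ.erase i, (deriv γ s m) ^ 2)).div_const 2).add_const (f (γ s) s)).deriv
    rw [h3]
    simp
  have e2 : dx (fun x v t => L x v t + f x t) i (γ t) (deriv γ t) t = a i := by
    simp only [dx]
    have hc : Tendsto (fun u : ℝ => Function.update (γ t) i u) (𝓝 (γ t i)) (𝓝 (γ t)) := by
      have h0 : Continuous (fun u : ℝ => Function.update (γ t) i u) := continuous_const.update i continuous_id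
      have := h0.tendsto (γ t i)
      rwa [Function.update_eq_self] at this
    have hev : (fun u => L (Function.update (γ t) i u) (deriv γ t) t + f (Function.update (γ t) i u) t)
        =ᶠ[𝓝 (γ t i)] fun u => (∑ m, deriv γ t m ^ 2) / 2 + f (Function.update (γ t) i u) t := by
      filter_upwards [hc.eventually hR] with u hu
      rw [hL _ _ _ hu]
    rw [hev.deriv_eq]
    exact ((hf i).const_add _).deriv
  rw [e2]
  have h4 : HasDerivAt (fun s => deriv γ s i) (a i) t := (hasDerivAt_pi.1 h2) i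
  exact h4.congr_of_eventuallyEq e1

/-- positions from velocities -/
def cum (p0 : ℝ) (u : ℕ → ℝ) : ℕ → ℝ
  | 0 => p0
  | j + 1 => cum p0 u j + u j + kap * (u (j + 1) - u j)

theorem cum_range (hf : S_FN) {p0 : ℝ} {u : ℕ → ℝ} (h0 : ∀ j, 0 ≤ u j) (h1 : ∀ j, u (j + 1) ≤ u j) (j : ℕ) :
    p0 ≤ cum p0 u j ∧ cum p0 u j ≤ p0 + ∑ i ∈ Finset.range j, u i := by
  have hk : 0 ≤ kap ∧ kap ≤ 1 := by
    obtain ⟨-, -, -, -, -, -, -, -, -, h, -⟩ := hf
    exact h
  induction j with
  | zero => simp [cum]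
  | succ j ih =>
    rw [Finset.sum_range_succ]
    simp only [cum]
    have a1 := h1 j
    have a3 : kap * (u (j + 1) - u j) ≤ 0 := mul_nonpos_of_nonneg_of_nonpos hk.1 (by linarith)
    have a4 : u (j + 1) - u j ≤ kap * (u (j + 1) - u j) := by nlinarith
    constructor <;> linarith [ih.1, ih.2, h0 (j + 1)]

theorem main2 (hf : S_FN) (hB : S_BND) (hPer : S_PER) (hSum : S_SUM2) (hV : S_VBD) (hinf : S_VINF) (hW : S_UU)
    (m : ℕ) (p : Fin (m + 2) → ℝ) (ε : ℝ) (hε : 0 < ε) :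
    ∃ (f : (Fin (m + 2) → ℝ) → ℝ → ℝ) (γ : ℝ → Fin (m + 2) → ℝ),
      ContDiff ℝ 2 (fun q : (Fin (m + 2) → ℝ) × ℝ => f q.1 q.2) ∧ Periodic f ∧
      (∀ i ≤ 2, ∀ q, ‖iteratedFDeriv ℝ i (fun q : (Fin (m + 2) → ℝ) × ℝ => f q.1 q.2) q‖ ≤ ε) ∧
      (∀ x t, f x t ≠ 0 → InTube p ε x) ∧
      (∀ t, 0 ≤ t → ∀ i, i ≠ 0 → |γ t i - p i| < ε) ∧
      Tendsto (fun t => ‖deriv γ t‖) atTop atTop ∧
      ∀ L : (Fin (m + 2) → ℝ) → (Fin (m + 2) → ℝ) → ℝ → ℝ,
        (∀ x v t, InTube p ε x → L x v t = (∑ i, v i ^ 2) / 2) →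
        ∀ t, 0 < t → EulerLagrange (fun x v t => L x v t + f x t) γ t := by
  set c0 : ℝ := min (1 / 16) (ε / 32) with hc0d
  have hc0 : 0 < c0 := lt_min (by norm_num) (by positivity)
  have hc01 : c0 ≤ 1 / 16 := min_le_left _ _
  have hc0ε : c0 ≤ ε / 32 := min_le_right _ _
  set c2 : ℝ := c0 / 8 with hc2
  obtain ⟨hVb, hrad⟩ := hV c0 c2 hc0 (by linarith) hc2
  obtain ⟨hu1, hu2, hu3, hu4, hu5, L, hL4, hL⟩ := hW c0 hc0 (by linarith)
  have hVinf := hinf c0 c2 hc0 (by linarith) hc2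
  set U : ℕ → E (m + 2) := fun j => Fin.cons (VV c0 c2 j) (Fin.cons (uu c0 j) (fun _ => 0)) with hUd
  set A : ℕ → E (m + 2) := fun j => U (j + 1) - U j with hAd
  set P : ℕ → E (m + 2) := fun j =>
    Fin.cons (cum (p 0) (VV c0 c2) j) (Fin.cons (cum (p 1) (uu c0) j) (fun i => p i.succ.succ)) with hPd
  have U0 : ∀ j, U j 0 = VV c0 c2 j := fun j => rfl
  have U1 : ∀ j, U j 1 = uu c0 j := fun j => rfl
  have U2 : ∀ j (i : Fin m), U j i.succ.succ = 0 := fun j i => rfl
  have P0 : ∀ j, P j 0 = cum (p 0) (VV c0 c2) j := fun j => rfl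
  have P1 : ∀ j, P j 1 = cum (p 1) (uu c0) j := fun j => rfl
  have P2 : ∀ j (i : Fin m), P j i.succ.succ = p i.succ.succ := fun j i => rfl
  have hU : ∀ j, U (j + 1) = U j + A j := fun j => by simp [hAd]
  have hP : ∀ j, P (j + 1) = P j + U j + kap • A j := by
    intro j
    funext i
    refine Fin.cases ?_ (fun i => Fin.cases ?_ (fun i => ?_) i) i
    · show P (j + 1) 0 = P j 0 + U j 0 + kap * (U (j + 1) 0 - U j 0)
      rw [P0, P0, U0, U0]; rfl
    · show P (j + 1) 1 = P j 1 + U j 1 + kap * (U (j + 1) 1 - U j 1)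
      rw [P1, P1, U1, U1]; rfl
    · show P (j + 1) i.succ.succ = P j i.succ.succ + U j i.succ.succ +
        kap * (U (j + 1) i.succ.succ - U j i.succ.succ)
      rw [P2, P2, U2, U2]; ring
  set d : ℕ → ℝ := fun j => rad c0 c2 (Nat.log 2 j) (VV c0 c2 j) with hd
  have hWl0 : ∀ l, 0 < Wl c0 l := fun l => by unfold Wl ww; positivity
  have hd0 : ∀ j, 0 < d j := fun j => (hWl0 _).trans_le (hrad _ _).1
  have hdle : ∀ j, d j ≤ c2 := fun j => by
    refine (hrad _ _).2.trans ?_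
    unfold Dl
    exact div_le_self (by rw [hc2]; positivity) (one_le_pow₀ (by norm_num))
  have hc2ε : c2 ≤ ε / 4 := by rw [hc2]; linarith
  have hc21 : c2 ≤ 1 := by rw [hc2]; linarith
  have hs : ∀ j, 0 ≤ U j 1 ∧ A j 1 ≤ 0 := by
    intro j
    refine ⟨by rw [U1]; exact (hu2 j).1.le, ?_⟩
    show U (j + 1) 1 - U j 1 ≤ 0
    rw [U1, U1]; linarith [hu1 j]
  have hA0 : ∀ j, A j 0 = acc c0 c2 (Nat.log 2 j) (VV c0 c2 j) := by
    intro j
    show U (j + 1) 0 - U j 0 = _
    rw [U0, U0]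
    simp only [VV]
    ring
  obtain ⟨CB, hCB, hbnd⟩ := hB 2 (m + 2)
  set h : ℕ → Z (m + 2) → ℝ := fun j => per (Hf (P j) (U j) (A j) (d j)) with hh
  have hvan : ∀ j (q : Z (m + 2)), (q.2 ≤ 1 / 4 ∨ 3 / 4 ≤ q.2) → Hf (P j) (U j) (A j) (d j) q = 0 := by
    obtain ⟨-, -, -, -, -, -, -, hlow, hhigh, -⟩ := hf
    intro j q hq
    simp only [Hf]
    rcases hq with hq | hq
    · rw [(hlow _ hq).2.2]; ring
    · rw [(hhigh _ hq).2.2]; ring
  have hper := fun j => hPer (m + 2) (Hf (P j) (U j) (A j) (d j)) (Hf_smooth hf _ _ _ _) (hvan j)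
  set B : ℕ → ℝ := fun l => 4 * CB * (1 / ((l : ℝ) + 1)) with hBd
  have hBt : Tendsto B atTop (𝓝 0) := by
    have := (tendsto_one_div_add_atTop_nhds_zero_nat (𝕜 := ℝ)).const_mul (4 * CB)
    rw [mul_zero] at this
    exact this
  obtain ⟨l0, hl0L, hl0ε⟩ : ∃ l0, L ≤ l0 ∧ ∀ l, l0 ≤ l → B l ≤ ε := by
    obtain ⟨N, hN⟩ := eventually_atTop.1 (hBt.eventually_le_const hε)
    exact ⟨max L N, le_max_left _ _, fun l hl => hN l ((le_max_right _ _).trans hl)⟩
  have hlog : ∀ l, ∀ j ∈ Finset.Ico (2 ^ l) (2 ^ (l + 1)), Nat.log 2 j = l := by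
    intro l j hj
    rw [Finset.mem_Ico] at hj
    have hj0 : j ≠ 0 := by have : 0 < 2 ^ l := by positivity
                           omega
    exact (Nat.log_eq_iff (Or.inr ⟨by norm_num, hj0⟩)).2 hj
  have hbound : ∀ l, l0 ≤ l → ∀ j ∈ Finset.Ico (2 ^ l) (2 ^ (l + 1)), ∀ i ≤ 2, ∀ q,
      ‖iteratedFDeriv ℝ i (h j) q‖ ≤ B l := by
    intro l hl j hj i hi q
    rw [(hper j).2 i q]
    refine (hbnd (P j) (U j) (A j) (d j) (hd0 j) ((hdle j).trans hc21) i hi _).trans ?_
    have hj1 : 1 ≤ j := by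
      have := (Finset.mem_Ico.1 hj).1
      exact le_trans Nat.one_le_two_pow this
    obtain ⟨v1, v2⟩ := hVb j
    rw [hlog l j hj] at v2
    set V := VV c0 c2 j with hVd
    have hdr : d j = rad c0 c2 l V := by simp only [hd, hlog l j hj]; rfl
    have hl1 : (0 : ℝ) ≤ l := by positivity
    have a0 : |A j 0| = d j / ((l + 1) * (V + 2) ^ 2) := by
      rw [hA0, hlog l j hj, ← hVd, acc, ← hdr]
      exact abs_of_nonneg (div_nonneg (hd0 j).le (by positivity))
    have a1 : |A j 1| ≤ d j / ((l + 1) * (V + 2) ^ 2) := by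
      have b1 : |A j 1| ≤ ww c0 l / 2 ^ l := by
        have : A j 1 = -(uu c0 j - uu c0 (j + 1)) := by
          show U (j + 1) 1 - U j 1 = _
          rw [U1, U1]; ring
        rw [this, abs_neg, abs_of_nonneg (by linarith [hu1 j])]
        have := hu4 j hj1
        rwa [hlog l j hj] at this
      refine b1.trans ((hL l (hl0L.trans hl)).1.trans ?_)
      have b2 : Wl c0 l ≤ d j := by rw [hdr]; exact (hrad _ _).1
      have b3 : (V + 2) ^ 2 ≤ ((l : ℝ) + 5) ^ 2 := by
        have : V + 2 ≤ (l : ℝ) + 5 := by linarith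
        gcongr
      have := (hd0 j).le
      gcongr
    have hAn : ‖A j‖ ≤ d j / ((l + 1) * (V + 2) ^ 2) := by
      rw [pi_norm_le_iff_of_nonneg (div_nonneg (hd0 j).le (by positivity))]
      intro i
      rw [Real.norm_eq_abs]
      refine Fin.cases ?_ (fun i => Fin.cases ?_ (fun i => ?_) i) i
      · exact a0.le
      · exact a1
      · have : A j i.succ.succ = 0 := by
          show U (j + 1) i.succ.succ - U j i.succ.succ = 0
          rw [U2, U2]; ring
        rw [this, abs_zero]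
        exact div_nonneg (hd0 j).le (by positivity)
    have hUn : ‖U j‖ ≤ V + 1 := by
      rw [pi_norm_le_iff_of_nonneg (by linarith)]
      intro i
      rw [Real.norm_eq_abs]
      refine Fin.cases ?_ (fun i => Fin.cases ?_ (fun i => ?_) i) i
      · rw [U0, abs_of_nonneg (by linarith)]; linarith
      · have e : U j (Fin.succ 0) = uu c0 j := rfl
        rw [e, abs_of_nonneg (hu2 j).1.le]; linarith [(hu2 j).2]
      · rw [U2, abs_zero]; linarith
    have hX : (1 : ℝ) ≤ (l + 1) * (V + 2) ^ 2 := by nlinarith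
    have hA1 : ‖A j‖ ≤ 1 := hAn.trans ((div_le_self (hd0 j).le hX).trans ((hdle j).trans hc21))
    have hU3 : 1 + ‖U j‖ + ‖A j‖ ≤ 2 * (V + 2) := by linarith
    have hdj := hd0 j
    calc CB * ‖A j‖ * d j * ((1 + ‖U j‖ + ‖A j‖) / d j) ^ 2
        ≤ CB * (d j / ((l + 1) * (V + 2) ^ 2)) * d j * ((2 * (V + 2)) / d j) ^ 2 := by gcongr
      _ = B l := by
        simp only [hBd]
        have : V + 2 ≠ 0 := by positivity
        have h3 : d j ≠ 0 := hdj.ne'
        have h4 : (l : ℝ) + 1 ≠ 0 := by positivity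
        field_simp
        ring
  have hdisj : ∀ i j, 2 ^ l0 ≤ i → i < j → Disjoint (Sj P U A d i) (Sj P U A d j) := fun i j hi hij =>
    sep2 hf hV hW hc0 hc01 hc2 P U A d (fun _ => rfl) hU hP U0 U1 (p := p 1) rfl (hL4.trans hl0L)
      (fun l hl => (hL l (hl0L.trans hl)).2) hi hij
  have hout : ∀ j, ∀ q ∉ Sj P U A d j, ∀ i ≤ 2, iteratedFDeriv ℝ i (h j) q = 0 := by
    intro j q hq i _
    rw [(hper j).2 i q]
    refine Hf_zero hf _ _ _ (hd0 j) ?_ i
    have : ¬ (dst (P j) (U j) (A j) (q.1, Int.fract q.2) ≤ d j ^ 2) := hq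
    push Not at this
    exact this
  obtain ⟨F, g1, g2, gF, g3, g4⟩ := hSum (m + 2) 2 (by norm_num) h (Sj P U A d) B l0 ε (fun j => (hper j).1) hout
    hdisj hbound hBt hl0ε hε.le
  have hj0 : (1 : ℝ) ≤ (2 : ℝ) ^ l0 := one_le_pow₀ (by norm_num)
  have hpos : ∀ t : ℝ, 0 ≤ t → 2 ^ l0 ≤ ⌊t + 2 ^ l0⌋₊ ∧ t + 2 ^ l0 - ⌊t + 2 ^ l0⌋₊ = Int.fract t := by
    intro t ht
    constructor
    · exact Nat.le_floor (by push_cast; linarith)
    · have h1 : ((⌊t + 2 ^ l0⌋₊ : ℕ) : ℝ) = (⌊t + 2 ^ l0⌋ : ℤ) := by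
        rw [natCast_floor_eq_intCast_floor (by positivity)]
      rw [h1]
      have h2 : t + 2 ^ l0 - (⌊t + 2 ^ l0⌋ : ℤ) = Int.fract (t + ((2 ^ l0 : ℕ) : ℝ)) := by
        push_cast
        rfl
      rw [h2, Int.fract_add_natCast]
  have hpath : ∀ t : ℝ, path P U A (t + 2 ^ l0) =
      pos (P ⌊t + 2 ^ l0⌋₊) (U ⌊t + 2 ^ l0⌋₊) (A ⌊t + 2 ^ l0⌋₊) (t + 2 ^ l0 - ⌊t + 2 ^ l0⌋₊) := fun t => rfl
  -- the coordinates other than the fast one
  have hnear : ∀ j, ∀ s, 0 ≤ s → s ≤ 1 → ∀ i, i ≠ 0 → |pos (P j) (U j) (A j) s i - p i| ≤ ε / 4 := by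
    intro j s hs0 hs1 i hi
    refine Fin.cases (fun h => absurd rfl h) (fun i => Fin.cases (fun _ => ?_) (fun i _ => ?_) i) i hi
    · show |pos (P j) (U j) (A j) s 1 - p 1| ≤ ε / 4
      have b := pos_between hf P U A 1 j hU hP hs hs0 hs1
      have c1 := (cum_range hf (p0 := p 1) (fun j => (hu2 j).1.le) hu1 j).1
      have c2 := (cum_range hf (p0 := p 1) (fun j => (hu2 j).1.le) hu1 (j + 1)).2
      rw [← P1] at c1 c2
      have c3 := hu5 (j + 1)
      rw [abs_le]
      constructor <;> linarith [b.1, b.2]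
    · have : pos (P j) (U j) (A j) s i.succ.succ = p i.succ.succ := by
        have a2 : A j i.succ.succ = 0 := by
          show U (j + 1) i.succ.succ - U j i.succ.succ = 0
          rw [U2, U2]; ring
        simp only [pos]
        rw [P2, U2, a2]; ring
      rw [this, sub_self, abs_zero]
      positivity
  have htube : ∀ t : ℝ, 0 ≤ t → ∀ i, i ≠ 0 → |path P U A (t + 2 ^ l0) i - p i| < ε := by
    intro t ht i hi
    rw [hpath, (hpos t ht).2]
    exact (hnear _ _ (Int.fract_nonneg t) (Int.fract_lt_one t).le i hi).trans_lt (by linarith)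
  refine ⟨fun x t => F (x, t), fun t => path P U A (t + 2 ^ l0), g1, ?_, g2, ?_, htube, ?_, ?_⟩
  · intro x t k l
    simp only [gF]
    refine tsum_congr fun j => ?_
    simp only [hh, per, Int.fract_add_intCast, Hf_periodic]
  · intro x t hne i hi
    by_contra hcon
    refine hne (g3 _ fun j hj hq => hcon ?_)
    have hq : dst (P j) (U j) (A j) (x, Int.fract t) ≤ d j ^ 2 := hq
    have k1 : |Real.sin (Real.pi * (x i - pos (P j) (U j) (A j) (Int.fract t) i))| ≤ d j :=
      abs_sin_le (hd0 j).le hq i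
    have k2 := two_mul_le_abs_sin (x i - pos (P j) (U j) (A j) (Int.fract t) i)
    have b := hnear j _ (Int.fract_nonneg t) (Int.fract_lt_one t).le i hi
    have b4 := hdle j
    refine ⟨round (x i - pos (P j) (U j) (A j) (Int.fract t) i), ?_⟩
    have k3 : |x i - pos (P j) (U j) (A j) (Int.fract t) i -
        round (x i - pos (P j) (U j) (A j) (Int.fract t) i)| ≤ ε / 4 := by linarith [hd0 j]
    rw [abs_le] at k3 b
    rw [abs_lt]
    constructor <;> linarith [k3.1, k3.2, b.1, b.2]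
  · have hle : ∀ t : ℝ, 0 ≤ t → VV c0 c2 ⌊t + 2 ^ l0⌋₊ ≤ ‖deriv (fun t => path P U A (t + 2 ^ l0)) t‖ := by
      intro t ht
      have hT : 1 ≤ t + 2 ^ l0 := by linarith
      have e1 : deriv (fun t => path P U A (t + 2 ^ l0)) t = vel (U ⌊t + 2 ^ l0⌋₊) (A ⌊t + 2 ^ l0⌋₊)
          (t + 2 ^ l0 - ⌊t + 2 ^ l0⌋₊) :=
        ((path_hasDerivAt hf hU hP hT).comp_add_const t ((2 : ℝ) ^ l0)).deriv
      rw [e1]
      set j := ⌊t + 2 ^ l0⌋₊ with hj
      have htp : 0 ≤ tp (t + 2 ^ l0 - j) := by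
        obtain ⟨-, -, -, -, -, -, h01, -⟩ := hf
        exact (h01 _).1
      have hAj : 0 ≤ A j 0 := by
        rw [hA0, acc]
        have := (hVb j).1
        exact div_nonneg (hd0 j).le (by positivity)
      refine le_trans ?_ (norm_le_pi_norm _ 0)
      refine le_trans ?_ (le_abs_self _)
      simp only [vel]
      rw [U0]
      nlinarith [mul_nonneg htp hAj]
    have ht : Tendsto (fun t : ℝ => VV c0 c2 ⌊t + 2 ^ l0⌋₊) atTop atTop :=
      hVinf.comp (tendsto_nat_floor_atTop.comp (tendsto_atTop_add_const_right _ _ tendsto_id))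
    refine tendsto_atTop_mono' _ ?_ ht
    filter_upwards [eventually_ge_atTop (0 : ℝ)] with t ht0
    exact hle t ht0
  · intro L hLag t ht
    have hT : 1 ≤ t + 2 ^ l0 := by linarith
    have hp := hpos t ht.le
    have d1 := (path_hasDerivAt hf hU hP hT).comp_add_const t ((2 : ℝ) ^ l0)
    have d2 : HasDerivAt (deriv (fun t => path P U A (t + 2 ^ l0)))
        (et (t + 2 ^ l0 - ⌊t + 2 ^ l0⌋₊) • A ⌊t + 2 ^ l0⌋₊) t := by
      have h1 := (vel_path_hasDerivAt hf hU hP hT).comp_add_const t ((2 : ℝ) ^ l0)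
      have e : (deriv (fun t => path P U A (t + 2 ^ l0))) = fun x => deriv (path P U A) (x + 2 ^ l0) := by
        funext x
        exact deriv_comp_add_const (f := path P U A) ((2 : ℝ) ^ l0) x
      rw [e]
      exact h1
    refine el_of_newton2 (Reg := InTube p ε) hLag ?_ d1.differentiableAt d2 ?_
    · have hopen : IsOpen {x : Fin (m + 2) → ℝ | ∀ i, i ≠ 0 → |x i - p i| < ε} := by
        have : {x : Fin (m + 2) → ℝ | ∀ i, i ≠ 0 → |x i - p i| < ε} =
            ⋂ i : Fin (m + 2), {x | i ≠ 0 → |x i - p i| < ε} := by ext x; simp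
        rw [this]
        refine isOpen_iInter_of_finite fun i => ?_
        by_cases hi : i = 0
        · simp [hi]
        · have : {x : Fin (m + 2) → ℝ | i ≠ 0 → |x i - p i| < ε} = {x | |x i - p i| < ε} := by
            ext x; simp [hi]
          rw [this]
          exact isOpen_lt (by fun_prop) continuous_const
      have hmem : path P U A (t + 2 ^ l0) ∈ {x : Fin (m + 2) → ℝ | ∀ i, i ≠ 0 → |x i - p i| < ε} :=
        htube t ht.le
      filter_upwards [hopen.mem_nhds hmem] with x hx i hi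
      exact ⟨0, by simpa using hx i hi⟩
    · intro i
      rw [hpath, hp.2]
      set j := ⌊t + 2 ^ l0⌋₊ with hj
      have hq : ((pos (P j) (U j) (A j) (Int.fract t), t) : Z (m + 2)) ∈ Sj P U A d j := by
        have : dst (P j) (U j) (A j) (pos (P j) (U j) (A j) (Int.fract t), Int.fract t) = 0 := by
          simp [dst]
        show dst (P j) (U j) (A j) (pos (P j) (U j) (A j) (Int.fract t), Int.fract t) ≤ d j ^ 2
        rw [this]
        positivity
      have e1 := g4 j hp.1 _ hq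
      have e2 := fderiv_of_iter ((hper j).2 1 (pos (P j) (U j) (A j) (Int.fract t), t))
      have hF : DifferentiableAt ℝ F (pos (P j) (U j) (A j) (Int.fract t), t) :=
        (g1.differentiable (by norm_num)) _
      exact force_eq hf (P j) (U j) (A j) (hd0 j) hF (e1.trans e2) i

end Pool.Agent.N980.TL
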