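import Pool.Agent.N980.TL.Eng
import Pool.Agent.N980.TL.Main2

/-!
# Density of the potentials with escaping orbits
-/

set_option autoImplicit false

open Set Filter Topology MeasureTheory
open scoped ContDiff

noncomputable section

namespace Pool.Agent.N980.TL

theorem main3 (hf : S_FN) (hXI : S_XI) (hLIP : S_LIP) (hGAM : S_GAM) (hBND : S_BND3) (hPer : S_PER3)
    (hSum : S_SUM) (hDio : S_DIO) (hSeq : S_SEQ) (hNrm : S_NRM) (hLam : S_LAM)
    (r : ℕ) (hr : 5 ≤ r) (N0 : ℕ) (D0 : Trig (r + 2) N0) (ε : ℝ) (hε : 0 < ε) :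
    ∃ (F : Z (r + 2) → ℝ) (γ : ℝ → Fin (r + 2) → ℝ),
      ContDiff ℝ 2 F ∧ Periodic (fun x t => F (x, t)) ∧ (∀ i ≤ 2, ∀ q, ‖iteratedFDeriv ℝ i F q‖ ≤ ε) ∧
      (∃ c > 0, ∀ t, 0 ≤ t → c * t ^ (6 / 25 : ℝ) ≤ ‖deriv γ t‖) ∧
      ∀ t, 0 < t → EulerLagrange (fun x v t => (∑ i, v i ^ 2) / 2 + (D0.val x t + F (x, t))) γ t := by
  set tau : ℝ := 9 / 40 with htaud
  set δ : ℝ := 6 / 25 with hδd
  have htau : 0 < tau := by rw [htaud]; norm_num
  have hδ0 : 0 < δ := by rw [hδd]; norm_num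
  have hr' : (5 : ℝ) ≤ r := by exact_mod_cast hr
  have hrt : 1 < r * tau := by rw [htaud]; nlinarith
  obtain ⟨w, c1, hc1, hD⟩ := hDio r tau hrt
  obtain ⟨N, D, M, g, hM1, hpos, hdiff, hval⟩ := hNrm (r + 2) N0 D0
  obtain ⟨Λ, CL, hCL1, hΛ0, hΛ, hΛs, hΛn⟩ := hLam r M
  have hCL0 : 0 < CL := by linarith
  set ρ : ℝ := 2 ^ (-tau) with hρ
  set a : ℝ := 2 ^ (δ - 1) with ha
  have hρ0 : 0 < ρ := by positivity
  have ha0 : 0 < a := by positivity
  have hρ1 : ρ < 1 := Real.rpow_lt_one_of_one_lt_of_neg (by norm_num) (by linarith)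
  have h2a : 2 * a = 2 ^ δ := by
    rw [ha, Real.rpow_sub_one (by norm_num)]; ring
  have ha1 : a < 1 := Real.rpow_lt_one_of_one_lt_of_neg (by norm_num) (by rw [hδd]; norm_num)
  have h2a1 : 1 < 2 * a := by rw [h2a]; exact Real.one_lt_rpow (by norm_num) hδ0
  have ha2 : 1 / 2 < a := by linarith
  set c0 : ℝ := min 1 ((1 - ρ) / 8) with hc0d
  have hc0 : 0 < c0 := lt_min one_pos (by linarith)
  have hc01 : c0 ≤ 1 := min_le_left _ _
  have hc0' : 4 * c0 / (1 - ρ) ≤ 1 / 2 := by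
    rw [div_le_iff₀ (by linarith)]
    have : c0 ≤ (1 - ρ) / 8 := min_le_right _ _
    linarith
  have hMp : (0 : ℝ) < M + 1 := by positivity
  set c2 : ℝ := min 1 (min (c1 * ρ ^ 2 / (6 * (M + 1))) (c0 * ρ / (12 * (M + 1)))) with hc2d
  have hc2 : 0 < c2 := lt_min one_pos (lt_min (by positivity) (by positivity))
  have hc21 : c2 ≤ 1 := min_le_left _ _
  have hc2a : c2 ≤ c1 * ρ ^ 2 / (6 * (M + 1)) := (min_le_right _ _).trans (min_le_left _ _)
  have hc2b : c2 ≤ c0 * ρ / (12 * (M + 1)) := (min_le_right _ _).trans (min_le_right _ _)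
  have hkap : 0 ≤ kap ∧ kap ≤ 1 := by
    obtain ⟨-, -, -, -, -, -, -, -, -, h, -⟩ := hf
    exact h
  obtain ⟨P, U, A, C, hC, hU, hP, hw, hbd, hslow, hmono, hrange, hgrow⟩ :=
    hSeq r w a ρ c0 0 kap ha2 ha1 hρ0 hρ1 hc0 hc01 hkap.1 hkap.2
  -- the size of the slow velocities
  set W0 : ℝ := max (U 0 1) ‖w‖ with hW0
  have hW00 : 0 ≤ W0 := (hslow 0).1.trans (le_max_left _ _)
  have hUW : ∀ j, ∀ i : Fin (r + 2), i ≠ 0 → |U j i| ≤ W0 := by
    intro j i hi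
    refine Fin.cases (fun h => absurd rfl h) (fun i => Fin.cases (fun _ => ?_) (fun i _ => ?_) i) i hi
    · have h1 : ∀ j, U j 1 ≤ U 0 1 := by
        intro j
        induction j with
        | zero => exact le_rfl
        | succ j ih =>
          rw [hU]
          show U j 1 + A j 1 ≤ _
          linarith [(hslow j).2]
      show |U j 1| ≤ W0
      rw [abs_of_nonneg (hslow j).1]
      exact (h1 j).trans (le_max_left _ _)
    · rw [(hw i j).2.1]
      have := norm_le_pi_norm w i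
      rw [Real.norm_eq_abs] at this
      exact this.trans (le_max_right _ _)
  obtain ⟨C1, V1, hNR⟩ := nr_of D hpos hdiff Λ hΛs hΛn W0 C hW00 hCL0.le
  obtain ⟨Cg, hCg1, hGam⟩ := hGAM (r + 2) N D 1 C1 (CL * C) one_pos
  obtain ⟨Cd, hCd0, hCd⟩ := gam_deriv hf hXI hLIP D C1
  obtain ⟨CA, hCA1, hBA⟩ := hBND (r + 2) chA Cg chA_smooth (by
    intro s hs
    have hs' : s < 1 / 8 ∨ 7 / 8 < s := by
      by_contra hc
      push Not at hc
      exact hs ⟨by linarith [hc.1], by linarith [hc.2]⟩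
    rcases hs' with h | h
    · filter_upwards [gt_mem_nhds h] with s' hs'
      exact chA_zero (Or.inl hs'.le)
    · filter_upwards [lt_mem_nhds h] with s' hs'
      exact chA_zero (Or.inr hs'.le))
  obtain ⟨CB, hCB1, hBB⟩ := hBND (r + 2) chB Cg chB_smooth (by
    intro s hs
    have hs' : s < -(1 / 4) ∨ 1 / 4 < s := by
      by_contra hc
      push Not at hc
      exact hs ⟨by linarith [hc.1], by linarith [hc.2]⟩
    rcases hs' with h | h
    · filter_upwards [gt_mem_nhds h] with s' hs'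
      exact chB_zero (Or.inl hs'.le)
    · filter_upwards [lt_mem_nhds h] with s' hs'
      exact chB_zero (Or.inr hs'.le))
  have hCg0 : 0 < Cg := by linarith
  set d : ℕ → ℝ := fun j => c2 * ρ ^ (Nat.log 2 j) with hd
  have hd0 : ∀ j, 0 < d j := fun j => by simp only [hd]; positivity
  have hdle : ∀ j, d j ≤ 1 := fun j => by
    simp only [hd]
    exact (mul_le_of_le_one_right hc2.le (pow_le_one₀ hρ0.le hρ1.le)).trans hc21
  set V : ℕ → ℝ := fun l => (2 * a) ^ l with hV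
  have hV1 : ∀ l, 1 ≤ V l := fun l => one_le_pow₀ h2a1.le
  have hV0 : ∀ l, 0 < V l := fun l => by linarith [hV1 l]
  set K : ℝ := max CA CB with hK
  have hK1 : 1 ≤ K := hCA1.trans (le_max_left _ _)
  set BB : ℕ → ℝ := fun l => K * (Cg * (CL * a ^ l + 1 / V l ^ 3)) * (c2 * ρ ^ l) * (V l / (c2 * ρ ^ l)) ^ 2
    with hBBd
  have hBB0 : ∀ l, 0 ≤ BB l := fun l => by
    have := hV0 l
    simp only [hBBd]; positivity
  have e3 : ∀ x : ℝ, 2 ^ x < (1 : ℝ) ↔ x < 0 := by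
    intro x
    constructor
    · intro h
      by_contra hc
      push Not at hc
      have := Real.one_le_rpow (show (1 : ℝ) ≤ 2 by norm_num) hc
      linarith
    · intro h
      exact Real.rpow_lt_one_of_one_lt_of_neg (by norm_num) h
  have hq1 : a * (2 * a) ^ 2 / ρ < 1 := by
    rw [h2a, ha, hρ, ← Real.rpow_natCast, ← Real.rpow_mul (by norm_num),
      ← Real.rpow_add (by norm_num), ← Real.rpow_sub (by norm_num), e3, hδd, htaud]
    norm_num
  have hq2 : 1 / (2 * a) / ρ < 1 := by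
    rw [h2a, hρ, one_div, ← Real.rpow_neg (by norm_num), ← Real.rpow_sub (by norm_num), e3, hδd, htaud]
    norm_num
  have hq3 : 1 / (2 * a) ^ 2 / ρ < 1 := by
    rw [h2a, hρ, one_div, ← Real.rpow_natCast, ← Real.rpow_mul (by norm_num), ← Real.rpow_neg (by norm_num),
      ← Real.rpow_sub (by norm_num), e3, hδd, htaud]
    norm_num
  have hq10 : 0 ≤ a * (2 * a) ^ 2 / ρ := by positivity
  have hq20 : 0 ≤ 1 / (2 * a) / ρ := by positivity
  have hq30 : 0 ≤ 1 / (2 * a) ^ 2 / ρ := by positivity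
  have hBBs : Summable BB := by
    have s1 := ((summable_geometric_of_lt_one hq10 hq1).mul_left CL).add (summable_geometric_of_lt_one hq20 hq2)
    refine (s1.mul_left (K * Cg / c2)).congr fun l => ?_
    have hv := (hV0 l).ne'
    have e1 : (a * (2 * a) ^ 2 / ρ) ^ l = a ^ l * V l ^ 2 / ρ ^ l := by
      simp only [hV]
      rw [div_pow, mul_pow, ← pow_mul, ← pow_mul, mul_comm 2 l]
    have e2 : (1 / (2 * a) / ρ) ^ l = 1 / V l / ρ ^ l := by
      simp only [hV]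
      rw [div_pow, div_pow, one_pow]
    rw [e1, e2]
    simp only [hBBd]
    field_simp
  obtain ⟨l0, hl01, hl02, hl03, hl04, hl05⟩ : ∃ l0 : ℕ, (∑' l, BB (l + l0) ≤ ε / 2) ∧
      (∀ l, l0 ≤ l → V1 ≤ V l) ∧ (∀ l, l0 ≤ l → CL * a ^ l ≤ 1) ∧
      (∀ l, l0 ≤ l → Cg / V l ^ 2 ≤ c2 * ρ ^ l / 8) ∧ (∀ l, l0 ≤ l → Cd / V l ≤ V l / 8) := by
    have t1 := (tendsto_sum_nat_add BB).eventually_le_const (half_pos hε)
    have hVt : Tendsto V atTop atTop := tendsto_pow_atTop_atTop_of_one_lt h2a1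
    have t2 := hVt.eventually_ge_atTop V1
    have t3 : ∀ᶠ l : ℕ in atTop, CL * a ^ l ≤ 1 := by
      have := (tendsto_pow_atTop_nhds_zero_of_lt_one ha0.le ha1).const_mul CL
      rw [mul_zero] at this
      exact this.eventually_le_const one_pos
    have t4 : ∀ᶠ l : ℕ in atTop, Cg * (1 / (2 * a) ^ 2 / ρ) ^ l ≤ c2 / 8 := by
      have := (tendsto_pow_atTop_nhds_zero_of_lt_one hq30 hq3).const_mul Cg
      rw [mul_zero] at this
      exact this.eventually_le_const (by positivity)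
    have t5 := hVt.eventually_ge_atTop (8 * Cd)
    obtain ⟨l1, h1⟩ := eventually_atTop.1 (((t1.and t2).and (t3.and t4)).and t5)
    refine ⟨l1, (h1 l1 le_rfl).1.1.1, fun l hl => (h1 l hl).1.1.2, fun l hl => (h1 l hl).1.2.1,
      fun l hl => ?_, fun l hl => ?_⟩
    · have h2 := (h1 l hl).1.2.2
      have e1 : (1 / (2 * a) ^ 2 / ρ) ^ l = 1 / V l ^ 2 / ρ ^ l := by
        simp only [hV]
        rw [div_pow, div_pow, one_pow, ← pow_mul, ← pow_mul, mul_comm 2 l]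
      rw [e1] at h2
      have hρl : 0 < ρ ^ l := by positivity
      have h3 := mul_le_mul_of_nonneg_right h2 hρl.le
      have e2 : Cg * (1 / V l ^ 2 / ρ ^ l) * ρ ^ l = Cg / V l ^ 2 := by
        have := (hV0 l).ne'
        field_simp
      rw [e2] at h3
      linarith
    · have h2 := (h1 l hl).2
      rw [div_le_iff₀ (hV0 l)]
      nlinarith [hV1 l]
  -- the path
  set G : ℕ → ℝ → E (r + 2) := fun j s => D.gam (Λ (P j)) (Λ (U j)) (Λ (A j)) s with hG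
  have hmemlog : ∀ j, 2 ^ l0 ≤ j → l0 ≤ Nat.log 2 j ∧
      j ∈ Finset.Ico (2 ^ Nat.log 2 j) (2 ^ (Nat.log 2 j + 1)) := by
    intro j hj
    have hj0 : j ≠ 0 := by have : 0 < 2 ^ l0 := by positivity
                           omega
    exact ⟨(Nat.le_log_iff_pow_le (by norm_num) hj0).2 hj,
      Finset.mem_Ico.2 ⟨Nat.pow_log_le_self 2 hj0, Nat.lt_pow_succ_log_self (by norm_num) j⟩⟩
  have hlog : ∀ l, ∀ j ∈ Finset.Ico (2 ^ l) (2 ^ (l + 1)), Nat.log 2 j = l := by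
    intro l j hj
    rw [Finset.mem_Ico] at hj
    have hj0 : j ≠ 0 := by have : 0 < 2 ^ l := by positivity
                           omega
    exact (Nat.log_eq_iff (Or.inr ⟨by norm_num, hj0⟩)).2 hj
  have hΛA : ∀ l, l0 ≤ l → ∀ j ∈ Finset.Ico (2 ^ l) (2 ^ (l + 1)), ‖Λ (A j)‖ ≤ CL * a ^ l := by
    intro l _ j hj
    exact (hΛn _).trans (mul_le_mul_of_nonneg_left (hbd l j hj).1 hCL0.le)
  have hall : ∀ l, l0 ≤ l → ∀ j ∈ Finset.Ico (2 ^ l) (2 ^ (l + 1)), ‖Λ (A j)‖ ≤ 1 ∧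
      ‖Λ (U j)‖ ≤ CL * C * V l ∧ D.NR 1 C1 (V l) (Λ (U j)) ∧ D.NR 1 C1 (V l) (Λ (U j) + Λ (A j)) := by
    intro l hl j hj
    obtain ⟨b1, b2, b3, b4⟩ := hbd l j hj
    have b2' : 1 + ‖U j‖ + ‖A j‖ ≤ C * V l := b2
    have b3' : V l ≤ 4 * U j 0 := b3
    refine ⟨(hΛA l hl j hj).trans (hl03 l hl), ?_, ?_, ?_⟩
    · refine (hΛn _).trans ?_
      rw [mul_assoc]
      refine mul_le_mul_of_nonneg_left ?_ hCL0.le
      linarith [norm_nonneg (A j)]
    · refine hNR (V l) (U j) (hl02 l hl) (hV1 l) (by linarith) ?_ (hUW j)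
      have := norm_le_pi_norm (U j) 0
      rw [Real.norm_eq_abs] at this
      have := le_abs_self (U j 0)
      linarith [norm_nonneg (A j)]
    · rw [← map_add, ← hU]
      have e : U (j + 1) 0 = U j 0 + A j 0 := by rw [hU]; rfl
      refine hNR (V l) (U (j + 1)) (hl02 l hl) (hV1 l) (by rw [e]; linarith) ?_ (hUW (j + 1))
      have h1 := norm_le_pi_norm (U j) 0
      have h2 := norm_le_pi_norm (A j) 0
      rw [Real.norm_eq_abs] at h1 h2
      have h3 := le_abs_self (U j 0)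
      have h4 := le_abs_self (A j 0)
      rw [e]
      linarith
  have hgm : ∀ l, l0 ≤ l → ∀ j ∈ Finset.Ico (2 ^ l) (2 ^ (l + 1)), ∀ i,
      ContDiff ℝ ∞ (fun s => G j s i) ∧ Cls 2 (V l) (Cg * V l) (deriv fun s => G j s i) ∧
      (∀ s ∈ Icc (-1 : ℝ) 2, |G j s i - Λ (pos (P j) (U j) (A j) s) i| ≤ Cg / V l ^ 2) ∧
      Cls 2 (V l) (Cg * (‖Λ (A j)‖ + 1 / V l ^ 3)) (fun s => Fo D (G j) s i) := by
    intro l hl j hj i
    obtain ⟨k1, k2, k3, k4⟩ := hall l hl j hj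
    obtain ⟨m1, m2, m3, m4⟩ := hGam (V l) (Λ (P j)) (Λ (U j)) (Λ (A j)) (hV1 l) k1 k2 k3 k4 i
    refine ⟨m1, m2, fun s hs => ?_, m4⟩
    rw [lam_pos]
    exact m3 s hs
  have hglue : ∀ j s, 3 / 4 ≤ s → s ≤ 5 / 4 → G j s = G (j + 1) (s - 1) := by
    intro j s h0 h1
    simp only [hG]
    rw [hP j, hU j]
    simp only [map_add, map_smul]
    exact gam_glue hf D (Λ (P j)) (Λ (U j)) (Λ (A j)) (Λ (A (j + 1))) h0 h1
  have hGs : ∀ j, 2 ^ l0 ≤ j → ∀ i, ContDiff ℝ ∞ (fun s => G j s i) := fun j hj i =>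
    (hgm _ (hmemlog j hj).1 j (hmemlog j hj).2 i).1
  have htol : ∀ j, 2 ^ l0 ≤ j → ∀ σ : ℝ, -1 ≤ σ → σ ≤ 1 → ∀ m,
      |G j σ m - Λ (pos (P j) (U j) (A j) σ) m| ≤ c2 * ρ ^ (Nat.log 2 j) / 8 := by
    intro j hj σ h0 h1 m
    obtain ⟨k1, k2⟩ := hmemlog j hj
    exact ((hgm _ k1 j k2 m).2.2.1 σ ⟨h0, by linarith⟩).trans (hl04 _ k1)
  have hdisj : ∀ i j, 2 ^ l0 ≤ i → i < j → ∀ σ : ℝ, -1 ≤ σ → σ ≤ 1 → ∀ x : E (r + 2),
      (∀ m, |Real.sin (Real.pi * (x m - G i σ m))| ≤ d i) →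
      (∀ m, |Real.sin (Real.pi * (x m - G j σ m))| ≤ d j) → False := by
    intro i j hi hij σ h0 h1 x q1 q2
    have hi1 : 1 ≤ i := le_trans Nat.one_le_two_pow hi
    refine sep3 hf Λ hΛ P U A w d (c0 := c0) (c1 := c1) (c2 := c2) (ρ := ρ) (tau := tau) (p := 0) htau hρ hc0 hc1
      hc2 ?_ ?_ (fun j => rfl) hU hP hw hD hslow hmono ?_ hgrow G hi1 hij h0 h1
      (htol i hi σ h0 h1) (htol j (by omega) σ h0 h1) q1 q2
    · have h2 : 3 * (M + 1) * (c1 * ρ ^ 2 / (6 * (M + 1))) = c1 * ρ ^ 2 / 2 := by field_simp; ring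
      have h3 : 0 < c1 * ρ ^ 2 := by positivity
      calc 3 * (M + 1) * c2 ≤ 3 * (M + 1) * (c1 * ρ ^ 2 / (6 * (M + 1))) := by gcongr
        _ < c1 * ρ ^ 2 := by rw [h2]; linarith
    · have h2 : 3 * (M + 1) * (c0 * ρ / (12 * (M + 1))) = c0 * ρ / 4 := by field_simp; ring
      have h3 : 0 < c0 * ρ := by positivity
      calc 3 * (M + 1) * c2 ≤ 3 * (M + 1) * (c0 * ρ / (12 * (M + 1))) := by gcongr
        _ < c0 * ρ / 2 := by rw [h2]; linarith
    · intro j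
      have := hrange j
      constructor <;> linarith
  have hbdg : ∀ (ch : ℝ → ℝ) (CC : ℝ), CC ≤ K → (∀ (g F : ℝ → Fin (r + 2) → ℝ) (d V ρ : ℝ), 0 < d → d ≤ 1 →
      1 ≤ V → 0 ≤ ρ → (∀ i, ContDiff ℝ ∞ (fun s => g s i)) → (∀ i, Cls 1 V (Cg * V) (deriv fun s => g s i)) →
      (∀ i, Cls 2 V ρ (fun s => F s i)) →
      ContDiff ℝ ∞ (Hg ch g F d) ∧ ∀ (i : ℕ), i ≤ 2 → ∀ q : Z (r + 2),
        ‖iteratedFDeriv ℝ i (Hg ch g F d) q‖ ≤ CC * ρ * d * (V / d) ^ 2) →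
      ∀ l, l0 ≤ l → ∀ j ∈ Finset.Ico (2 ^ l) (2 ^ (l + 1)),
      ContDiff ℝ ∞ (Hg ch (G j) (Fo D (G j)) (d j)) ∧ ∀ i ≤ 2, ∀ q,
        ‖iteratedFDeriv ℝ i (Hg ch (G j) (Fo D (G j)) (d j)) q‖ ≤ BB l := by
    intro ch CC hCC hh l hl j hj
    have hg := hgm l hl j hj
    have hρn : 0 ≤ Cg * (‖Λ (A j)‖ + 1 / V l ^ 3) := by
      have := hV0 l
      positivity
    obtain ⟨u1, u2⟩ := hh (G j) (Fo D (G j)) (d j) (V l) (Cg * (‖Λ (A j)‖ + 1 / V l ^ 3)) (hd0 j) (hdle j) (hV1 l)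
      hρn (fun i => (hg i).1) (fun i => ⟨(hg i).2.1.1, fun k hk => (hg i).2.1.2 k (by omega)⟩)
      (fun i => (hg i).2.2.2)
    refine ⟨u1, fun i hi q => (u2 i hi q).trans ?_⟩
    have e : d j = c2 * ρ ^ l := by simp only [hd, hlog l j hj]
    rw [e]
    simp only [hBBd]
    have h1 := hΛA l hl j hj
    have := hV0 l
    gcongr
  obtain ⟨F, f1, f2, f3, f4⟩ := engine hf hPer hSum D G d l0 BB ε hGs hglue hd0 hdisj
    (hbdg chA CA (le_max_left _ _) hBA) (hbdg chB CB (le_max_right _ _) hBB) hBB0 hBBs hl01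
  have hj0 : (1 : ℝ) ≤ (2 : ℝ) ^ l0 := one_le_pow₀ (by norm_num)
  have hpos : ∀ t : ℝ, 0 ≤ t → 2 ^ l0 ≤ ⌊t + 2 ^ l0⌋₊ ∧ t + 2 ^ l0 - ⌊t + 2 ^ l0⌋₊ = Int.fract t := by
    intro t ht
    constructor
    · exact Nat.le_floor (by push_cast; linarith)
    · have h1 : ((⌊t + 2 ^ l0⌋₊ : ℕ) : ℝ) = (⌊t + 2 ^ l0⌋ : ℤ) := by
        rw [natCast_floor_eq_intCast_floor (by positivity)]
      rw [h1]
      have h2 : t + 2 ^ l0 - (⌊t + 2 ^ l0⌋ : ℤ) = Int.fract (t + ((2 ^ l0 : ℕ) : ℝ)) := by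
        push_cast
        rfl
      rw [h2, Int.fract_add_natCast]
  have hder : ∀ t : ℝ, 0 ≤ t →
      HasDerivAt (fun t => pathG G (t + 2 ^ l0)) (fun i => deriv (fun s => G ⌊t + 2 ^ l0⌋₊ s i) (Int.fract t)) t ∧
      HasDerivAt (deriv fun t => pathG G (t + 2 ^ l0))
        (fun i => deriv (deriv fun s => G ⌊t + 2 ^ l0⌋₊ s i) (Int.fract t)) t := by
    intro t ht
    have hT : 1 ≤ t + 2 ^ l0 := by linarith
    obtain ⟨h1, h2⟩ := pathG_hasDerivAt hglue hT (hGs _ (hpos t ht).1)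
    rw [(hpos t ht).2] at h1 h2
    refine ⟨h1.comp_add_const t ((2 : ℝ) ^ l0), ?_⟩
    have e : (deriv (fun t => pathG G (t + 2 ^ l0))) = fun x => deriv (pathG G) (x + 2 ^ l0) := by
      funext x
      exact deriv_comp_add_const (f := pathG G) ((2 : ℝ) ^ l0) x
    rw [e]
    exact h2.comp_add_const t ((2 : ℝ) ^ l0)
  refine ⟨F, fun t => pathG G (t + 2 ^ l0), f1, f2, f3, ⟨2 ^ (-δ) / 8, by positivity, fun t ht => ?_⟩, ?_⟩
  · rw [(hder t ht).1.deriv]
    have hjm := (hpos t ht).1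
    set j := ⌊t + 2 ^ l0⌋₊ with hj
    obtain ⟨hl, hjI⟩ := hmemlog j hjm
    set l := Nat.log 2 j with hld
    obtain ⟨b1, b2, b3, b4⟩ := hbd l j hjI
    obtain ⟨k1, k2, k3, k4⟩ := hall l hl j hjI
    have htp : 0 ≤ tp (Int.fract t) := by
      obtain ⟨-, -, -, -, -, -, h01, -⟩ := hf
      exact (h01 _).1
    have hc := hCd (V l) (Λ (P j)) (Λ (U j)) (Λ (A j)) (hV1 l) k1 k3 k4 0 (Int.fract t) (Int.fract_nonneg t)
      (Int.fract_lt_one t).le
    have b3' : V l ≤ 4 * U j 0 := b3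
    have n1 : V l / 8 ≤ ‖(fun i => deriv (fun s => G j s i) (Int.fract t) : E (r + 2))‖ := by
      refine le_trans ?_ (norm_le_pi_norm _ 0)
      refine le_trans ?_ (le_abs_self _)
      have h1 := (abs_le.1 hc).1
      rw [hΛ0, hΛ0] at h1
      have h2 := hl05 l hl
      have h3 := mul_nonneg htp b4
      show V l / 8 ≤ deriv (fun s => D.gam (Λ (P j)) (Λ (U j)) (Λ (A j)) s 0) (Int.fract t)
      linarith
    have n2 : t ≤ 2 ^ (l + 1) := by
      have h1 : t + 2 ^ l0 < j + 1 := Nat.lt_floor_add_one _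
      have h2 : (j : ℝ) + 1 ≤ 2 ^ (l + 1) := by
        have := (Finset.mem_Ico.1 hjI).2
        exact_mod_cast this
      linarith
    have n3 : t ^ δ ≤ (2 * a) ^ (l + 1) := by
      calc t ^ δ ≤ ((2 : ℝ) ^ (l + 1)) ^ δ := Real.rpow_le_rpow ht n2 hδ0.le
        _ = (2 * a) ^ (l + 1) := by
          rw [h2a, ← Real.rpow_natCast, ← Real.rpow_natCast, ← Real.rpow_mul (by norm_num),
            ← Real.rpow_mul (by norm_num), mul_comm]
    have n4 : (2 : ℝ) ^ (-δ) * (2 * a) ^ (l + 1) = (2 * a) ^ l := by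
      rw [pow_succ, h2a, Real.rpow_neg (by norm_num)]
      field_simp
    have n5 : (2 : ℝ) ^ (-δ) * t ^ δ ≤ (2 * a) ^ l := by
      rw [← n4]
      exact mul_le_mul_of_nonneg_left n3 (by positivity)
    calc 2 ^ (-δ) / 8 * t ^ δ = (2 ^ (-δ) * t ^ δ) / 8 := by ring
      _ ≤ V l / 8 := by
        have : (2 * a) ^ l = V l := rfl
        rw [← this]
        linarith
      _ ≤ _ := n1
  · intro t ht
    obtain ⟨d1, d2⟩ := hder t ht.le
    refine el_of_newton2 (Reg := fun _ => True) (L := fun _ v _ => (∑ i, v i ^ 2) / 2)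
      (f := fun x t => D0.val x t + F (x, t)) (fun _ _ _ _ => rfl) (Filter.Eventually.of_forall fun _ => trivial)
      d1.differentiableAt d2 ?_
    intro i
    have hp := hpos t ht.le
    have hpath : pathG G (t + 2 ^ l0) = G ⌊t + 2 ^ l0⌋₊ (Int.fract t) := by
      show G ⌊t + 2 ^ l0⌋₊ (t + 2 ^ l0 - ⌊t + 2 ^ l0⌋₊) = _
      rw [hp.2]
    simp only [hpath]
    have hjm := hp.1
    set j := ⌊t + 2 ^ l0⌋₊ with hj
    set s := Int.fract t with hs
    have g1 : HasDerivAt (fun u => D0.val (Function.update (G j s) i u) t) (D.grad (G j s) t i) (G j s i) := by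
      have e : (fun u => D0.val (Function.update (G j s) i u) t) =
          fun u => D.val (Function.update (G j s) i u) t + g t := by
        funext u; exact hval _ _
      rw [e]
      exact (val_hasDerivAt D (G j s) t i).add_const _
    have g2 : D.grad (G j s) t i = D.grad (G j s) s i := by
      have := grad_time D (G j s) s ⌊t⌋ i
      rw [← this]
      congr 1
      rw [hs]
      have := Int.floor_add_fract t
      linarith
    have g3 : HasDerivAt (fun u => F (Function.update (G j s) i u, t)) (Fo D (G j) s i) (G j s i) := by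
      have h1 : HasFDerivAt F (fderiv ℝ F (G j s, t)) (Function.update (G j s) i (G j s i), t) := by
        rw [Function.update_eq_self]
        exact (f1.differentiable (by norm_num) _).hasFDerivAt
      have h2 := h1.comp_hasDerivAt (G j s i) (hasDerivAt_upd (G j s) i t (G j s i))
      rw [f4 j hjm t i] at h2
      exact h2
    refine (g1.add g3).congr_deriv ?_
    rw [g2]
    simp only [Fo]
    ring

end Pool.Agent.N980.TL
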