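import Pool.Agent.N980.TL.Dense3
import Pool.Agent.N980.TL.Dfn4

/-!
# Generic velocity growth
-/

set_option autoImplicit false

open Filter Topology Set
open scoped ContDiff

noncomputable section

namespace Pool.Agent.N980.TL

/-- the potentials with an orbit segment with velocity larger than `m` which ends with velocity
larger than `φ` of the velocity at the start -/
def Gs (r : ℕ) (φ : ℝ → ℝ) (m : ℕ) : Set ((Fin (r + 2) → ℝ) → ℝ → ℝ) :=
  {f | Pot f ∧ ∃ (γ : ℝ → Fin (r + 2) → ℝ) (t0 t1 : ℝ), t0 < t1 ∧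
    (∀ t ∈ Icc t0 t1, EulerLagrange (fun x v t => (∑ i, v i ^ 2) / 2 + f x t) γ t) ∧
    (∃ μ > 0, ∀ t ∈ Icc t0 t1, (m : ℝ) + μ ≤ ‖deriv γ t‖) ∧ φ ‖deriv γ t0‖ < ‖deriv γ t1‖}

theorem gr_sub_le {n : ℕ} {f g : (Fin n → ℝ) → ℝ → ℝ} (hf : Pot f) (hg : Pot g) {η : ℝ} (hη : 0 ≤ η)
    (h : Close η f g) (x : Fin n → ℝ) (t : ℝ) : ‖gr f x t - gr g x t‖ ≤ η := by
  rw [pi_norm_le_iff_of_nonneg hη]
  intro i
  have df : DifferentiableAt ℝ (fun q : (Fin n → ℝ) × ℝ => f q.1 q.2) (x, t) := hf.1.differentiable (by norm_num) _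
  have dg : DifferentiableAt ℝ (fun q : (Fin n → ℝ) × ℝ => g q.1 q.2) (x, t) := hg.1.differentiable (by norm_num) _
  have h1 := h 1 (by norm_num) (x, t)
  rw [← norm_fderiv_iteratedFDeriv] at h1
  have e0 : ‖fderiv ℝ (fun q : (Fin n → ℝ) × ℝ => g q.1 q.2 - f q.1 q.2) (x, t)‖ ≤ η := by
    have h2 := h 1 (by norm_num) (x, t)
    rwa [norm_iteratedFDeriv_one] at h2
  have e1 : (gr f x t - gr g x t) i = -(fderiv ℝ (fun q : (Fin n → ℝ) × ℝ => g q.1 q.2 - f q.1 q.2) (x, t)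
      (Pi.single i 1, 0)) := by
    have e2 : fderiv ℝ (fun q : (Fin n → ℝ) × ℝ => g q.1 q.2 - f q.1 q.2) (x, t) =
        fderiv ℝ (fun q : (Fin n → ℝ) × ℝ => g q.1 q.2) (x, t) -
          fderiv ℝ (fun q : (Fin n → ℝ) × ℝ => f q.1 q.2) (x, t) := fderiv_fun_sub dg df
    rw [e2]
    show gr f x t i - gr g x t i = -(gr g x t i - gr f x t i)
    ring
  rw [e1, norm_neg]
  refine (ContinuousLinearMap.le_opNorm _ _).trans ?_
  have e3 : ‖((Pi.single i 1, 0) : (Fin n → ℝ) × ℝ)‖ ≤ 1 := by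
    rw [Prod.norm_def]
    refine max_le ?_ (by simp)
    rw [pi_norm_le_iff_of_nonneg zero_le_one]
    intro j
    by_cases hj : j = i
    · subst hj; simp
    · simp [Pi.single_eq_of_ne hj]
  calc _ ≤ η * 1 := mul_le_mul e0 e3 (norm_nonneg _) hη
    _ = η := mul_one _

theorem openDense_Gs (hBL : S_BL) (hEX : S_EX) (hGR : S_GR) (r : ℕ) (hr : 5 ≤ r) (φ : ℝ → ℝ) (m : ℕ) :
    OpenDense (Gs r φ m) := by
  constructor
  · rintro f ⟨hf, γ, t0, t1, h01, hE, ⟨μ0, hμ0, hm⟩, hφ⟩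
    refine ⟨hf, ?_⟩
    obtain ⟨B, L, hB, hL, b1, b2, b3⟩ := hBL (r + 2) f hf.1 hf.2
    set μ : ℝ := min μ0 (‖deriv γ t1‖ - φ ‖deriv γ t0‖) with hμ
    have hμp : 0 < μ := lt_min hμ0 (by linarith)
    have hμ1 : μ ≤ μ0 := min_le_left _ _
    have hμ2 : μ ≤ ‖deriv γ t1‖ - φ ‖deriv γ t0‖ := min_le_right _ _
    set X : ℝ := Real.exp ((L + 1) * (t1 - t0)) with hX
    have hX0 : 0 < X := Real.exp_pos _
    refine ⟨μ / (2 * X), by positivity, fun g hg hfg => ⟨hg, ?_⟩⟩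
    obtain ⟨B', L', hB', hL', b1', b2', b3'⟩ := hBL (r + 2) g hg.1 hg.2
    obtain ⟨x, v, hx0, hv0, hxv⟩ := hEX (r + 2) (gr g) B' L' hB' hL' b3' b1' b2' t0 t1 (γ t0) (deriv γ t0) h01
    have hη0 : (0 : ℝ) ≤ μ / (2 * X) := by positivity
    have hIcc : ∀ t ∈ Icc t0 t1, t ∈ Ioo (t0 - 1) (t1 + 1) := fun t ht => ⟨by linarith [ht.1], by linarith [ht.2]⟩
    have hdist : ∀ t ∈ Icc t0 t1, ‖deriv γ t - v t‖ ≤ μ / 2 := by
      intro t ht
      rcases ht.1.eq_or_lt with h | h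
      · rw [← h, hv0, sub_self, norm_zero]; positivity
      · have h1 := hGR (r + 2) (gr f) (gr g) L (μ / (2 * X)) hL hη0 b2
          (fun x t => gr_sub_le hf hg hη0 hfg x t) t0 t γ (deriv γ) x v h hx0.symm hv0.symm
          (fun s hs => (el_all (r + 2) f hf.1).1 γ s (hE s ⟨hs.1, hs.2.trans ht.2⟩))
          (fun s hs => hxv s (hIcc s ⟨hs.1, hs.2.trans ht.2⟩))
        have h2 : Real.exp ((L + 1) * (t - t0)) ≤ X := by
          rw [hX]
          refine Real.exp_le_exp.2 (mul_le_mul_of_nonneg_left (by linarith [ht.2]) (by linarith))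
        have e : μ / (2 * X) * X = μ / 2 := by field_simp
        rw [← e]
        exact h1.trans (mul_le_mul_of_nonneg_left h2 hη0)
    have hlow : ∀ t ∈ Icc t0 t1, ‖deriv γ t‖ - μ / 2 ≤ ‖v t‖ := by
      intro t ht
      have h3 : ‖deriv γ t‖ ≤ ‖v t‖ + ‖deriv γ t - v t‖ := by
        have := norm_add_le (v t) (deriv γ t - v t)
        rwa [add_sub_cancel] at this
      linarith [hdist t ht]
    have hdx : ∀ t ∈ Icc t0 t1, deriv x t = v t := fun t ht => (hxv t (hIcc t ht)).1.deriv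
    have h0m : t0 ∈ Icc t0 t1 := ⟨le_rfl, h01.le⟩
    have h1m : t1 ∈ Icc t0 t1 := ⟨h01.le, le_rfl⟩
    refine ⟨x, t0, t1, h01, fun t ht => ?_, ⟨μ / 2, by positivity, fun t ht => ?_⟩, ?_⟩
    · refine (el_all (r + 2) g hg.1).2 x v t ?_ (hxv t (hIcc t ht)).2
      filter_upwards [Ioo_mem_nhds (hIcc t ht).1 (hIcc t ht).2] with s hs using (hxv s hs).1
    · rw [hdx t ht]
      linarith [hlow t ht, hm t ht]
    · rw [hdx t0 h0m, hv0, hdx t1 h1m]
      linarith [hlow t1 h1m]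
  · intro f hf ε hε
    obtain ⟨g, γ, g1, g2, g3, ⟨c, hc, g4⟩, g5⟩ := dense3 r hr f hf.1 hf.2 ε hε
    have ht : Tendsto (fun t : ℝ => c * t ^ (6 / 25 : ℝ)) atTop atTop :=
      (tendsto_rpow_atTop (by norm_num)).const_mul_atTop hc
    obtain ⟨t0, h0, h1⟩ := ((ht.eventually_ge_atTop ((m : ℝ) + 1)).and (eventually_gt_atTop (0 : ℝ))).exists
    obtain ⟨t1, h2, h3⟩ := ((ht.eventually_gt_atTop (φ ‖deriv γ t0‖)).and (eventually_gt_atTop t0)).exists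
    refine ⟨g, ⟨⟨g1, g2⟩, γ, t0, t1, h3, fun t ht => g5 t (h1.trans_le ht.1), ⟨1, one_pos, fun t ht => ?_⟩,
      h2.trans_le (g4 t1 (h1.trans h3).le)⟩, g3⟩
    refine (h0.trans ?_).trans (g4 t (h1.le.trans ht.1))
    exact mul_le_mul_of_nonneg_left (Real.rpow_le_rpow h1.le ht.1 (by norm_num)) hc.le

end Pool.Agent.N980.TL
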