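import Pool.Agent.N980.TL.Stm

/-!
# TL, leaf PER: the periodic continuation in time (helper189)
-/

set_option autoImplicit false

open Set Filter Topology
open scoped ContDiff

namespace Pool.Agent.N980.TL

lemma per_loc {n : ℕ} (H : Z n → ℝ) (h0 : ∀ q : Z n, (q.2 ≤ 1 / 4 ∨ 3 / 4 ≤ q.2) → H q = 0)
    (q0 : Z n) :
    per H =ᶠ[𝓝 q0] fun q => H (q - ((0 : Fin n → ℝ), (⌊q0.2⌋ : ℝ))) := by
  have hU : {q : Z n | |q.2 - q0.2| < 1 / 8} ∈ 𝓝 q0 := by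
    have ho : IsOpen {q : Z n | |q.2 - q0.2| < 1 / 8} :=
      isOpen_lt (by fun_prop) continuous_const
    exact ho.mem_nhds (by simp)
  filter_upwards [hU] with q hq
  have hq' : |q.2 - q0.2| < 1 / 8 := hq
  rw [abs_lt] at hq'
  have e : q - ((0 : Fin n → ℝ), (⌊q0.2⌋ : ℝ)) = (q.1, q.2 - ⌊q0.2⌋) := by
    ext <;> simp
  show H (q.1, Int.fract q.2) = H (q - ((0 : Fin n → ℝ), (⌊q0.2⌋ : ℝ)))
  rw [e]
  have a1 := Int.floor_le q0.2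
  have a2 := Int.lt_floor_add_one q0.2
  have f0 := Int.fract_nonneg q.2
  have f1 := Int.fract_lt_one q.2
  have fe : Int.fract q.2 = q.2 - ⌊q.2⌋ := rfl
  rcases lt_trichotomy ⌊q.2⌋ ⌊q0.2⌋ with h | h | h
  · have h' : (⌊q.2⌋ : ℝ) + 1 ≤ ⌊q0.2⌋ := by exact_mod_cast h
    rw [h0 (q.1, Int.fract q.2) (Or.inr (by show (3 / 4 : ℝ) ≤ Int.fract q.2; linarith)),
      h0 (q.1, q.2 - ⌊q0.2⌋) (Or.inl (by show q.2 - ⌊q0.2⌋ ≤ 1 / 4; linarith))]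
  · rw [fe, h]
  · have h' : (⌊q0.2⌋ : ℝ) + 1 ≤ ⌊q.2⌋ := by exact_mod_cast h
    rw [h0 (q.1, Int.fract q.2) (Or.inl (by show Int.fract q.2 ≤ 1 / 4; linarith)),
      h0 (q.1, q.2 - ⌊q0.2⌋) (Or.inr (by show (3 / 4 : ℝ) ≤ q.2 - ⌊q0.2⌋; linarith))]

theorem per_all : S_PER := by
  intro n H hH h0
  refine ⟨?_, ?_⟩
  · rw [contDiff_iff_contDiffAt]
    intro q0
    refine ContDiffAt.congr_of_eventuallyEq ?_ (per_loc H h0 q0)
    exact (hH.comp (contDiff_id.sub contDiff_const)).contDiffAt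
  · intro i q
    have h1 := ((per_loc H h0 q).iteratedFDeriv ℝ i).eq_of_nhds
    rw [h1, iteratedFDeriv_comp_sub]
    congr 1
    ext <;> simp

end Pool.Agent.N980.TL
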