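import Pool.Agent.N980.TL.Sep
import Pool.Agent.N980.TL.Aux1
import Pool.Agent.N980.TL.Stm3

/-!
# The supports of the potentials of different steps are disjoint (third construction)
-/

set_option autoImplicit false

open Set Filter Topology MeasureTheory
open scoped ContDiff

noncomputable section

namespace Pool.Agent.N980.TL

theorem abs_sin_nat_mul_le' (M : ℕ) (x : ℝ) : |Real.sin (M * x)| ≤ M * |Real.sin x| := by
  induction M with
  | zero => simp
  | succ M ih =>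
    have e : ((M + 1 : ℕ) : ℝ) * x = M * x + x := by push_cast; ring
    rw [e, Real.sin_add]
    have h1 : |Real.sin (M * x) * Real.cos x| ≤ |Real.sin (M * x)| := by
      rw [abs_mul]; exact mul_le_of_le_one_right (abs_nonneg _) (Real.abs_cos_le_one _)
    have h2 : |Real.cos (M * x) * Real.sin x| ≤ |Real.sin x| := by
      rw [abs_mul]; exact mul_le_of_le_one_left (abs_nonneg _) (Real.abs_cos_le_one _)
    have h3 := abs_add_le (Real.sin (M * x) * Real.cos x) (Real.cos (M * x) * Real.sin x)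
    push_cast
    linarith

/-- the slow coordinate for `-1 ≤ s ≤ 1` -/
theorem pos_between' (hf : S_FN) {n : ℕ} (P U A : ℕ → E n) (m : Fin n) (j : ℕ) (hj : 1 ≤ j)
    (hU : ∀ j, U (j + 1) = U j + A j) (hP : ∀ j, P (j + 1) = P j + U j + kap • A j)
    (hs : ∀ j, 0 ≤ U j m ∧ A j m ≤ 0) {s : ℝ} (h0 : -1 ≤ s) (h1 : s ≤ 1) :
    P (j - 1) m ≤ pos (P j) (U j) (A j) s m ∧ pos (P j) (U j) (A j) s m ≤ P (j + 1) m := by
  have hk : 0 ≤ kap ∧ kap ≤ 1 := by
    obtain ⟨-, -, -, -, -, -, -, -, -, h, -⟩ := hf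
    exact h
  obtain ⟨i, rfl⟩ : ∃ i, j = i + 1 := ⟨j - 1, by omega⟩
  have e2 : P (i + 1) m = P i m + U i m + kap * A i m := by rw [hP]; rfl
  have e3 : U (i + 1) m = U i m + A i m := by rw [hU]; rfl
  have e4 : P (i + 1) m - P i m ≥ U (i + 1) m := by
    have := (hs i).2
    nlinarith
  have hle : P i m ≤ P (i + 1) m := by linarith [(hs (i + 1)).1]
  rcases le_total 0 s with h | h
  · have b := pos_between hf P U A m (i + 1) hU hP hs h h1
    refine ⟨?_, b.2⟩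
    show P i m ≤ _
    linarith [b.1]
  · have hth : th s = 0 := by
      obtain ⟨-, -, -, -, -, -, -, hlow, -⟩ := hf
      exact (hlow s (by linarith)).1
    have hu := (hs (i + 1)).1
    have e5 : P (i + 1 + 1) m = P (i + 1) m + U (i + 1) m + kap * A (i + 1) m := by rw [hP]; rfl
    have e6 : U (i + 1 + 1) m = U (i + 1) m + A (i + 1) m := by rw [hU]; rfl
    have e7 : P (i + 1) m ≤ P (i + 1 + 1) m := by
      have h3 := (hs (i + 1)).2
      have h4 := (hs (i + 1 + 1)).1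
      nlinarith
    simp only [pos, hth]
    constructor
    · show P i m ≤ _
      nlinarith
    · nlinarith

theorem sep3 (hf : S_FN) {r M : ℕ} (Λ : (Fin (r + 2) → ℝ) →ₗ[ℝ] (Fin (r + 2) → ℝ))
    (hΛ : ∀ z (i : Fin (r + 1)), (M : ℝ) * Λ z i.castSucc - Λ z i.succ = z i.succ)
    (P U A : ℕ → E (r + 2)) (w : Fin r → ℝ) (d : ℕ → ℝ)
    {c0 c1 c2 ρ tau p : ℝ} (htau : 0 < tau) (hρ : ρ = 2 ^ (-tau))
    (hc0 : 0 < c0) (hc1 : 0 < c1) (hc2 : 0 < c2) (h21 : 3 * (M + 1) * c2 < c1 * ρ ^ 2)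
    (h20 : 3 * (M + 1) * c2 < c0 * ρ / 2)
    (hd : ∀ j, d j = c2 * ρ ^ (Nat.log 2 j))
    (hU : ∀ j, U (j + 1) = U j + A j) (hP : ∀ j, P (j + 1) = P j + U j + kap • A j)
    (hw : ∀ (i : Fin r) (j : ℕ), P j i.succ.succ = j * w i ∧ U j i.succ.succ = w i ∧ A j i.succ.succ = 0)
    (hD : ∀ l : ℕ, 1 ≤ l → ∃ i, c1 * (l : ℝ) ^ (-tau) ≤ |Real.sin (Real.pi * (l * w i))|)
    (hs : ∀ j, 0 ≤ U j 1 ∧ A j 1 ≤ 0) (hmono : ∀ j, P j 1 ≤ P (j + 1) 1)
    (hb : ∀ j, p ≤ P j 1 ∧ P j 1 ≤ p + 1 / 2)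
    (hg : ∀ l, 1 ≤ l → P (2 ^ l) 1 + c0 * ρ ^ l / 4 ≤ P (2 ^ (l + 1)) 1)
    (G : ℕ → ℝ → E (r + 2)) {i j : ℕ} (hi : 1 ≤ i) (hij : i < j) {σ : ℝ} (hF0 : -1 ≤ σ) (hF1 : σ ≤ 1)
    (ht1 : ∀ m, |G i σ m - Λ (pos (P i) (U i) (A i) σ) m| ≤ c2 * ρ ^ (Nat.log 2 i) / 8)
    (ht2 : ∀ m, |G j σ m - Λ (pos (P j) (U j) (A j) σ) m| ≤ c2 * ρ ^ (Nat.log 2 j) / 8)
    {x : E (r + 2)} (h1 : ∀ m, |Real.sin (Real.pi * (x m - G i σ m))| ≤ d i)
    (h2 : ∀ m, |Real.sin (Real.pi * (x m - G j σ m))| ≤ d j) : False := by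
  have hρ0 : 0 < ρ := by rw [hρ]; positivity
  have hρ1 : ρ ≤ 1 := by
    rw [hρ]
    exact Real.rpow_le_one_of_one_le_of_nonpos (by norm_num) (by linarith)
  set l := Nat.log 2 i with hl
  have hl1 : 2 ^ l ≤ i := Nat.pow_log_le_self 2 (by omega)
  have hl2 : i < 2 ^ (l + 1) := Nat.lt_pow_succ_log_self (by norm_num) i
  have hpl : 0 < ρ ^ l := by positivity
  have hjl : ρ ^ (Nat.log 2 j) ≤ ρ ^ l := pow_le_pow_of_le_one hρ0.le hρ1 (Nat.log_mono_right hij.le)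
  have hdi : d i = c2 * ρ ^ l := hd i
  have hdj : d j ≤ c2 * ρ ^ l := by rw [hd]; exact mul_le_mul_of_nonneg_left hjl hc2.le
  have ht2' : ∀ m, |G j σ m - Λ (pos (P j) (U j) (A j) σ) m| ≤ c2 * ρ ^ l / 8 := fun m =>
    (ht2 m).trans (by nlinarith [mul_le_mul_of_nonneg_left hjl hc2.le])
  set z : E (r + 2) := pos (P j) (U j) (A j) σ - pos (P i) (U i) (A i) σ with hz
  have hΛz : ∀ m, Λ z m = Λ (pos (P j) (U j) (A j) σ) m - Λ (pos (P i) (U i) (A i) σ) m := by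
    intro m; rw [hz, map_sub]; rfl
  have k0 : ∀ m, |Real.sin (Real.pi * Λ z m)| ≤ 3 * (c2 * ρ ^ l) := by
    intro m
    set e := (G j σ m - Λ (pos (P j) (U j) (A j) σ) m) - (G i σ m - Λ (pos (P i) (U i) (A i) σ) m) with he
    have he' : |e| ≤ c2 * ρ ^ l / 4 := by
      refine (abs_sub _ _).trans ?_
      linarith [ht1 m, ht2' m]
    have e1 : Real.pi * Λ z m = (Real.pi * (x m - G i σ m) - Real.pi * (x m - G j σ m)) - Real.pi * e := by
      rw [hΛz, he]; ring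
    have s1 : |Real.sin (Real.pi * e)| ≤ c2 * ρ ^ l := by
      refine (Real.abs_sin_le_abs).trans ?_
      rw [abs_mul, abs_of_pos Real.pi_pos]
      have : Real.pi ≤ 4 := Real.pi_le_four
      have h0 : 0 ≤ |e| := abs_nonneg _
      nlinarith
    have s2 := abs_sin_sub_le (Real.pi * (x m - G i σ m) - Real.pi * (x m - G j σ m)) (Real.pi * e)
    have s3 := abs_sin_sub_le (Real.pi * (x m - G i σ m)) (Real.pi * (x m - G j σ m))
    rw [e1]
    linarith [h1 m, h2 m]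
  have key : ∀ m : Fin (r + 1), |Real.sin (Real.pi * z m.succ)| ≤ 3 * (M + 1) * c2 * ρ ^ l := by
    intro m
    have e1 : Real.pi * z m.succ = M * (Real.pi * Λ z m.castSucc) - Real.pi * Λ z m.succ := by
      rw [← hΛ z m]; ring
    rw [e1]
    have s1 := abs_sin_sub_le (M * (Real.pi * Λ z m.castSucc)) (Real.pi * Λ z m.succ)
    have s2 := abs_sin_nat_mul_le' M (Real.pi * Λ z m.castSucc)
    have s3 := k0 m.castSucc
    have s4 := k0 m.succ
    have hM : (0 : ℝ) ≤ M := by positivity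
    have s5 := mul_le_mul_of_nonneg_left s3 hM
    nlinarith
  by_cases hc : j - i ≤ 2 ^ (l + 2)
  · obtain ⟨m, hm⟩ := hD (j - i) (by omega)
    have k := key m.succ
    have e : z m.succ.succ = ((j - i : ℕ) : ℝ) * w m := by
      rw [hz]
      show pos (P j) (U j) (A j) σ m.succ.succ - pos (P i) (U i) (A i) σ m.succ.succ = _
      simp only [pos]
      rw [(hw m j).1, (hw m j).2.1, (hw m j).2.2, (hw m i).1, (hw m i).2.1, (hw m i).2.2,
        Nat.cast_sub hij.le]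
      ring
    rw [e] at k
    have h3 : ρ ^ (l + 2) ≤ ((j - i : ℕ) : ℝ) ^ (-tau) := by
      have h4 : ((2 ^ (l + 2) : ℕ) : ℝ) ^ (-tau) ≤ ((j - i : ℕ) : ℝ) ^ (-tau) :=
        Real.rpow_le_rpow_of_nonpos (by exact_mod_cast (by omega : 0 < j - i)) (by exact_mod_cast hc)
          (by linarith)
      refine le_trans (le_of_eq ?_) h4
      rw [hρ, ← Real.rpow_natCast, ← Real.rpow_mul (by norm_num)]
      push_cast
      rw [← Real.rpow_natCast 2 (l + 2), ← Real.rpow_mul (by norm_num)]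
      congr 1
      push_cast
      ring
    have h5 : c1 * ρ ^ (l + 2) ≤ 3 * (M + 1) * c2 * ρ ^ l :=
      (mul_le_mul_of_nonneg_left h3 hc1.le).trans (hm.trans k)
    rw [pow_add] at h5
    nlinarith
  · push Not at hc
    have k := key 0
    have m1 : Monotone (fun j => P j 1) := monotone_nat_of_le_succ hmono
    have b1 := pos_between' hf P U A 1 j (by omega) hU hP hs hF0 hF1
    have b2 := pos_between' hf P U A 1 i hi hU hP hs hF0 hF1
    have b3 : P (2 ^ (l + 2)) 1 ≤ P (j - 1) 1 := m1 (by omega)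
    have b4 : P (i + 1) 1 ≤ P (2 ^ (l + 1)) 1 := m1 (by omega)
    have b5 := hg (l + 1) (by omega)
    set Δ := z 1 with hΔ
    have e0 : z (Fin.succ 0) = Δ := rfl
    have e1 : Δ = pos (P j) (U j) (A j) σ 1 - pos (P i) (U i) (A i) σ 1 := rfl
    rw [e0] at k
    have h3 : c0 * ρ ^ (l + 1) / 4 ≤ Δ := by rw [e1]; linarith
    have h4 : Δ ≤ 1 / 2 := by rw [e1]; linarith [(hb (j + 1)).2, (hb (i - 1)).1]
    have h5 : 0 ≤ Δ := le_trans (by positivity) h3
    have h6 : 2 * Δ ≤ Real.sin (Real.pi * Δ) := by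
      have := Real.mul_le_sin (x := Real.pi * Δ) (by positivity) (by nlinarith [Real.pi_pos])
      have e : 2 / Real.pi * (Real.pi * Δ) = 2 * Δ := by
        have := Real.pi_ne_zero
        field_simp
      rwa [e] at this
    have h7 := (le_abs_self _).trans k
    have h10 : c0 * ρ ^ (l + 1) / 4 = c0 * ρ * ρ ^ l / 4 := by ring
    nlinarith

end Pool.Agent.N980.TL
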