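import Pool.Agent.N980.TL.Fr
import Pool.Agent.N980.TL.Sep3

/-!
# Preparations for the density theorem
-/

set_option autoImplicit false

open Set Filter Topology MeasureTheory
open scoped ContDiff

noncomputable section

namespace Pool.Agent.N980.TL

variable {n N : ℕ}

/-- the local time in `[-1/2, 1/2)` -/
def sB (t : ℝ) : ℝ := Int.fract (t + 1 / 2) - 1 / 2

theorem sB_mem (t : ℝ) : -(1 / 2) ≤ sB t ∧ sB t < 1 / 2 := by
  unfold sB
  constructor <;> linarith [Int.fract_nonneg (t + 1 / 2), Int.fract_lt_one (t + 1 / 2)]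

/-- the periodic continuation of a function which vanishes for `s ∉ (-1/4, 1/4)` -/
def perB (H : Z n → ℝ) (q : Z n) : ℝ := H (q.1, sB q.2)

theorem perB_all (hPer : S_PER3) (H : Z n → ℝ) (hH : ContDiff ℝ ∞ H)
    (h0 : ∀ q : Z n, (q.2 ≤ -(1 / 4) ∨ 1 / 4 ≤ q.2) → H q = 0) :
    ContDiff ℝ ∞ (perB H) ∧
      ∀ (i : ℕ) (q : Z n), iteratedFDeriv ℝ i (perB H) q = iteratedFDeriv ℝ i H (q.1, sB q.2) := by
  set v : Z n := (0, 1 / 2) with hv
  set H' : Z n → ℝ := fun q => H (q - v) with hH'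
  have hs : ContDiff ℝ ∞ H' := hH.comp (contDiff_id.sub contDiff_const)
  have hz : ∀ q : Z n, (q.2 ≤ 1 / 16 ∨ 15 / 16 ≤ q.2) → H' q = 0 := by
    intro q hq
    refine h0 _ ?_
    have : (q - v).2 = q.2 - 1 / 2 := rfl
    rw [this]
    rcases hq with hq | hq
    · left; linarith
    · right; linarith
  obtain ⟨p1, p2⟩ := hPer n H' hs hz
  have e : perB H = fun q => per H' (q + v) := by
    funext q
    show H (q.1, sB q.2) = H ((q + v).1 - 0, Int.fract ((q + v).2) - 1 / 2)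
    have e1 : (q + v).1 - 0 = q.1 := by simp [hv]
    have e2 : (q + v).2 = q.2 + 1 / 2 := rfl
    rw [e1, e2]
    rfl
  constructor
  · rw [e]
    exact p1.comp (contDiff_id.add contDiff_const)
  · intro i q
    rw [e, iteratedFDeriv_comp_add_right, p2, hH']
    rw [iteratedFDeriv_comp_sub]
    congr 1
    show ((q + v).1 - 0, Int.fract ((q + v).2) - 1 / 2) = (q.1, sB q.2)
    have e1 : (q + v).1 - 0 = q.1 := by simp [hv]
    have e2 : (q + v).2 = q.2 + 1 / 2 := rfl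
    rw [e1, e2]
    rfl

theorem perB_int (H : Z n → ℝ) (hH : ∀ (x : E n) (s : ℝ) (k : Fin n → ℤ), H (fun i => x i + k i, s) = H (x, s))
    (x : E n) (t : ℝ) (k : Fin n → ℤ) (l : ℤ) : perB H (fun i => x i + k i, t + l) = perB H (x, t) := by
  unfold perB sB
  have : t + (l : ℝ) + 1 / 2 = t + 1 / 2 + l := by ring
  simp only [this, Int.fract_add_intCast, hH]

theorem per_int (H : Z n → ℝ) (hH : ∀ (x : E n) (s : ℝ) (k : Fin n → ℤ), H (fun i => x i + k i, s) = H (x, s))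
    (x : E n) (t : ℝ) (k : Fin n → ℤ) (l : ℤ) : per H (fun i => x i + k i, t + l) = per H (x, t) := by
  unfold per
  simp only [Int.fract_add_intCast, hH]

theorem gam_glue (hf : S_FN) (D : Trig n N) (P v A A' : Fin n → ℝ) {s : ℝ} (h0 : 3 / 4 ≤ s) (h1 : s ≤ 5 / 4) :
    D.gam P v A s = D.gam (P + v + kap • A) (v + A) A' (s - 1) := by
  obtain ⟨-, -, -, -, -, -, -, hlow, hhigh, -⟩ := hf
  obtain ⟨a1, a2, -⟩ := hhigh s h0
  obtain ⟨b1, b2, -⟩ := hlow (s - 1) (by linarith)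
  funext i
  unfold Trig.gam
  rw [a1, a2, b1, b2]
  simp only [Pi.add_apply, Pi.smul_apply, smul_eq_mul]
  ring

/-- the path -/
def pathG (G : ℕ → ℝ → E n) (T : ℝ) : E n := G ⌊T⌋₊ (T - ⌊T⌋₊)

theorem pathG_loc {G : ℕ → ℝ → E n} (hG : ∀ j s, 3 / 4 ≤ s → s ≤ 5 / 4 → G j s = G (j + 1) (s - 1))
    {T : ℝ} (hT : 1 ≤ T) : ∀ᶠ T' in 𝓝 T, pathG G T' = G ⌊T⌋₊ (T' - ⌊T⌋₊) := by
  have h0 : (0 : ℝ) ≤ T := by linarith
  have hj1 : ((⌊T⌋₊ : ℕ) : ℝ) ≤ T := Nat.floor_le h0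
  have hj2 : T < (⌊T⌋₊ : ℕ) + 1 := Nat.lt_floor_add_one T
  have hj3 : 1 ≤ ⌊T⌋₊ := Nat.le_floor (by exact_mod_cast hT)
  generalize ⌊T⌋₊ = j at hj1 hj2 hj3 ⊢
  have hn : ∀ᶠ T' in 𝓝 T, (j : ℝ) - 1 / 4 < T' ∧ T' < j + 1 :=
    (lt_mem_nhds (by linarith)).and (gt_mem_nhds hj2)
  filter_upwards [hn] with T' hT'
  by_cases h : (j : ℝ) ≤ T'
  · have : ⌊T'⌋₊ = j := (Nat.floor_eq_iff (by linarith [show (0 : ℝ) ≤ j by positivity])).2 ⟨h, hT'.2⟩
    simp only [pathG, this]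
  · push Not at h
    obtain ⟨i, rfl⟩ : ∃ i, j = i + 1 := ⟨j - 1, by omega⟩
    push_cast at *
    have hi : ⌊T'⌋₊ = i := (Nat.floor_eq_iff (by linarith [show (0 : ℝ) ≤ i by positivity])).2
      ⟨by linarith, by linarith⟩
    simp only [pathG, hi]
    rw [hG i (T' - i) (by linarith) (by linarith)]
    congr 1
    ring

theorem pathG_hasDerivAt {G : ℕ → ℝ → E n} (hG : ∀ j s, 3 / 4 ≤ s → s ≤ 5 / 4 → G j s = G (j + 1) (s - 1))
    {T : ℝ} (hT : 1 ≤ T) (hs : ∀ i, ContDiff ℝ ∞ (fun s => G ⌊T⌋₊ s i)) :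
    HasDerivAt (pathG G) (fun i => deriv (fun s => G ⌊T⌋₊ s i) (T - ⌊T⌋₊)) T ∧
    HasDerivAt (deriv (pathG G)) (fun i => deriv (deriv fun s => G ⌊T⌋₊ s i) (T - ⌊T⌋₊)) T := by
  have hloc := pathG_loc hG hT
  generalize hj : ⌊T⌋₊ = j at hs hloc ⊢
  have d0 : ∀ s, HasDerivAt (fun s => G j s) (fun i => deriv (fun s => G j s i) s) s := by
    intro s
    rw [hasDerivAt_pi]
    exact fun i => ((hs i).differentiable (by simp) s).hasDerivAt
  have d1 : ∀ s, HasDerivAt (fun s => (fun i => deriv (fun s => G j s i) s : E n))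
      (fun i => deriv (deriv fun s => G j s i) s) s := by
    intro s
    rw [hasDerivAt_pi]
    intro i
    have : ContDiff ℝ ∞ (deriv fun s => G j s i) := (contDiff_infty_iff_deriv.1 (hs i)).2
    exact (this.differentiable (by simp) s).hasDerivAt
  constructor
  · have := (d0 (T - j)).comp_sub_const T (j : ℝ)
    exact this.congr_of_eventuallyEq hloc
  · have h2 : deriv (pathG G) =ᶠ[𝓝 T] fun T' => (fun i => deriv (fun s => G j s i) (T' - j) : E n) := by
      filter_upwards [hloc.eventually_nhds] with T' hT'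
      have := (d0 (T' - j)).comp_sub_const T' (j : ℝ)
      exact (this.congr_of_eventuallyEq hT').deriv
    have := (d1 (T - j)).comp_sub_const T (j : ℝ)
    exact this.congr_of_eventuallyEq h2

theorem lam_pos {r : ℕ} (Λ : (Fin (r + 2) → ℝ) →ₗ[ℝ] (Fin (r + 2) → ℝ)) (P U A : E (r + 2)) (s : ℝ)
    (m : Fin (r + 2)) : Λ (pos P U A s) m = Λ P m + s * Λ U m + th s * Λ A m := by
  have : pos P U A s = P + s • U + th s • A := by
    funext i; simp [pos]
  rw [this, map_add, map_add, map_smul, map_smul]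
  rfl

/-- the velocity of the path of one step is close to that of the line -/
theorem gam_deriv (hf : S_FN) (hXI : S_XI) (hLIP : S_LIP) (D : Trig n N) (C1 : ℝ) :
    ∃ C : ℝ, 0 ≤ C ∧ ∀ (V : ℝ) (P v A : Fin n → ℝ), 1 ≤ V → ‖A‖ ≤ 1 → D.NR 1 C1 V v → D.NR 1 C1 V (v + A) →
      ∀ i, ∀ s, 0 ≤ s → s ≤ 1 →
      |deriv (fun s => D.gam P v A s i) s - (v i + tp s * A i)| ≤ C / V := by
  obtain ⟨hth', htp', het, -, hth, htp, h01, -, -, hkap, -⟩ := hf
  obtain ⟨Cx, hCx, hx⟩ := hXI n N D 1 C1 one_pos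
  obtain ⟨Cl, hCl, hl⟩ := hLIP n N D 1 C1 one_pos
  obtain ⟨Ke, hKe⟩ := (isCompact_Icc (a := (0 : ℝ)) (b := 1)).exists_bound_of_continuousOn het.continuous.continuousOn
  have hKe0 : 0 ≤ Ke := (norm_nonneg _).trans (hKe 0 ⟨le_rfl, zero_le_one⟩)
  refine ⟨Cx + Ke * Cl + Cl, by positivity, fun V P v A hV hA h1 h2 i s hs0 hs1 => ?_⟩
  have hsI : s ∈ Icc (-1 : ℝ) 2 := ⟨by linarith, by linarith⟩
  have x1 := (hx V P v hV h1 i).1
  have y1 := hl V kap P v A hV hkap.1 hkap.2 hA h1 h2 i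
  set X : ℝ → ℝ := fun s => D.xi P v s i with hX
  set Y : ℝ → ℝ := fun s => D.xi (P + v + kap • A) (v + A) (s - 1) i - D.xi P v s i with hY
  have dX : HasDerivAt X (deriv X s) s := (x1.1.differentiable (by simp) s).hasDerivAt
  have dY : HasDerivAt Y (deriv Y s) s := (y1.1.differentiable (by simp) s).hasDerivAt
  have e : (fun s => D.gam P v A s i) = fun s => P i + s * v i + th s * A i + X s + tp s * Y s := rfl
  have hd : HasDerivAt (fun s => P i + s * v i + th s * A i + X s + tp s * Y s)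
      (v i + tp s * A i + deriv X s + (et s * Y s + tp s * deriv Y s)) s := by
    have a1 := ((((hasDerivAt_id s).mul_const (v i)).const_add (P i)).add ((hth s).mul_const (A i))).add dX
    have a2 := a1.add ((htp s).mul dY)
    refine a2.congr_deriv ?_
    ring
  rw [e, hd.deriv]
  have b1 : |deriv X s| ≤ Cx / V ^ 2 * V ^ 1 := by
    have := x1.2 1 (by norm_num) s hsI
    rwa [iteratedDeriv_one] at this
  have b2 : |Y s| ≤ Cl * ‖A‖ / V ^ 2 * V ^ 0 := by
    have := y1.2 0 (by norm_num) s hsI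
    rwa [iteratedDeriv_zero] at this
  have b3 : |deriv Y s| ≤ Cl * ‖A‖ / V ^ 2 * V ^ 1 := by
    have := y1.2 1 (by norm_num) s hsI
    rwa [iteratedDeriv_one] at this
  have b4 : |et s| ≤ Ke := hKe s ⟨hs0, hs1⟩
  have hV0 : 0 < V := by linarith
  have c1 : Cx / V ^ 2 * V ^ 1 = Cx / V := by field_simp
  have c3 : Cl * ‖A‖ / V ^ 2 * V ^ 1 ≤ Cl / V := by
    have : Cl * ‖A‖ / V ^ 2 * V ^ 1 = Cl * ‖A‖ / V := by field_simp
    rw [this]
    gcongr
    nlinarith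
  have c2 : Cl * ‖A‖ / V ^ 2 * V ^ 0 ≤ Cl / V := by
    rw [pow_zero, mul_one]
    have h1 : Cl * ‖A‖ ≤ Cl := by nlinarith
    have h2 : V ≤ V ^ 2 := by nlinarith
    gcongr
  have e2 : v i + tp s * A i + deriv X s + (et s * Y s + tp s * deriv Y s) - (v i + tp s * A i) =
      deriv X s + (et s * Y s + tp s * deriv Y s) := by ring
  rw [e2]
  have d1 : |et s * Y s| ≤ Ke * (Cl / V) := by
    rw [abs_mul]; exact mul_le_mul b4 (b2.trans c2) (abs_nonneg _) hKe0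
  have d2 : |tp s * deriv Y s| ≤ Cl / V := by
    rw [abs_mul, abs_of_nonneg (h01 s).1]
    exact (mul_le_of_le_one_left (abs_nonneg _) (h01 s).2).trans (b3.trans c3)
  calc |deriv X s + (et s * Y s + tp s * deriv Y s)|
      ≤ |deriv X s| + (|et s * Y s| + |tp s * deriv Y s|) :=
        (abs_add_le _ _).trans (add_le_add le_rfl (abs_add_le _ _))
    _ ≤ Cx / V + (Ke * (Cl / V) + Cl / V) := by
        rw [c1] at b1
        exact add_le_add b1 (add_le_add d1 d2)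
    _ = (Cx + Ke * Cl + Cl) / V := by ring

end Pool.Agent.N980.TL
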