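import Pool.Agent.N980.TL.Stm
import Pool.Agent.N980.TL.Dfn

/-!
# The path and its derivatives; smoothness of the potentials of the steps
-/

set_option autoImplicit false

open Set Filter Topology MeasureTheory
open scoped ContDiff

noncomputable section

namespace Pool.Agent.N980.TL

variable {n : ℕ}

/-- the path -/
def path (P U A : ℕ → E n) (t : ℝ) : E n := pos (P ⌊t⌋₊) (U ⌊t⌋₊) (A ⌊t⌋₊) (t - ⌊t⌋₊)

/-- the velocity in one time step -/
def vel (U A : E n) (s : ℝ) : E n := fun i => U i + tp s * A i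

theorem path_loc (hf : S_FN) {P U A : ℕ → E n} (hU : ∀ j, U (j + 1) = U j + A j)
    (hP : ∀ j, P (j + 1) = P j + U j + kap • A j) {T : ℝ} (hT : 1 ≤ T) :
    ∀ᶠ T' in 𝓝 T, path P U A T' = pos (P ⌊T⌋₊) (U ⌊T⌋₊) (A ⌊T⌋₊) (T' - ⌊T⌋₊) := by
  obtain ⟨-, -, -, -, -, -, -, hlow, hhigh, -⟩ := hf
  have h0 : (0 : ℝ) ≤ T := by linarith
  have hj1 : ((⌊T⌋₊ : ℕ) : ℝ) ≤ T := Nat.floor_le h0
  have hj2 : T < (⌊T⌋₊ : ℕ) + 1 := Nat.lt_floor_add_one T
  have hj3 : 1 ≤ ⌊T⌋₊ := Nat.le_floor (by exact_mod_cast hT)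
  generalize ⌊T⌋₊ = j at hj1 hj2 hj3 ⊢
  have hn : ∀ᶠ T' in 𝓝 T, (j : ℝ) - 1 / 4 < T' ∧ T' < j + 1 :=
    (lt_mem_nhds (by linarith)).and (gt_mem_nhds hj2)
  filter_upwards [hn] with T' hT'
  by_cases h : (j : ℝ) ≤ T'
  · have : ⌊T'⌋₊ = j := (Nat.floor_eq_iff (by linarith [show (0 : ℝ) ≤ j by positivity])).2 ⟨h, hT'.2⟩
    simp only [path, this]
  · push Not at h
    obtain ⟨i, rfl⟩ : ∃ i, j = i + 1 := ⟨j - 1, by omega⟩
    push_cast at *
    have hi : ⌊T'⌋₊ = i := (Nat.floor_eq_iff (by linarith [show (0 : ℝ) ≤ i by positivity])).2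
      ⟨by linarith, by linarith⟩
    have e1 : th (T' - i) = T' - i - 1 + kap := (hhigh _ (by linarith)).1
    have e2 : th (T' - (i + 1)) = 0 := (hlow _ (by linarith)).1
    funext m
    simp only [path, hi, pos]
    rw [e1, e2, hP, hU]
    simp only [Pi.add_apply, Pi.smul_apply, smul_eq_mul]
    ring

theorem pos_hasDerivAt (hf : S_FN) (P U A : E n) (s : ℝ) : HasDerivAt (pos P U A) (vel U A s) s := by
  obtain ⟨-, -, -, -, hth, -⟩ := hf
  rw [hasDerivAt_pi]
  intro i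
  have h1 := (((hasDerivAt_id s).mul_const (U i)).const_add (P i)).add ((hth s).mul_const (A i))
  refine h1.congr_deriv ?_
  simp [vel]

theorem vel_hasDerivAt (hf : S_FN) (U A : E n) (s : ℝ) : HasDerivAt (vel U A) (et s • A) s := by
  obtain ⟨-, -, -, -, -, htp, -⟩ := hf
  rw [hasDerivAt_pi]
  intro i
  have h1 := ((htp s).mul_const (A i)).const_add (U i)
  exact h1

theorem path_hasDerivAt (hf : S_FN) {P U A : ℕ → E n} (hU : ∀ j, U (j + 1) = U j + A j)
    (hP : ∀ j, P (j + 1) = P j + U j + kap • A j) {T : ℝ} (hT : 1 ≤ T) :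
    HasDerivAt (path P U A) (vel (U ⌊T⌋₊) (A ⌊T⌋₊) (T - ⌊T⌋₊)) T := by
  have h1 := (pos_hasDerivAt hf (P ⌊T⌋₊) (U ⌊T⌋₊) (A ⌊T⌋₊) (T - ⌊T⌋₊)).comp_sub_const T (⌊T⌋₊ : ℝ)
  exact h1.congr_of_eventuallyEq (path_loc hf hU hP hT)

theorem vel_loc (hf : S_FN) {P U A : ℕ → E n} (hU : ∀ j, U (j + 1) = U j + A j)
    (hP : ∀ j, P (j + 1) = P j + U j + kap • A j) {T : ℝ} (hT : 1 ≤ T) :
    ∀ᶠ T' in 𝓝 T, deriv (path P U A) T' = vel (U ⌊T⌋₊) (A ⌊T⌋₊) (T' - ⌊T⌋₊) := by
  filter_upwards [(path_loc hf hU hP hT).eventually_nhds] with T' hT'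
  have h1 := (pos_hasDerivAt hf (P ⌊T⌋₊) (U ⌊T⌋₊) (A ⌊T⌋₊) (T' - ⌊T⌋₊)).comp_sub_const T' (⌊T⌋₊ : ℝ)
  exact (h1.congr_of_eventuallyEq hT').deriv

theorem vel_path_hasDerivAt (hf : S_FN) {P U A : ℕ → E n} (hU : ∀ j, U (j + 1) = U j + A j)
    (hP : ∀ j, P (j + 1) = P j + U j + kap • A j) {T : ℝ} (hT : 1 ≤ T) :
    HasDerivAt (deriv (path P U A)) (et (T - ⌊T⌋₊) • A ⌊T⌋₊) T := by
  have h1 := (vel_hasDerivAt hf (U ⌊T⌋₊) (A ⌊T⌋₊) (T - ⌊T⌋₊)).comp_sub_const T (⌊T⌋₊ : ℝ)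
  exact h1.congr_of_eventuallyEq (vel_loc hf hU hP hT)

theorem Hf_smooth (hf : S_FN) (P U A : E n) (d : ℝ) : ContDiff ℝ ∞ (Hf P U A d) := by
  obtain ⟨hth, -, het, hps, -⟩ := hf
  have hpos : ∀ i, ContDiff ℝ ∞ (fun q : Z n => q.1 i - pos P U A q.2 i) := by
    intro i
    simp only [pos]
    have h1 : ContDiff ℝ ∞ (fun q : Z n => th q.2) := hth.comp contDiff_snd
    have h2 : ContDiff ℝ ∞ (fun q : Z n => q.1 i) := by fun_prop
    have h3 : ContDiff ℝ ∞ (fun q : Z n => q.2) := contDiff_snd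
    exact h2.sub ((contDiff_const.add (h3.mul contDiff_const)).add (h1.mul contDiff_const))
  have h1 : ContDiff ℝ ∞ (fun q : Z n => et q.2) := het.comp contDiff_snd
  have h2 : ContDiff ℝ ∞ (fun q : Z n => dst P U A q / d ^ 2) := by
    have : ContDiff ℝ ∞ (fun q : Z n => dst P U A q) := by
      simp only [dst]
      exact ContDiff.sum fun i _ => ((Real.contDiff_sin.comp (contDiff_const.mul (hpos i))).pow 2)
    exact this.div_const _
  have h3 : ContDiff ℝ ∞ (fun q : Z n => ps (dst P U A q / d ^ 2)) := hps.comp h2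
  have h4 : ContDiff ℝ ∞ (fun q : Z n => ∑ i, A i *
      (Real.sin (2 * Real.pi * (q.1 i - pos P U A q.2 i)) / (2 * Real.pi))) :=
    ContDiff.sum fun i _ => contDiff_const.mul
      ((Real.contDiff_sin.comp (contDiff_const.mul (hpos i))).div_const _)
  exact (h1.mul h4).mul h3

/-- the potential and its derivatives vanish away from the particle -/
theorem Hf_zero (hf : S_FN) (P U A : E n) {d : ℝ} (hd : 0 < d) {q : Z n} (hq : d ^ 2 < dst P U A q) (i : ℕ) :
    iteratedFDeriv ℝ i (Hf P U A d) q = 0 := by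
  obtain ⟨hth, -, -, -, -, -, -, -, -, -, -, h1, -⟩ := hf
  have hc : Continuous (fun q : Z n => dst P U A q) := by
    simp only [dst, pos]
    have h1 : Continuous (fun q : Z n => th q.2) := hth.continuous.comp continuous_snd
    fun_prop
  have h0 : (Hf P U A d) =ᶠ[𝓝 q] fun _ => (0 : ℝ) := by
    filter_upwards [(isOpen_lt continuous_const hc).mem_nhds hq] with q' hq'
    have hq' : d ^ 2 < dst P U A q' := hq'
    simp only [Hf]
    rw [h1 _ (by rw [le_div_iff₀ (by positivity)]; linarith), mul_zero]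
  rw [h0.iteratedFDeriv ℝ i |>.self_of_nhds]
  simp

/-- the force on the particle -/
theorem Hf_force (hf : S_FN) (P U A : E n) {d : ℝ} (hd : 0 < d) (s : ℝ) (i : Fin n) :
    HasDerivAt (fun u => Hf P U A d (Function.update (pos P U A s) i u, s)) (et s * A i) (pos P U A s i) := by
  obtain ⟨-, -, -, -, -, -, -, -, -, -, h1, -, -⟩ := hf
  set x := pos P U A s with hx
  have e1 : ∀ u, (∑ m, A m * (Real.sin (2 * Real.pi * (Function.update x i u m - x m)) / (2 * Real.pi)))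
      = A i * (Real.sin (2 * Real.pi * (u - x i)) / (2 * Real.pi)) := by
    intro u
    rw [Finset.sum_eq_single i]
    · simp
    · intro m _ hm; simp [Function.update_of_ne hm]
    · simp
  have e2 : ∀ u, dst P U A (Function.update x i u, s) = Real.sin (Real.pi * (u - x i)) ^ 2 := by
    intro u
    simp only [dst]
    rw [Finset.sum_eq_single i]
    · simp [hx]
    · intro m _ hm; simp [Function.update_of_ne hm, hx]
    · simp
  have hc : Continuous (fun u : ℝ => Real.sin (Real.pi * (u - x i)) ^ 2 / d ^ 2) := by fun_prop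
  have hev : (fun u => Hf P U A d (Function.update x i u, s)) =ᶠ[𝓝 (x i)]
      fun u => et s * (A i * (Real.sin (2 * Real.pi * (u - x i)) / (2 * Real.pi))) := by
    have h0 : Real.sin (Real.pi * (x i - x i)) ^ 2 / d ^ 2 < 1 / 4 := by simp
    filter_upwards [(isOpen_lt hc continuous_const).mem_nhds h0] with u hu
    have hu : Real.sin (Real.pi * (u - x i)) ^ 2 / d ^ 2 < 1 / 4 := hu
    simp only [Hf, e2]
    rw [h1 _ hu.le, mul_one]
    congr 1
    exact e1 u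
  refine HasDerivAt.congr_of_eventuallyEq ?_ hev
  have h2 : HasDerivAt (fun u : ℝ => 2 * Real.pi * (u - x i)) (2 * Real.pi) (x i) := by
    simpa using ((hasDerivAt_id (x i)).sub_const (x i)).const_mul (2 * Real.pi)
  have h3 := ((h2.sin.div_const (2 * Real.pi)).const_mul (A i)).const_mul (et s)
  refine h3.congr_deriv ?_
  have hpi : Real.pi ≠ 0 := Real.pi_ne_zero
  simp only [sub_self, mul_zero, Real.cos_zero, one_mul]
  field_simp

end Pool.Agent.N980.TL
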