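import Pool.Agent.N980.TL.Stm2

/-!
# Leaf SUM2: sums of functions with disjoint supports and `C^k` norms tending to zero

Worker: helper946.
-/

set_option autoImplicit false

open Set Filter Topology MeasureTheory
open scoped ContDiff

noncomputable section

namespace Pool.Agent.N980.TL.SUM2_

lemma block_exists {a : ℕ → ℕ} (ha0 : a 0 = 0) (ha : StrictMono a) (j : ℕ) :
    ∃ m, j ∈ Finset.Ico (a m) (a (m + 1)) := by
  classical
  have hex : ∃ m, j < a (m + 1) := ⟨j, (Nat.lt_succ_self j).trans_le (ha.le_apply)⟩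
  refine ⟨Nat.find hex, Finset.mem_Ico.2 ⟨?_, Nat.find_spec hex⟩⟩
  rcases Nat.eq_zero_or_pos (Nat.find hex) with h | h
  · rw [h, ha0]; exact Nat.zero_le _
  · have h1 := Nat.find_min hex (Nat.sub_lt h one_pos)
    have h2 : Nat.find hex - 1 + 1 = Nat.find hex := by omega
    rw [not_lt, h2] at h1
    exact h1

lemma block_unique {a : ℕ → ℕ} (ha : StrictMono a) {j m m' : ℕ}
    (h : j ∈ Finset.Ico (a m) (a (m + 1))) (h' : j ∈ Finset.Ico (a m') (a (m' + 1))) : m' = m := by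
  rw [Finset.mem_Ico] at h h'
  have h1 : m < m' + 1 := ha.lt_iff_lt.1 (h.1.trans_lt h'.2)
  have h2 : m' < m + 1 := ha.lt_iff_lt.1 (h'.1.trans_lt h.2)
  omega

lemma blocks {V : Type*} [AddCommMonoid V] [TopologicalSpace V] {a : ℕ → ℕ} (ha0 : a 0 = 0)
    (ha : StrictMono a) (u : ℕ → V) (j0 : ℕ) (hu : ∀ j, j ≠ j0 → u j = 0) :
    ∑' m, ∑ j ∈ Finset.Ico (a m) (a (m + 1)), u j = u j0 := by
  obtain ⟨m0, hm0⟩ := block_exists ha0 ha j0
  rw [tsum_eq_single m0]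
  · exact Finset.sum_eq_single_of_mem j0 hm0 fun j _ hne => hu j hne
  · intro m hm
    apply Finset.sum_eq_zero
    intro j hj
    apply hu
    rintro rfl
    exact hm (block_unique ha hm0 hj)

lemma blocks_zero {V : Type*} [AddCommMonoid V] [TopologicalSpace V] {a : ℕ → ℕ}
    (u : ℕ → V) (hu : ∀ j, u j = 0) :
    ∑' m, ∑ j ∈ Finset.Ico (a m) (a (m + 1)), u j = 0 := by
  simp [hu]

/-- the boundaries of the blocks -/
def bd (N : ℕ → ℕ) : ℕ → ℕ
  | 0 => 0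
  | m + 1 => max (bd N m + 1) (N (m + 1))

lemma bd_mono (N : ℕ → ℕ) : StrictMono (bd N) :=
  strictMono_nat_of_lt_succ fun _ => (Nat.lt_succ_self _).trans_le (le_max_left _ _)

lemma zero_of_iter {n : ℕ} {f : Z n → ℝ} {q : Z n} (h : iteratedFDeriv ℝ 0 f q = 0) : f q = 0 := by
  have h3 : ‖iteratedFDeriv ℝ 0 f q‖ = ‖f q‖ := norm_iteratedFDeriv_zero
  rw [h, norm_zero] at h3
  exact norm_eq_zero.1 h3.symm

theorem main {n k : ℕ} (hk : 1 ≤ k) {H : ℕ → Z n → ℝ} {S : ℕ → Set (Z n)} {b : ℝ} (b0 : 0 ≤ b)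
    (hh : ∀ j, ContDiff ℝ ∞ (H j))
    (hS : ∀ j, ∀ q ∉ S j, ∀ i ≤ k, iteratedFDeriv ℝ i (H j) q = 0)
    (hd : ∀ i j, i ≠ j → Disjoint (S i) (S j))
    (hb : ∀ j, ∀ i ≤ k, ∀ q, ‖iteratedFDeriv ℝ i (H j) q‖ ≤ b)
    (hN : ∀ m : ℕ, ∃ N : ℕ, ∀ j, N ≤ j → ∀ i ≤ k, ∀ q, ‖iteratedFDeriv ℝ i (H j) q‖ ≤ (1 / 2) ^ m) :
    ∃ F : Z n → ℝ, ContDiff ℝ k F ∧ (∀ i ≤ k, ∀ q, ‖iteratedFDeriv ℝ i F q‖ ≤ b) ∧
      (∀ q, F q = ∑' j : ℕ, H j q) ∧ (∀ q, (∀ j, q ∉ S j) → F q = 0) ∧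
      (∀ j, ∀ q ∈ S j, fderiv ℝ F q = fderiv ℝ (H j) q) := by
  choose N hN using hN
  set a := bd N with ha
  have ha0 : a 0 = 0 := rfl
  have hmono : StrictMono a := bd_mono N
  have haN : ∀ m, N (m + 1) ≤ a (m + 1) := fun m => le_max_right _ _
  set G : ℕ → Z n → ℝ := fun m q => ∑ j ∈ Finset.Ico (a m) (a (m + 1)), H j q with hG
  set c : ℕ → ℝ := fun m => if m = 0 then b else (1 / 2) ^ m with hc
  have hcs : Summable c := by
    rw [← summable_nat_add_iff 1]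
    have h1 : (fun m => c (m + 1)) = fun m : ℕ => (1 / 2 : ℝ) ^ (m + 1) := by
      funext m; simp [hc]
    rw [h1]
    exact (summable_nat_add_iff 1).2 (summable_geometric_of_lt_one (by norm_num) (by norm_num))
  have hc0 : ∀ m, 0 ≤ c m := by
    intro m
    simp only [hc]
    split_ifs
    · exact b0
    · positivity
  have hGs : ∀ m, ContDiff ℝ ∞ (G m) := fun m => ContDiff.sum fun j _ => hh j
  have hGi : ∀ m i q, iteratedFDeriv ℝ i (G m) q =
      ∑ j ∈ Finset.Ico (a m) (a (m + 1)), iteratedFDeriv ℝ i (H j) q := by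
    intro m i q
    apply iteratedFDeriv_fun_sum_apply
    intro j _
    exact ((hh j).of_le (by exact_mod_cast le_top)).contDiffAt
  have hone : ∀ j0 q, q ∈ S j0 → ∀ j, j ≠ j0 → q ∉ S j := by
    intro j0 q hq j hne hq'
    exact Set.disjoint_left.1 (hd j j0 hne) hq' hq
  have hcb : ∀ m, ∀ j ∈ Finset.Ico (a m) (a (m + 1)), ∀ i ≤ k, ∀ q,
      ‖iteratedFDeriv ℝ i (H j) q‖ ≤ c m := by
    intro m j hj i hi q
    rcases m with _ | m
    · simp only [hc, if_true]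
      exact hb j i hi q
    · simp only [hc, Nat.succ_ne_zero, if_false]
      exact hN (m + 1) j ((haN m).trans (Finset.mem_Ico.1 hj).1) i hi q
  have hGb : ∀ i m, ∀ q, i ≤ k → ‖iteratedFDeriv ℝ i (G m) q‖ ≤ c m := by
    intro i m q hi
    rw [hGi]
    by_cases hq : ∃ j ∈ Finset.Ico (a m) (a (m + 1)), q ∈ S j
    · obtain ⟨j, hj, hqj⟩ := hq
      rw [Finset.sum_eq_single_of_mem j hj]
      · exact hcb m j hj i hi q
      · intro j' _ hne
        exact hS j' q (hone j q hqj j' hne) i hi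
    · push Not at hq
      rw [Finset.sum_eq_zero fun j hj => hS j q (hq j hj) i hi, norm_zero]
      exact hc0 m
  have hsm : ∀ m : ℕ, ContDiff ℝ ((k : ℕ∞) : WithTop ℕ∞) (G m) := fun m =>
    (hGs m).of_le (by exact_mod_cast le_top)
  have hv : ∀ i : ℕ, (i : ℕ∞) ≤ (k : ℕ∞) → Summable ((fun (_ : ℕ) (m : ℕ) => c m) i) :=
    fun _ _ => hcs
  have hbb : ∀ (i : ℕ) (m : ℕ) (x : Z n), (i : ℕ∞) ≤ (k : ℕ∞) →
      ‖iteratedFDeriv ℝ i (G m) x‖ ≤ (fun (_ : ℕ) (m : ℕ) => c m) i m :=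
    fun i m x hi => hGb i m x (by exact_mod_cast hi)
  have hit : ∀ i ≤ k, ∀ q, iteratedFDeriv ℝ i (fun q => ∑' m : ℕ, G m q) q =
      ∑' m : ℕ, ∑ j ∈ Finset.Ico (a m) (a (m + 1)), iteratedFDeriv ℝ i (H j) q := by
    intro i hi q
    rw [iteratedFDeriv_tsum (N := (k : ℕ∞)) hsm hv hbb (by exact_mod_cast hi)]
    exact tsum_congr fun m => hGi m i q
  have hit1 : ∀ i ≤ k, ∀ j0 q, q ∈ S j0 → iteratedFDeriv ℝ i (fun q => ∑' m : ℕ, G m q) q =
      iteratedFDeriv ℝ i (H j0) q := by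
    intro i hi j0 q hq
    rw [hit i hi q]
    exact blocks ha0 hmono (fun j => iteratedFDeriv ℝ i (H j) q) j0
      fun j hne => hS j q (hone j0 q hq j hne) i hi
  have hit0 : ∀ i ≤ k, ∀ q, (∀ j, q ∉ S j) → iteratedFDeriv ℝ i (fun q => ∑' m : ℕ, G m q) q = 0 := by
    intro i hi q hq
    rw [hit i hi q]
    exact blocks_zero (fun j => iteratedFDeriv ℝ i (H j) q) fun j => hS j q (hq j) i hi
  refine ⟨fun q => ∑' m : ℕ, G m q, ?_, ?_, ?_, ?_, ?_⟩
  · have := contDiff_tsum (N := (k : ℕ∞)) hsm hv hbb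
    exact_mod_cast this
  · intro i hi q
    by_cases hq : ∃ j, q ∈ S j
    · obtain ⟨j, hj⟩ := hq
      rw [hit1 i hi j q hj]
      exact hb j i hi q
    · push Not at hq
      rw [hit0 i hi q hq, norm_zero]
      exact b0
  · intro q
    show ∑' m : ℕ, ∑ j ∈ Finset.Ico (a m) (a (m + 1)), H j q = _
    by_cases hq : ∃ j, q ∈ S j
    · obtain ⟨j0, hj0⟩ := hq
      have hz : ∀ j, j ≠ j0 → H j q = 0 := fun j hne =>
        zero_of_iter (hS j q (hone j0 q hj0 j hne) 0 (Nat.zero_le _))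
      rw [blocks ha0 hmono (fun j => H j q) j0 hz, tsum_eq_single j0 hz]
    · push Not at hq
      have hz : ∀ j, H j q = 0 := fun j => zero_of_iter (hS j q (hq j) 0 (Nat.zero_le _))
      rw [blocks_zero (fun j => H j q) hz]
      simp [hz]
  · intro q hq
    show ∑' m : ℕ, ∑ j ∈ Finset.Ico (a m) (a (m + 1)), H j q = 0
    exact blocks_zero (fun j => H j q) fun j => zero_of_iter (hS j q (hq j) 0 (Nat.zero_le _))
  · intro j q hq
    have h1 := hit1 1 hk j q hq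
    refine ContinuousLinearMap.ext fun v => ?_
    have h2 := congrArg (fun (A : ContinuousMultilinearMap ℝ (fun _ : Fin 1 => Z n) ℝ) =>
      A fun _ => v) h1
    simpa only [iteratedFDeriv_one_apply] using h2

end Pool.Agent.N980.TL.SUM2_

namespace Pool.Agent.N980.TL

theorem sum2_all : S_SUM2 := by
  intro n k hk h S B l0 b hh hS hd hB hT hBb b0
  classical
  have hlog : ∀ j, 2 ^ l0 ≤ j → l0 ≤ Nat.log 2 j ∧
      j ∈ Finset.Ico (2 ^ Nat.log 2 j) (2 ^ (Nat.log 2 j + 1)) := by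
    intro j hj
    have hj0 : j ≠ 0 := (Nat.one_le_two_pow.trans hj |> Nat.pos_of_ne_zero ∘ Nat.one_le_iff_ne_zero.1).ne'
    exact ⟨Nat.le_log_of_pow_le one_lt_two hj, Finset.mem_Ico.2
      ⟨Nat.pow_log_le_self 2 hj0, Nat.lt_pow_succ_log_self one_lt_two j⟩⟩
  have hz : ∀ (i : ℕ) (q : Z n), iteratedFDeriv ℝ i (fun _ : Z n => (0 : ℝ)) q = 0 := by
    intro i q
    exact congrFun (iteratedFDeriv_fun_zero) q
  set H : ℕ → Z n → ℝ := fun j => if 2 ^ l0 ≤ j then h j else fun _ => 0 with hH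
  set S' : ℕ → Set (Z n) := fun j => if 2 ^ l0 ≤ j then S j else ∅ with hS'
  have hHp : ∀ j, 2 ^ l0 ≤ j → H j = h j := fun j hj => if_pos hj
  have hHn : ∀ j, ¬ 2 ^ l0 ≤ j → H j = fun _ => (0 : ℝ) := fun j hj => if_neg hj
  have hSp : ∀ j, 2 ^ l0 ≤ j → S' j = S j := fun j hj => if_pos hj
  have hSn : ∀ j, ¬ 2 ^ l0 ≤ j → S' j = ∅ := fun j hj => if_neg hj
  have A1 : ∀ j, ContDiff ℝ ∞ (H j) := by
    intro j
    by_cases hj : 2 ^ l0 ≤ j
    · rw [hHp j hj]; exact hh j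
    · rw [hHn j hj]; exact contDiff_const
  have A2 : ∀ j, ∀ q ∉ S' j, ∀ i ≤ k, iteratedFDeriv ℝ i (H j) q = 0 := by
    intro j q hq i hi
    by_cases hj : 2 ^ l0 ≤ j
    · rw [hSp j hj] at hq
      rw [hHp j hj]
      exact hS j q hq i hi
    · rw [hHn j hj]; exact hz i q
  have A3 : ∀ i j, i ≠ j → Disjoint (S' i) (S' j) := by
    intro i j hne
    by_cases hi : 2 ^ l0 ≤ i
    · by_cases hj : 2 ^ l0 ≤ j
      · rw [hSp i hi, hSp j hj]
        rcases lt_or_gt_of_ne hne with h | h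
        · exact hd i j hi h
        · exact (hd j i hj h).symm
      · rw [hSn j hj]; exact Set.disjoint_empty _
    · rw [hSn i hi]; exact Set.empty_disjoint _
  have A4 : ∀ j, ∀ i ≤ k, ∀ q, ‖iteratedFDeriv ℝ i (H j) q‖ ≤ b := by
    intro j i hi q
    by_cases hj : 2 ^ l0 ≤ j
    · rw [hHp j hj]
      exact (hB _ (hlog j hj).1 j (hlog j hj).2 i hi q).trans (hBb _ (hlog j hj).1)
    · rw [hHn j hj, hz i q, norm_zero]
      exact b0
  have A5 : ∀ m : ℕ, ∃ N : ℕ, ∀ j, N ≤ j → ∀ i ≤ k, ∀ q,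
      ‖iteratedFDeriv ℝ i (H j) q‖ ≤ (1 / 2) ^ m := by
    intro m
    have hev : ∀ᶠ l in atTop, B l < (1 / 2 : ℝ) ^ m := hT.eventually_lt_const (by positivity)
    obtain ⟨L, hL⟩ := eventually_atTop.1 hev
    refine ⟨2 ^ (max L l0), fun j hj i hi q => ?_⟩
    have hj1 : 2 ^ l0 ≤ j := (Nat.pow_le_pow_right (by norm_num) (le_max_right _ _)).trans hj
    have hj2 : L ≤ Nat.log 2 j := (le_max_left L l0).trans (Nat.le_log_of_pow_le one_lt_two hj)
    rw [hHp j hj1]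
    exact (hB _ (hlog j hj1).1 j (hlog j hj1).2 i hi q).trans (hL _ hj2).le
  obtain ⟨F, h1, h2, h3, h4, h5⟩ := SUM2_.main hk b0 A1 A2 A3 A4 A5
  refine ⟨F, h1, h2, ?_, ?_, ?_⟩
  · intro q
    rw [h3 q]
    refine tsum_congr fun j => ?_
    by_cases hj : 2 ^ l0 ≤ j
    · rw [hHp j hj, if_pos hj]
    · rw [hHn j hj, if_neg hj]
  · intro q hq
    apply h4
    intro j
    by_cases hj : 2 ^ l0 ≤ j
    · rw [hSp j hj]; exact hq j hj
    · rw [hSn j hj]; exact Set.notMem_empty _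
  · intro j hj q hq
    rw [h5 j q (by rw [hSp j hj]; exact hq), hHp j hj]

end Pool.Agent.N980.TL
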