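import Pool.Agent.N980.TL.Pth

/-!
# The supports of the potentials of different steps are disjoint
-/

set_option autoImplicit false

open Set Filter Topology MeasureTheory
open scoped ContDiff

noncomputable section

namespace Pool.Agent.N980.TL

theorem th_mono (hf : S_FN) : Monotone th := by
  obtain ⟨-, -, -, -, hth, -, h01, -⟩ := hf
  exact monotone_of_deriv_nonneg (fun s => (hth s).differentiableAt) fun s => by
    rw [(hth s).deriv]; exact (h01 s).1

theorem sub_th_mono (hf : S_FN) : Monotone (fun s => s - th s) := by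
  obtain ⟨-, -, -, -, hth, -, h01, -⟩ := hf
  refine monotone_of_deriv_nonneg (fun s => ((hasDerivAt_id s).sub (hth s)).differentiableAt) fun s => ?_
  have := ((hasDerivAt_id s).sub (hth s)).deriv
  have h2 : deriv (fun s => s - th s) s = 1 - tp s := this
  rw [h2]
  linarith [(h01 s).2]

theorem th_zero (hf : S_FN) : th 0 = 0 := by
  obtain ⟨-, -, -, -, -, -, -, hlow, -⟩ := hf
  exact (hlow 0 (by norm_num)).1

theorem pos_between (hf : S_FN) {n : ℕ} (P U A : ℕ → E n) (m : Fin n) (j : ℕ)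
    (hU : ∀ j, U (j + 1) = U j + A j) (hP : ∀ j, P (j + 1) = P j + U j + kap • A j)
    (hs : ∀ j, 0 ≤ U j m ∧ A j m ≤ 0) {s : ℝ} (h0 : 0 ≤ s) (h1 : s ≤ 1) :
    P j m ≤ pos (P j) (U j) (A j) s m ∧ pos (P j) (U j) (A j) s m ≤ P (j + 1) m := by
  have e1 : U (j + 1) m = U j m + A j m := by rw [hU]; rfl
  have e2 : P (j + 1) m = P j m + U j m + kap * A j m := by rw [hP]; rfl
  have a1 := (hs (j + 1)).1
  have a2 := (hs j).2
  have a3 : th s ≤ s := by
    have := sub_th_mono hf h0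
    simp only [th_zero hf, sub_zero] at this
    linarith
  have a4 : kap - th s ≤ 1 - s := by
    have := sub_th_mono hf h1
    have this : s - th s ≤ 1 - th 1 := this
    have h2 : kap = th 1 := rfl
    linarith
  rw [e1] at a1
  constructor
  · simp only [pos]
    nlinarith [mul_nonneg h0 a1, mul_nonneg (sub_nonneg.2 a3) (neg_nonneg.2 a2)]
  · rw [e2]
    simp only [pos]
    nlinarith [mul_nonneg (sub_nonneg.2 h1) a1, mul_nonneg (sub_nonneg.2 a4) (neg_nonneg.2 a2)]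

theorem abs_sin_sub_le (a b : ℝ) : |Real.sin (a - b)| ≤ |Real.sin a| + |Real.sin b| := by
  rw [Real.sin_sub]
  have h1 : |Real.sin a * Real.cos b| ≤ |Real.sin a| := by
    rw [abs_mul]; exact mul_le_of_le_one_right (abs_nonneg _) (Real.abs_cos_le_one _)
  have h2 : |Real.cos a * Real.sin b| ≤ |Real.sin b| := by
    rw [abs_mul]; exact mul_le_of_le_one_left (abs_nonneg _) (Real.abs_cos_le_one _)
  exact (abs_sub _ _).trans (add_le_add h1 h2)

theorem abs_sin_le {n : ℕ} {P U A : E n} {q : Z n} {d : ℝ} (hd : 0 ≤ d) (h : dst P U A q ≤ d ^ 2) (m : Fin n) :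
    |Real.sin (Real.pi * (q.1 m - pos P U A q.2 m))| ≤ d := by
  refine abs_le_of_sq_le_sq (le_trans ?_ h) hd
  exact Finset.single_le_sum (f := fun i => Real.sin (Real.pi * (q.1 i - pos P U A q.2 i)) ^ 2)
    (fun i _ => sq_nonneg _) (Finset.mem_univ m)

/-- the region of the potential of a step -/
def Sj {n : ℕ} (P U A : ℕ → E n) (d : ℕ → ℝ) (j : ℕ) : Set (Z n) :=
  {q | dst (P j) (U j) (A j) (q.1, Int.fract q.2) ≤ d j ^ 2}

theorem sep (hf : S_FN) {r : ℕ} (P U A : ℕ → E (r + 2)) (w : Fin r → ℝ) (d : ℕ → ℝ)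
    {c0 c1 c2 s ρ tau p : ℝ} (htau : 0 < tau) (hρ : ρ = 2 ^ (-tau)) (hρs : ρ ≤ s)
    (hc0 : 0 < c0) (hc1 : 0 < c1) (hc2 : 0 < c2) (h21 : 2 * c2 < c1 * ρ ^ 2) (h20 : 4 * c2 < c0 * s)
    (hd : ∀ j, d j = c2 * ρ ^ (Nat.log 2 j))
    (hU : ∀ j, U (j + 1) = U j + A j) (hP : ∀ j, P (j + 1) = P j + U j + kap • A j)
    (hw : ∀ (i : Fin r) (j : ℕ), P j i.succ.succ = j * w i ∧ U j i.succ.succ = w i ∧ A j i.succ.succ = 0)
    (hD : ∀ l : ℕ, 1 ≤ l → ∃ i, c1 * (l : ℝ) ^ (-tau) ≤ |Real.sin (Real.pi * (l * w i))|)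
    (hs : ∀ j, 0 ≤ U j 1 ∧ A j 1 ≤ 0) (hmono : ∀ j, P j 1 ≤ P (j + 1) 1)
    (hb : ∀ j, p ≤ P j 1 ∧ P j 1 ≤ p + 1 / 2)
    (hg : ∀ l, 1 ≤ l → P (2 ^ l) 1 + c0 * s ^ l / 4 ≤ P (2 ^ (l + 1)) 1) {i j : ℕ} (hi : 1 ≤ i) (hij : i < j) :
    Disjoint (Sj P U A d i) (Sj P U A d j) := by
  rw [Set.disjoint_left]
  intro q h1 h2
  have hρ0 : 0 < ρ := by rw [hρ]; positivity
  have hρ1 : ρ ≤ 1 := by
    rw [hρ]
    exact Real.rpow_le_one_of_one_le_of_nonpos (by norm_num) (by linarith)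
  have hdi : 0 ≤ d i := by rw [hd]; positivity
  have hdj : 0 ≤ d j := by rw [hd]; positivity
  have hdd : d j ≤ d i := by
    rw [hd, hd]
    exact mul_le_mul_of_nonneg_left (pow_le_pow_of_le_one hρ0.le hρ1 (Nat.log_mono_right hij.le)) hc2.le
  set l := Nat.log 2 i with hl
  have hl1 : 2 ^ l ≤ i := Nat.pow_log_le_self 2 (by omega)
  have hl2 : i < 2 ^ (l + 1) := Nat.lt_pow_succ_log_self (by norm_num) i
  have hF0 : 0 ≤ Int.fract q.2 := Int.fract_nonneg _
  have hF1 : Int.fract q.2 ≤ 1 := (Int.fract_lt_one _).le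
  set σ := Int.fract q.2 with hσ
  have key : ∀ m, |Real.sin (Real.pi * (pos (P j) (U j) (A j) σ m - pos (P i) (U i) (A i) σ m))| ≤ 2 * d i := by
    intro m
    have k1 := abs_sin_le hdi h1 m
    have k2 := abs_sin_le hdj h2 m
    have e : Real.pi * (pos (P j) (U j) (A j) σ m - pos (P i) (U i) (A i) σ m) =
        Real.pi * (q.1 m - pos (P i) (U i) (A i) σ m) - Real.pi * (q.1 m - pos (P j) (U j) (A j) σ m) := by ring
    rw [e]
    exact (abs_sin_sub_le _ _).trans (by linarith)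
  by_cases hc : j - i ≤ 2 ^ (l + 2)
  · obtain ⟨m, hm⟩ := hD (j - i) (by omega)
    have k := key m.succ.succ
    have e : pos (P j) (U j) (A j) σ m.succ.succ - pos (P i) (U i) (A i) σ m.succ.succ
        = ((j - i : ℕ) : ℝ) * w m := by
      simp only [pos]
      rw [(hw m j).1, (hw m j).2.1, (hw m j).2.2, (hw m i).1, (hw m i).2.1, (hw m i).2.2,
        Nat.cast_sub hij.le]
      ring
    rw [e] at k
    have h3 : ρ ^ (l + 2) ≤ ((j - i : ℕ) : ℝ) ^ (-tau) := by
      have h4 : ((2 ^ (l + 2) : ℕ) : ℝ) ^ (-tau) ≤ ((j - i : ℕ) : ℝ) ^ (-tau) :=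
        Real.rpow_le_rpow_of_nonpos (by exact_mod_cast (by omega : 0 < j - i)) (by exact_mod_cast hc)
          (by linarith)
      refine le_trans (le_of_eq ?_) h4
      rw [hρ, ← Real.rpow_natCast, ← Real.rpow_mul (by norm_num)]
      push_cast
      rw [← Real.rpow_natCast 2 (l + 2), ← Real.rpow_mul (by norm_num)]
      congr 1
      push_cast
      ring
    have h5 : c1 * ρ ^ (l + 2) ≤ 2 * d i := (mul_le_mul_of_nonneg_left h3 hc1.le).trans (hm.trans k)
    rw [hd, ← hl, pow_add] at h5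
    have h6 : 0 < ρ ^ l := by positivity
    nlinarith
  · push Not at hc
    have k := key 1
    have m1 : Monotone (fun j => P j 1) := monotone_nat_of_le_succ hmono
    have b1 := pos_between hf P U A 1 j hU hP hs hF0 hF1
    have b2 := pos_between hf P U A 1 i hU hP hs hF0 hF1
    have b3 : P (2 ^ (l + 2)) 1 ≤ P j 1 := m1 (by omega)
    have b4 : P (i + 1) 1 ≤ P (2 ^ (l + 1)) 1 := m1 (by omega)
    have b5 := hg (l + 1) (by omega)
    set Δ := pos (P j) (U j) (A j) σ 1 - pos (P i) (U i) (A i) σ 1 with hΔ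
    have h3 : c0 * s ^ (l + 1) / 4 ≤ Δ := by linarith
    have h4 : Δ ≤ 1 / 2 := by linarith [(hb (j + 1)).2, (hb i).1]
    have hs0 : 0 < s := hρ0.trans_le hρs
    have h5 : 0 ≤ Δ := le_trans (by positivity) h3
    have h6 : 2 * Δ ≤ Real.sin (Real.pi * Δ) := by
      have := Real.mul_le_sin (x := Real.pi * Δ) (by positivity) (by nlinarith [Real.pi_pos])
      have e : 2 / Real.pi * (Real.pi * Δ) = 2 * Δ := by
        have := Real.pi_ne_zero
        field_simp
      rwa [e] at this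
    have h7 := (le_abs_self _).trans k
    have h8 : ρ ^ l ≤ s ^ l := pow_le_pow_left₀ hρ0.le hρs l
    rw [hd, ← hl] at h7
    have h9 : 0 < s ^ l := by positivity
    have h10 : c0 * s ^ (l + 1) / 4 = c0 * s * s ^ l / 4 := by ring
    nlinarith [mul_le_mul_of_nonneg_left h8 hc2.le]

end Pool.Agent.N980.TL
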