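import Pool.Agent.N980.TL.Stm

/-!
# TL2: potentials of class `C^2` in all dimensions `n ≥ 2` (definitions and statements of the leaves)
-/

set_option autoImplicit false

open Set Filter Topology MeasureTheory
open scoped ContDiff

noncomputable section

namespace Pool.Agent.N980.TL

/-- the number of steps for which the fast coordinate is used -/
def Ql (l : ℕ) : ℕ := (l + 2) ^ 2

/-- the threshold -/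
def Kl (l : ℕ) : ℝ := 8 * ((Ql l : ℝ) + 1) ^ 2

/-- the large radius -/
def Dl (c2 : ℝ) (l : ℕ) : ℝ := c2 / 2 ^ l

/-- the slow velocity at the beginning of a block -/
def ww (c0 : ℝ) (l : ℕ) : ℝ := c0 / (2 ^ l * (l + 1) ^ 2)

/-- the small radius -/
def Wl (c0 : ℝ) (l : ℕ) : ℝ := ww c0 (l + 2) / 4

/-- the fast velocity is not close to a rational number with small denominator -/
def Good (c2 : ℝ) (l : ℕ) (V : ℝ) : Prop :=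
  ∀ g : ℕ, 1 ≤ g → g ≤ Ql l → Kl l * Dl c2 l ≤ |g * V - round ((g : ℝ) * V)|

open Classical in
/-- the radius -/
def rad (c0 c2 : ℝ) (l : ℕ) (V : ℝ) : ℝ := if Good c2 l V then Dl c2 l else Wl c0 l

/-- the acceleration -/
def acc (c0 c2 : ℝ) (l : ℕ) (V : ℝ) : ℝ := rad c0 c2 l V / ((l + 1) * (V + 2) ^ 2)

/-- the fast velocity -/
def VV (c0 c2 : ℝ) : ℕ → ℝ
  | 0 => 1
  | j + 1 => VV c0 c2 j + acc c0 c2 (Nat.log 2 j) (VV c0 c2 j)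

/-- the slow velocity, linear in each dyadic block -/
def uu (c0 : ℝ) (j : ℕ) : ℝ :=
  ww c0 (Nat.log 2 j) -
    ((j : ℝ) - 2 ^ (Nat.log 2 j)) * (ww c0 (Nat.log 2 j) - ww c0 (Nat.log 2 j + 1)) / 2 ^ (Nat.log 2 j)

/-- Leaf VINF: the fast velocity tends to infinity -/
def S_VINF : Prop :=
  ∀ c0 c2 : ℝ, 0 < c0 → c0 ≤ 1 → c2 = c0 / 8 → Tendsto (VV c0 c2) atTop atTop

/-- Leaf VBD: bounds of the fast velocity -/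
def S_VBD : Prop :=
  ∀ c0 c2 : ℝ, 0 < c0 → c0 ≤ 1 → c2 = c0 / 8 →
    (∀ j, 1 ≤ VV c0 c2 j ∧ VV c0 c2 j ≤ Nat.log 2 j + 3) ∧
    (∀ l V, Wl c0 l ≤ rad c0 c2 l V ∧ rad c0 c2 l V ≤ Dl c2 l)

/-- Leaf UU: the slow velocity -/
def S_UU : Prop :=
  ∀ c0 : ℝ, 0 < c0 → c0 ≤ 1 →
    (∀ j, uu c0 (j + 1) ≤ uu c0 j) ∧ (∀ j, 0 < uu c0 j ∧ uu c0 j ≤ 2) ∧
    (∀ l, ∀ j, j < 2 ^ (l + 1) → ww c0 (l + 1) ≤ uu c0 j) ∧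
    (∀ j, 1 ≤ j → uu c0 j - uu c0 (j + 1) ≤ ww c0 (Nat.log 2 j) / 2 ^ (Nat.log 2 j)) ∧
    (∀ j, ∑ i ∈ Finset.range j, uu c0 i ≤ 8 * c0) ∧
    ∃ L : ℕ, 4 ≤ L ∧ ∀ l, L ≤ l → ww c0 l / 2 ^ l ≤ Wl c0 l / ((l + 1) * (l + 5) ^ 2) ∧ Ql l + 3 ≤ 2 ^ l

/-- Leaf SUM2: sums of functions with disjoint supports and `C^k` norms tending to zero -/
def S_SUM2 : Prop :=
  ∀ (n k : ℕ) (_ : 1 ≤ k) (h : ℕ → Z n → ℝ) (S : ℕ → Set (Z n)) (B : ℕ → ℝ) (l0 : ℕ) (b : ℝ),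
    (∀ j, ContDiff ℝ ∞ (h j)) → (∀ j, ∀ q ∉ S j, ∀ i ≤ k, iteratedFDeriv ℝ i (h j) q = 0) →
    (∀ i j, 2 ^ l0 ≤ i → i < j → Disjoint (S i) (S j)) →
    (∀ l, l0 ≤ l → ∀ j ∈ Finset.Ico (2 ^ l) (2 ^ (l + 1)), ∀ i ≤ k, ∀ q, ‖iteratedFDeriv ℝ i (h j) q‖ ≤ B l) →
    Tendsto B atTop (𝓝 0) → (∀ l, l0 ≤ l → B l ≤ b) → 0 ≤ b →
    ∃ F : Z n → ℝ, ContDiff ℝ k F ∧
    (∀ i ≤ k, ∀ q, ‖iteratedFDeriv ℝ i F q‖ ≤ b) ∧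
    (∀ q, F q = ∑' j : ℕ, if 2 ^ l0 ≤ j then h j q else 0) ∧
    (∀ q, (∀ j, 2 ^ l0 ≤ j → q ∉ S j) → F q = 0) ∧
    (∀ j, 2 ^ l0 ≤ j → ∀ q ∈ S j, fderiv ℝ F q = fderiv ℝ (h j) q)

end Pool.Agent.N980.TL
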