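import Pool.Agent.N980.TL.Sep
import Pool.Agent.N980.TL.Aux1
import Pool.Agent.N980.TL.Stm2

/-!
# The supports of the potentials of different steps are disjoint (second construction)
-/

set_option autoImplicit false

open Set Filter Topology MeasureTheory
open scoped ContDiff

noncomputable section

namespace Pool.Agent.N980.TL

theorem abs_sin_ge (y : ℝ) (z : ℝ) (h : ∀ m : ℤ, z ≤ |y - m|) : 2 * z ≤ |Real.sin (Real.pi * y)| :=
  le_trans (by linarith [h (round y)]) (two_mul_le_abs_sin y)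

/-- the slow coordinate: consecutive positions -/
theorem slow_step (hf : S_FN) {P U A : ℕ → ℝ} (hU : ∀ j, U (j + 1) = U j + A j)
    (hP : ∀ j, P (j + 1) = P j + U j + kap * A j) (hA : ∀ j, A j ≤ 0) {s : ℝ} (h0 : 0 ≤ s) (h1 : s ≤ 1) (j : ℕ) :
    U (j + 2) ≤ (P (j + 1) + s * U (j + 1) + th s * A (j + 1)) - (P j + s * U j + th s * A j) := by
  have e1 : U (j + 2) = U j + A j + A (j + 1) := by rw [hU (j + 1), hU j]
  have hk : 0 ≤ kap := by
    obtain ⟨-, -, -, -, -, -, -, -, -, h, -⟩ := hf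
    exact h.1
  have a1 : th s ≤ s := by
    have := sub_th_mono hf h0
    simp only [th_zero hf, sub_zero] at this
    linarith
  have a2 : 0 ≤ th s := by
    have := th_mono hf h0
    rwa [th_zero hf] at this
  have a3 : kap + s - th s ≤ 1 := by
    have := sub_th_mono hf h1
    have this : s - th s ≤ 1 - th 1 := this
    have h2 : kap = th 1 := rfl
    linarith
  rw [e1, hP j, hU j]
  have b1 := mul_nonneg (sub_nonneg.2 a3) (neg_nonneg.2 (hA j))
  have b2 := mul_nonneg (sub_nonneg.2 (a1.trans h1)) (neg_nonneg.2 (hA (j + 1)))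
  nlinarith

theorem slow_sep (hf : S_FN) {P U A : ℕ → ℝ} (hU : ∀ j, U (j + 1) = U j + A j)
    (hP : ∀ j, P (j + 1) = P j + U j + kap * A j) (hA : ∀ j, A j ≤ 0)
    {s : ℝ} (h0 : 0 ≤ s) (h1 : s ≤ 1) (i g : ℕ) :
    g * U (i + g + 1) ≤ (P (i + g) + s * U (i + g) + th s * A (i + g)) - (P i + s * U i + th s * A i) := by
  have hanti : Antitone U := antitone_nat_of_succ_le fun j => by rw [hU]; linarith [hA j]
  induction g with
  | zero => simp
  | succ g ih =>
    have h2 := slow_step hf hU hP hA h0 h1 (i + g)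
    have h3 : U (i + (g + 1) + 1) ≤ U (i + g + 1) := hanti (by omega)
    have h4 : (g : ℝ) * U (i + (g + 1) + 1) ≤ g * U (i + g + 1) :=
      mul_le_mul_of_nonneg_left h3 (by positivity)
    have e : i + (g + 1) = i + g + 1 := by ring
    have e2 : i + (g + 1) + 1 = i + g + 2 := by ring
    rw [e2] at h4 ⊢
    rw [e]
    push_cast
    linarith

/-- the fast coordinate -/
theorem fast_sep (hf : S_FN) {P U A : ℕ → ℝ} (hU : ∀ j, U (j + 1) = U j + A j)
    (hP : ∀ j, P (j + 1) = P j + U j + kap * A j) {D : ℝ} {i : ℕ} (hA : ∀ j, i ≤ j → 0 ≤ A j ∧ A j ≤ D)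
    {s : ℝ} (h0 : 0 ≤ s) (h1 : s ≤ 1) (g : ℕ) :
    (0 ≤ U (i + g) - U i ∧ U (i + g) - U i ≤ g * D) ∧
    |(P (i + g) + s * U (i + g) + th s * A (i + g)) - (P i + s * U i + th s * A i) - g * U i| ≤
      ((g : ℝ) + 1) ^ 2 * D := by
  have hk : 0 ≤ kap ∧ kap ≤ 1 := by
    obtain ⟨-, -, -, -, -, -, -, -, -, h, -⟩ := hf
    exact h
  have hD : 0 ≤ D := (hA i le_rfl).1.trans (hA i le_rfl).2
  have a1 : th s ≤ 1 := by
    have := sub_th_mono hf h0
    simp only [th_zero hf, sub_zero] at this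
    linarith
  have a2 : 0 ≤ th s := by
    have := th_mono hf h0
    rwa [th_zero hf] at this
  have key : (0 ≤ U (i + g) - U i ∧ U (i + g) - U i ≤ g * D) ∧
      (0 ≤ P (i + g) - P i - g * U i ∧ P (i + g) - P i - g * U i ≤ g * (g + 1) * D) := by
    induction g with
    | zero => simp
    | succ g ih =>
      obtain ⟨⟨i1, i2⟩, i3, i4⟩ := ih
      obtain ⟨c1, c2⟩ := hA (i + g) (by omega)
      have e : i + (g + 1) = i + g + 1 := by ring
      rw [e, hU, hP]
      push_cast
      have m1 : 0 ≤ kap * A (i + g) := mul_nonneg hk.1 c1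
      have m2 : kap * A (i + g) ≤ D := (mul_le_of_le_one_left c1 hk.2).trans c2
      refine ⟨⟨by linarith, by linarith⟩, by linarith, ?_⟩
      have : ((g : ℝ) + 1) * (g + 1 + 1) * D = g * (g + 1) * D + g * D + (g + 2) * D := by ring
      have h5 : 0 ≤ (g : ℝ) * D := by positivity
      nlinarith
  refine ⟨key.1, ?_⟩
  obtain ⟨⟨k1, k2⟩, k3, k4⟩ := key
  obtain ⟨c1, c2⟩ := hA (i + g) (by omega)
  obtain ⟨c3, c4⟩ := hA i le_rfl
  have e : (P (i + g) + s * U (i + g) + th s * A (i + g)) - (P i + s * U i + th s * A i) - g * U i =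
      (P (i + g) - P i - g * U i) + s * (U (i + g) - U i) + th s * A (i + g) - th s * A i := by ring
  rw [e]
  have m1 : 0 ≤ s * (U (i + g) - U i) := mul_nonneg h0 k1
  have m2 : s * (U (i + g) - U i) ≤ g * D := (mul_le_of_le_one_left k1 h1).trans k2
  have m3 : 0 ≤ th s * A (i + g) := mul_nonneg a2 c1
  have m4 : th s * A (i + g) ≤ D := (mul_le_of_le_one_left c1 a1).trans c2
  have m5 : 0 ≤ th s * A i := mul_nonneg a2 c3
  have m6 : th s * A i ≤ D := (mul_le_of_le_one_left c3 a1).trans c4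
  have h5 : 0 ≤ (g : ℝ) * D := by positivity
  have h6 : 0 ≤ (g : ℝ) * (g + 1) * D := by positivity
  rw [abs_le]
  constructor <;> nlinarith

theorem Ql_pos (l : ℕ) : 0 < Ql l := by unfold Ql; positivity

theorem sep2 (hf : S_FN) (hV : S_VBD) (hW : S_UU) {c0 c2 : ℝ} (hc0 : 0 < c0) (hc01 : c0 ≤ 1 / 16) (hc2 : c2 = c0 / 8)
    {n : ℕ} (P U A : ℕ → E (n + 2)) (d : ℕ → ℝ) (hd : ∀ j, d j = rad c0 c2 (Nat.log 2 j) (VV c0 c2 j))
    (hU : ∀ j, U (j + 1) = U j + A j) (hP : ∀ j, P (j + 1) = P j + U j + kap • A j)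
    (hU0 : ∀ j, U j 0 = VV c0 c2 j) (hU1 : ∀ j, U j 1 = uu c0 j) {p : ℝ} (hP1 : P 0 1 = p)
    {l0 : ℕ} (hl0 : 4 ≤ l0) (hQ : ∀ l, l0 ≤ l → Ql l + 3 ≤ 2 ^ l) {i j : ℕ} (hi : 2 ^ l0 ≤ i) (hij : i < j) :
    Disjoint (Sj P U A d i) (Sj P U A d j) := by
  obtain ⟨hVb, hrad⟩ := hV c0 c2 hc0 (by linarith) hc2
  obtain ⟨hu1, hu2, hu3, -, hu5, -⟩ := hW c0 hc0 (by linarith)
  rw [Set.disjoint_left]
  intro q h1 h2
  have hi0 : 1 ≤ i := le_trans Nat.one_le_two_pow hi
  set l := Nat.log 2 i with hl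
  have hl1 : 2 ^ l ≤ i := Nat.pow_log_le_self 2 (by omega)
  have hl2 : i < 2 ^ (l + 1) := Nat.lt_pow_succ_log_self (by norm_num) i
  have hll : l0 ≤ l := (Nat.le_log_iff_pow_le (by norm_num) (by omega)).2 hi
  have hl4 : 4 ≤ l := hl0.trans hll
  have hD0 : 0 < Dl c2 l := by unfold Dl; rw [hc2]; positivity
  have hDanti : ∀ l', l ≤ l' → Dl c2 l' ≤ Dl c2 l := by
    intro l' h
    unfold Dl
    have : (2 : ℝ) ^ l ≤ 2 ^ l' := pow_le_pow_right₀ (by norm_num) h
    have hc : 0 ≤ c2 := by rw [hc2]; positivity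
    gcongr
  have hri0 : ∀ j, 0 ≤ d j := fun j => by
    rw [hd]
    refine le_trans ?_ (hrad _ _).1
    unfold Wl ww; positivity
  have hri : d i ≤ Dl c2 l := by rw [hd, ← hl]; exact (hrad _ _).2
  have hrj : d j ≤ Dl c2 l := by
    rw [hd]
    exact ((hrad _ _).2).trans (hDanti _ (Nat.log_mono_right hij.le))
  have hF0 : 0 ≤ Int.fract q.2 := Int.fract_nonneg _
  have hF1 : Int.fract q.2 ≤ 1 := (Int.fract_lt_one _).le
  set σ := Int.fract q.2 with hσ
  have key : ∀ m, |Real.sin (Real.pi * (pos (P j) (U j) (A j) σ m - pos (P i) (U i) (A i) σ m))| ≤ d i + d j := by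
    intro m
    have k1 := abs_sin_le (hri0 i) h1 m
    have k2 := abs_sin_le (hri0 j) h2 m
    have e : Real.pi * (pos (P j) (U j) (A j) σ m - pos (P i) (U i) (A i) σ m) =
        Real.pi * (q.1 m - pos (P i) (U i) (A i) σ m) - Real.pi * (q.1 m - pos (P j) (U j) (A j) σ m) := by ring
    rw [e]
    exact (abs_sin_sub_le _ _).trans (by linarith)
  -- componentwise recursions
  have U1 : ∀ m j, U (j + 1) m = U j m + A j m := fun m j => by rw [hU]; rfl
  have P1 : ∀ m j, P (j + 1) m = P j m + U j m + kap * A j m := fun m j => by rw [hP]; rfl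
  have A1 : ∀ j, A j 1 ≤ 0 := fun j => by
    have := U1 1 j
    rw [hU1, hU1] at this
    linarith [hu1 j]
  have A0 : ∀ j, A j 0 = acc c0 c2 (Nat.log 2 j) (VV c0 c2 j) := fun j => by
    have := U1 0 j
    rw [hU0, hU0] at this
    simp only [VV] at this
    linarith
  have A0b : ∀ j, i ≤ j → 0 ≤ A j 0 ∧ A j 0 ≤ Dl c2 l := fun j hj => by
    rw [A0]
    unfold acc
    have r1 := hrad (Nat.log 2 j) (VV c0 c2 j)
    have r0 : 0 ≤ rad c0 c2 (Nat.log 2 j) (VV c0 c2 j) := by rw [← hd]; exact hri0 j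
    have hv := (hVb j).1
    constructor
    · positivity
    · refine (div_le_self r0 ?_).trans (r1.2.trans (hDanti _ (Nat.log_mono_right hj)))
      have e1 : (1 : ℝ) ≤ (Nat.log 2 j : ℝ) + 1 := by
        have : (0 : ℝ) ≤ (Nat.log 2 j : ℝ) := by positivity
        linarith
      have e2 : (1 : ℝ) ≤ (VV c0 c2 j + 2) ^ 2 := by nlinarith
      nlinarith
  obtain ⟨g, rfl⟩ : ∃ g, j = i + g := ⟨j - i, by omega⟩
  have hg0 : 1 ≤ g := by omega
  -- the slow coordinate
  have slow : ∀ g : ℕ, (g : ℝ) * uu c0 (i + g + 1) ≤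
      pos (P (i + g)) (U (i + g)) (A (i + g)) σ 1 - pos (P i) (U i) (A i) σ 1 := by
    intro g
    have := slow_sep hf (P := fun j => P j 1) (U := fun j => U j 1) (A := fun j => A j 1) (U1 1) (P1 1) A1
      hF0 hF1 i g
    simp only [hU1 (i + g + 1)] at this
    exact this
  have slowP : ∀ j, p ≤ P j 1 ∧ P j 1 ≤ p + ∑ i ∈ Finset.range j, uu c0 i := by
    have hk : 0 ≤ kap ∧ kap ≤ 1 := by
      obtain ⟨-, -, -, -, -, -, -, -, -, h, -⟩ := hf
      exact h
    intro j
    induction j with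
    | zero => simp [hP1]
    | succ j ih =>
      rw [P1, Finset.sum_range_succ, hU1]
      have a1 := A1 j
      have a2 : 0 ≤ uu c0 j + A j 1 := by
        have := U1 1 j
        rw [hU1, hU1] at this
        linarith [(hu2 (j + 1)).1]
      have a3 : kap * A j 1 ≤ 0 := mul_nonpos_of_nonneg_of_nonpos hk.1 a1
      have a4 : A j 1 ≤ kap * A j 1 := by nlinarith
      constructor <;> linarith [ih.1, ih.2]
  have slow_le : ∀ j, pos (P j) (U j) (A j) σ 1 - pos (P i) (U i) (A i) σ 1 ≤ 1 / 2 := by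
    intro j
    have hs : ∀ j, 0 ≤ U j 1 ∧ A j 1 ≤ 0 := fun j => ⟨by rw [hU1]; exact (hu2 j).1.le, A1 j⟩
    have b1 := pos_between hf P U A 1 j hU hP hs hF0 hF1
    have b2 := pos_between hf P U A 1 i hU hP hs hF0 hF1
    have b3 := (slowP (j + 1)).2
    have b4 := (slowP i).1
    have b5 := hu5 (j + 1)
    linarith [b1.2, b2.1]
  have slow_sin : ∀ z, 0 ≤ z → z ≤ pos (P (i + g)) (U (i + g)) (A (i + g)) σ 1 - pos (P i) (U i) (A i) σ 1 →
      2 * z ≤ d i + d (i + g) := by
    intro z hz0 hz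
    refine le_trans ?_ (key 1)
    set Δ := pos (P (i + g)) (U (i + g)) (A (i + g)) σ 1 - pos (P i) (U i) (A i) σ 1 with hΔ
    have h4 : Δ ≤ 1 / 2 := slow_le _
    have h5 : 0 ≤ Δ := hz0.trans hz
    have h6 : 2 * Δ ≤ Real.sin (Real.pi * Δ) := by
      have := Real.mul_le_sin (x := Real.pi * Δ) (by positivity) (by nlinarith [Real.pi_pos])
      have e : 2 / Real.pi * (Real.pi * Δ) = 2 * Δ := by
        have := Real.pi_ne_zero
        field_simp
      rwa [e] at this
    exact le_trans (by linarith) (h6.trans (le_abs_self _))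
  have hQl := hQ l hll
  by_cases hgQ : Ql l < g
  · -- many steps: the slow coordinate
    have s1 := slow (Ql l)
    have s2 : uu c0 (i + Ql l + 1) ≥ ww c0 (l + 2) := by
      refine hu3 (l + 1) _ ?_
      have : 2 ^ (l + 1 + 1) = 2 ^ (l + 1) + 2 ^ l + 2 ^ l := by ring
      omega
    have s3 : pos (P (i + Ql l)) (U (i + Ql l)) (A (i + Ql l)) σ 1 ≤
        pos (P (i + g)) (U (i + g)) (A (i + g)) σ 1 := by
      have hmono : Monotone (fun j => pos (P j) (U j) (A j) σ 1) := by
        refine monotone_nat_of_le_succ fun j => ?_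
        have := slow_step hf (P := fun j => P j 1) (U := fun j => U j 1) (A := fun j => A j 1) (U1 1) (P1 1) A1
          hF0 hF1 j
        have h0 : 0 ≤ U (j + 2) 1 := by rw [hU1]; exact (hu2 _).1.le
        simp only [pos]
        linarith
      exact hmono (by omega)
    have s4 : (Ql l : ℝ) * ww c0 (l + 2) ≤ (Ql l : ℝ) * uu c0 (i + Ql l + 1) :=
      mul_le_mul_of_nonneg_left s2 (by positivity)
    have s5 := slow_sin ((Ql l : ℝ) * ww c0 (l + 2)) (by unfold ww; positivity) (by linarith)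
    have s6 : Dl c2 l < (Ql l : ℝ) * ww c0 (l + 2) := by
      unfold Dl ww Ql
      rw [hc2]
      push_cast
      rw [div_div, pow_add, ← mul_div_assoc, div_lt_div_iff₀ (by positivity) (by positivity)]
      have hl4' : (4 : ℝ) ≤ l := by exact_mod_cast hl4
      have : ((l : ℝ) + 2 + 1) ^ 2 < 2 * ((l : ℝ) + 2) ^ 2 := by nlinarith
      have h2 : (0 : ℝ) < 2 ^ l := by positivity
      nlinarith [mul_pos hc0 h2]
    linarith
  · push Not at hgQ
    -- few steps
    have f := fast_sep hf (P := fun j => P j 0) (U := fun j => U j 0) (A := fun j => A j 0) (U1 0) (P1 0)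
      A0b hF0 hF1 g
    simp only [hU0] at f
    obtain ⟨⟨f1, f2⟩, f3⟩ := f
    have hgQ' : (g : ℝ) ≤ Ql l := by exact_mod_cast hgQ
    have hg1 : (1 : ℝ) ≤ g := by exact_mod_cast hg0
    set D := Dl c2 l with hD
    set Q : ℝ := (Ql l : ℝ) with hQd
    have e0 : pos (P (i + g)) (U (i + g)) (A (i + g)) σ 0 - pos (P i) (U i) (A i) σ 0 =
        (P (i + g) 0 + σ * VV c0 c2 (i + g) + th σ * A (i + g) 0) - (P i 0 + σ * VV c0 c2 i + th σ * A i 0) := by
      simp only [pos, hU0]
    have f4 : ((g : ℝ) + 1) ^ 2 * D ≤ (Q + 1) ^ 2 * D := by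
      have : ((g : ℝ) + 1) ^ 2 ≤ (Q + 1) ^ 2 := by gcongr
      exact mul_le_mul_of_nonneg_right this hD0.le
    have f5 : |pos (P (i + g)) (U (i + g)) (A (i + g)) σ 0 - pos (P i) (U i) (A i) σ 0 - g * VV c0 c2 i| ≤
        (Q + 1) ^ 2 * D := by
      rw [e0]; exact f3.trans f4
    have hQ1 : 1 ≤ (Q + 1) ^ 2 := by nlinarith [show (0 : ℝ) ≤ Q by positivity]
    have hQD : 0 < (Q + 1) ^ 2 * D := by positivity
    by_cases hgi : Good c2 l (VV c0 c2 i)
    · have h8 := hgi g hg0 hgQ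
      have h9 : 2 * (7 * ((Q + 1) ^ 2 * D)) ≤
          |Real.sin (Real.pi * (pos (P (i + g)) (U (i + g)) (A (i + g)) σ 0 - pos (P i) (U i) (A i) σ 0))| := by
        refine abs_sin_ge _ _ fun m => ?_
        have h10 := round_le ((g : ℝ) * VV c0 c2 i) m
        unfold Kl at h8
        set y := pos (P (i + g)) (U (i + g)) (A (i + g)) σ 0 - pos (P i) (U i) (A i) σ 0 with hy
        have h11 : |(g : ℝ) * VV c0 c2 i - m| ≤ |y - m| + |y - g * VV c0 c2 i| := by
          have : (g : ℝ) * VV c0 c2 i - m = (y - m) - (y - g * VV c0 c2 i) := by ring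
          rw [this]; exact abs_sub _ _
        have h12 : 8 * (Q + 1) ^ 2 * D ≤ |(g : ℝ) * VV c0 c2 i - round ((g : ℝ) * VV c0 c2 i)| := h8
        nlinarith
      have h13 := key 0
      nlinarith
    · by_cases hgj : Good c2 (Nat.log 2 (i + g)) (VV c0 c2 (i + g))
      · have hlj1 : l ≤ Nat.log 2 (i + g) := Nat.log_mono_right (by omega)
        have hlj2 : Nat.log 2 (i + g) ≤ l + 1 := by
          have : i + g < 2 ^ (l + 2) := by
            have : 2 ^ (l + 2) = 2 ^ (l + 1) + 2 ^ l + 2 ^ l := by ring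
            omega
          have := Nat.log_lt_of_lt_pow (by omega) this
          omega
        set l' := Nat.log 2 (i + g) with hl'
        have hQQ : Ql l ≤ Ql l' := by unfold Ql; gcongr
        have h8 := hgj g hg0 (hgQ.trans hQQ)
        have hDD : D ≤ 2 * Dl c2 l' := by
          rw [hD]
          unfold Dl
          have h2 : (2 : ℝ) ^ l' ≤ 2 * 2 ^ l := by
            calc (2 : ℝ) ^ l' ≤ 2 ^ (l + 1) := pow_le_pow_right₀ (by norm_num) hlj2
              _ = 2 * 2 ^ l := by ring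
          have hc : 0 ≤ c2 := by rw [hc2]; positivity
          rw [← mul_div_assoc, div_le_div_iff₀ (by positivity) (by positivity)]
          nlinarith
        have hKK : 4 * ((Q + 1) ^ 2 * D) ≤ Kl l' * Dl c2 l' := by
          unfold Kl
          have h3 : (Q + 1) ^ 2 ≤ ((Ql l' : ℝ) + 1) ^ 2 := by
            have : Q ≤ (Ql l' : ℝ) := by rw [hQd]; exact_mod_cast hQQ
            have hQ0 : 0 ≤ Q := by positivity
            gcongr
          have hD'0 : 0 ≤ Dl c2 l' := by unfold Dl; rw [hc2]; positivity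
          nlinarith [mul_le_mul_of_nonneg_right h3 hD'0]
        have h9 : 2 * (2 * ((Q + 1) ^ 2 * D)) ≤
            |Real.sin (Real.pi * (pos (P (i + g)) (U (i + g)) (A (i + g)) σ 0 - pos (P i) (U i) (A i) σ 0))| := by
          refine abs_sin_ge _ _ fun m => ?_
          have h10 := round_le ((g : ℝ) * VV c0 c2 (i + g)) m
          set y := pos (P (i + g)) (U (i + g)) (A (i + g)) σ 0 - pos (P i) (U i) (A i) σ 0 with hy
          have h14 : |(g : ℝ) * VV c0 c2 (i + g) - g * VV c0 c2 i| ≤ (Q + 1) ^ 2 * D := by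
            rw [← mul_sub, abs_mul, abs_of_nonneg (by positivity : (0 : ℝ) ≤ g), abs_of_nonneg f1]
            have : (g : ℝ) * (VV c0 c2 (i + g) - VV c0 c2 i) ≤ g * (g * D) :=
              mul_le_mul_of_nonneg_left f2 (by positivity)
            have h15 : (g : ℝ) * g ≤ (Q + 1) ^ 2 := by nlinarith
            nlinarith [mul_le_mul_of_nonneg_right h15 hD0.le]
          have h11 : |(g : ℝ) * VV c0 c2 (i + g) - m| ≤ |y - m| + |y - g * VV c0 c2 i| +
              |(g : ℝ) * VV c0 c2 (i + g) - g * VV c0 c2 i| := by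
            have : (g : ℝ) * VV c0 c2 (i + g) - m = (y - m) - (y - g * VV c0 c2 i) +
              ((g : ℝ) * VV c0 c2 (i + g) - g * VV c0 c2 i) := by ring
            rw [this]
            exact (abs_add_le _ _).trans (add_le_add (abs_sub _ _) le_rfl)
          linarith
        have h13 := key 0
        nlinarith
      · -- both small radii
        have r1 : d i = Wl c0 l := by rw [hd, ← hl]; exact if_neg hgi
        have r2 : d (i + g) ≤ Wl c0 l := by
          rw [hd]
          have : rad c0 c2 (Nat.log 2 (i + g)) (VV c0 c2 (i + g)) = Wl c0 (Nat.log 2 (i + g)) := if_neg hgj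
          rw [this]
          unfold Wl ww
          have hlj1 : l ≤ Nat.log 2 (i + g) := Nat.log_mono_right (by omega)
          have h2 : (2 : ℝ) ^ (l + 2) ≤ 2 ^ (Nat.log 2 (i + g) + 2) := pow_le_pow_right₀ (by norm_num) (by omega)
          have h3 : (l : ℝ) ≤ (Nat.log 2 (i + g) : ℝ) := by exact_mod_cast hlj1
          push_cast
          gcongr
        have s1 := slow g
        have s2 : ww c0 (l + 2) ≤ uu c0 (i + g + 1) := by
          refine hu3 (l + 1) _ ?_
          have : 2 ^ (l + 1 + 1) = 2 ^ (l + 1) + 2 ^ l + 2 ^ l := by ring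
          omega
        have hw0 : 0 < ww c0 (l + 2) := by unfold ww; positivity
        have s3 : ww c0 (l + 2) ≤ (g : ℝ) * uu c0 (i + g + 1) := by nlinarith
        have s4 := slow_sin (ww c0 (l + 2)) hw0.le (by linarith)
        rw [r1] at s4
        unfold Wl at r2 s4
        linarith

end Pool.Agent.N980.TL
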