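import Mathlib

/-!
# TL: potentials of class `C^k` with orbits which tend to infinity (definitions and statements of the leaves)
-/

set_option autoImplicit false

open Set Filter Topology MeasureTheory
open scoped ContDiff

noncomputable section

namespace Pool.Agent.N980.TL

/-- the space of positions -/
abbrev E (n : ℕ) : Type := Fin n → ℝ

/-- positions and time -/
abbrev Z (n : ℕ) : Type := (Fin n → ℝ) × ℝ

/-- a smooth step from `0` (for `s ≤ 1/4`) to `1` (for `s ≥ 3/4`) -/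
def tp (s : ℝ) : ℝ := Real.smoothTransition (2 * s - 1 / 2)

/-- its primitive -/
def th (s : ℝ) : ℝ := ∫ u in (0 : ℝ)..s, tp u

/-- its derivative -/
def et (s : ℝ) : ℝ := deriv tp s

/-- `th 1` -/
def kap : ℝ := th 1

/-- a smooth cut-off: `1` for `u ≤ 1/4` and `0` for `u ≥ 1` -/
def ps (u : ℝ) : ℝ := Real.smoothTransition (4 / 3 * (1 - u))

/-- Leaf FN: the elementary functions -/
def S_FN : Prop :=
  ContDiff ℝ ∞ th ∧ ContDiff ℝ ∞ tp ∧ ContDiff ℝ ∞ et ∧ ContDiff ℝ ∞ ps ∧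
  (∀ s, HasDerivAt th (tp s) s) ∧ (∀ s, HasDerivAt tp (et s) s) ∧
  (∀ s, 0 ≤ tp s ∧ tp s ≤ 1) ∧
  (∀ s, s ≤ 1 / 4 → th s = 0 ∧ tp s = 0 ∧ et s = 0) ∧
  (∀ s, 3 / 4 ≤ s → th s = s - 1 + kap ∧ tp s = 1 ∧ et s = 0) ∧
  (0 ≤ kap ∧ kap ≤ 1) ∧
  (∀ u, u ≤ 1 / 4 → ps u = 1) ∧ (∀ u, 1 ≤ u → ps u = 0) ∧ (∀ u, u < 1 / 4 → HasDerivAt ps 0 u)

/-- the position at time `s` of the particle of one time step -/
def pos {n : ℕ} (P U A : E n) (s : ℝ) : E n := fun i => P i + s * U i + th s * A i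

/-- the quantity which measures the distance to the particle -/
def dst {n : ℕ} (P U A : E n) (q : Z n) : ℝ :=
  ∑ i, Real.sin (Real.pi * (q.1 i - pos P U A q.2 i)) ^ 2

/-- the potential of one time step -/
def Hf {n : ℕ} (P U A : E n) (d : ℝ) (q : Z n) : ℝ :=
  et q.2 * (∑ i, A i * (Real.sin (2 * Real.pi * (q.1 i - pos P U A q.2 i)) / (2 * Real.pi))) *
    ps (dst P U A q / d ^ 2)

/-- Leaf BND: the bound of the potential in `C^k` -/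
def S_BND : Prop :=
  ∀ k n : ℕ, ∃ C : ℝ, 1 ≤ C ∧ ∀ (P U A : E n) (d : ℝ), 0 < d → d ≤ 1 → ∀ (i : ℕ), i ≤ k → ∀ q : Z n,
    ‖iteratedFDeriv ℝ i (Hf P U A d) q‖ ≤ C * ‖A‖ * d * ((1 + ‖U‖ + ‖A‖) / d) ^ k

/-- the periodic continuation in time of a function which vanishes for `s ∉ (1/4, 3/4)` -/
def per {n : ℕ} (H : Z n → ℝ) (q : Z n) : ℝ := H (q.1, Int.fract q.2)

/-- Leaf PER: the periodic continuation in time -/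
def S_PER : Prop :=
  ∀ (n : ℕ) (H : Z n → ℝ), ContDiff ℝ ∞ H → (∀ q : Z n, (q.2 ≤ 1 / 4 ∨ 3 / 4 ≤ q.2) → H q = 0) →
    ContDiff ℝ ∞ (per H) ∧
      ∀ (i : ℕ) (q : Z n), iteratedFDeriv ℝ i (per H) q = iteratedFDeriv ℝ i H (q.1, Int.fract q.2)

/-- the sum of the functions `h j` over the dyadic blocks `l ≥ l0` -/
def blk {n : ℕ} (h : ℕ → Z n → ℝ) (l0 : ℕ) (q : Z n) : ℝ :=
  ∑' l : ℕ, ∑ j ∈ Finset.Ico (2 ^ (l + l0)) (2 ^ (l + l0 + 1)), h j q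

/-- Leaf SUM: sums of functions with disjoint supports -/
def S_SUM : Prop :=
  ∀ (n k : ℕ) (_ : 1 ≤ k) (h : ℕ → Z n → ℝ) (S : ℕ → Set (Z n)) (B : ℕ → ℝ) (l0 : ℕ),
    (∀ j, ContDiff ℝ ∞ (h j)) → (∀ j, ∀ q ∉ S j, ∀ i ≤ k, iteratedFDeriv ℝ i (h j) q = 0) →
    (∀ i j, 1 ≤ i → i < j → Disjoint (S i) (S j)) →
    (∀ l, ∀ j ∈ Finset.Ico (2 ^ l) (2 ^ (l + 1)), ∀ i ≤ k, ∀ q, ‖iteratedFDeriv ℝ i (h j) q‖ ≤ B l) →
    (∀ l, 0 ≤ B l) → Summable B →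
    ContDiff ℝ k (blk h l0) ∧
    (∀ i ≤ k, ∀ q, ‖iteratedFDeriv ℝ i (blk h l0) q‖ ≤ ∑' l, B (l + l0)) ∧
    (∀ q, (∀ j, 2 ^ l0 ≤ j → q ∉ S j) → blk h l0 q = 0) ∧
    (∀ j, 2 ^ l0 ≤ j → ∀ q ∈ S j, fderiv ℝ (blk h l0) q = fderiv ℝ (h j) q)

/-- Leaf DIO: vectors which are nearly badly approximable -/
def S_DIO : Prop :=
  ∀ (r : ℕ) (tau : ℝ), 1 < r * tau → ∃ (w : Fin r → ℝ) (c : ℝ), 0 < c ∧
    ∀ l : ℕ, 1 ≤ l → ∃ i, c * (l : ℝ) ^ (-tau) ≤ |Real.sin (Real.pi * (l * w i))|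

/-- Leaf SEQ: the velocities and positions in the fast direction (index 0), the slow direction (index 1) and
the directions with constant velocity (the other indices) -/
def S_SEQ : Prop :=
  ∀ (r : ℕ) (w : Fin r → ℝ) (a s c0 p kp : ℝ), 1 / 2 < a → a < 1 → 0 < s → s < 1 → 0 < c0 → c0 ≤ 1 →
    0 ≤ kp → kp ≤ 1 →
    ∃ (P U A : ℕ → E (r + 2)) (C : ℝ), 0 < C ∧
      (∀ j, U (j + 1) = U j + A j) ∧ (∀ j, P (j + 1) = P j + U j + kp • A j) ∧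
      (∀ (i : Fin r) (j : ℕ), P j i.succ.succ = j * w i ∧ U j i.succ.succ = w i ∧ A j i.succ.succ = 0) ∧
      (∀ l, ∀ j ∈ Finset.Ico (2 ^ l) (2 ^ (l + 1)),
        ‖A j‖ ≤ a ^ l ∧ 1 + ‖U j‖ + ‖A j‖ ≤ C * (2 * a) ^ l ∧ (2 * a) ^ l ≤ 4 * U j 0 ∧ 0 ≤ A j 0) ∧
      (∀ j, 0 ≤ U j 1 ∧ A j 1 ≤ 0) ∧ (∀ j, P j 1 ≤ P (j + 1) 1) ∧
      (∀ j, p ≤ P j 1 ∧ P j 1 ≤ p + 4 * c0 / (1 - s)) ∧
      (∀ l, 1 ≤ l → P (2 ^ l) 1 + c0 * s ^ l / 4 ≤ P (2 ^ (l + 1)) 1)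

end Pool.Agent.N980.TL
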