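import Pool.Agent.N980.TL.Stm2

/-!
# TL/UU (helper751): the slow velocity
-/

set_option autoImplicit false

open Set Filter Topology MeasureTheory
open scoped ContDiff

noncomputable section

namespace Pool.Agent.N980.TL

theorem uu_ww_pos {c0 : ℝ} (h0 : 0 < c0) (l : ℕ) : 0 < ww c0 l := by
  unfold ww; positivity

theorem uu_ww_anti {c0 : ℝ} (h0 : 0 < c0) (l : ℕ) : ww c0 (l + 1) ≤ ww c0 l := by
  unfold ww
  refine div_le_div_of_nonneg_left h0.le (by positivity) ?_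
  refine mul_le_mul (pow_le_pow_right₀ (by norm_num) (Nat.le_succ l)) ?_ (by positivity)
    (by positivity)
  push_cast
  have : (0 : ℝ) ≤ l := Nat.cast_nonneg l
  nlinarith

theorem uu_pow (c0 : ℝ) (l : ℕ) : uu c0 (2 ^ l) = ww c0 l := by
  unfold uu
  rw [Nat.log_pow (by norm_num)]
  push_cast
  ring

theorem uu_sub (c0 : ℝ) (j : ℕ) : uu c0 j - uu c0 (j + 1) =
    (ww c0 (Nat.log 2 j) - ww c0 (Nat.log 2 j + 1)) / 2 ^ (Nat.log 2 j) := by
  rcases Nat.eq_zero_or_pos j with h | h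
  · subst h
    have e1 : uu c0 (0 + 1) = ww c0 0 := uu_pow c0 0
    rw [e1]
    unfold uu
    simp
  · obtain ⟨l, hl⟩ : ∃ l, l = Nat.log 2 j := ⟨_, rfl⟩
    have h1 : 2 ^ l ≤ j := by rw [hl]; exact Nat.pow_log_le_self 2 h.ne'
    have h2 : j < 2 ^ (l + 1) := by rw [hl]; exact Nat.lt_pow_succ_log_self (by norm_num) j
    have hp : (2 : ℝ) ^ l ≠ 0 := by positivity
    rw [← hl]
    rcases Nat.lt_or_ge (j + 1) (2 ^ (l + 1)) with h3 | h3
    · have e : Nat.log 2 (j + 1) = l := Nat.log_eq_of_pow_le_of_lt_pow (by omega) h3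
      unfold uu
      rw [e, ← hl]
      push_cast
      field_simp
      ring
    · have h4 : j + 1 = 2 ^ (l + 1) := by omega
      have h5 : (j : ℝ) = 2 ^ (l + 1) - 1 := by
        have : ((j + 1 : ℕ) : ℝ) = ((2 ^ (l + 1) : ℕ) : ℝ) := by rw [h4]
        push_cast at this
        linarith
      rw [h4, uu_pow]
      unfold uu
      rw [← hl, h5, pow_succ]
      field_simp
      ring

theorem uu_step_nonneg {c0 : ℝ} (h0 : 0 < c0) (j : ℕ) : uu c0 (j + 1) ≤ uu c0 j := by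
  have h1 := uu_sub c0 j
  have h2 : 0 ≤ (ww c0 (Nat.log 2 j) - ww c0 (Nat.log 2 j + 1)) / 2 ^ (Nat.log 2 j) :=
    div_nonneg (sub_nonneg.2 (uu_ww_anti h0 _)) (by positivity)
  linarith

theorem uu_anti {c0 : ℝ} (h0 : 0 < c0) : Antitone (uu c0) :=
  antitone_nat_of_succ_le (uu_step_nonneg h0)

theorem uu_zero_le {c0 : ℝ} (h0 : 0 < c0) : uu c0 0 ≤ 2 * c0 := by
  have h1 := uu_sub c0 0
  have e1 : uu c0 (0 + 1) = ww c0 0 := uu_pow c0 0
  have e2 : ww c0 0 = c0 := by unfold ww; simp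
  have h2 := uu_ww_pos h0 (0 + 1)
  rw [e1] at h1
  simp only [Nat.log_zero_right, pow_zero, div_one] at h1
  rw [e2] at h1
  linarith

theorem uu_ge {c0 : ℝ} (h0 : 0 < c0) (l j : ℕ) (h : j < 2 ^ (l + 1)) :
    ww c0 (l + 1) ≤ uu c0 j := by
  rw [← uu_pow]
  exact uu_anti h0 h.le

theorem uu_pos {c0 : ℝ} (h0 : 0 < c0) (j : ℕ) : 0 < uu c0 j :=
  (uu_ww_pos h0 _).trans_le (uu_ge h0 (Nat.log 2 j) j (Nat.lt_pow_succ_log_self (by norm_num) j))

theorem uu_sum_pow {c0 : ℝ} (h0 : 0 < c0) (l : ℕ) :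
    ∑ i ∈ Finset.range (2 ^ l), uu c0 i ≤ 2 * c0 + c0 * (3 - 2 / (l + 1)) := by
  induction l with
  | zero =>
    have := uu_zero_le h0
    simp only [pow_zero, Finset.range_one, Finset.sum_singleton, Nat.cast_zero, zero_add, div_one]
    linarith
  | succ l ih =>
    have h1 : (2 : ℕ) ^ l ≤ 2 ^ (l + 1) := Nat.pow_le_pow_right (by norm_num) (Nat.le_succ l)
    rw [← Finset.sum_range_add_sum_Ico _ h1]
    have h2 : ∑ i ∈ Finset.Ico (2 ^ l) (2 ^ (l + 1)), uu c0 i ≤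
        ∑ i ∈ Finset.Ico (2 ^ l) (2 ^ (l + 1)), ww c0 l := by
      refine Finset.sum_le_sum fun i hi => ?_
      rw [← uu_pow]
      exact uu_anti h0 (Finset.mem_Ico.1 hi).1
    have h3 : ∑ i ∈ Finset.Ico (2 ^ l) (2 ^ (l + 1)), ww c0 l = c0 / (l + 1) ^ 2 := by
      rw [Finset.sum_const, Nat.card_Ico, nsmul_eq_mul]
      have e : 2 ^ (l + 1) - 2 ^ l = 2 ^ l := by rw [pow_succ]; omega
      rw [e]
      unfold ww
      push_cast
      field_simp
    have h4 : c0 / ((l : ℝ) + 1) ^ 2 ≤ c0 * (2 / (l + 1) - 2 / (l + 2)) := by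
      have hl : (0 : ℝ) ≤ l := Nat.cast_nonneg l
      have e : 2 / ((l : ℝ) + 1) - 2 / (l + 2) = 2 / ((l + 1) * (l + 2)) := by
        field_simp
        ring
      rw [e, div_eq_mul_one_div]
      refine mul_le_mul_of_nonneg_left ?_ h0.le
      rw [div_le_div_iff₀ (by positivity) (by positivity)]
      nlinarith
    push_cast
    rw [h3] at h2
    have e2 : (l : ℝ) + 1 + 1 = l + 2 := by ring
    rw [e2]
    have e3 : 2 * c0 + c0 * (3 - 2 / ((l : ℝ) + 2)) =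
        2 * c0 + c0 * (3 - 2 / (l + 1)) + c0 * (2 / (l + 1) - 2 / (l + 2)) := by ring
    rw [e3]
    linarith

theorem uu_num (l : ℕ) (hl : 20 ≤ l) :
    16 * ((l + 3) ^ 2 * (l + 5) ^ 2) ≤ 2 ^ l * (l + 1) ∧ (l + 2) ^ 2 + 3 ≤ 2 ^ l := by
  induction l, hl using Nat.le_induction with
  | base => norm_num
  | succ l hl ih =>
    obtain ⟨h1, h2⟩ := ih
    constructor
    · have h3 : (l + 1 + 3) ^ 2 * (l + 1 + 5) ^ 2 ≤ 2 * ((l + 3) ^ 2 * (l + 5) ^ 2) := by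
        have h4 : 5 * (2 * l + 9) ≤ (l + 3) * (l + 5) := by nlinarith
        have e1 : (l + 1 + 3) ^ 2 * (l + 1 + 5) ^ 2 = ((l + 3) * (l + 5) + (2 * l + 9)) ^ 2 := by
          ring
        have e2 : (l + 3) ^ 2 * (l + 5) ^ 2 = ((l + 3) * (l + 5)) ^ 2 := by ring
        rw [e1, e2]
        generalize (l + 3) * (l + 5) = a at h4
        generalize 2 * l + 9 = b at h4
        nlinarith
      calc 16 * ((l + 1 + 3) ^ 2 * (l + 1 + 5) ^ 2)
          ≤ 16 * (2 * ((l + 3) ^ 2 * (l + 5) ^ 2)) := Nat.mul_le_mul_left _ h3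
        _ = 2 * (16 * ((l + 3) ^ 2 * (l + 5) ^ 2)) := by ring
        _ ≤ 2 * (2 ^ l * (l + 1)) := Nat.mul_le_mul_left _ h1
        _ = 2 ^ (l + 1) * (l + 1) := by ring
        _ ≤ 2 ^ (l + 1) * (l + 1 + 1) := Nat.mul_le_mul_left _ (Nat.le_succ _)
    · rw [pow_succ 2 l]
      nlinarith

theorem uu_all : S_UU := by
  intro c0 h0 h1
  refine ⟨uu_step_nonneg h0, fun j => ⟨uu_pos h0 j, ?_⟩, uu_ge h0, ?_, ?_, 20, by norm_num, ?_⟩
  · have h2 := uu_anti h0 (Nat.zero_le j)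
    have h3 := uu_zero_le h0
    linarith
  · intro j _
    rw [uu_sub]
    refine div_le_div_of_nonneg_right ?_ (by positivity)
    have := uu_ww_pos h0 (Nat.log 2 j + 1)
    linarith
  · intro j
    have h2 : ∑ i ∈ Finset.range j, uu c0 i ≤ ∑ i ∈ Finset.range (2 ^ j), uu c0 i :=
      Finset.sum_le_sum_of_subset_of_nonneg
        (Finset.range_subset_range.2 (Nat.lt_two_pow_self).le) fun i _ _ => (uu_pos h0 i).le
    have h3 := uu_sum_pow h0 j
    have h4 : 0 ≤ c0 * (2 / ((j : ℝ) + 1)) := by positivity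
    have h5 : c0 * (3 - 2 / ((j : ℝ) + 1)) = 3 * c0 - c0 * (2 / ((j : ℝ) + 1)) := by ring
    linarith
  · intro l hl
    obtain ⟨h2, h3⟩ := uu_num l hl
    refine ⟨?_, h3⟩
    unfold Wl ww
    have h4 : 16 * (((l : ℝ) + 3) ^ 2 * (l + 5) ^ 2) ≤ 2 ^ l * (l + 1) := by exact_mod_cast h2
    rw [div_div, div_div, div_div]
    refine div_le_div_of_nonneg_left h0.le (by positivity) ?_
    push_cast
    have e1 : (2 : ℝ) ^ (l + 2) * ((l : ℝ) + 2 + 1) ^ 2 * (4 * (((l : ℝ) + 1) * (l + 5) ^ 2)) =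
        (2 ^ l * (l + 1)) * (16 * (((l : ℝ) + 3) ^ 2 * (l + 5) ^ 2)) := by
      rw [pow_add]; ring
    have e2 : (2 : ℝ) ^ l * ((l : ℝ) + 1) ^ 2 * 2 ^ l = (2 ^ l * (l + 1)) * (2 ^ l * (l + 1)) := by
      ring
    rw [e1, e2]
    exact mul_le_mul_of_nonneg_left h4 (by positivity)

end Pool.Agent.N980.TL
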