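import Pool.Agent.N980.TL.Stm2

/-!
# TL2, leaf VBD (helper507): bounds of the fast velocity
-/

set_option autoImplicit false

open Set Filter Topology MeasureTheory
open scoped ContDiff

namespace Pool.Agent.N980.TL

namespace VBDaux

lemma rad_bd {c0 c2 : ℝ} (h0 : 0 < c0) (hc : c2 = c0 / 8) (l : ℕ) (V : ℝ) :
    Wl c0 l ≤ rad c0 c2 l V ∧ rad c0 c2 l V ≤ Dl c2 l := by
  have hle : Wl c0 l ≤ Dl c2 l := by
    unfold Wl Dl ww
    rw [hc]
    have h1 : (0 : ℝ) < 2 ^ l := by positivity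
    rw [div_div, div_div, div_le_div_iff_of_pos_left h0 (by positivity) (by positivity)]
    have h2 : (1 : ℝ) ≤ ((((l + 2 : ℕ) : ℝ)) + 1) ^ 2 := by
      have : (0 : ℝ) ≤ ((l + 2 : ℕ) : ℝ) := Nat.cast_nonneg _
      nlinarith
    have h3 : (2 : ℝ) ^ (l + 2) = 4 * 2 ^ l := by ring
    rw [h3]
    nlinarith
  unfold rad
  split_ifs with h
  · exact ⟨hle, le_rfl⟩
  · exact ⟨le_rfl, hle⟩

lemma Wl_pos {c0 : ℝ} (h0 : 0 < c0) (l : ℕ) : 0 < Wl c0 l := by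
  unfold Wl ww
  positivity

lemma acc_bd {c0 c2 : ℝ} (h0 : 0 < c0) (h1 : c0 ≤ 1) (hc : c2 = c0 / 8) (l : ℕ) {V : ℝ} (hV : 1 ≤ V) :
    0 ≤ acc c0 c2 l V ∧ acc c0 c2 l V ≤ 1 / 2 ^ l := by
  obtain ⟨h2, h3⟩ := rad_bd h0 hc l V
  have h4 : 0 ≤ rad c0 c2 l V := (Wl_pos h0 l).le.trans h2
  have h5 : (1 : ℝ) ≤ ((l : ℝ) + 1) * (V + 2) ^ 2 := by
    have h6 : (0 : ℝ) ≤ l := Nat.cast_nonneg l
    have h7 : (1 : ℝ) ≤ (V + 2) ^ 2 := by nlinarith
    nlinarith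
  constructor
  · unfold acc
    positivity
  · have h8 : (0 : ℝ) < 2 ^ l := by positivity
    calc acc c0 c2 l V ≤ rad c0 c2 l V := by
          unfold acc
          exact div_le_self h4 h5
      _ ≤ Dl c2 l := h3
      _ ≤ 1 / 2 ^ l := by
          unfold Dl
          rw [hc]
          apply div_le_div_of_nonneg_right _ h8.le
          linarith

lemma log_step (j : ℕ) (hj : 1 ≤ j) : Nat.log 2 (j + 1) = Nat.log 2 j ∨
    (Nat.log 2 (j + 1) = Nat.log 2 j + 1 ∧ j + 1 = 2 ^ (Nat.log 2 j + 1)) := by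
  have h1 : 2 ^ Nat.log 2 j ≤ j := Nat.pow_log_le_self 2 (by omega)
  have h2 : j < 2 ^ (Nat.log 2 j + 1) := Nat.lt_pow_succ_log_self (by norm_num) j
  obtain ⟨l, hl⟩ : ∃ l, l = Nat.log 2 j := ⟨_, rfl⟩
  rw [← hl] at h1 h2 ⊢
  rcases Nat.lt_or_ge (j + 1) (2 ^ (l + 1)) with h | h
  · left
    exact Nat.log_eq_of_pow_le_of_lt_pow (by omega) h
  · right
    have h3 : j + 1 = 2 ^ (l + 1) := by omega
    refine ⟨?_, h3⟩
    rw [h3]
    exact Nat.log_pow (by norm_num) _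

lemma VV_ge {c0 c2 : ℝ} (h0 : 0 < c0) (h1 : c0 ≤ 1) (hc : c2 = c0 / 8) (j : ℕ) : 1 ≤ VV c0 c2 j := by
  induction j with
  | zero => exact le_rfl
  | succ j ih =>
    show 1 ≤ VV c0 c2 j + acc c0 c2 (Nat.log 2 j) (VV c0 c2 j)
    have := (acc_bd h0 h1 hc (Nat.log 2 j) ih).1
    linarith

lemma VV_le {c0 c2 : ℝ} (h0 : 0 < c0) (h1 : c0 ≤ 1) (hc : c2 = c0 / 8) (j : ℕ) (hj : 1 ≤ j) :
    VV c0 c2 j ≤ 1 + (Nat.log 2 j : ℝ) + (j : ℝ) / 2 ^ (Nat.log 2 j) := by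
  induction j, hj using Nat.le_induction with
  | base =>
    have h2 := (acc_bd h0 h1 hc (Nat.log 2 0) (V := 1) le_rfl).2
    show (1 : ℝ) + acc c0 c2 (Nat.log 2 0) 1 ≤ _
    have h3 : Nat.log 2 1 = 0 := by norm_num
    have h4 : Nat.log 2 0 = 0 := by norm_num
    rw [h4] at h2
    rw [h3, h4]
    norm_num at h2 ⊢
    linarith
  | succ j hj ih =>
    have h2 := (acc_bd h0 h1 hc (Nat.log 2 j) (VV_ge h0 h1 hc j)).2
    show VV c0 c2 j + acc c0 c2 (Nat.log 2 j) (VV c0 c2 j) ≤ _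
    have h8 : (0 : ℝ) < 2 ^ (Nat.log 2 j) := by positivity
    have h9 : VV c0 c2 j + acc c0 c2 (Nat.log 2 j) (VV c0 c2 j) ≤
        1 + (Nat.log 2 j : ℝ) + ((j : ℝ) + 1) / 2 ^ (Nat.log 2 j) := by
      rw [add_div]
      linarith
    refine h9.trans ?_
    rcases log_step j hj with h | ⟨h, h'⟩
    · rw [h]
      push_cast
      exact le_rfl
    · rw [h]
      have h5 : ((j : ℝ) + 1) = 2 ^ (Nat.log 2 j + 1) := by exact_mod_cast h'
      push_cast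
      rw [h5, div_self (by positivity), pow_succ, mul_comm, mul_div_assoc, div_self h8.ne']
      linarith

end VBDaux

open VBDaux in
theorem vbd_all : S_VBD := by
  intro c0 c2 h0 h1 hc
  refine ⟨fun j => ⟨VV_ge h0 h1 hc j, ?_⟩, fun l V => rad_bd h0 hc l V⟩
  rcases Nat.eq_zero_or_pos j with hj | hj
  · subst hj
    show (1 : ℝ) ≤ _
    have : (0 : ℝ) ≤ (Nat.log 2 0 : ℝ) := Nat.cast_nonneg _
    linarith
  · refine (VV_le h0 h1 hc j hj).trans ?_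
    have h2 : j < 2 ^ (Nat.log 2 j + 1) := Nat.lt_pow_succ_log_self (by norm_num) j
    have h3 : (j : ℝ) ≤ 2 * 2 ^ (Nat.log 2 j) := by
      have : (j : ℝ) < 2 ^ (Nat.log 2 j + 1) := by exact_mod_cast h2
      rw [pow_succ] at this
      linarith
    have h4 : (j : ℝ) / 2 ^ (Nat.log 2 j) ≤ 2 := by
      rw [div_le_iff₀ (by positivity)]
      exact h3
    linarith

end Pool.Agent.N980.TL
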