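import Pool.Agent.N980.TL.Stm2

/-!
# Leaf VINF: the fast velocity tends to infinity
-/

set_option autoImplicit false

open Set Filter Topology

namespace Pool.Agent.N980.TL

section VINF

variable {c0 c2 : ℝ}

lemma vinf_rad_pos (h0 : 0 < c0) (h2 : 0 < c2) (l : ℕ) (V : ℝ) : 0 < rad c0 c2 l V := by
  unfold rad
  split_ifs
  · unfold Dl; positivity
  · unfold Wl ww; positivity

lemma vinf_acc_pos (h0 : 0 < c0) (h2 : 0 < c2) (l : ℕ) {V : ℝ} (hV : 1 ≤ V) :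
    0 < acc c0 c2 l V := by
  unfold acc
  have h1 := vinf_rad_pos h0 h2 l V
  have h3 : 0 < V + 2 := by linarith
  positivity

lemma vinf_one_le (h0 : 0 < c0) (h2 : 0 < c2) (j : ℕ) : 1 ≤ VV c0 c2 j := by
  induction j with
  | zero => simp [VV]
  | succ j ih =>
    have h1 := vinf_acc_pos h0 h2 (Nat.log 2 j) ih
    simp only [VV]; linarith

lemma vinf_mono (h0 : 0 < c0) (h2 : 0 < c2) : Monotone (VV c0 c2) :=
  monotone_nat_of_le_succ (fun j => by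
    have h1 := vinf_acc_pos h0 h2 (Nat.log 2 j) (vinf_one_le h0 h2 j)
    simp only [VV]; linarith)

lemma vinf_DW (c0 : ℝ) (l : ℕ) : Dl (c0 / 8) l = 2 * ((l : ℝ) + 3) ^ 2 * Wl c0 l := by
  unfold Dl Wl ww
  have h1 : ((l : ℝ) + 3) ≠ 0 := by positivity
  have h2 : (((l + 2 : ℕ) : ℝ) + 1) = (l : ℝ) + 3 := by push_cast; ring
  rw [h2, pow_add]
  field_simp
  ring

lemma vinf_W_le (h0 : 0 < c0) (l : ℕ) : Wl c0 l ≤ Dl (c0 / 8) l := by
  rw [vinf_DW]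
  have hW : 0 < Wl c0 l := by unfold Wl ww; positivity
  have h1 : (0 : ℝ) ≤ l := Nat.cast_nonneg l
  have h2 : (1 : ℝ) ≤ 2 * ((l : ℝ) + 3) ^ 2 := by nlinarith
  exact le_mul_of_one_le_left hW.le h2

lemma vinf_W_le_rad (h0 : 0 < c0) (l : ℕ) (V : ℝ) : Wl c0 l ≤ rad c0 (c0 / 8) l V := by
  unfold rad
  split_ifs
  · exact vinf_W_le h0 l
  · exact le_rfl

lemma vinf_acc_ge (h0 : 0 < c0) (l : ℕ) {V M : ℝ} (hV : 1 ≤ V) (hM : V ≤ M) :
    Wl c0 l / ((l + 1) * (M + 2) ^ 2) ≤ acc c0 (c0 / 8) l V := by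
  unfold acc
  have hW : 0 < Wl c0 l := by unfold Wl ww; positivity
  have h3 : 0 < V + 2 := by linarith
  have h4 := vinf_W_le_rad h0 l V
  have h5 := vinf_rad_pos h0 (by positivity : 0 < c0 / 8) l V
  gcongr

lemma vinf_acc_good (h0 : 0 < c0) (l : ℕ) {V M : ℝ} (hV : 1 ≤ V) (hM : V ≤ M)
    (hg : Good (c0 / 8) l V) :
    Dl (c0 / 8) l / ((l + 1) * (M + 2) ^ 2) ≤ acc c0 (c0 / 8) l V := by
  unfold acc rad
  rw [if_pos hg]
  have hD : 0 < Dl (c0 / 8) l := by unfold Dl; positivity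
  have h3 : 0 < V + 2 := by linarith
  gcongr

lemma vinf_sum (c0 c2 : ℝ) {a b : ℕ} (hab : a ≤ b) :
    VV c0 c2 b - VV c0 c2 a = ∑ j ∈ Finset.Ico a b, acc c0 c2 (Nat.log 2 j) (VV c0 c2 j) := by
  induction b, hab using Nat.le_induction with
  | base => simp
  | succ b hb ih =>
    rw [Finset.sum_Ico_succ_top hb, ← ih]
    simp only [VV]; ring

lemma vinf_log {l j : ℕ} (h1 : 2 ^ l ≤ j) (h2 : j < 2 ^ (l + 1)) : Nat.log 2 j = l :=
  Nat.log_eq_of_pow_le_of_lt_pow h1 h2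

lemma vinf_growth (h0 : 0 < c0) {M : ℝ} (hM : ∀ j, VV c0 (c0 / 8) j ≤ M) {l a b : ℕ}
    (ha : 2 ^ l ≤ a) (hab : a ≤ b) (hb : b ≤ 2 ^ (l + 1)) :
    ((b : ℝ) - a) * (Wl c0 l / ((l + 1) * (M + 2) ^ 2)) ≤
      VV c0 (c0 / 8) b - VV c0 (c0 / 8) a := by
  rw [vinf_sum _ _ hab]
  have h1 : ∀ j ∈ Finset.Ico a b, Wl c0 l / ((l + 1) * (M + 2) ^ 2) ≤
      acc c0 (c0 / 8) (Nat.log 2 j) (VV c0 (c0 / 8) j) := by
    intro j hj
    rw [Finset.mem_Ico] at hj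
    rw [vinf_log (ha.trans hj.1) (hj.2.trans_le hb)]
    exact vinf_acc_ge h0 l (vinf_one_le h0 (by positivity) j) (hM j)
  have h2 := Finset.card_nsmul_le_sum _ _ _ h1
  rw [Nat.card_Ico, nsmul_eq_mul, Nat.cast_sub hab] at h2
  exact h2

lemma vinf_card (S : Finset ℕ) (R : ℕ) (h : ∀ i ∈ S, ∀ j ∈ S, i ≤ j → j ≤ i + R) :
    S.card ≤ R + 1 := by
  rcases S.eq_empty_or_nonempty with rfl | hne
  · simp
  · have hsub : S ⊆ Finset.Icc (S.min' hne) (S.min' hne + R) := by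
      intro j hj
      rw [Finset.mem_Icc]
      exact ⟨S.min'_le j hj, h _ (S.min'_mem hne) j hj (S.min'_le j hj)⟩
    refine (Finset.card_le_card hsub).trans ?_
    rw [Nat.card_Icc]
    omega

/-- the length of the clusters -/
def vinfR (M l : ℕ) : ℕ := 32 * ((l + 2) ^ 2 + 1) ^ 2 * (l + 3) ^ 2 * (l + 1) * (M + 2) ^ 2

lemma vinf_R_eq (c0 : ℝ) (M l : ℕ) :
    2 * (Kl l * Dl (c0 / 8) l) = vinfR M l * (Wl c0 l / (((l : ℝ) + 1) * ((M : ℝ) + 2) ^ 2)) := by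
  rw [vinf_DW]
  unfold Kl Ql vinfR
  push_cast
  have h1 : (l : ℝ) + 1 ≠ 0 := by positivity
  have h2 : (M : ℝ) + 2 ≠ 0 := by positivity
  field_simp
  ring

lemma vinf_bad (h0 : 0 < c0) (M : ℕ) (hM : ∀ j, VV c0 (c0 / 8) j ≤ M) (l : ℕ) :
    ∀ B : Finset ℕ, B ⊆ Finset.Ico (2 ^ l) (2 ^ (l + 1)) →
      (∀ j ∈ B, ¬ Good (c0 / 8) l (VV c0 (c0 / 8) j)) →
      B.card ≤ (Ql l * (Ql l * M + 1)) * (vinfR M l + 1) := by
  classical
  intro B hB hbad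
  set S : ℕ × ℕ → Finset ℕ := fun p => (Finset.Ico (2 ^ l) (2 ^ (l + 1))).filter
    (fun j => |(p.1 : ℝ) * VV c0 (c0 / 8) j - p.2| < Kl l * Dl (c0 / 8) l) with hS
  have hsub : B ⊆ (Finset.Icc 1 (Ql l) ×ˢ Finset.range (Ql l * M + 1)).biUnion S := by
    intro j hj
    have h1 := hbad j hj
    unfold Good at h1
    push Not at h1
    obtain ⟨g, hg1, hg2, hg3⟩ := h1
    have hV := vinf_one_le h0 (by positivity : 0 < c0 / 8) j
    have hgV : 0 ≤ (g : ℝ) * VV c0 (c0 / 8) j := by positivity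
    have habs := abs_le.1 (abs_sub_round ((g : ℝ) * VV c0 (c0 / 8) j))
    have hr0 : 0 ≤ round ((g : ℝ) * VV c0 (c0 / 8) j) := by
      have h5 : (((-1 : ℤ)) : ℝ) < ((round ((g : ℝ) * VV c0 (c0 / 8) j) : ℤ) : ℝ) := by
        push_cast; linarith [habs.2]
      have h6 : (-1 : ℤ) < round ((g : ℝ) * VV c0 (c0 / 8) j) := by exact_mod_cast h5
      omega
    have hgV2 : (g : ℝ) * VV c0 (c0 / 8) j ≤ ((Ql l * M : ℕ) : ℝ) := by
      push_cast
      have h7 : (g : ℝ) ≤ Ql l := by exact_mod_cast hg2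
      exact mul_le_mul h7 (hM j) (by linarith) (by positivity)
    have hr1 : round ((g : ℝ) * VV c0 (c0 / 8) j) ≤ ((Ql l * M : ℕ) : ℤ) := by
      have h5 : ((round ((g : ℝ) * VV c0 (c0 / 8) j) : ℤ) : ℝ) <
          ((((Ql l * M : ℕ) : ℤ) + 1 : ℤ) : ℝ) := by
        rw [Int.cast_add, Int.cast_natCast, Int.cast_one]
        linarith [habs.1]
      have h6 : round ((g : ℝ) * VV c0 (c0 / 8) j) < ((Ql l * M : ℕ) : ℤ) + 1 := by
        exact_mod_cast h5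
      omega
    rw [Finset.mem_biUnion]
    refine ⟨(g, (round ((g : ℝ) * VV c0 (c0 / 8) j)).toNat), ?_, ?_⟩
    · rw [Finset.mem_product, Finset.mem_Icc, Finset.mem_range]
      refine ⟨⟨hg1, hg2⟩, ?_⟩
      simp only
      omega
    · rw [hS]
      simp only [Finset.mem_filter]
      refine ⟨hB hj, ?_⟩
      have e : (((round ((g : ℝ) * VV c0 (c0 / 8) j)).toNat : ℕ) : ℝ) =
          ((round ((g : ℝ) * VV c0 (c0 / 8) j) : ℤ) : ℝ) := by
        have := Int.toNat_of_nonneg hr0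
        exact_mod_cast this
      rw [e]
      exact hg3
  refine (Finset.card_le_card hsub).trans ?_
  refine (Finset.card_biUnion_le_card_mul _ _ (vinfR M l + 1) ?_).trans ?_
  · intro p hp
    rw [Finset.mem_product, Finset.mem_Icc] at hp
    apply vinf_card
    intro i hi j hj hij
    rw [hS] at hi hj
    simp only [Finset.mem_filter, Finset.mem_Ico] at hi hj
    have hp1 : (1 : ℝ) ≤ p.1 := by exact_mod_cast hp.1.1
    have h1 := vinf_growth h0 hM hi.1.1 hij hj.1.2.le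
    have h2 := abs_lt.1 hi.2
    have h3 := abs_lt.1 hj.2
    have h4 : 0 ≤ VV c0 (c0 / 8) j - VV c0 (c0 / 8) i :=
      sub_nonneg.2 (vinf_mono h0 (by positivity) hij)
    have h5 : VV c0 (c0 / 8) j - VV c0 (c0 / 8) i ≤ 2 * (Kl l * Dl (c0 / 8) l) := by
      nlinarith
    rw [vinf_R_eq c0 M l] at h5
    have hA : 0 < Wl c0 l / (((l : ℝ) + 1) * ((M : ℝ) + 2) ^ 2) := by
      unfold Wl ww; positivity
    have h6 := le_of_mul_le_mul_right (h1.trans h5) hA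
    have h7 : (j : ℝ) ≤ ((i + vinfR M l : ℕ) : ℝ) := by push_cast; linarith
    exact_mod_cast h7
  · rw [Finset.card_product, Nat.card_Icc, Finset.card_range]
    simp

lemma vinf_pol (M l : ℕ) :
    (Ql l * (Ql l * M + 1)) * (vinfR M l + 1) ≤ 33 * (M + 1) * (M + 2) ^ 2 * (l + 3) ^ 11 := by
  have e1 : Ql l ≤ (l + 3) ^ 2 := Nat.pow_le_pow_left (by omega) 2
  have e2 : Ql l * M + 1 ≤ (M + 1) * (l + 3) ^ 2 := by
    have : 1 ≤ (l + 3) ^ 2 := Nat.one_le_pow _ _ (by omega)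
    nlinarith
  have e3 : (l + 2) ^ 2 + 1 ≤ (l + 3) ^ 2 := by
    have e : (l + 3) ^ 2 = (l + 2) ^ 2 + (2 * l + 5) := by ring
    rw [e]
    exact Nat.add_le_add_left (by omega) _
  have e4 : vinfR M l ≤ 32 * (M + 2) ^ 2 * (l + 3) ^ 7 := by
    unfold vinfR
    calc 32 * ((l + 2) ^ 2 + 1) ^ 2 * (l + 3) ^ 2 * (l + 1) * (M + 2) ^ 2
        ≤ 32 * ((l + 3) ^ 2) ^ 2 * (l + 3) ^ 2 * (l + 3) * (M + 2) ^ 2 := by
          gcongr
          omega
      _ = 32 * (M + 2) ^ 2 * (l + 3) ^ 7 := by ring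
  have e5 : vinfR M l + 1 ≤ 33 * (M + 2) ^ 2 * (l + 3) ^ 7 := by
    have : 1 ≤ (M + 2) ^ 2 * (l + 3) ^ 7 :=
      Nat.one_le_iff_ne_zero.2 (by positivity)
    nlinarith
  calc (Ql l * (Ql l * M + 1)) * (vinfR M l + 1)
      ≤ ((l + 3) ^ 2 * ((M + 1) * (l + 3) ^ 2)) * (33 * (M + 2) ^ 2 * (l + 3) ^ 7) := by
        gcongr
    _ = _ := by ring

lemma vinf_event (C : ℕ) : ∃ L : ℕ, ∀ l, L ≤ l → 2 * (C * (l + 3) ^ 11) ≤ 2 ^ l := by
  have h1 := (tendsto_pow_const_div_const_pow_of_one_lt 11 (by norm_num : (1 : ℝ) < 2)).comp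
    (tendsto_add_atTop_nat 3)
  have hpos : (0 : ℝ) < 1 / (16 * ((C : ℝ) + 1)) := by positivity
  have h2 := h1.eventually (gt_mem_nhds hpos)
  obtain ⟨L, hL⟩ := eventually_atTop.1 h2
  refine ⟨L, fun l hl => ?_⟩
  have h3 := hL l hl
  simp only [Function.comp] at h3
  rw [div_lt_div_iff₀ (by positivity) (by positivity)] at h3
  have h4 : ((2 * (C * (l + 3) ^ 11) : ℕ) : ℝ) ≤ ((2 ^ l : ℕ) : ℝ) := by
    push_cast at h3 ⊢
    have h5 : (2 : ℝ) ^ (l + 3) = 8 * 2 ^ l := by ring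
    rw [h5] at h3
    have h6 : (0 : ℝ) ≤ ((l : ℝ) + 3) ^ 11 := by positivity
    have h7 : (0 : ℝ) ≤ C := Nat.cast_nonneg C
    nlinarith
  exact_mod_cast h4

lemma vinf_block (h0 : 0 < c0) (M : ℕ) (hM : ∀ j, VV c0 (c0 / 8) j ≤ M) :
    ∃ L : ℕ, ∀ l, L ≤ l → (c0 / 8) / (2 * ((M : ℝ) + 2) ^ 2) * (1 / ((l : ℝ) + 1)) ≤
      VV c0 (c0 / 8) (2 ^ (l + 1)) - VV c0 (c0 / 8) (2 ^ l) := by
  classical
  obtain ⟨L, hL⟩ := vinf_event (33 * (M + 1) * (M + 2) ^ 2)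
  refine ⟨L, fun l hl => ?_⟩
  have hP := hL l hl
  have h2l : 2 ^ l ≤ 2 ^ (l + 1) := Nat.pow_le_pow_right (by norm_num) (by omega)
  rw [vinf_sum _ _ h2l]
  set I := Finset.Ico (2 ^ l) (2 ^ (l + 1)) with hI
  set G := I.filter (fun j => Good (c0 / 8) l (VV c0 (c0 / 8) j)) with hG
  set B := I.filter (fun j => ¬ Good (c0 / 8) l (VV c0 (c0 / 8) j)) with hBdef
  have hBc := vinf_bad h0 M hM l B (Finset.filter_subset _ _)
    (fun j hj => (Finset.mem_filter.1 hj).2)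
  have hBc2 := hBc.trans (vinf_pol M l)
  have hcard : G.card + B.card = 2 ^ l := by
    have h1 := Finset.card_filter_add_card_filter_not (s := I)
      (fun j => Good (c0 / 8) l (VV c0 (c0 / 8) j))
    rw [hG, hBdef]
    refine h1.trans ?_
    rw [hI, Nat.card_Ico, pow_succ]
    omega
  have hGc : 2 ^ l ≤ 2 * G.card := by omega
  have hD : 0 < Dl (c0 / 8) l := by unfold Dl; positivity
  have hG1 : ∀ j ∈ G, Dl (c0 / 8) l / ((l + 1) * ((M : ℝ) + 2) ^ 2) ≤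
      acc c0 (c0 / 8) (Nat.log 2 j) (VV c0 (c0 / 8) j) := by
    intro j hj
    have hj1 := Finset.mem_filter.1 hj
    have hj2 := Finset.mem_Ico.1 hj1.1
    rw [vinf_log hj2.1 hj2.2]
    exact vinf_acc_good h0 l (vinf_one_le h0 (by positivity) j) (hM j) hj1.2
  have h3 := Finset.card_nsmul_le_sum _ _ _ hG1
  rw [nsmul_eq_mul] at h3
  have h4 : ∑ j ∈ G, acc c0 (c0 / 8) (Nat.log 2 j) (VV c0 (c0 / 8) j) ≤
      ∑ j ∈ I, acc c0 (c0 / 8) (Nat.log 2 j) (VV c0 (c0 / 8) j) :=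
    Finset.sum_le_sum_of_subset_of_nonneg (Finset.filter_subset _ _)
      (fun j _ _ => (vinf_acc_pos h0 (by positivity) _ (vinf_one_le h0 (by positivity) j)).le)
  refine le_trans ?_ (h3.trans h4)
  have h5 : ((2 : ℝ) ^ l) ≤ 2 * G.card := by exact_mod_cast hGc
  have h6 : (c0 / 8) / (2 * ((M : ℝ) + 2) ^ 2) * (1 / ((l : ℝ) + 1)) =
      ((2 : ℝ) ^ l / 2) * (Dl (c0 / 8) l / ((l + 1) * ((M : ℝ) + 2) ^ 2)) := by
    unfold Dl
    have h7 : (l : ℝ) + 1 ≠ 0 := by positivity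
    have h8 : (M : ℝ) + 2 ≠ 0 := by positivity
    field_simp
  rw [h6]
  have h9 : 0 ≤ Dl (c0 / 8) l / (((l : ℝ) + 1) * ((M : ℝ) + 2) ^ 2) := by positivity
  exact mul_le_mul_of_nonneg_right (by linarith) h9

end VINF

theorem vinf_all : S_VINF := by
  intro c0 c2 h0 _ hc2
  subst hc2
  have hmono := vinf_mono h0 (by positivity : 0 < c0 / 8)
  refine tendsto_atTop_atTop_of_monotone hmono ?_
  by_contra hcon
  push Not at hcon
  obtain ⟨b, hb⟩ := hcon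
  obtain ⟨M, hMb⟩ := exists_nat_ge b
  have hM : ∀ j, VV c0 (c0 / 8) j ≤ M := fun j => (hb j).le.trans hMb
  obtain ⟨L, hL⟩ := vinf_block h0 M hM
  set c : ℝ := (c0 / 8) / (2 * ((M : ℝ) + 2) ^ 2) with hc
  have hcpos : 0 < c := by rw [hc]; positivity
  have key : ∀ l, L ≤ l → VV c0 (c0 / 8) (2 ^ L) +
      c * (∑ i ∈ Finset.range l, (1 / ((i : ℝ) + 1)) - ∑ i ∈ Finset.range L, (1 / ((i : ℝ) + 1)))
        ≤ VV c0 (c0 / 8) (2 ^ l) := by
    intro l hl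
    induction l, hl using Nat.le_induction with
    | base => simp
    | succ l hl ih =>
      have h1 := hL l hl
      rw [Finset.sum_range_succ]
      nlinarith
  have hT := Real.tendsto_sum_range_one_div_nat_succ_atTop
  obtain ⟨l, hl1, hl2⟩ := ((hT.eventually_gt_atTop
    (∑ i ∈ Finset.range L, (1 / ((i : ℝ) + 1)) + (M : ℝ) / c)).and (eventually_ge_atTop L)).exists
  have h1 := key l hl2
  have h2 := hM (2 ^ l)
  have h3 := vinf_one_le h0 (by positivity : 0 < c0 / 8) (2 ^ L)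
  have h4 : (M : ℝ) / c < ∑ i ∈ Finset.range l, (1 / ((i : ℝ) + 1)) -
      ∑ i ∈ Finset.range L, (1 / ((i : ℝ) + 1)) := by linarith
  rw [div_lt_iff₀ hcpos] at h4
  nlinarith

end Pool.Agent.N980.TL
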